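import Pool.Agent.Work.MP_1233f5_ag.V.Defs
import Pool.Agent.Work.MP_1233f5_ag.Sec.Basic

/-! Bundle of small proof modules (one section per former module). -/

section

set_option autoImplicit false

namespace Pool.Agent.Work.MP_1233f5_ag.V

open Finset

variable {K : Type} [Field K] {B : Type}

theorem cons_removeNth_zero {p : ℕ} (b : B) (t : Fin p → B) :
    (0 : Fin (p + 1)).removeNth (Fin.cons b t : Fin (p + 1) → B) = t := by
  funext i; simp [Fin.removeNth]

theorem cons_removeNth_succ {p : ℕ} (b : B) (t : Fin (p + 1) → B) (i : Fin (p + 1)) :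
    (i.succ).removeNth (Fin.cons b t : Fin (p + 2) → B) = Fin.cons b (i.removeNth t) := by
  funext j
  refine Fin.cases ?_ (fun j => ?_) j
  · simp [Fin.removeNth]
  · simp [Fin.removeNth, Fin.succ_succAbove_succ]

/-- alternating functions are closed under linear combinations. -/
theorem Alt.add {p : ℕ} {c c' : (Fin p → B) → K} (h : Alt p c) (h' : Alt p c') :
    Alt p (fun t => c t + c' t) := by
  intro σ t; simp only [h σ t, h' σ t]; ring

theorem Alt.sub {p : ℕ} {c c' : (Fin p → B) → K} (h : Alt p c) (h' : Alt p c') :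
    Alt p (fun t => c t - c' t) := by
  intro σ t; simp only [h σ t, h' σ t]; ring

theorem Alt.smul {p : ℕ} {c : (Fin p → B) → K} (a : K) (h : Alt p c) :
    Alt p (fun t => a * c t) := by
  intro σ t; simp only [h σ t]; ring

theorem Alt.zero {p : ℕ} : Alt p (fun _ : Fin p → B => (0 : K)) := by
  intro σ t; simp

theorem Alt.sum {ι : Type*} {p : ℕ} (s : Finset ι) (c : ι → (Fin p → B) → K)
    (h : ∀ i ∈ s, Alt p (c i)) : Alt p (fun t => ∑ i ∈ s, c i t) := by
  intro σ t
  rw [Finset.mul_sum]
  exact Finset.sum_congr rfl (fun i hi => h i hi σ t)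

/-- W6: an alternating function vanishes on tuples with a repetition. -/
theorem Alt.eq_zero [CharZero K] {p : ℕ} {c : (Fin p → B) → K} (h : Alt p c) {t : Fin p → B}
    {i j : Fin p} (hij : i ≠ j) (e : t i = t j) : c t = 0 := by
  have h1 := h (Equiv.swap i j) t
  have h2 : t ∘ (Equiv.swap i j) = t := by
    funext k
    simp only [Function.comp_apply, Equiv.swap_apply_def]
    split_ifs with h h'
    · rw [h, e]
    · rw [h', e]
    · rfl
  rw [h2, Equiv.Perm.sign_swap hij] at h1
  have h3 : (2 : K) * c t = 0 := by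
    push_cast at h1
    linear_combination h1
  rcases mul_eq_zero.mp h3 with h4 | h4
  · exact absurd h4 two_ne_zero
  · exact h4

/-- W4: the differential of an alternating function is alternating. -/
theorem Alt.dd {p : ℕ} {c : (Fin (p + 1) → B) → K} (M : Finset B) (h : Alt (p + 1) c) :
    Alt p (dd M c) := by
  intro σ t
  simp only [V.dd]
  rw [Finset.mul_sum]
  refine Finset.sum_congr rfl (fun b _ => ?_)
  have h1 := h (Equiv.Perm.decomposeFin.symm (0, σ)) (Fin.cons b t)
  have h2 : (Fin.cons b t : Fin (p + 1) → B) ∘ (Equiv.Perm.decomposeFin.symm (0, σ)) =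
      Fin.cons b (t ∘ σ) := by
    funext k
    refine Fin.cases ?_ (fun k => ?_) k
    · simp
    · simp
  rw [h2] at h1
  rw [h1]
  simp

/-- W3 -/
theorem dd_dd [CharZero K] {p : ℕ} {c : (Fin (p + 2) → B) → K} (M : Finset B)
    (h : Alt (p + 2) c) (t : Fin p → B) : dd M (dd M c) t = 0 := by
  have h1 : dd M (dd M c) t = - dd M (dd M c) t := by
    simp only [dd]
    conv_lhs => rw [Finset.sum_comm]
    rw [← Finset.sum_neg_distrib]
    refine Finset.sum_congr rfl (fun b _ => ?_)
    rw [← Finset.sum_neg_distrib]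
    refine Finset.sum_congr rfl (fun b' _ => ?_)
    have h1 := h (Equiv.swap 0 1) (Fin.cons b (Fin.cons b' t) : Fin (p + 2) → B)
    have h2 : (Fin.cons b (Fin.cons b' t) : Fin (p + 2) → B) ∘ (Equiv.swap (0 : Fin (p + 2)) 1) =
        Fin.cons b' (Fin.cons b t) := by
      funext k
      refine Fin.cases ?_ (fun k => ?_) k
      · simp only [Function.comp_apply, Equiv.swap_apply_left, Fin.cons_zero]
        rfl
      · refine Fin.cases ?_ (fun k => ?_) k
        · simp only [Function.comp_apply, Fin.succ_zero_eq_one, Equiv.swap_apply_right,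
            Fin.cons_zero]
          rfl
        · have e1 : (k.succ.succ : Fin (p + 2)) ≠ 0 := Fin.succ_ne_zero _
          have e2 : (k.succ.succ : Fin (p + 2)) ≠ 1 := by
            rw [← Fin.succ_zero_eq_one]
            intro h
            exact Fin.succ_ne_zero k (Fin.succ_injective _ h)
          simp only [Function.comp_apply, Equiv.swap_apply_of_ne_of_ne e1 e2, Fin.cons_succ]
    rw [h2, Equiv.Perm.sign_swap (by simp)] at h1
    rw [h1]
    push_cast
    ring
  have h2 : (2 : K) * dd M (dd M c) t = 0 := by linear_combination h1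
  rcases mul_eq_zero.mp h2 with h4 | h4
  · exact absurd h4 two_ne_zero
  · exact h4

/-- the permutation moving `i` to the front. -/
theorem Alt.cons_removeNth {p : ℕ} {c : (Fin (p + 1) → B) → K} (h : Alt (p + 1) c)
    (t : Fin (p + 1) → B) (i : Fin (p + 1)) :
    c (Fin.cons (t i) (i.removeNth t)) = (-1) ^ (i : ℕ) * c t := by
  have h1 := h (i.cycleRange.symm) t
  have h2 : t ∘ (i.cycleRange.symm) = Fin.cons (t i) (i.removeNth t) := by
    funext k
    refine Fin.cases ?_ (fun k => ?_) k
    · simp [Fin.cycleRange_symm_zero]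
    · simp [Fin.cycleRange_symm_succ, Fin.removeNth]
  rw [h2] at h1
  rw [h1, Equiv.Perm.sign_symm, Fin.sign_cycleRange]
  push_cast
  rfl

/-- W2 -/
theorem dd_wdg [DecidableEq B] {p : ℕ} (M : Finset B) {b : B} (hb : b ∈ M) (c : (Fin (p + 1) → B) → K)
    (t : Fin (p + 1) → B) : dd M (wdg b c) t + wdg b (dd M c) t = c t := by
  have h1 : dd M (wdg b c) t = c t - wdg b (dd M c) t := by
    simp only [dd, wdg]
    have h2 : ∀ b' ∈ M, (∑ i : Fin (p + 2), if (Fin.cons b' t : Fin (p + 2) → B) i = b then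
        (-1) ^ (i : ℕ) * c (i.removeNth (Fin.cons b' t : Fin _ → B)) else 0) =
        (if b' = b then c t else 0) + ∑ i : Fin (p + 1), if t i = b then
          (-1) ^ ((i : ℕ) + 1) * c (Fin.cons b' (i.removeNth t)) else 0 := by
      intro b' _
      rw [Fin.sum_univ_succ]
      congr 1
      · simp only [Fin.cons_zero, Fin.val_zero, pow_zero, one_mul]
        rw [cons_removeNth_zero]
      · refine Finset.sum_congr rfl (fun i _ => ?_)
        rw [Fin.cons_succ, cons_removeNth_succ, Fin.val_succ]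
    rw [Finset.sum_congr rfl h2, Finset.sum_add_distrib]
    have h3 : (∑ x ∈ M, if x = b then c t else 0) = c t := by
      rw [Finset.sum_ite_eq' M b (fun _ => c t)]
      simp [hb]
    rw [h3, Finset.sum_comm]
    rw [sub_eq_add_neg, ← Finset.sum_neg_distrib]
    congr 1
    refine Finset.sum_congr rfl (fun i _ => ?_)
    split_ifs with h
    · rw [Finset.mul_sum, ← Finset.sum_neg_distrib]
      refine Finset.sum_congr rfl (fun b' _ => ?_)
      ring
    · simp
  rw [h1]; ring

/-- W2 for `p = 0` -/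
theorem dd_wdg_zero [DecidableEq B] (M : Finset B) {b : B} (hb : b ∈ M) (c : (Fin 0 → B) → K)
    (t : Fin 0 → B) : dd M (wdg b c) t = c t := by
  simp only [dd, wdg]
  have h2 : ∀ b' ∈ M, (∑ i : Fin 1, if (Fin.cons b' t : Fin 1 → B) i = b then
      (-1) ^ (i : ℕ) * c (i.removeNth (Fin.cons b' t : Fin _ → B)) else 0) = (if b' = b then c t else 0) := by
    intro b' _
    rw [Fin.sum_univ_one]
    simp only [Fin.cons_zero, Fin.val_zero, pow_zero, one_mul]
    rw [cons_removeNth_zero]
  rw [Finset.sum_congr rfl h2, Finset.sum_ite_eq' M b (fun _ => c t)]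
  simp [hb]


theorem exists_decomp {p : ℕ} (τ : Equiv.Perm (Fin (p + 1))) (h : τ 0 = 0) :
    ∃ τ' : Equiv.Perm (Fin p), τ = Equiv.Perm.decomposeFin.symm (0, τ') := by
  refine ⟨(Equiv.Perm.decomposeFin τ).2, ?_⟩
  have h1 : (Equiv.Perm.decomposeFin τ).1 = 0 := by
    have h2 : τ = Equiv.Perm.decomposeFin.symm (Equiv.Perm.decomposeFin τ) := by simp
    rw [h2] at h
    have h3 : (Equiv.Perm.decomposeFin.symm ((Equiv.Perm.decomposeFin τ).1, (Equiv.Perm.decomposeFin τ).2)) 0 = (Equiv.Perm.decomposeFin τ).1 :=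
      Equiv.Perm.decomposeFin_symm_apply_zero _ _
    rw [Prod.mk.eta] at h3
    rw [← h3]; exact h
  rw [← h1, Prod.mk.eta]; simp

/-- W1 -/
theorem Alt.wdg [DecidableEq B] {p : ℕ} {c : (Fin p → B) → K} (b : B) (h : Alt p c) :
    Alt (p + 1) (wdg b c) := by
  have key : ∀ t : Fin (p + 1) → B, V.wdg b c t = ∑ i : Fin (p + 1),
      ((Equiv.Perm.sign i.cycleRange : ℤ) : K) * (if (t ∘ i.cycleRange.symm) 0 = b then c (Fin.tail (t ∘ i.cycleRange.symm)) else 0) := by
    intro t
    simp only [V.wdg]
    refine Finset.sum_congr rfl (fun i _ => ?_)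
    have e0 : (t ∘ i.cycleRange.symm) 0 = t i := by simp [Fin.cycleRange_symm_zero]
    have e1 : Fin.tail (t ∘ i.cycleRange.symm) = i.removeNth t := by
      funext k; simp [Fin.tail, Fin.cycleRange_symm_succ, Fin.removeNth]
    rw [e0, e1, Fin.sign_cycleRange]
    split_ifs <;> simp
  have hF : ∀ (s : Fin (p + 1) → B) (τ' : Equiv.Perm (Fin p)),
      (if (s ∘ (Equiv.Perm.decomposeFin.symm (0, τ'))) 0 = b then c (Fin.tail (s ∘ (Equiv.Perm.decomposeFin.symm (0, τ')))) else 0)
       = ((Equiv.Perm.sign τ' : ℤ) : K) * (if s 0 = b then c (Fin.tail s) else 0) := by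
    intro s τ'
    have e0 : (s ∘ (Equiv.Perm.decomposeFin.symm (0, τ'))) 0 = s 0 := by simp
    have e1 : Fin.tail (s ∘ (Equiv.Perm.decomposeFin.symm (0, τ'))) = Fin.tail s ∘ τ' := by
      funext k; simp [Fin.tail]
    rw [e0, e1, h τ' (Fin.tail s)]
    split_ifs <;> simp
  intro σ t
  rw [key, key, Finset.mul_sum]
  refine Finset.sum_bij (fun i _ => σ i) (fun i _ => mem_univ _) (fun i _ j _ h => σ.injective h)
    (fun j _ => ⟨σ.symm j, mem_univ _, by simp⟩) ?_
  intro i _
  -- τ
  obtain ⟨τ', hτ⟩ := exists_decomp ((σ i).cycleRange * σ * i.cycleRange⁻¹) (by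
    simp only [Equiv.Perm.mul_apply]
    have : (i.cycleRange⁻¹ : Equiv.Perm (Fin (p+1))) 0 = i := by
      rw [Equiv.Perm.inv_def]; exact Fin.cycleRange_symm_zero i
    rw [this]; exact Fin.cycleRange_self (σ i))
  have hs : (t ∘ σ) ∘ i.cycleRange.symm = (t ∘ (σ i).cycleRange.symm) ∘ (Equiv.Perm.decomposeFin.symm (0, τ')) := by
    rw [← hτ]
    funext k
    simp [Equiv.Perm.inv_def]
  have hsg : ((Equiv.Perm.sign τ' : ℤ) : K) = ((Equiv.Perm.sign (σ i).cycleRange : ℤ) : K) * ((Equiv.Perm.sign σ : ℤ) : K) * ((Equiv.Perm.sign i.cycleRange : ℤ) : K) := by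
    have h1 : Equiv.Perm.sign ((σ i).cycleRange * σ * i.cycleRange⁻¹) = Equiv.Perm.sign τ' := by
      rw [hτ]; simp
    rw [← h1]
    simp [Equiv.Perm.sign_mul]
  rw [hs, hF, hsg]
  have hsq : ((Equiv.Perm.sign i.cycleRange : ℤ) : K) * ((Equiv.Perm.sign i.cycleRange : ℤ) : K) = 1 := by
    rw [← Int.cast_mul, ← Units.val_mul, Int.units_mul_self]; simp
  linear_combination (((Equiv.Perm.sign (σ i).cycleRange : ℤ) : K) * ((Equiv.Perm.sign σ : ℤ) : K) * (if (t ∘ (σ i).cycleRange.symm) 0 = b then c (Fin.tail (t ∘ (σ i).cycleRange.symm)) else 0)) * hsq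

end Pool.Agent.Work.MP_1233f5_ag.V

end

section

/-!
# MP_1233f5_ag: uniqueness of the invariant section with a given value
-/

set_option autoImplicit false

open Finset

namespace Pool.Agent.Work.MP_1233f5_ag.Sec

variable {K E : Type} [Field K] [CharZero K] [AddCommGroup E] [Module K E]
variable {α : Type} [DecidableEq α] {e f : E →ₗ[K] E}

/-- an invariant section which vanishes at `Y0` is zero. -/
theorem IsSec.unique {X Y0 : Finset α} (hd : Disjoint X Y0) {s : Finset α → E}
    (H : IsSec e f (X ∪ Y0) s)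
    (hi : ∀ Y Y' : Finset α, Y ⊆ X ∪ Y0 → Y' ⊆ X ∪ Y0 → (Y ∩ X).card = (Y' ∩ X).card →
        (Y0 \ Y).card = (Y0 \ Y').card → s Y = s Y')
    (h0 : s Y0 = 0) (Y : Finset α) : s Y = 0 := by
  have hXY : ∀ c, c ∈ X → c ∉ Y0 := fun c h1 h2 => (Finset.disjoint_left.1 hd) h1 h2
  by_cases hY : Y ⊆ X ∪ Y0
  swap
  · exact H.supp Y hY
  obtain ⟨i, hic⟩ : ∃ i, i = (Y ∩ X).card := ⟨_, rfl⟩
  induction i generalizing Y with
  | zero =>
    -- `Y ⊆ Y0`
    obtain ⟨j, hj⟩ : ∃ j, j = (Y0 \ Y).card := ⟨_, rfl⟩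
    induction j generalizing Y with
    | zero =>
      have h1 : Y = Y0 := by
        apply Subset.antisymm
        · intro c hc
          rcases mem_union.1 (hY hc) with h | h
          · have : c ∈ Y ∩ X := mem_inter.2 ⟨hc, h⟩
            rw [card_eq_zero.1 hic.symm] at this
            exact absurd this (notMem_empty c)
          · exact h
        · exact sdiff_eq_empty_iff_subset.1 (card_eq_zero.1 hj.symm)
      rw [h1, h0]
    | succ j ih =>
      obtain ⟨c, hc⟩ : (Y0 \ Y).Nonempty := by
        rw [← card_pos]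
        omega
      have hc' := mem_sdiff.1 hc
      have hYc : insert c Y ⊆ X ∪ Y0 := insert_subset (mem_union_right _ hc'.1) hY
      have hYX : Y ∩ X = ∅ := card_eq_zero.1 hic.symm
      have hcX : insert c Y ∩ X = ∅ := by
        rw [insert_inter_of_notMem (fun t => hXY c t hc'.1), hYX]
      have hcY : (Y0 \ insert c Y).card = j := by
        have h2 : Y0 \ insert c Y = (Y0 \ Y).erase c := by
          ext b
          simp only [mem_sdiff, mem_insert, not_or, mem_erase]
          exact ⟨fun t => ⟨t.2.1, t.1, t.2.2⟩, fun t => ⟨t.2.1, t.1, t.2.2⟩⟩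
        rw [h2, card_erase_of_mem hc]
        omega
      have h3 := ih (insert c Y) hYc (by rw [hcX, card_empty]) hcY.symm
      have h4 := H.ff _ hYc
      rw [h3, map_zero] at h4
      have h5 : ∀ a ∈ insert c Y, s ((insert c Y).erase a) = s Y := by
        intro a ha
        refine hi _ _ ((erase_subset _ _).trans hYc) hY ?_ ?_
        · rw [erase_inter, hcX, hYX, erase_empty]
        · have haY0 : a ∈ Y0 := by
            rcases mem_union.1 (hYc ha) with h | h
            · have : a ∈ insert c Y ∩ X := mem_inter.2 ⟨ha, h⟩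
              rw [hcX] at this
              exact absurd this (notMem_empty a)
            · exact h
          have h6 : Y0 \ (insert c Y).erase a = insert a (Y0 \ insert c Y) := by
            ext b
            simp only [mem_sdiff, mem_insert, mem_erase, not_and]
            constructor
            · rintro ⟨hb, hb'⟩
              by_cases hba : b = a
              · exact Or.inl hba
              · exact Or.inr ⟨hb, hb' hba⟩
            · rintro (rfl | ⟨hb, hb'⟩)
              · exact ⟨haY0, fun q => absurd rfl q⟩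
              · exact ⟨hb, fun _ => hb'⟩
          rw [h6, card_insert_of_notMem (fun t => (mem_sdiff.1 t).2 ha), hcY, hj]
      rw [sum_congr rfl h5, sum_const, ← Nat.cast_smul_eq_nsmul K] at h4
      refine (smul_eq_zero.1 h4.symm).resolve_left ?_
      rw [card_insert_of_notMem hc'.2]
      exact Nat.cast_ne_zero.2 (Nat.succ_ne_zero _)
  | succ i ih =>
    obtain ⟨c, hc⟩ : (Y ∩ X).Nonempty := by
      rw [← card_pos]
      omega
    have hc' := mem_inter.1 hc
    have hYc : Y.erase c ⊆ X ∪ Y0 := (erase_subset _ _).trans hY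
    have hcard : (Y.erase c ∩ X).card = i := by
      rw [erase_inter, card_erase_of_mem hc]
      omega
    have h3 := ih (Y.erase c) hYc hcard.symm
    have h4 := H.ee _ hYc
    rw [h3, map_zero, union_sdiff_distrib,
      sum_union (hd.mono sdiff_subset sdiff_subset)] at h4
    have hcY0 : Y0 \ Y.erase c = Y0 \ Y := by
      ext b
      simp only [mem_sdiff, mem_erase, not_and]
      exact ⟨fun t => ⟨t.1, t.2 (fun q => hXY c hc'.2 (q ▸ t.1))⟩, fun t => ⟨t.1, fun _ => t.2⟩⟩
    have h5 : ∀ a ∈ X \ Y.erase c, s (insert a (Y.erase c)) = s Y := by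
      intro a ha
      have ha' := mem_sdiff.1 ha
      refine hi _ _ (insert_subset (mem_union_left _ ha'.1) hYc) hY ?_ ?_
      · rw [insert_inter_of_mem ha'.1, card_insert_of_notMem (fun t => ha'.2 (mem_inter.1 t).1),
          hcard, hic]
      · have h6 : Y0 \ insert a (Y.erase c) = Y0 \ Y := by
          rw [← hcY0]
          ext b
          simp only [mem_sdiff, mem_insert, not_or]
          exact ⟨fun t => ⟨t.1, t.2.2⟩, fun t => ⟨t.1, fun q => hXY a ha'.1 (q ▸ t.1), t.2⟩⟩
        rw [h6]
    have h7 : ∀ a ∈ Y0 \ Y.erase c, s (insert a (Y.erase c)) = 0 := by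
      intro a ha
      have ha' := mem_sdiff.1 ha
      refine ih _ (insert_subset (mem_union_right _ ha'.1) hYc) ?_
      rw [insert_inter_of_notMem (fun t => hXY a t ha'.1), hcard]
    rw [sum_congr rfl h5, sum_congr rfl h7, sum_const_zero, add_zero, sum_const,
      ← Nat.cast_smul_eq_nsmul K] at h4
    refine (smul_eq_zero.1 h4.symm).resolve_left ?_
    refine Nat.cast_ne_zero.2 (Nat.pos_iff_ne_zero.1 (card_pos.2 ?_))
    exact ⟨c, mem_sdiff.2 ⟨hc'.2, fun t => (mem_erase.1 t).1 rfl⟩⟩

end Pool.Agent.Work.MP_1233f5_ag.Sec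

end
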