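import Pool.Agent.Work.MP_1233f5_ag.X.Basic
import Pool.Agent.Work.MP_1233f5_ag.Y.StmtsL
import Pool.Agent.Work.MP_1233f5_ag.Bdx.B01
import Pool.Agent.Work.MP_1233f5_ag.Y.Util

/-! Bundle of small proof modules (one section per former module). -/

section

/-! MP_1233f5_ag, block X, item Bnd2Val (helper53). -/

set_option autoImplicit false

namespace Pool.Agent.Work.MP_1233f5_ag.V

open Finset

theorem Bnd2Val_aux (d : ℕ) (hd : 2 ≤ d) : ∀ T : ℕ, T ≤ 2 * (d - 1) → bnd2 d T = T - (d - 1) := by
  intro T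
  induction T with
  | zero =>
    intro _
    simp [bnd2]
  | succ T ih =>
    intro hT
    have ih' := ih (by omega)
    have h0 : bnd2 d (T + 1) = min (theta d (T + 1))
      (bnd2 d T + (T + 1) / (d - 1) + 1 + if 4 ≤ d ∧ T + 1 = 2 * d - 1 then 1 else 0) := rfl
    have hne : ¬ (4 ≤ d ∧ T + 1 = 2 * d - 1) := by
      rintro ⟨h1, h2⟩
      omega
    rw [h0, if_neg hne, ih', add_zero]
    have hd1 : 0 < d - 1 := by omega
    rcases Nat.lt_or_ge (T + 1) (d - 1) with h | h
    · have hq : (T + 1) / (d - 1) = 0 := Nat.div_eq_of_lt h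
      unfold theta
      rw [hq, Nat.choose_zero_right, Nat.choose_zero_right]
      omega
    · rcases Nat.lt_or_ge (T + 1) (2 * (d - 1)) with h' | h'
      · have hq : (T + 1) / (d - 1) = 1 := by
          apply Nat.div_eq_of_lt_le
          · omega
          · omega
        unfold theta
        rw [hq, Nat.choose_one_right, Nat.choose_one_right]
        omega
      · have hTe : T + 1 = 2 * (d - 1) := by omega
        have hq : (T + 1) / (d - 1) = 2 := by
          rw [hTe]
          exact Nat.mul_div_cancel _ hd1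
        unfold theta
        rw [hq]
        have e1 : (2 + 1) * (d - 1) - (T + 1) + 2 = d + 1 := by omega
        rw [e1]
        have e2 : (d + 2).choose 2 = (d + 1) + (d + 1).choose 2 := by
          rw [show d + 2 = (d + 1) + 1 from rfl, Nat.choose_succ_succ' (d + 1) 1,
            Nat.choose_one_right]
        rw [e2]
        omega

theorem pr_Bnd2Val : S_Bnd2Val := by
  intro d hd
  have h := Bnd2Val_aux d hd (2 * d - 2) (by omega)
  rw [h]
  omega

end Pool.Agent.Work.MP_1233f5_ag.V

end

section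

set_option autoImplicit false

namespace Pool.Agent.Work.MP_1233f5_ag.V

open Finset

section Down
variable {K : Type} [Field K] {α : Type} [Fintype α] [DecidableEq α] (P : Finset α)

/-- images of subsets of the subtype -/
def Down_up {p : ℕ} (s : Fin p → Finset {a // a ∈ P}) : Fin p → Finset α :=
  fun i => (s i).map (Function.Embedding.subtype _)

/-- restriction to the subtype -/
def Down_dn {p : ℕ} (t : Fin p → Finset α) : Fin p → Finset {a // a ∈ P} :=
  fun i => (t i).subtype (· ∈ P)

variable {P}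

omit [Fintype α] in
theorem Down_dn_up {p : ℕ} (s : Fin p → Finset {a // a ∈ P}) : Down_dn P (Down_up P s) = s := by
  funext i
  ext x
  simp only [Down_dn, Down_up, Finset.mem_subtype, Finset.mem_map, Function.Embedding.subtype_apply]
  constructor
  · rintro ⟨y, hy, hyx⟩
    rwa [Subtype.ext hyx] at hy
  · intro hx
    exact ⟨x, hx, rfl⟩

omit [Fintype α] in
theorem Down_up_dn {p : ℕ} {t : Fin p → Finset α} (h : ∀ i, t i ⊆ P) :
    Down_up P (Down_dn P t) = t := by
  funext i
  exact Finset.subtype_map_of_mem fun x hx => h i hx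

omit [Fintype α] [DecidableEq α] in
theorem Down_map_sub (b : Finset {a // a ∈ P}) :
    b.map (Function.Embedding.subtype _) ⊆ P := by
  intro x hx
  obtain ⟨y, -, rfl⟩ := Finset.mem_map.1 hx
  exact y.2

omit [Fintype α] in
theorem Down_vm {d p : ℕ} (s : Fin p → Finset {a // a ∈ P}) :
    vm d (univ : Finset {a // a ∈ P}) p s ↔ vm d P p (Down_up P s) := by
  constructor
  · rintro ⟨h1, h2⟩
    refine ⟨fun i => ⟨?_, Down_map_sub _⟩, fun i j hij => ?_⟩
    · rw [← (h1 i).1]
      exact Finset.card_map _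
    · exact (Finset.disjoint_map _).2 (h2 i j hij)
  · rintro ⟨h1, h2⟩
    refine ⟨fun i => ⟨?_, Finset.subset_univ _⟩, fun i j hij => ?_⟩
    · rw [← (h1 i).1]
      exact (Finset.card_map _).symm
    · exact (Finset.disjoint_map (Function.Embedding.subtype (· ∈ P))).1 (h2 i j hij)

omit [Fintype α] [DecidableEq α] in
theorem Down_cons {p : ℕ} (b : Finset {a // a ∈ P}) (s : Fin p → Finset {a // a ∈ P}) :
    Down_up P (Fin.cons b s : Fin (p + 1) → Finset {a // a ∈ P}) =
      Fin.cons (b.map (Function.Embedding.subtype _)) (Down_up P s) := by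
  funext i
  refine Fin.cases ?_ (fun i => ?_) i
  · rfl
  · rfl

theorem Down_dd {p : ℕ} {c : (Fin (p + 1) → Finset α) → K}
    (hc : ∀ t, c t ≠ 0 → ∀ i, t i ⊆ P) (s : Fin p → Finset {a // a ∈ P}) :
    dd univ (down P c) s = dd univ c (Down_up P s) := by
  simp only [dd]
  have h1 : ∀ b : Finset {a // a ∈ P}, down P c (Fin.cons b s) =
      c (Fin.cons (b.map (Function.Embedding.subtype _)) (Down_up P s)) := by
    intro b
    rw [← Down_cons]
    rfl
  rw [Finset.sum_congr rfl fun b _ => h1 b]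
  have h2 : (∑ b : Finset {a // a ∈ P},
      c (Fin.cons (b.map (Function.Embedding.subtype _)) (Down_up P s))) =
      ∑ b ∈ (univ : Finset (Finset {a // a ∈ P})).map
        ⟨fun b => b.map (Function.Embedding.subtype (· ∈ P)),
          Finset.map_injective _⟩, c (Fin.cons b (Down_up P s)) := by
    rw [Finset.sum_map]
    rfl
  rw [h2]
  refine Finset.sum_subset (Finset.subset_univ _) fun b _ hb => ?_
  by_contra hne
  apply hb
  have hbP : b ⊆ P := by
    have := hc _ hne 0
    simpa using this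
  rw [Finset.mem_map]
  exact ⟨b.subtype (· ∈ P), Finset.mem_univ _,
    Finset.subtype_map_of_mem fun x hx => hbP hx⟩

end Down

theorem pr_Down : S_Down := by
  classical
  intro K _ _ α _ _ d p P c hc
  have hdown : ∀ {q : ℕ} (c' : (Fin q → Finset α) → K), rCh (vm d P) q c' →
      rCh (vm d (univ : Finset {a // a ∈ P})) q (down P c') := by
    intro q c' hc'
    refine ⟨fun σ s => ?_, fun s hs => ?_⟩
    · exact hc'.1 σ (Down_up P s)
    · exact (Down_vm s).2 (hc'.2 _ hs)
  refine ⟨hdown c hc, fun hcy => ⟨hdown c hc, ?_⟩, fun hbd => ⟨hc, ?_⟩⟩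
  · cases p with
    | zero => exact trivial
    | succ p =>
      intro s hs
      rw [Down_dd (fun t ht i => ((hc.2 t ht).1 i).2)]
      exact hcy.2 _ ((Down_vm s).1 hs)
  · obtain ⟨-, g', hg', hg⟩ := hbd
    let g : (Fin (p + 1) → Finset α) → K := fun t =>
      if ∀ i, t i ⊆ P then g' (Down_dn P t) else 0
    have hgP : ∀ t, g t ≠ 0 → ∀ i, t i ⊆ P := by
      intro t ht
      by_contra hne
      exact ht (if_neg hne)
    have hdg : down P g = g' := by
      funext s
      have h1 : ∀ i, Down_up P s i ⊆ P := fun i => Down_map_sub _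
      have h2 : down P g s = g' (Down_dn P (Down_up P s)) := if_pos h1
      rw [h2, Down_dn_up]
    refine ⟨g, ⟨fun σ t => ?_, fun t ht => ?_⟩, fun t ht => ?_⟩
    · by_cases h : ∀ i, t i ⊆ P
      · have h' : ∀ i, (t ∘ σ) i ⊆ P := fun i => h (σ i)
        have e1 : g (t ∘ σ) = g' (Down_dn P (t ∘ σ)) := if_pos h'
        have e2 : g t = g' (Down_dn P t) := if_pos h
        rw [e1, e2]
        exact hg'.1 σ (Down_dn P t)
      · have h' : ¬ ∀ i, (t ∘ σ) i ⊆ P := by
          intro h'
          apply h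
          intro i
          have := h' (σ.symm i)
          simpa using this
        have e1 : g (t ∘ σ) = 0 := if_neg h'
        have e2 : g t = 0 := if_neg h
        rw [e1, e2, mul_zero]
    · have h := hgP t ht
      have e2 : g t = g' (Down_dn P t) := if_pos h
      rw [e2] at ht
      have h3 := (Down_vm _).1 (hg'.2 _ ht)
      rwa [Down_up_dn h] at h3
    · have h : ∀ i, t i ⊆ P := fun i => (ht.1 i).2
      have h1 := Down_dd hgP (Down_dn P t)
      rw [Down_up_dn h, hdg] at h1
      rw [← h1]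
      have h2 : vm d (univ : Finset {a // a ∈ P}) p (Down_dn P t) := by
        rw [Down_vm, Down_up_dn h]
        exact ht
      rw [hg _ h2]
      have h4 : down P c (Down_dn P t) = c (Down_up P (Down_dn P t)) := rfl
      rw [h4, Down_up_dn h]

end Pool.Agent.Work.MP_1233f5_ag.V

end

section

/-! MP_1233f5_ag, block Y: item Core (from a function of configurations to a functional). -/

set_option autoImplicit false
set_option linter.unusedSectionVars false

namespace Pool.Agent.Work.MP_1233f5_ag.Y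

open Finset
open Pool.Agent.Work.MP_1233f5_ag.Sec (Fk wd ct ee ff hh IsSec IsDeg swd brk)

namespace CoreX

/-! ### permutations -/

section grp
variable {α : Type}

theorem ai (σ : Equiv.Perm α) (a : α) : σ (σ⁻¹ a) = a := σ.apply_symm_apply a

theorem ia (σ : Equiv.Perm α) (a : α) : σ⁻¹ (σ a) = a := σ.symm_apply_apply a

theorem Sup_one (P : Finset α) : Sup P (1 : Equiv.Perm α) := fun _ _ => rfl

theorem Sup_mul {P : Finset α} {σ τ : Equiv.Perm α} (hσ : Sup P σ) (hτ : Sup P τ) :
    Sup P (σ * τ) := by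
  intro a ha
  rw [Equiv.Perm.mul_apply, hτ a ha, hσ a ha]

theorem Sup_inv {P : Finset α} {σ : Equiv.Perm α} (hσ : Sup P σ) : Sup P σ⁻¹ := by
  intro a ha
  rw [Equiv.Perm.inv_eq_iff_eq, hσ a ha]

theorem StY_one (P Y : Finset α) : StY P Y (1 : Equiv.Perm α) := ⟨Sup_one P, im_one Y⟩

theorem StY_mul {P Y : Finset α} {σ τ : Equiv.Perm α} (hσ : StY P Y σ) (hτ : StY P Y τ) :
    StY P Y (σ * τ) := ⟨Sup_mul hσ.1 hτ.1, by rw [im_mul, hτ.2, hσ.2]⟩

theorem StY_inv {P Y : Finset α} {σ : Equiv.Perm α} (hσ : StY P Y σ) : StY P Y σ⁻¹ := by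
  refine ⟨Sup_inv hσ.1, ?_⟩
  have h : im σ⁻¹ (im σ Y) = im σ⁻¹ Y := by rw [hσ.2]
  rw [← im_mul, inv_mul_cancel, im_one] at h
  exact h.symm

theorem im_self {σ : Equiv.Perm α} {Y : Finset α} (h : ∀ a ∈ Y, σ a = a) : im σ Y = Y := by
  ext a
  rw [mem_im]
  constructor
  · intro ha
    have := h _ ha
    rw [ai] at this
    rwa [← this] at ha
  · intro ha
    have : σ⁻¹ a = a := by
      rw [Equiv.Perm.inv_eq_iff_eq]
      exact (h a ha).symm
    rwa [this]

variable {K : Type} [Field K] {H : Type} [AddCommGroup H] [Module K H]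

theorem symm_rho [Fintype α] (ρ : Equiv.Perm α →* Module.End K H) (P Y : Finset α)
    {σ : Equiv.Perm α} (hσ : StY P Y σ) (x : H) : symm ρ P Y (ρ σ x) = symm ρ P Y x := by
  classical
  unfold symm
  rw [LinearMap.sum_apply, LinearMap.sum_apply]
  refine Finset.sum_bij' (fun π _ => π * σ) (fun π _ => π * σ⁻¹) ?_ ?_ ?_ ?_ ?_
  · intro π hπ
    rw [mem_filter] at hπ ⊢
    exact ⟨mem_univ _, StY_mul hπ.2 hσ⟩
  · intro π hπ
    rw [mem_filter] at hπ ⊢
    exact ⟨mem_univ _, StY_mul hπ.2 (StY_inv hσ)⟩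
  · intro π _
    rw [mul_assoc, mul_inv_cancel, mul_one]
  · intro π _
    rw [mul_assoc, inv_mul_cancel, mul_one]
  · intro π _
    rw [map_mul]
    rfl

theorem symm_inv [CharZero K] [Fintype α] (ρ : Equiv.Perm α →* Module.End K H) (P Y : Finset α)
    (z : H) (hz : ∀ σ, StY P Y σ → ρ σ z = z) (h0 : symm ρ P Y z = 0) : z = 0 := by
  classical
  unfold symm at h0
  rw [LinearMap.sum_apply, Finset.sum_congr rfl (g := fun _ => z)
    (fun π hπ => hz π (mem_filter.1 hπ).2), sum_const, ← Nat.cast_smul_eq_nsmul K] at h0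
  rcases smul_eq_zero.1 h0 with h | h
  · exfalso
    rw [Nat.cast_eq_zero, card_eq_zero] at h
    have h1 : (1 : Equiv.Perm α) ∈ univ.filter (fun σ : Equiv.Perm α => StY P Y σ) :=
      mem_filter.2 ⟨mem_univ _, StY_one P Y⟩
    rw [h] at h1
    exact absurd h1 (notMem_empty _)
  · exact h

theorem sign_sq (σ : Equiv.Perm α) [Fintype α] [DecidableEq α] :
    ((Equiv.Perm.sign σ : ℤ) : K) * ((Equiv.Perm.sign σ : ℤ) : K) = 1 := by
  rw [← Int.cast_mul]
  have : ((Equiv.Perm.sign σ : ℤ) * (Equiv.Perm.sign σ : ℤ)) = 1 := by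
    rw [← Units.val_mul, Int.units_mul_self]
    rfl
  rw [this, Int.cast_one]

theorem asym_inv [CharZero K] [Fintype α] [inst : DecidableEq α] (ρ : Equiv.Perm α →* Module.End K H)
    (Q : Finset α) (z : H)
    (hz : ∀ σ, Sup Q σ → ρ σ z = ((Equiv.Perm.sign σ : ℤ) : K) • z) (h0 : asym ρ Q z = 0) :
    z = 0 := by
  have e : (inst : DecidableEq α) = fun a b => Classical.propDecidable (a = b) :=
    Subsingleton.elim _ _
  subst e
  classical
  unfold asym at h0
  rw [LinearMap.sum_apply] at h0
  rw [Finset.sum_congr rfl (g := fun _ => z) (by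
      intro π hπ
      rw [LinearMap.smul_apply, hz π (mem_filter.1 hπ).2, smul_smul, sign_sq, one_smul]),
    sum_const, ← Nat.cast_smul_eq_nsmul K] at h0
  rcases smul_eq_zero.1 h0 with h | h
  · exfalso
    rw [Nat.cast_eq_zero, card_eq_zero] at h
    have h1 : (1 : Equiv.Perm α) ∈ univ.filter (fun σ : Equiv.Perm α => Sup Q σ) :=
      mem_filter.2 ⟨mem_univ _, Sup_one Q⟩
    rw [h] at h1
    exact absurd h1 (notMem_empty _)
  · exact h

end grp

/-! ### the products of basis vectors -/

section fock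
variable {K : Type} [Field K]

theorem mb_zero (t : ℕ → ℕ) : (mb 0 t : Fk K) = vac := rfl

theorem mb_succ (q : ℕ) (t : ℕ → ℕ) :
    (mb (q + 1) t : Fk K) = wd (t 0) (mb q (fun i => t (i + 1))) := rfl

theorem mb_congr (q : ℕ) (t t' : ℕ → ℕ) (h : ∀ i < q, t i = t' i) :
    (mb q t : Fk K) = mb q t' := by
  induction q generalizing t t' with
  | zero => rfl
  | succ q ih =>
    rw [mb_succ, mb_succ, h 0 (Nat.succ_pos q), ih _ _ (fun i hi => h (i + 1) (by omega))]

theorem image_succ (q : ℕ) (t : ℕ → ℕ) :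
    (range (q + 1)).image t = insert (t 0) ((range q).image (fun i => t (i + 1))) := by
  ext x
  simp only [mem_image, mem_range, mem_insert]
  constructor
  · rintro ⟨i, hi, rfl⟩
    rcases i with _ | i
    · exact Or.inl rfl
    · exact Or.inr ⟨i, by omega, rfl⟩
  · rintro (rfl | ⟨i, hi, rfl⟩)
    · exact ⟨0, by omega, rfl⟩
    · exact ⟨i + 1, by omega, rfl⟩

theorem mb_supp (q : ℕ) (t : ℕ → ℕ) (S : Finset ℕ) (h : (mb q t : Fk K) S ≠ 0) :
    S = (range q).image t := by
  induction q generalizing t S with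
  | zero =>
    rw [mb_zero, vac] at h
    rw [range_zero, image_empty]
    by_contra hc
    exact h (if_neg hc)
  | succ q ih =>
    rw [mb_succ, Sec.wd_apply] at h
    split_ifs at h with h1
    · have h2 := ih _ _ (right_ne_zero_of_mul h)
      rw [image_succ, ← h2, insert_erase h1]
    · exact absurd rfl h

theorem sg_ne (i : ℕ) (S : Finset ℕ) : Sec.sg K i S ≠ 0 := by
  intro h
  have := Sec.sg_sq (K := K) i S
  rw [h, zero_mul] at this
  exact zero_ne_one this

theorem mb_ne (q : ℕ) (t : ℕ → ℕ) (ht : Set.InjOn t (range q)) :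
    (mb q t : Fk K) ((range q).image t) ≠ 0 := by
  induction q generalizing t with
  | zero =>
    rw [mb_zero, vac, range_zero, image_empty, if_pos rfl]
    exact one_ne_zero
  | succ q ih =>
    rw [mb_succ, Sec.wd_apply, image_succ, if_pos (mem_insert_self _ _), erase_insert]
    · refine mul_ne_zero (sg_ne _ _) (ih _ ?_)
      intro i hi j hj hij
      have := ht (x₁ := i + 1) (x₂ := j + 1) (by
        rw [coe_range, Set.mem_Iio] at hi ⊢; omega) (by
        rw [coe_range, Set.mem_Iio] at hj ⊢; omega) hij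
      omega
    · intro hm
      obtain ⟨i, hi, he⟩ := mem_image.1 hm
      rw [mem_range] at hi
      have := ht (x₁ := i + 1) (x₂ := 0) (by rw [coe_range, Set.mem_Iio]; omega)
        (by rw [coe_range, Set.mem_Iio]; omega) he
      omega

theorem wd_self [CharZero K] (i : ℕ) (x : Fk K) : wd i (wd i x) = 0 := by
  have h := Sec.wd_wd i i x
  have h2 : (2 : K) • wd i (wd i x) = 0 := by
    rw [two_smul]
    nth_rewrite 1 [h]
    rw [neg_add_cancel]
  rcases smul_eq_zero.1 h2 with h3 | h3
  · exact absurd h3 two_ne_zero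
  · exact h3

/-- adjacent exchange. -/
theorem mb_swap_adj (q : ℕ) (t : ℕ → ℕ) (i : ℕ) (hi : i + 1 < q) :
    (mb q (t ∘ Equiv.swap i (i + 1)) : Fk K) = -mb q t := by
  induction i generalizing q t with
  | zero =>
    obtain ⟨q, rfl⟩ : ∃ q', q = q' + 2 := ⟨q - 2, by omega⟩
    rw [mb_succ, mb_succ, mb_succ, mb_succ, Sec.wd_wd]
    have h0 : (t ∘ Equiv.swap 0 (0 + 1)) 0 = t (0 + 1) := by
      rw [Function.comp_apply, Equiv.swap_apply_left]
    have h1 : (t ∘ Equiv.swap 0 (0 + 1)) (0 + 1) = t 0 := by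
      rw [Function.comp_apply, Equiv.swap_apply_right]
    have h2 : (fun i => (t ∘ Equiv.swap 0 (0 + 1)) (i + 1 + 1)) = fun i => t (i + 1 + 1) := by
      funext i
      rw [Function.comp_apply, Equiv.swap_apply_of_ne_of_ne (by omega) (by omega)]
    rw [h0, h1, h2]
  | succ i ih =>
    obtain ⟨q, rfl⟩ : ∃ q', q = q' + 1 := ⟨q - 1, by omega⟩
    rw [mb_succ, mb_succ]
    have h0 : (t ∘ Equiv.swap (i + 1) (i + 1 + 1)) 0 = t 0 := by
      rw [Function.comp_apply, Equiv.swap_apply_of_ne_of_ne (by omega) (by omega)]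
    have h2 : (fun j => (t ∘ Equiv.swap (i + 1) (i + 1 + 1)) (j + 1)) =
        (fun j => t (j + 1)) ∘ Equiv.swap i (i + 1) := by
      funext j
      rw [Function.comp_apply, Function.comp_apply]
      congr 1
      rcases eq_or_ne j i with rfl | h
      · rw [Equiv.swap_apply_left, Equiv.swap_apply_left]
      · rcases eq_or_ne j (i + 1) with rfl | h'
        · rw [Equiv.swap_apply_right, Equiv.swap_apply_right]
        · rw [Equiv.swap_apply_of_ne_of_ne (by omega) (by omega),
            Equiv.swap_apply_of_ne_of_ne h h']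
    rw [h0, h2, ih _ _ (by omega), map_neg]

theorem mb_swap (q : ℕ) (t : ℕ → ℕ) (i j : ℕ) (hi : i < q) (hj : j < q) (hij : i ≠ j) :
    (mb q (t ∘ Equiv.swap i j) : Fk K) = -mb q t := by
  wlog hlt : i < j generalizing i j with H
  · rw [Equiv.swap_comm]
    exact H j i hj hi hij.symm (by omega)
  obtain ⟨d, rfl⟩ : ∃ d, j = i + 1 + d := ⟨j - i - 1, by omega⟩
  clear hij hlt
  induction d generalizing t with
  | zero => exact mb_swap_adj q t i hj
  | succ d ih =>
    have h : (Equiv.swap i (i + 1 + (d + 1))) =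
        Equiv.swap (i + 1 + d) (i + 1 + d + 1) * Equiv.swap i (i + 1 + d) *
          Equiv.swap (i + 1 + d) (i + 1 + d + 1) := by
      rw [← add_assoc]
      rw [Equiv.swap_mul_swap_mul_swap (by omega) (by omega)]
      exact Equiv.swap_comm _ _
    rw [h, Equiv.Perm.coe_mul, Equiv.Perm.coe_mul, ← Function.comp_assoc,
      mb_swap_adj q _ _ (by omega), ← Function.comp_assoc, ih _ (by omega),
      mb_swap_adj q _ _ (by omega), neg_neg]

theorem mb_rep [CharZero K] (q : ℕ) (t : ℕ → ℕ) (i j : ℕ) (hi : i < q) (hj : j < q)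
    (hij : i ≠ j) (h : t i = t j) : (mb q t : Fk K) = 0 := by
  have h1 := mb_swap (K := K) q t i j hi hj hij
  have h2 : t ∘ Equiv.swap i j = t := by
    funext l
    rw [Function.comp_apply]
    rcases eq_or_ne l i with rfl | hl
    · rw [Equiv.swap_apply_left, h]
    · rcases eq_or_ne l j with rfl | hl'
      · rw [Equiv.swap_apply_right, h]
      · rw [Equiv.swap_apply_of_ne_of_ne hl hl']
  rw [h2] at h1
  have h3 : (2 : K) • (mb q t : Fk K) = 0 := by
    rw [two_smul]
    nth_rewrite 1 [h1]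
    rw [neg_add_cancel]
  rcases smul_eq_zero.1 h3 with h4 | h4
  · exact absurd h4 two_ne_zero
  · exact h4

end fock

/-! ### configurations -/

section conf
variable {α : Type} [DecidableEq α] {r a q : ℕ} {R : Finset α}
  {u v : ℕ → α} {m : ℕ → Finset α}

theorem VC_u (h : VC r R a q u v m) {i : ℕ} (hi : i < a) : u i ∈ R := by
  rw [← h.cov]
  exact mem_union_left _ (mem_union_left _ (mem_image_of_mem _ (mem_range.2 hi)))

theorem VC_v (h : VC r R a q u v m) {i : ℕ} (hi : i < a) : v i ∈ R := by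
  rw [← h.cov]
  exact mem_union_left _ (mem_union_right _ (mem_image_of_mem _ (mem_range.2 hi)))

theorem VC_m (h : VC r R a q u v m) {i : ℕ} (hi : i < q) : m i ⊆ R := by
  rw [← h.cov]
  exact (subset_biUnion_of_mem _ (mem_range.2 hi)).trans subset_union_right

omit [DecidableEq α] in
theorem im_Sup {σ : Equiv.Perm α} {P : Finset α} (h : Sup P σ) : im σ P = P := by
  ext a
  rw [mem_im]
  constructor
  · intro ha
    by_contra hc
    have h1 := h a hc
    have h2 : σ⁻¹ a = a := by
      rw [Equiv.Perm.inv_eq_iff_eq]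
      exact h1.symm
    rw [h2] at ha
    exact hc ha
  · intro ha
    by_contra hc
    have h1 := h _ hc
    rw [ai] at h1
    rw [← h1] at hc
    exact hc ha

/-- the points of a configuration. -/
def cv (a q : ℕ) (u v : ℕ → α) (m : ℕ → Finset α) : Finset α :=
  (range a).image u ∪ (range a).image v ∪ (range q).biUnion m

theorem mem_cv {a q : ℕ} {u v : ℕ → α} {m : ℕ → Finset α} {x : α} :
    x ∈ cv a q u v m ↔ (∃ i < a, u i = x) ∨ (∃ i < a, v i = x) ∨ ∃ i < q, x ∈ m i := by
  unfold cv
  simp only [mem_union, mem_image, mem_biUnion, mem_range, or_assoc]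

theorem cv_im (σ : Equiv.Perm α) (a q : ℕ) (u v : ℕ → α) (m : ℕ → Finset α) :
    cv a q (fun i => σ (u i)) (fun i => σ (v i)) (fun i => im σ (m i)) =
      im σ (cv a q u v m) := by
  ext x
  rw [mem_im, mem_cv, mem_cv]
  have e : ∀ y : α, σ y = x ↔ y = σ⁻¹ x := fun y => by
    constructor
    · rintro rfl
      rw [ia]
    · rintro rfl
      rw [ai]
  simp only [e, mem_im]

theorem VC_im (h : VC r R a q u v m) {σ : Equiv.Perm α} (hσ : Sup R σ) :
    VC r R a q (fun i => σ (u i)) (fun i => σ (v i)) (fun i => im σ (m i)) where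
  card i hi := by rw [card_im, h.card i hi]
  dis i hi j hj hij := (Finset.disjoint_map _).2 (h.dis i hi j hj hij)
  uinj i hi j hj hij := h.uinj i hi j hj (σ.injective hij)
  vinj i hi j hj hij := h.vinj i hi j hj (σ.injective hij)
  uv i hi j hj hij := h.uv i hi j hj (σ.injective hij)
  uout i hi j hj := by
    rw [mem_im, ia]
    exact h.uout i hi j hj
  vout i hi j hj := by
    rw [mem_im, ia]
    exact h.vout i hi j hj
  cov := by
    have h1 := cv_im σ a q u v m
    have h2 : cv a q u v m = R := h.cov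
    rw [h2, im_Sup hσ] at h1
    exact h1

theorem VC_flip (h : VC r R a q u v m) {i : ℕ} (hi : i < a) :
    VC r R a q (Function.update u i (v i)) (Function.update v i (u i)) m where
  card := h.card
  dis := h.dis
  uinj j hj l hl hjl := by
    simp only [Function.update_apply] at hjl
    split_ifs at hjl with h1 h2 h2
    · rw [h1, h2]
    · exact absurd hjl.symm (h.uv l hl i hi)
    · exact absurd hjl (h.uv j hj i hi)
    · exact h.uinj j hj l hl hjl
  vinj j hj l hl hjl := by
    simp only [Function.update_apply] at hjl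
    split_ifs at hjl with h1 h2 h2
    · rw [h1, h2]
    · exact absurd hjl (h.uv i hi l hl)
    · exact absurd hjl.symm (h.uv i hi j hj)
    · exact h.vinj j hj l hl hjl
  uv j hj l hl hjl := by
    simp only [Function.update_apply] at hjl
    split_ifs at hjl with h1 h2 h2
    · exact absurd hjl.symm (h.uv i hi i hi)
    · exact h2 (h.vinj l hl i hi hjl.symm)
    · exact h1 (h.uinj j hj i hi hjl)
    · exact h.uv j hj l hl hjl
  uout j hj l hl := by
    simp only [Function.update_apply]
    split_ifs with h1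
    · exact h.vout i hi l hl
    · exact h.uout j hj l hl
  vout j hj l hl := by
    simp only [Function.update_apply]
    split_ifs with h1
    · exact h.uout i hi l hl
    · exact h.vout j hj l hl
  cov := by
    have h2 : cv a q u v m = R := h.cov
    rw [← h2]
    ext x
    show x ∈ cv a q _ _ m ↔ _
    rw [mem_cv, mem_cv]
    simp only [Function.update_apply]
    constructor
    · rintro (⟨j, hj, hx⟩ | ⟨j, hj, hx⟩ | hx)
      · split_ifs at hx
        · exact Or.inr (Or.inl ⟨i, hi, hx⟩)
        · exact Or.inl ⟨j, hj, hx⟩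
      · split_ifs at hx
        · exact Or.inl ⟨i, hi, hx⟩
        · exact Or.inr (Or.inl ⟨j, hj, hx⟩)
      · exact Or.inr (Or.inr hx)
    · rintro (⟨j, hj, hx⟩ | ⟨j, hj, hx⟩ | hx)
      · rcases eq_or_ne j i with rfl | hji
        · exact Or.inr (Or.inl ⟨j, hj, by rw [if_pos rfl, hx]⟩)
        · exact Or.inl ⟨j, hj, by rw [if_neg hji, hx]⟩
      · rcases eq_or_ne j i with rfl | hji
        · exact Or.inl ⟨j, hj, by rw [if_pos rfl, hx]⟩
        · exact Or.inr (Or.inl ⟨j, hj, by rw [if_neg hji, hx]⟩)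
      · exact Or.inr (Or.inr hx)

theorem swap_lt {i j q : ℕ} (hi : i < q) (hj : j < q) (l : ℕ) :
    Equiv.swap i j l < q ↔ l < q := by
  rcases eq_or_ne l i with rfl | h1
  · rw [Equiv.swap_apply_left]
    exact ⟨fun _ => hi, fun _ => hj⟩
  · rcases eq_or_ne l j with rfl | h2
    · rw [Equiv.swap_apply_right]
      exact ⟨fun _ => hj, fun _ => hi⟩
    · rw [Equiv.swap_apply_of_ne_of_ne h1 h2]

theorem VC_perm (h : VC r R a q u v m) {τ : Equiv.Perm ℕ} (hτ : ∀ l, l < a ↔ τ l < a)
    {i j : ℕ} (hi : i < q) (hj : j < q) :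
    VC r R a q (u ∘ τ) (v ∘ τ) (m ∘ (Equiv.swap i j)) where
  card l hl := h.card _ ((swap_lt hi hj l).2 hl)
  dis l hl k hk hlk := h.dis _ ((swap_lt hi hj l).2 hl) _ ((swap_lt hi hj k).2 hk)
    fun e => hlk ((Equiv.swap i j).injective e)
  uinj l hl k hk hlk := τ.injective (h.uinj _ ((hτ l).1 hl) _ ((hτ k).1 hk) hlk)
  vinj l hl k hk hlk := τ.injective (h.vinj _ ((hτ l).1 hl) _ ((hτ k).1 hk) hlk)
  uv l hl k hk hlk := h.uv _ ((hτ l).1 hl) _ ((hτ k).1 hk) hlk
  uout l hl k hk := h.uout _ ((hτ l).1 hl) _ ((swap_lt hi hj k).2 hk)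
  vout l hl k hk := h.vout _ ((hτ l).1 hl) _ ((swap_lt hi hj k).2 hk)
  cov := by
    have h2 : cv a q u v m = R := h.cov
    rw [← h2]
    ext x
    show x ∈ cv a q _ _ _ ↔ _
    rw [mem_cv, mem_cv]
    simp only [Function.comp_apply]
    have e1 : ∀ w : ℕ → α, (∃ l < a, w (τ l) = x) ↔ ∃ l < a, w l = x := by
      intro w
      constructor
      · rintro ⟨l, hl, hx⟩
        exact ⟨τ l, (hτ l).1 hl, hx⟩
      · rintro ⟨l, hl, hx⟩
        refine ⟨τ.symm l, ?_, ?_⟩
        · rw [hτ, Equiv.apply_symm_apply]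
          exact hl
        · rw [Equiv.apply_symm_apply]
          exact hx
    have e2 : (∃ l < q, x ∈ m (Equiv.swap i j l)) ↔ ∃ l < q, x ∈ m l := by
      constructor
      · rintro ⟨l, hl, hx⟩
        exact ⟨_, (swap_lt hi hj l).2 hl, hx⟩
      · rintro ⟨l, hl, hx⟩
        refine ⟨Equiv.swap i j l, (swap_lt hi hj l).2 hl, ?_⟩
        rw [Equiv.swap_apply_self]
        exact hx
    rw [e1, e1, e2]

end conf

/-! ### sections of configurations -/

section sec
variable {K : Type} [Field K] {α : Type} [DecidableEq α] {r a q : ℕ} {R : Finset α}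
  {u v : ℕ → α} {m : ℕ → Finset α}

omit [DecidableEq α] in
theorem sub_im (σ : Equiv.Perm α) (Y X : Finset α) : Y ⊆ im σ X ↔ im σ⁻¹ Y ⊆ X := by
  constructor
  · intro h x hx
    rw [mem_im, inv_inv] at hx
    have := h hx
    rwa [mem_im, ia] at this
  · intro h x hx
    rw [mem_im]
    apply h
    rw [mem_im, inv_inv, ai]
    exact hx

theorem sc_sact (σ : Equiv.Perm α) (a q : ℕ) (u v : ℕ → α) (m : ℕ → Finset α) :
    (sc a q (fun i => σ (u i)) (fun i => σ (v i)) (fun i => im σ (m i)) : Finset α → Fk K) =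
      sact K α σ (sc a q u v m) := by
  funext Y
  have h0 : sact K α σ (sc a q u v m : Finset α → Fk K) Y =
    (sc a q u v m : Finset α → Fk K) (im σ⁻¹ Y) := rfl
  rw [h0]
  have h1 := cv_im σ a q u v m
  unfold cv at h1
  unfold sc
  rw [h1]
  have h2 : ∀ y : α, σ y ∈ Y ↔ y ∈ im σ⁻¹ Y := by
    intro y
    rw [mem_im, inv_inv]
  have h3 : ∀ X : Finset α, (im σ X ∩ Y).card = (X ∩ im σ⁻¹ Y).card := by
    intro X
    rw [← card_im σ (X ∩ im σ⁻¹ Y)]
    congr 1
    ext y
    rw [mem_im, mem_inter, mem_inter, mem_im, mem_im, inv_inv, ai]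
  simp only [sub_im, h2, h3]

theorem sc_val (h : VC r R a q u v m) {Y : Finset α} (hY : Y ⊆ R) :
    (sc a q u v m : Finset α → Fk K) Y =
      (∏ i ∈ range a, ((if v i ∈ Y then (1 : K) else 0) - (if u i ∈ Y then 1 else 0))) •
      mb q (fun i => (m i ∩ Y).card) := by
  unfold sc
  rw [if_pos]
  rw [h.cov]
  exact hY

theorem sc_flip (h : VC r R a q u v m) {Y : Finset α} (hY : Y ⊆ R) {i : ℕ} (hi : i < a) :
    (sc a q (Function.update u i (v i)) (Function.update v i (u i)) m : Finset α → Fk K) Y =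
      -(sc a q u v m : Finset α → Fk K) Y := by
  rw [sc_val (VC_flip h hi) hY, sc_val h hY, ← neg_smul]
  congr 1
  rw [← mul_prod_erase _ _ (mem_range.2 hi), ← mul_prod_erase (range a) (fun i =>
    (if v i ∈ Y then (1 : K) else 0) - (if u i ∈ Y then 1 else 0)) (mem_range.2 hi),
    ← neg_mul, Function.update_self, Function.update_self, neg_sub]
  congr 1
  refine prod_congr rfl fun l hl => ?_
  rw [mem_erase] at hl
  rw [Function.update_of_ne hl.1, Function.update_of_ne hl.1]

theorem sc_zero (h : VC r R a q u v m) {Y : Finset α} (hY : Y ⊆ R) {i : ℕ} (hi : i < a)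
    (hyy : u i ∈ Y ↔ v i ∈ Y) : (sc a q u v m : Finset α → Fk K) Y = 0 := by
  rw [sc_val h hY, prod_eq_zero (mem_range.2 hi), zero_smul]
  by_cases h1 : v i ∈ Y
  · rw [if_pos h1, if_pos (hyy.2 h1), sub_self]
  · rw [if_neg h1, if_neg (fun t => h1 (hyy.1 t)), sub_self]

/-- good position with respect to `Y`. -/
def Gd (a : ℕ) (Y : Finset α) (u v : ℕ → α) : Prop := ∀ i < a, u i ∉ Y ∧ v i ∈ Y

theorem sc_good (h : VC r R a q u v m) {Y : Finset α} (hY : Y ⊆ R) (hg : Gd a Y u v) :
    (sc a q u v m : Finset α → Fk K) Y = mb q (fun i => (m i ∩ Y).card) := by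
  rw [sc_val h hY, prod_eq_one, one_smul]
  intro i hi
  rw [if_pos (hg i (mem_range.1 hi)).2, if_neg (hg i (mem_range.1 hi)).1, sub_zero]

end sec

/-! ### step 1 -/

section step1
variable {K : Type} [Field K] [CharZero K] {α : Type} [Fintype α] [DecidableEq α]
  {H : Type} [AddCommGroup H] [Module K H] {r a q : ℕ} {R Y : Finset α}

/-- the type. -/
def ty (Y : Finset α) (m : ℕ → Finset α) : ℕ → ℕ := fun i => (m i ∩ Y).card

/-- the hypotheses on the function of configurations. -/
structure Hg (r a q : ℕ) (R Y : Finset α) (g : (ℕ → α) → (ℕ → α) → (ℕ → Finset α) → H) :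
    Prop where
  loc : ∀ u u' v v' m m', (∀ i < a, u i = u' i) → (∀ i < a, v i = v' i) →
    (∀ i < q, m i = m' i) → g u v m = g u' v' m'
  sty : ∀ σ, StY R Y σ → ∀ u v m, VC r R a q u v m →
    g (fun i => σ (u i)) (fun i => σ (v i)) (fun i => im σ (m i)) = g u v m
  anti : ∀ i < a, ∀ u v m, VC r R a q u v m →
    g (Function.update u i (v i)) (Function.update v i (u i)) m = -g u v m
  swp : ∀ i < q, ∀ j < q, i ≠ j → ∃ τ : Equiv.Perm ℕ, (∀ l, l < a ↔ τ l < a) ∧
    ∀ u v m, VC r R a q u v m → g (u ∘ τ) (v ∘ τ) (m ∘ (Equiv.swap i j)) = -g u v m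

variable {g : (ℕ → α) → (ℕ → α) → (ℕ → Finset α) → H}

theorem eq_zero_of_neg (K : Type) [Field K] [CharZero K] {H : Type} [AddCommGroup H]
    [Module K H] {x : H} (h : x = -x) : x = 0 := by
  have h2 : (2 : K) • x = 0 := by
    rw [two_smul]
    nth_rewrite 1 [h]
    rw [neg_add_cancel]
  rcases smul_eq_zero.1 h2 with h3 | h3
  · exact absurd h3 two_ne_zero
  · exact h3

omit [Fintype α] in
/-- the zero case. -/
theorem g_zero (K : Type) [Field K] [CharZero K] [Module K H] (hg : Hg r a q R Y g)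
    {u v : ℕ → α} {m : ℕ → Finset α} (h : VC r R a q u v m) {i : ℕ}
    (hi : i < a) (hyy : u i ∈ Y ↔ v i ∈ Y) : g u v m = 0 := by
  have hσ : StY R Y (Equiv.swap (u i) (v i)) := by
    refine ⟨fun b hb => ?_, ?_⟩
    · refine Equiv.swap_apply_of_ne_of_ne ?_ ?_
      · rintro rfl
        exact hb (VC_u h hi)
      · rintro rfl
        exact hb (VC_v h hi)
    · ext b
      rw [mem_im, Equiv.swap_inv]
      rcases eq_or_ne b (u i) with rfl | h1
      · rw [Equiv.swap_apply_left]
        exact hyy.symm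
      · rcases eq_or_ne b (v i) with rfl | h2
        · rw [Equiv.swap_apply_right]
          exact hyy
        · rw [Equiv.swap_apply_of_ne_of_ne h1 h2]
  have h1 := hg.sty _ hσ u v m h
  have h2 := hg.anti i hi u v m h
  have h3 : g (fun l => Equiv.swap (u i) (v i) (u l)) (fun l => Equiv.swap (u i) (v i) (v l))
      (fun l => im (Equiv.swap (u i) (v i)) (m l)) =
      g (Function.update u i (v i)) (Function.update v i (u i)) m := by
    refine hg.loc _ _ _ _ _ _ (fun l hl => ?_) (fun l hl => ?_) (fun l hl => ?_)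
    · rcases eq_or_ne l i with rfl | hli
      · rw [Equiv.swap_apply_left, Function.update_self]
      · rw [Function.update_of_ne hli, Equiv.swap_apply_of_ne_of_ne]
        · exact fun e => hli (h.uinj l hl i hi e)
        · exact h.uv l hl i hi
    · rcases eq_or_ne l i with rfl | hli
      · rw [Equiv.swap_apply_right, Function.update_self]
      · rw [Function.update_of_ne hli, Equiv.swap_apply_of_ne_of_ne]
        · exact fun e => h.uv i hi l hl e.symm
        · exact fun e => hli (h.vinj l hl i hi e)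
    · refine im_self fun b hb => Equiv.swap_apply_of_ne_of_ne ?_ ?_
      · rintro rfl
        exact h.uout i hi l hl hb
      · rintro rfl
        exact h.vout i hi l hl hb
  rw [h3, h2] at h1
  exact eq_zero_of_neg K h1.symm

/-- good configurations of the same type. -/
theorem g_trans (hTrans : S_Trans) (hg : Hg r a q R Y g) (hY : Y ⊆ R)
    {u v u' v' : ℕ → α} {m m' : ℕ → Finset α} (h : VC r R a q u v m)
    (h' : VC r R a q u' v' m') (hd : Gd a Y u v) (hd' : Gd a Y u' v')
    (ht : ∀ i < q, ty Y m i = ty Y m' i) : g u v m = g u' v' m' := by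
  obtain ⟨σ, hσ, hσ'⟩ := hTrans α (ℕ × ℕ)
    ((({0} : Finset ℕ) ×ˢ range a) ∪ (({1} : Finset ℕ) ×ˢ range a) ∪
      (({2} : Finset ℕ) ×ˢ range q)) R Y
    (fun i => if i.1 = 0 then {u i.2} else if i.1 = 1 then {v i.2} else m i.2)
    (fun i => if i.1 = 0 then {u' i.2} else if i.1 = 1 then {v' i.2} else m' i.2) hY
    (by
      rintro ⟨k, i⟩ hi
      simp only [mem_union, mem_product, mem_singleton, mem_range] at hi
      rcases hi with (⟨rfl, hi⟩ | ⟨rfl, hi⟩) | ⟨rfl, hi⟩
      · simpa using VC_u h hi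
      · simpa using VC_v h hi
      · simpa using VC_m h hi)
    (by
      rintro ⟨k, i⟩ hi
      simp only [mem_union, mem_product, mem_singleton, mem_range] at hi
      rcases hi with (⟨rfl, hi⟩ | ⟨rfl, hi⟩) | ⟨rfl, hi⟩
      · simpa using VC_u h' hi
      · simpa using VC_v h' hi
      · simpa using VC_m h' hi)
    (by
      rintro ⟨k, i⟩ hi ⟨l, j⟩ hj hij
      simp only [mem_union, mem_product, mem_singleton, mem_range] at hi hj
      rcases hi with (⟨rfl, hi⟩ | ⟨rfl, hi⟩) | ⟨rfl, hi⟩ <;>
        rcases hj with (⟨rfl, hj⟩ | ⟨rfl, hj⟩) | ⟨rfl, hj⟩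
      · simpa using fun e => hij (by rw [h.uinj i hi j hj e])
      · simpa using fun e => h.uv i hi j hj e
      · simpa using h.uout i hi j hj
      · simpa using fun e => h.uv j hj i hi e.symm
      · simpa using fun e => hij (by rw [h.vinj i hi j hj e])
      · simpa using h.vout i hi j hj
      · simpa using h.uout j hj i hi
      · simpa using h.vout j hj i hi
      · simpa using h.dis i hi j hj (fun e => hij (by rw [e])))
    (by
      rintro ⟨k, i⟩ hi ⟨l, j⟩ hj hij
      simp only [mem_union, mem_product, mem_singleton, mem_range] at hi hj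
      rcases hi with (⟨rfl, hi⟩ | ⟨rfl, hi⟩) | ⟨rfl, hi⟩ <;>
        rcases hj with (⟨rfl, hj⟩ | ⟨rfl, hj⟩) | ⟨rfl, hj⟩
      · simpa using fun e => hij (by rw [h'.uinj i hi j hj e])
      · simpa using fun e => h'.uv i hi j hj e
      · simpa using h'.uout i hi j hj
      · simpa using fun e => h'.uv j hj i hi e.symm
      · simpa using fun e => hij (by rw [h'.vinj i hi j hj e])
      · simpa using h'.vout i hi j hj
      · simpa using h'.uout j hj i hi
      · simpa using h'.vout j hj i hi
      · simpa using h'.dis i hi j hj (fun e => hij (by rw [e])))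
    (by
      rintro ⟨k, i⟩ hi
      simp only [mem_union, mem_product, mem_singleton, mem_range] at hi
      rcases hi with (⟨rfl, hi⟩ | ⟨rfl, hi⟩) | ⟨rfl, hi⟩
      · simp only [if_true]
        rw [singleton_inter_of_notMem (hd i hi).1, singleton_inter_of_notMem (hd' i hi).1]
      · simp only [one_ne_zero, if_false, if_true]
        rw [singleton_inter_of_mem (hd i hi).2, singleton_inter_of_mem (hd' i hi).2,
          card_singleton, card_singleton]
      · simpa [ty] using ht i hi)
    (by
      rintro ⟨k, i⟩ hi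
      simp only [mem_union, mem_product, mem_singleton, mem_range] at hi
      rcases hi with (⟨rfl, hi⟩ | ⟨rfl, hi⟩) | ⟨rfl, hi⟩
      · simp
      · simp
      · simpa using (h.card i hi).trans (h'.card i hi).symm)
  rw [← hg.sty σ hσ u v m h]
  refine hg.loc _ _ _ _ _ _ (fun i hi => ?_) (fun i hi => ?_) (fun i hi => ?_)
  · have h1 := hσ' (0, i) (by simp [hi])
    simpa [im] using h1
  · have h1 := hσ' (1, i) (by simp [hi])
    simpa [im] using h1
  · have h1 := hσ' (2, i) (by simp [hi])
    simpa using h1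

theorem ty_swap (Y : Finset α) (m : ℕ → Finset α) (i j : ℕ) :
    ty Y (m ∘ Equiv.swap i j) = ty Y m ∘ Equiv.swap i j := rfl

/-- exchange. -/
theorem g_swap (hg : Hg r a q R Y g) {u v : ℕ → α} {m : ℕ → Finset α}
    (h : VC r R a q u v m) (hd : Gd a Y u v) {i j : ℕ} (hi : i < q) (hj : j < q)
    (hij : i ≠ j) : ∃ u' v', VC r R a q u' v' (m ∘ Equiv.swap i j) ∧ Gd a Y u' v' ∧
      g u' v' (m ∘ Equiv.swap i j) = -g u v m := by
  obtain ⟨τ, hτ, h1⟩ := hg.swp i hi j hj hij
  exact ⟨u ∘ τ, v ∘ τ, VC_perm h hτ hi hj, fun l hl => hd _ ((hτ l).1 hl), h1 u v m h⟩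

/-- repeated types. -/
theorem g_rep (K : Type) [Field K] [CharZero K] [Module K H] (hTrans : S_Trans)
    (hg : Hg r a q R Y g) (hY : Y ⊆ R)
    {u v : ℕ → α} {m : ℕ → Finset α} (h : VC r R a q u v m) (hd : Gd a Y u v) {i j : ℕ}
    (hi : i < q) (hj : j < q) (hij : i ≠ j) (he : ty Y m i = ty Y m j) : g u v m = 0 := by
  obtain ⟨u', v', h', hd', h1⟩ := g_swap hg h hd hi hj hij
  refine eq_zero_of_neg K ?_
  rw [← h1]
  refine g_trans hTrans hg hY h h' hd hd' fun l _ => ?_
  rw [ty_swap, Function.comp_apply]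
  rcases eq_or_ne l i with rfl | hl
  · rw [Equiv.swap_apply_left, he]
  · rcases eq_or_ne l j with rfl | hl'
    · rw [Equiv.swap_apply_right, he]
    · rw [Equiv.swap_apply_of_ne_of_ne hl hl']

theorem inj_swap {t : ℕ → ℕ} {q i j : ℕ} (hi : i < q) (hj : j < q)
    (ht : Set.InjOn t (range q)) : Set.InjOn (t ∘ Equiv.swap i j) (range q) := by
  intro x hx y hy hxy
  rw [mem_coe, mem_range] at hx hy
  refine (Equiv.swap i j).injective (ht ?_ ?_ hxy)
  · rw [mem_coe, mem_range]
    exact (swap_lt hi hj x).2 hx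
  · rw [mem_coe, mem_range]
    exact (swap_lt hi hj y).2 hy

theorem image_swap {t : ℕ → ℕ} {q i j : ℕ} (hi : i < q) (hj : j < q) :
    (range q).image (t ∘ Equiv.swap i j) = (range q).image t := by
  ext x
  simp only [mem_image, mem_range, Function.comp_apply]
  constructor
  · rintro ⟨l, hl, hx⟩
    exact ⟨_, (swap_lt hi hj l).2 hl, hx⟩
  · rintro ⟨l, hl, hx⟩
    refine ⟨Equiv.swap i j l, (swap_lt hi hj l).2 hl, ?_⟩
    rw [Equiv.swap_apply_self]
    exact hx

/-- sorting. -/
theorem sorting (hg : Hg r a q R Y g)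
    {u v : ℕ → α} {m m' : ℕ → Finset α} (h : VC r R a q u v m)
    (hd : Gd a Y u v) (hi : Set.InjOn (ty Y m) (range q)) (hi' : Set.InjOn (ty Y m') (range q))
    (he : (range q).image (ty Y m) = (range q).image (ty Y m')) (n : ℕ) (hn : n ≤ q) :
    ∃ u1 v1 m1, VC r R a q u1 v1 m1 ∧ Gd a Y u1 v1 ∧ Set.InjOn (ty Y m1) (range q) ∧
      (range q).image (ty Y m1) = (range q).image (ty Y m') ∧
      (∀ i < n, ty Y m1 i = ty Y m' i) ∧ ∃ ε : K, ε ≠ 0 ∧ g u1 v1 m1 = ε • g u v m ∧
      (mb q (ty Y m1) : Fk K) = ε • mb q (ty Y m) := by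
  induction n with
  | zero =>
    exact ⟨u, v, m, h, hd, hi, he, fun i hi => absurd hi (Nat.not_lt_zero i), 1, one_ne_zero,
      (one_smul _ _).symm, (one_smul _ _).symm⟩
  | succ n ih =>
    obtain ⟨u1, v1, m1, h1, hd1, hi1, he1, hn1, ε, hε, hg1, hm1⟩ := ih (by omega)
    by_cases hc : ty Y m1 n = ty Y m' n
    · refine ⟨u1, v1, m1, h1, hd1, hi1, he1, fun i hi => ?_, ε, hε, hg1, hm1⟩
      rcases Nat.lt_succ_iff_lt_or_eq.1 hi with h2 | rfl
      · exact hn1 i h2
      · exact hc
    · have hm : ty Y m' n ∈ (range q).image (ty Y m1) := by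
        rw [he1]
        exact mem_image_of_mem _ (mem_range.2 (by omega))
      obtain ⟨j, hj, hjn⟩ := mem_image.1 hm
      rw [mem_range] at hj
      have hjn' : n < j := by
        by_contra hlt
        rcases Nat.lt_or_ge j n with h3 | h3
        · have h4 := hn1 j h3
          rw [hjn] at h4
          have h5 := hi' (x₁ := n) (x₂ := j) (by rw [mem_coe, mem_range]; omega)
            (by rw [mem_coe, mem_range]; omega) h4
          omega
        · have h5 : j = n := by omega
          rw [h5] at hjn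
          exact hc hjn
      obtain ⟨u2, v2, h2, hd2, hg2⟩ := g_swap hg h1 hd1 (i := n) (j := j) (by omega) hj
        (by omega)
      refine ⟨u2, v2, m1 ∘ Equiv.swap n j, h2, hd2, ?_, ?_, fun i hi => ?_, -ε,
        neg_ne_zero.2 hε, ?_, ?_⟩
      · rw [ty_swap]
        exact inj_swap (by omega) hj hi1
      · rw [ty_swap, image_swap (by omega) hj, he1]
      · rw [ty_swap, Function.comp_apply]
        rcases Nat.lt_succ_iff_lt_or_eq.1 hi with h3 | rfl
        · rw [Equiv.swap_apply_of_ne_of_ne (by omega) (by omega), hn1 i h3]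
        · rw [Equiv.swap_apply_left, hjn]
      · rw [hg2, hg1, neg_smul]
      · rw [ty_swap, mb_swap q _ n j (by omega) hj (by omega), hm1, neg_smul]

/-- enumerations of the same set. -/
theorem g_enum (hTrans : S_Trans) (hg : Hg r a q R Y g) (hY : Y ⊆ R)
    {u v u' v' : ℕ → α} {m m' : ℕ → Finset α} (h : VC r R a q u v m)
    (h' : VC r R a q u' v' m')
    (hd : Gd a Y u v) (hd' : Gd a Y u' v')
    (hi : Set.InjOn (ty Y m) (range q)) (hi' : Set.InjOn (ty Y m') (range q))
    (he : (range q).image (ty Y m) = (range q).image (ty Y m')) :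
    ((mb q (ty Y m) : Fk K) ((range q).image (ty Y m')))⁻¹ • g u v m =
      ((mb q (ty Y m') : Fk K) ((range q).image (ty Y m')))⁻¹ • g u' v' m' := by
  obtain ⟨u1, v1, m1, h1, hd1, hi1, he1, hn1, ε, hε, hg1, hm1⟩ :=
    sorting (K := K) hg h hd hi hi' he q (le_refl q)
  have h2 : g u1 v1 m1 = g u' v' m' := g_trans hTrans hg hY h1 h' hd1 hd' hn1
  have h3 : (mb q (ty Y m1) : Fk K) = mb q (ty Y m') := mb_congr q _ _ hn1
  rw [← h2, ← h3, hg1, hm1, Pi.smul_apply, smul_eq_mul, mul_inv, smul_smul]
  congr 1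
  rw [mul_comm ε⁻¹, mul_assoc, inv_mul_cancel₀ hε, mul_one]

open Classical in
/-- the functional on the good configurations. -/
noncomputable def cS (K : Type) [Field K] {H : Type} [AddCommGroup H] [Module K H]
    (r a q : ℕ) (R Y : Finset α) (g : (ℕ → α) → (ℕ → α) → (ℕ → Finset α) → H)
    (S : Finset ℕ) : H :=
  if h : ∃ c : (ℕ → α) × (ℕ → α) × (ℕ → Finset α), VC r R a q c.1 c.2.1 c.2.2 ∧
      Gd a Y c.1 c.2.1 ∧ Set.InjOn (ty Y c.2.2) (range q) ∧
      (range q).image (ty Y c.2.2) = S then
    ((mb q (ty Y h.choose.2.2) : Fk K) S)⁻¹ •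
      g h.choose.1 h.choose.2.1 h.choose.2.2
  else 0

theorem cS_eq (hTrans : S_Trans) (hg : Hg r a q R Y g) (hY : Y ⊆ R)
    {u v : ℕ → α} {m : ℕ → Finset α} (h : VC r R a q u v m) (hd : Gd a Y u v)
    (hi : Set.InjOn (ty Y m) (range q)) :
    cS K r a q R Y g ((range q).image (ty Y m)) =
      ((mb q (ty Y m) : Fk K) ((range q).image (ty Y m)))⁻¹ • g u v m := by
  have hex : ∃ c : (ℕ → α) × (ℕ → α) × (ℕ → Finset α), VC r R a q c.1 c.2.1 c.2.2 ∧
      Gd a Y c.1 c.2.1 ∧ Set.InjOn (ty Y c.2.2) (range q) ∧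
      (range q).image (ty Y c.2.2) = (range q).image (ty Y m) := ⟨(u, v, m), h, hd, hi, rfl⟩
  unfold cS
  rw [dif_pos hex]
  obtain ⟨h1, h2, h3, h4⟩ := hex.choose_spec
  exact g_enum hTrans hg hY h1 h h2 hd h3 hi h4

/-- the functional. -/
noncomputable def chi (K : Type) [Field K] {H : Type} [AddCommGroup H] [Module K H]
    (r a q : ℕ) (R Y : Finset α) (g : (ℕ → α) → (ℕ → α) → (ℕ → Finset α) → H) :
    Fk K →ₗ[K] H :=
  ∑ S ∈ (range (r + 1)).powerset,
    (LinearMap.proj S : Fk K →ₗ[K] K).smulRight (cS K r a q R Y g S)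

theorem chi_apply (r a q : ℕ) (R Y : Finset α)
    (g : (ℕ → α) → (ℕ → α) → (ℕ → Finset α) → H) (x : Fk K) :
    chi K r a q R Y g x = ∑ S ∈ (range (r + 1)).powerset, x S • cS K r a q R Y g S := by
  unfold chi
  rw [LinearMap.sum_apply]
  rfl

theorem chi_good (hTrans : S_Trans) (hg : Hg r a q R Y g) (hY : Y ⊆ R)
    {u v : ℕ → α} {m : ℕ → Finset α} (h : VC r R a q u v m) (hd : Gd a Y u v) :
    g u v m = chi K r a q R Y g (mb q (ty Y m)) := by
  by_cases hi : Set.InjOn (ty Y m) (range q)
  · rw [chi_apply, sum_eq_single ((range q).image (ty Y m)), cS_eq hTrans hg hY h hd hi,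
      smul_smul, mul_inv_cancel₀ (mb_ne q _ hi), one_smul]
    · intro S _ hS
      have : (mb q (ty Y m) : Fk K) S = 0 := by
        by_contra hc
        exact hS (mb_supp q _ S hc)
      rw [this, zero_smul]
    · intro hS
      exfalso
      apply hS
      rw [mem_powerset]
      intro x hx
      obtain ⟨i, hi, rfl⟩ := mem_image.1 hx
      rw [mem_range] at hi ⊢
      have h1 : ty Y m i ≤ (m i).card := card_le_card inter_subset_left
      rw [h.card i hi] at h1
      omega
  · have hex : ∃ i < q, ∃ j < q, i ≠ j ∧ ty Y m i = ty Y m j := by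
      by_contra hc
      apply hi
      intro x hx y hy hxy
      rw [mem_coe, mem_range] at hx hy
      by_contra hne
      exact hc ⟨x, hx, y, hy, hne, hxy⟩
    obtain ⟨i, hi, j, hj, hij, he⟩ := hex
    rw [g_rep K hTrans hg hY h hd hi hj hij he, mb_rep q _ i j hi hj hij he, map_zero]

theorem chi_all (hTrans : S_Trans) (hg : Hg r a q R Y g) (hY : Y ⊆ R) (N : ℕ) :
    ∀ (u v : ℕ → α) (m : ℕ → Finset α), VC r R a q u v m →
      ((range a).filter (fun i => u i ∈ Y)).card = N →
      g u v m = chi K r a q R Y g ((sc a q u v m : Finset α → Fk K) Y) := by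
  induction N with
  | zero =>
    intro u v m h hN
    rw [card_eq_zero, filter_eq_empty_iff] at hN
    by_cases hv : ∀ i < a, v i ∈ Y
    · have hd : Gd a Y u v := fun i hi => ⟨hN (mem_range.2 hi), hv i hi⟩
      rw [sc_good h hY hd]
      exact chi_good hTrans hg hY h hd
    · simp only [not_forall] at hv
      obtain ⟨i, hi, hvi⟩ := hv
      have hyy : u i ∈ Y ↔ v i ∈ Y :=
        ⟨fun t => absurd t (hN (mem_range.2 hi)), fun t => absurd t hvi⟩
      rw [g_zero K hg h hi hyy, sc_zero h hY hi hyy, map_zero]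
  | succ N ih =>
    intro u v m h hN
    have hne : ((range a).filter (fun i => u i ∈ Y)).Nonempty := by
      rw [← card_pos]
      omega
    obtain ⟨i, hi⟩ := hne
    rw [mem_filter, mem_range] at hi
    by_cases hv : v i ∈ Y
    · have hyy : u i ∈ Y ↔ v i ∈ Y := ⟨fun _ => hv, fun _ => hi.2⟩
      rw [g_zero K hg h hi.1 hyy, sc_zero h hY hi.1 hyy, map_zero]
    · have h1 := ih _ _ _ (VC_flip h hi.1) (by
        have h2 : (range a).filter (fun l => Function.update u i (v i) l ∈ Y) =
            ((range a).filter (fun l => u l ∈ Y)).erase i := by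
          ext l
          rw [mem_erase, mem_filter, mem_filter]
          rcases eq_or_ne l i with rfl | hl
          · rw [Function.update_self]
            exact ⟨fun t => absurd t.2 hv, fun t => absurd rfl t.1⟩
          · rw [Function.update_of_ne hl]
            exact ⟨fun t => ⟨hl, t⟩, fun t => t.2⟩
        rw [h2, card_erase_of_mem (by rw [mem_filter, mem_range]; exact hi), hN]
        rfl)
      rw [hg.anti i hi.1 u v m h, sc_flip h hY hi.1, map_neg] at h1
      exact neg_injective h1

end step1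

/-! ### steps 2 and 3 -/

/-- factorization through a linear map. -/
theorem factor {K : Type} [Field K] {F V H : Type} [AddCommGroup F] [Module K F]
    [AddCommGroup V] [Module K V] [AddCommGroup H] [Module K H] (p : F →ₗ[K] V) (h : F →ₗ[K] H)
    (hk : LinearMap.ker p ≤ LinearMap.ker h) : ∃ Φ : V →ₗ[K] H, ∀ x, Φ (p x) = h x := by
  obtain ⟨Φ, hΦ⟩ := LinearMap.exists_extend
    (((LinearMap.ker p).liftQ h hk).comp (p.quotKerEquivRange.symm : LinearMap.range p →ₗ[K] _))
  refine ⟨Φ, fun x => ?_⟩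
  have h1 := LinearMap.congr_fun hΦ ⟨p x, LinearMap.mem_range_self p x⟩
  rw [LinearMap.comp_apply, Submodule.subtype_apply] at h1
  rw [h1, LinearMap.comp_apply]
  have h2 : p.quotKerEquivRange.symm ⟨p x, LinearMap.mem_range_self p x⟩ =
      (LinearMap.ker p).mkQ x := by
    rw [LinearEquiv.symm_apply_eq]
    rfl
  rw [LinearEquiv.coe_coe, h2, Submodule.mkQ_apply, Submodule.liftQ_apply]

section step2
variable (K : Type) [Field K] {α : Type} [DecidableEq α] {H : Type} [AddCommGroup H] [Module K H]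

/-- valid configurations. -/
abbrev Cfg {α : Type} [DecidableEq α] (r a q : ℕ) (R : Finset α) : Type :=
  {c : (ℕ → α) × (ℕ → α) × (ℕ → Finset α) // VC r R a q c.1 c.2.1 c.2.2}

/-- the map to sections. -/
noncomputable def pS (r a q : ℕ) (R : Finset α) : (Cfg r a q R →₀ K) →ₗ[K] (Finset α → Fk K) :=
  Finsupp.linearCombination K (fun c : Cfg r a q R => sc a q c.1.1 c.1.2.1 c.1.2.2)

/-- the map to `H`. -/
noncomputable def pH (r a q : ℕ) (R : Finset α)
    (f : (ℕ → α) → (ℕ → α) → (ℕ → Finset α) → H) : (Cfg r a q R →₀ K) →ₗ[K] H :=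
  Finsupp.linearCombination K (fun c : Cfg r a q R => f c.1.1 c.1.2.1 c.1.2.2)

theorem pS_single (r a q : ℕ) (R : Finset α) (c : Cfg r a q R) :
    pS K r a q R (Finsupp.single c 1) = sc a q c.1.1 c.1.2.1 c.1.2.2 := by
  unfold pS
  rw [Finsupp.linearCombination_single, one_smul]

theorem pH_single (r a q : ℕ) (R : Finset α) (f : (ℕ → α) → (ℕ → α) → (ℕ → Finset α) → H)
    (c : Cfg r a q R) :
    pH K r a q R f (Finsupp.single c 1) = f c.1.1 c.1.2.1 c.1.2.2 := by
  unfold pH
  rw [Finsupp.linearCombination_single, one_smul]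

/-- the moved configuration. -/
def mvC {r a q : ℕ} {R : Finset α} {σ : Equiv.Perm α} (hσ : Sup R σ) (c : Cfg r a q R) :
    Cfg r a q R :=
  ⟨(fun i => σ (c.1.1 i), fun i => σ (c.1.2.1 i), fun i => im σ (c.1.2.2 i)), VC_im c.2 hσ⟩

theorem pS_mv {r a q : ℕ} {R : Finset α} {σ : Equiv.Perm α} (hσ : Sup R σ)
    (x : Cfg r a q R →₀ K) :
    pS K r a q R (Finsupp.lmapDomain K K (mvC hσ) x) = sact K α σ (pS K r a q R x) := by
  have h : (pS K r a q R).comp (Finsupp.lmapDomain K K (mvC hσ)) =
      (sact K α σ : (Finset α → Fk K) →ₗ[K] (Finset α → Fk K)).comp (pS K r a q R) := by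
    apply Finsupp.lhom_ext'
    intro c
    apply LinearMap.ext_ring
    rw [LinearMap.comp_apply, LinearMap.comp_apply, LinearMap.comp_apply, LinearMap.comp_apply,
      Finsupp.lsingle_apply, Finsupp.lmapDomain_apply, Finsupp.mapDomain_single, pS_single,
      pS_single, ← sc_sact]
    rfl
  exact LinearMap.congr_fun h x

theorem pH_mv {r a q : ℕ} {R : Finset α} (ρ : Equiv.Perm α →* Module.End K H)
    (f : (ℕ → α) → (ℕ → α) → (ℕ → Finset α) → H) {σ : Equiv.Perm α} (hσ : Sup R σ)
    (hf : ∀ u v m, VC r R a q u v m →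
      f (fun i => σ (u i)) (fun i => σ (v i)) (fun i => im σ (m i)) = ρ σ (f u v m))
    (x : Cfg r a q R →₀ K) :
    pH K r a q R f (Finsupp.lmapDomain K K (mvC hσ) x) = ρ σ (pH K r a q R f x) := by
  have h : (pH K r a q R f).comp (Finsupp.lmapDomain K K (mvC hσ)) =
      (ρ σ : H →ₗ[K] H).comp (pH K r a q R f) := by
    apply Finsupp.lhom_ext'
    intro c
    apply LinearMap.ext_ring
    rw [LinearMap.comp_apply, LinearMap.comp_apply, LinearMap.comp_apply, LinearMap.comp_apply,
      Finsupp.lsingle_apply, Finsupp.lmapDomain_apply, Finsupp.mapDomain_single, pH_single,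
      pH_single]
    exact hf _ _ _ c.2
  exact LinearMap.congr_fun h x

/-- a linear map applied to `pH`. -/
theorem comp_pH {r a q : ℕ} {R : Finset α} {W : Type} [AddCommGroup W] [Module K W]
    (f : (ℕ → α) → (ℕ → α) → (ℕ → Finset α) → H) (A : H →ₗ[K] W)
    (B : (Finset α → Fk K) →ₗ[K] W)
    (hAB : ∀ u v m, VC r R a q u v m → A (f u v m) = B (sc a q u v m))
    (x : Cfg r a q R →₀ K) : A (pH K r a q R f x) = B (pS K r a q R x) := by
  have h : A.comp (pH K r a q R f) = B.comp (pS K r a q R) := by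
    apply Finsupp.lhom_ext'
    intro c
    apply LinearMap.ext_ring
    rw [LinearMap.comp_apply, LinearMap.comp_apply, LinearMap.comp_apply, LinearMap.comp_apply,
      Finsupp.lsingle_apply, pH_single, pS_single]
    exact hAB _ _ _ c.2
  exact LinearMap.congr_fun h x

end step2

end CoreX

open CoreX in
theorem prf_Core (hRep2 : S_Rep2) (hTrans : S_Trans) : S_Core := by
  intro K _ _ α _ _ H _ _ ρ r a q R f h1 h2 h3 h4 h5
  have hker : LinearMap.ker (pS K r a q R) ≤ LinearMap.ker (pH K r a q R f) := by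
    have hZ : (LinearMap.ker (pS K r a q R)).map (pH K r a q R f) ≤ (⊥ : Submodule K H) := by
      refine hRep2 K α H ρ R _ ⊥ ?_ ?_ ?_ ?_
      · rintro σ hσ _ ⟨x, hx, rfl⟩
        refine ⟨Finsupp.lmapDomain K K (mvC hσ) x, ?_, ?_⟩
        · have hx' : pS K r a q R x = 0 := hx
          show pS K r a q R _ = 0
          rw [pS_mv, hx', map_zero]
        · exact pH_mv K ρ f hσ (h2 σ hσ) x
      · intro σ _ z hz
        rw [Submodule.mem_bot] at hz ⊢
        rw [hz, map_zero]
      · rintro Y hY _ ⟨x, hx, rfl⟩ hz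
        have hx' : pS K r a q R x = 0 := hx
        rw [Submodule.mem_bot]
        refine symm_inv ρ R Y _ hz ?_
        have hg : Hg r a q R Y (fun u v m => symm ρ R Y (f u v m)) := by
          refine ⟨?_, ?_, ?_, ?_⟩
          · intro u u' v v' m m' e1 e2 e3
            show symm ρ R Y (f u v m) = symm ρ R Y (f u' v' m')
            rw [h1 u u' v v' m m' e1 e2 e3]
          · intro σ hσ u v m h
            show symm ρ R Y (f _ _ _) = symm ρ R Y (f u v m)
            rw [h2 σ hσ.1 u v m h, symm_rho ρ R Y hσ]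
          · intro i hi u v m h
            show symm ρ R Y (f _ _ _) = -symm ρ R Y (f u v m)
            rw [h3 i hi u v m h, map_neg]
          · intro i hi j hj hij
            obtain ⟨τ, hτ, h6⟩ := h4 i hi j hj hij
            refine ⟨τ, hτ, fun u v m h => ?_⟩
            show symm ρ R Y (f _ _ _) = -symm ρ R Y (f u v m)
            rw [h6 u v m h, map_neg]
        have h7 := comp_pH K f (symm ρ R Y)
          ((chi K r a q R Y (fun u v m => symm ρ R Y (f u v m))).comp
            (LinearMap.proj Y : (Finset α → Fk K) →ₗ[K] Fk K))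
          (fun u v m h => chi_all hTrans hg hY _ u v m h rfl) x
        rw [h7, hx', map_zero]
      · rintro Q hQ hQ3 _ ⟨x, hx, rfl⟩ hz
        rw [Submodule.mem_bot]
        refine asym_inv ρ Q _ hz ?_
        have h7 := comp_pH K f (asym ρ Q) (0 : (Finset α → Fk K) →ₗ[K] H)
          (fun u v m h => (h5 Q hQ hQ3 u v m h).trans (LinearMap.zero_apply _).symm) x
        rw [h7, LinearMap.zero_apply]
    intro x hx
    have := hZ (Submodule.mem_map_of_mem hx)
    exact this
  obtain ⟨Φ, hΦ⟩ := factor (pS K r a q R) (pH K r a q R f) hker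
  refine ⟨Φ, fun u v m h => ?_⟩
  have h6 := hΦ (Finsupp.single ⟨(u, v, m), h⟩ 1)
  rw [pS_single, pH_single] at h6
  exact h6

end Pool.Agent.Work.MP_1233f5_ag.Y

end

section

/-! MP_1233f5_ag, block Y: sections invariant under the stabilizer of `Y` are determined by the
value at `Y`. -/

set_option autoImplicit false

namespace Pool.Agent.Work.MP_1233f5_ag.Y

open Finset
open Pool.Agent.Work.MP_1233f5_ag.Sec (Fk wd ct ee ff hh IsSec IsDeg swd brk)

namespace DetX

variable {α : Type} [DecidableEq α]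

/-- an element of `A` not in `B` for sets of equal size gives an element of `B` not in `A`. -/
theorem exists_other {A B : Finset α} (h : A.card = B.card) {c : α} (hc : c ∈ B) (hc' : c ∉ A) :
    ∃ c', c' ∈ A ∧ c' ∉ B := by
  by_contra hcon
  push Not at hcon
  have hAB : A ⊆ B := fun a ha => hcon a ha
  have : A = B := Finset.eq_of_subset_of_card_le hAB h.symm.le
  exact hc' (this ▸ hc)

theorem im_swap_eq {Y : Finset α} {c c' : α} (h : c ∈ Y ↔ c' ∈ Y) :
    im (Equiv.swap c c') Y = Y := by
  ext a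
  rw [mem_im, Equiv.swap_inv]
  rcases eq_or_ne a c with rfl | h1
  · rw [Equiv.swap_apply_left]
    exact h.symm
  rcases eq_or_ne a c' with rfl | h2
  · rw [Equiv.swap_apply_right]
    exact h
  rw [Equiv.swap_apply_of_ne_of_ne h1 h2]

theorem im_inter (σ : Equiv.Perm α) (A B : Finset α) : im σ (A ∩ B) = im σ A ∩ im σ B := by
  ext a
  rw [mem_im, mem_inter, mem_inter, mem_im, mem_im]

theorem im_sdiff (σ : Equiv.Perm α) (A B : Finset α) : im σ (A \ B) = im σ A \ im σ B := by
  ext a
  rw [mem_im, mem_sdiff, mem_sdiff, mem_im, mem_im]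

/-- equal counts give equal values. -/
theorem transfer {E : Type} {R Y : Finset α} (s : Finset α → E)
    (hs : ∀ σ, StY R Y σ → ∀ Z, s (im σ⁻¹ Z) = s Z) :
    ∀ N : ℕ, ∀ Y1 Y2 : Finset α, Y1 ⊆ R → Y2 ⊆ R → (Y2 \ Y1).card = N →
      (Y1 ∩ (R \ Y)).card = (Y2 ∩ (R \ Y)).card → (Y \ Y1).card = (Y \ Y2).card →
      s Y1 = s Y2 := by
  intro N
  induction N using Nat.strong_induction_on with
  | _ N ih =>
    intro Y1 Y2 h1 h2 hN hX hY
    rcases (Y2 \ Y1).eq_empty_or_nonempty with he | ⟨c, hc⟩
    · have hsub : Y2 ⊆ Y1 := sdiff_eq_empty_iff_subset.1 he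
      have hX' : Y2 ∩ (R \ Y) = Y1 ∩ (R \ Y) :=
        Finset.eq_of_subset_of_card_le (inter_subset_inter_right hsub) hX.le
      have hY' : Y \ Y1 = Y \ Y2 :=
        Finset.eq_of_subset_of_card_le (sdiff_subset_sdiff (Subset.refl _) hsub) hY.symm.le
      have : Y1 = Y2 := by
        apply Subset.antisymm _ hsub
        intro a ha
        by_cases haY : a ∈ Y
        · by_contra hcon
          have : a ∈ Y \ Y2 := mem_sdiff.2 ⟨haY, hcon⟩
          rw [← hY'] at this
          exact (mem_sdiff.1 this).2 ha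
        · have : a ∈ Y1 ∩ (R \ Y) := mem_inter.2 ⟨ha, mem_sdiff.2 ⟨h1 ha, haY⟩⟩
          rw [← hX'] at this
          exact (mem_inter.1 this).1
      rw [this]
    · have hc' := mem_sdiff.1 hc
      have hcR : c ∈ R := h2 hc'.1
      obtain ⟨c', hc1, hc2, hcc⟩ : ∃ c', c' ∈ Y1 ∧ c' ∉ Y2 ∧ (c ∈ Y ↔ c' ∈ Y) := by
        by_cases hcY : c ∈ Y
        · obtain ⟨c', ha, hb⟩ := exists_other (A := Y \ Y2) (B := Y \ Y1) hY.symm
            (mem_sdiff.2 ⟨hcY, hc'.2⟩) (fun t => (mem_sdiff.1 t).2 hc'.1)
          have ha' := mem_sdiff.1 ha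
          refine ⟨c', ?_, ha'.2, ⟨fun _ => ha'.1, fun _ => hcY⟩⟩
          by_contra hcon
          exact hb (mem_sdiff.2 ⟨ha'.1, hcon⟩)
        · obtain ⟨c', ha, hb⟩ := exists_other (A := Y1 ∩ (R \ Y)) (B := Y2 ∩ (R \ Y)) hX
            (mem_inter.2 ⟨hc'.1, mem_sdiff.2 ⟨hcR, hcY⟩⟩) (fun t => hc'.2 (mem_inter.1 t).1)
          have ha' := mem_inter.1 ha
          refine ⟨c', ha'.1, fun t => hb (mem_inter.2 ⟨t, ha'.2⟩),
            ⟨fun t => absurd t hcY, fun t => absurd t (mem_sdiff.1 ha'.2).2⟩⟩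
      have hcR' : c' ∈ R := h1 hc1
      obtain ⟨σ, hσ⟩ : ∃ σ, σ = Equiv.swap c c' := ⟨_, rfl⟩
      have hinv : σ⁻¹ = σ := by rw [hσ, Equiv.swap_inv]
      have hSup : Sup R σ := by
        intro a ha
        rw [hσ]
        exact Equiv.swap_apply_of_ne_of_ne (fun t => ha (t ▸ hcR)) (fun t => ha (t ▸ hcR'))
      have hYσ : im σ Y = Y := by rw [hσ]; exact im_swap_eq hcc
      have hRσ : im σ R = R := by
        rw [hσ]
        exact im_swap_eq ⟨fun _ => hcR', fun _ => hcR⟩
      have hs1 := hs σ ⟨hSup, hYσ⟩ Y1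
      rw [hinv] at hs1
      rw [← hs1]
      have hmem : ∀ a, a ∈ im σ Y1 ↔ Equiv.swap c c' a ∈ Y1 := by
        intro a
        rw [mem_im, hinv, hσ]
      have hcin : c ∈ im σ Y1 := by
        rw [hmem, Equiv.swap_apply_left]
        exact hc1
      refine ih (Y2 \ im σ Y1).card ?_ (im σ Y1) Y2 ?_ h2 rfl ?_ ?_
      · rw [← hN]
        apply card_lt_card
        refine ⟨fun a ha => ?_, fun t => ?_⟩
        · have ha' := mem_sdiff.1 ha
          refine mem_sdiff.2 ⟨ha'.1, fun t => ha'.2 ?_⟩
          rw [hmem]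
          have h3 : a ≠ c := fun q => hc'.2 (q ▸ t)
          have h4 : a ≠ c' := fun q => hc2 (q ▸ ha'.1)
          rw [Equiv.swap_apply_of_ne_of_ne h3 h4]
          exact t
        · exact (mem_sdiff.1 (t hc)).2 hcin
      · intro a ha
        rw [← hRσ, mem_im]
        rw [mem_im] at ha
        exact h1 ha
      · have h5 : im σ Y1 ∩ (R \ Y) = im σ (Y1 ∩ (R \ Y)) := by
          rw [im_inter, im_sdiff, hRσ, hYσ]
        rw [h5, card_im, hX]
      · have h5 : Y \ im σ Y1 = im σ (Y \ Y1) := by
          rw [im_sdiff, hYσ]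
        rw [h5, card_im, hY]

end DetX

theorem prf_Det : S_Det := by
  intro K _ _ α _ _ r q R Y hYR s hs hinv h0
  have hu : R \ Y ∪ Y = R := sdiff_union_of_subset hYR
  have H : IsSec (ee K r) (ff K r) (R \ Y ∪ Y) s := by
    rw [hu]
    exact hs.1
  funext Z
  refine IsSec.unique (X := R \ Y) (Y0 := Y) sdiff_disjoint H ?_ h0 Z
  intro Y1 Y2 h1 h2 h3 h4
  rw [hu] at h1 h2
  refine DetX.transfer s ?_ _ Y1 Y2 h1 h2 rfl h3 h4
  intro σ hσ Z
  exact congrFun (hinv σ hσ) Z

end Pool.Agent.Work.MP_1233f5_ag.Y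

end

section

/-! MP_1233f5_ag, block Y: sections antisymmetric in two points are multiples of the bracket. -/

set_option autoImplicit false

namespace Pool.Agent.Work.MP_1233f5_ag.Y

open Finset
open Pool.Agent.Work.MP_1233f5_ag.Sec (Fk wd ct ee ff hh IsSec IsDeg swd brk)

theorem prf_Div : S_Div := by
  intro K _ _ α _ _ r q R u v hu hv huv s hs hsw
  have hR : insert u (insert v ((R.erase u).erase v)) = R := by
    rw [insert_erase (mem_erase.2 ⟨huv.symm, hv⟩), insert_erase hu]
  have hu' : u ∉ (R.erase u).erase v := fun t => (mem_erase.1 (mem_erase.1 t).2).1 rfl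
  have hv' : v ∉ (R.erase u).erase v := fun t => (mem_erase.1 t).1 rfl
  have H : IsSec (ee K r) (ff K r) (insert u (insert v ((R.erase u).erase v))) s := by
    rw [hR]
    exact hs.1
  have ha : ∀ Y : Finset α, s (Y.map (Equiv.swap u v).toEmbedding) = -s Y := by
    intro Y
    have h := congrFun hsw Y
    have h2 : sact K α (Equiv.swap u v) s Y = s (im (Equiv.swap u v)⁻¹ Y) := rfl
    rw [h2, Equiv.swap_inv] at h
    exact h
  obtain ⟨x, hx, hxs⟩ := IsSec.div huv hu' hv' H ha
  refine ⟨x, ⟨hx, fun Y => ?_⟩, hxs⟩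
  by_cases hY : Y ⊆ (R.erase u).erase v
  · have huY : u ∉ Y := fun t => hu' (hY t)
    have hvY : v ∉ Y := fun t => hv' (hY t)
    have h1 : s (insert v Y) = x Y := by
      rw [hxs]
      unfold Sec.brk
      rw [if_pos ⟨mem_insert_self _ _, fun t => (mem_insert.1 t).elim huv huY⟩,
        erase_insert hvY]
    rw [← h1]
    exact hs.2 _
  · rw [hx.supp Y hY]
    exact IsDeg.zero r q

end Pool.Agent.Work.MP_1233f5_ag.Y

end

section

/-! MP_1233f5_ag, block Y, item Exist: existence of sections with a given value. -/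

set_option autoImplicit false

namespace Pool.Agent.Work.MP_1233f5_ag.Y

open Finset
open Pool.Agent.Work.MP_1233f5_ag.Sec (Fk wd ct ee ff hh IsSec IsDeg swd brk)

namespace ExistX

/-- the elements of degree `q` -/
def Dg (K : Type) [Field K] (r q : ℕ) : Submodule K (Fk K) where
  carrier := {x | IsDeg r q x}
  add_mem' := fun hx hy => IsDeg.add hx hy
  zero_mem' := IsDeg.zero r q
  smul_mem' := fun c _ hx => IsDeg.smul c hx

/-- a stable operator, restricted -/
noncomputable def rs {K : Type} [Field K] {r q : ℕ} (T : Fk K →ₗ[K] Fk K)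
    (hT : ∀ x, IsDeg r q x → IsDeg r q (T x)) : Dg K r q →ₗ[K] Dg K r q :=
  T.restrict hT

theorem rs_coe {K : Type} [Field K] {r q : ℕ} (T : Fk K →ₗ[K] Fk K)
    (hT : ∀ x, IsDeg r q x → IsDeg r q (T x)) (x : Dg K r q) :
    ((rs T hT x : Dg K r q) : Fk K) = T (x : Fk K) := rfl

theorem rs_pow {K : Type} [Field K] {r q : ℕ} (T : Fk K →ₗ[K] Fk K)
    (hT : ∀ x, IsDeg r q x → IsDeg r q (T x)) (x : Dg K r q) (l : ℕ) :
    (((rs T hT ^ l) x : Dg K r q) : Fk K) = (T ^ l) (x : Fk K) := by
  induction l with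
  | zero => rfl
  | succ l ih =>
    rw [pow_succ', pow_succ', Module.End.mul_apply, Module.End.mul_apply, rs_coe, ih]

end ExistX

open ExistX

theorem prf_Exist : S_Exist := by
  intro K _ _ α _ _ r q R Y hY hq ε hε hw
  rcases Nat.lt_or_ge (r + 1) q with hrq | hrq
  · refine ⟨0, (Sc K r q R).zero_mem, ?_⟩
    rw [hε.eq_zero hrq]
    rfl
  · have hcard : (R \ Y).card + Y.card = R.card := card_sdiff_add_card_eq_card hY
    have hw' : hh K r ε = ((Y.card : K) - ((R \ Y).card : ℕ)) • ε := by
      rw [hw]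
      congr 1
      have h1 : (((R \ Y).card : ℕ) : K) + (Y.card : K) = (R.card : K) := by exact_mod_cast hcard
      rw [← h1]
      ring
    have hb : ((q : ℤ) * ((r : ℤ) + 1 - q)) < ((R \ Y).card : ℕ) + (Y.card : ℕ) + 2 := by
      have h2 : (q : ℤ) * r ≤ R.card + q * ((q : ℤ) - 1) := by
        rcases Nat.eq_zero_or_pos q with h0 | h0
        · subst h0
          simp
        · have h3 : ((q - 1 : ℕ) : ℤ) = (q : ℤ) - 1 := by omega
          rw [← h3]
          exact_mod_cast hq
      have h4 : ((R \ Y).card : ℤ) + (Y.card : ℤ) = (R.card : ℤ) := by exact_mod_cast hcard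
      nlinarith [h2, h4]
    obtain ⟨hn1, hn2⟩ := hε.nilp (R \ Y).card Y.card hw' hb
    have hS := Sec.sl_fock (K := K) r
    have hSl : Sec.Sl (rs (r := r) (q := q) (ee K r) (fun _ h => IsDeg.ee h))
        (rs (ff K r) (fun _ h => IsDeg.ff h)) (rs (hh K r) (fun _ h => IsDeg.hh h)) := by
      refine ⟨fun x => ?_, fun x => ?_, fun x => ?_⟩
      · apply Subtype.ext
        exact hS.ef (x : Fk K)
      · apply Subtype.ext
        exact hS.he (x : Fk K)
      · apply Subtype.ext
        exact hS.hf (x : Fk K)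
    obtain ⟨s, hs1, hs2, -⟩ := Sec.exists_sec hSl (R \ Y) Y sdiff_disjoint
      (⟨ε, hε⟩ : Dg K r q) (by apply Subtype.ext; exact hw')
      (by apply Subtype.ext; rw [rs_pow]; exact hn1)
      (by apply Subtype.ext; rw [rs_pow]; exact hn2)
    rw [sdiff_union_of_subset hY] at hs1
    refine ⟨fun Z => ((s Z : Dg K r q) : Fk K), ⟨⟨fun Z hZ => ?_, fun Z hZ => ?_,
      fun Z hZ => ?_⟩, fun Z => (s Z).2⟩, ?_⟩
    · rw [hs1.supp Z hZ]
      rfl
    · have h5 := congrArg (Subtype.val) (hs1.ee Z hZ)
      rw [rs_coe] at h5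
      rw [h5]
      exact map_sum (Dg K r q).subtype _ _
    · have h5 := congrArg (Subtype.val) (hs1.ff Z hZ)
      rw [rs_coe] at h5
      rw [h5]
      exact map_sum (Dg K r q).subtype _ _
    · exact congrArg Subtype.val hs2

end Pool.Agent.Work.MP_1233f5_ag.Y

end

section

/-! MP_1233f5_ag, block Y, item F3: one bracket suffices. -/

set_option autoImplicit false

namespace Pool.Agent.Work.MP_1233f5_ag.Y

open Finset
open Pool.Agent.Work.MP_1233f5_ag.Sec (Fk wd ct ee ff hh IsSec IsDeg swd brk)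

namespace F3X

section
variable {α : Type}

theorem sup_mul_swap [DecidableEq α] {Q : Finset α} {a b : α} (ha : a ∈ Q) (hb : b ∈ Q)
    (σ : Equiv.Perm α) : Sup Q (σ * Equiv.swap a b) ↔ Sup Q σ := by
  have h1 : ∀ c, c ∉ Q → Equiv.swap a b c = c := by
    intro c hc
    exact Equiv.swap_apply_of_ne_of_ne (fun h => hc (h ▸ ha)) (fun h => hc (h ▸ hb))
  constructor
  · intro h c hc
    have := h c hc
    rw [Equiv.Perm.mul_apply, h1 c hc] at this
    exact this
  · intro h c hc
    rw [Equiv.Perm.mul_apply, h1 c hc]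
    exact h c hc

variable {K : Type} [Field K] {H : Type} [AddCommGroup H] [Module K H]

theorem asym_swap [Fintype α] [DecidableEq α] (ρ : Equiv.Perm α →* Module.End K H)
    {Q : Finset α} {a b : α} (ha : a ∈ Q) (hb : b ∈ Q) (hab : a ≠ b) (h : H) :
    asym ρ Q (ρ (Equiv.swap a b) h) = -asym ρ Q h := by
  unfold asym
  rw [LinearMap.sum_apply, LinearMap.sum_apply, ← Finset.sum_neg_distrib]
  refine Finset.sum_equiv (Equiv.mulRight (Equiv.swap a b)) ?_ ?_
  · intro σ
    have e1 : (Equiv.mulRight (Equiv.swap a b)) σ = σ * Equiv.swap a b := rfl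
    rw [e1]
    simp only [Finset.mem_filter, Finset.mem_univ, true_and, sup_mul_swap ha hb]
  · intro σ _
    have e1 : (Equiv.mulRight (Equiv.swap a b)) σ = σ * Equiv.swap a b := rfl
    rw [e1, LinearMap.smul_apply, LinearMap.smul_apply, map_mul ρ, map_mul]
    have hs : @Equiv.Perm.sign α (fun a b => Classical.propDecidable (a = b)) _
        (Equiv.swap a b) = -1 := by
      have hI : ‹DecidableEq α› = fun a b => Classical.propDecidable (a = b) :=
        Subsingleton.elim _ _
      subst hI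
      exact @Equiv.Perm.sign_swap α (fun a b => Classical.propDecidable (a = b)) _ a b hab
    rw [hs]
    simp
end

section
variable {α : Type} [DecidableEq α] {K : Type} [Field K] {H : Type} [AddCommGroup H] [Module K H]

/-- the hypothesis on `u`, `v`, `h` -/
structure PP (ρ : Equiv.Perm α →* Module.End K H) (P : Finset α) (u v : α) (h : H) : Prop where
  hu : u ∈ P
  hv : v ∈ P
  ne : u ≠ v
  hs : ρ (Equiv.swap u v) h = -h
  hr : ∀ l ∈ P, l ≠ u → l ≠ v → h = ρ (Equiv.swap u l) h + ρ (Equiv.swap v l) h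

variable {ρ : Equiv.Perm α →* Module.End K H} {P : Finset α} {u v : α} {h : H}

theorem PP.symm (H1 : PP ρ P u v h) : PP ρ P v u h :=
  ⟨H1.hv, H1.hu, H1.ne.symm, by rw [Equiv.swap_comm]; exact H1.hs, fun l hl h1 h2 => by
    rw [add_comm]; exact H1.hr l hl h2 h1⟩

theorem PP.next (H1 : PP ρ P u v h) {l : α} (hl : l ∈ P) (hlu : l ≠ u) (hlv : l ≠ v) :
    PP ρ P u l (ρ (Equiv.swap v l) h) := by
  have mm : ∀ (a b : Equiv.Perm α) (x : H), ρ a (ρ b x) = ρ (a * b) x := by
    intro a b x
    rw [map_mul]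
    rfl
  refine ⟨H1.hu, hl, hlu.symm, ?_, ?_⟩
  · have e : Equiv.swap v l * Equiv.swap u v = Equiv.swap u l * Equiv.swap v l := by
      rw [Equiv.mul_swap_eq_swap_mul, Equiv.swap_apply_of_ne_of_ne H1.ne hlu.symm,
        Equiv.swap_apply_left]
    rw [mm, ← e, ← mm, H1.hs, map_neg]
  · intro m hm hmu hml
    by_cases hmv : m = v
    · subst hmv
      have e : Equiv.swap u m * Equiv.swap m l = Equiv.swap u l * Equiv.swap u m := by
        rw [Equiv.mul_swap_eq_swap_mul, Equiv.swap_apply_right,
          Equiv.swap_apply_of_ne_of_ne hlu hlv]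
      have e2 : Equiv.swap l m * Equiv.swap m l = 1 := by
        rw [Equiv.swap_comm l m, Equiv.swap_mul_self]
      rw [mm, mm, e, e2, map_one, ← mm, H1.hs, map_neg]
      have h3 := H1.hr l hl hlu hlv
      have h4 : (1 : Module.End K H) h = h := rfl
      rw [h4]
      nth_rewrite 3 [h3]
      abel
    · have h3 := H1.hr m hm hmu hmv
      have e1 : Equiv.swap v l * Equiv.swap u m = Equiv.swap u m * Equiv.swap v l := by
        rw [Equiv.mul_swap_eq_swap_mul, Equiv.swap_apply_of_ne_of_ne H1.ne hlu.symm,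
          Equiv.swap_apply_of_ne_of_ne hmv hml]
      have e2 : Equiv.swap v l * Equiv.swap v m = Equiv.swap l m * Equiv.swap v l := by
        rw [Equiv.mul_swap_eq_swap_mul, Equiv.swap_apply_left,
          Equiv.swap_apply_of_ne_of_ne hmv hml]
      rw [mm, mm, ← e1, ← e2, ← mm, ← mm, ← map_add, ← h3]

variable [Fintype α] [CharZero K]

theorem zero_of_two {Q : Finset α} (H1 : PP ρ P u v h) (hQ : Q ⊆ P) (hc : Q.card = 3)
    (hu : u ∈ Q) (hv : v ∈ Q) : asym ρ Q h = 0 := by
  have h2 : ∃ l ∈ Q, l ≠ u ∧ l ≠ v := by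
    have h3 : 0 < ((Q.erase u).erase v).card := by
      rw [Finset.card_erase_of_mem (Finset.mem_erase.2 ⟨H1.ne.symm, hv⟩),
        Finset.card_erase_of_mem hu, hc]
      norm_num
    obtain ⟨l, hl⟩ := Finset.card_pos.1 h3
    rw [Finset.mem_erase, Finset.mem_erase] at hl
    exact ⟨l, hl.2.2, hl.2.1, hl.1⟩
  obtain ⟨l, hl, hlu, hlv⟩ := h2
  have e := congrArg (asym ρ Q) (H1.hr l (hQ hl) hlu hlv)
  rw [map_add, asym_swap ρ hu hl hlu.symm, asym_swap ρ hv hl hlv.symm] at e
  have e3 : (3 : K) • asym ρ Q h = 0 := by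
    have : (3 : K) • asym ρ Q h = asym ρ Q h + (asym ρ Q h + asym ρ Q h) := by
      rw [show (3 : K) = 1 + (1 + 1) by norm_num, add_smul, add_smul, one_smul]
    rw [this]
    nth_rewrite 1 [e]
    abel
  exact (smul_eq_zero.1 e3).resolve_left (by norm_num)

theorem zero_of_one {Q : Finset α} (H1 : PP ρ P u v h) (hQ : Q ⊆ P) (hc : Q.card = 3)
    (hu : u ∈ Q) : asym ρ Q h = 0 := by
  by_cases hv : v ∈ Q
  · exact zero_of_two H1 hQ hc hu hv
  · obtain ⟨l, hl⟩ : (Q.erase u).Nonempty := by
      rw [← Finset.card_pos, Finset.card_erase_of_mem hu, hc]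
      norm_num
    rw [Finset.mem_erase] at hl
    have hlv : l ≠ v := fun h => hv (h ▸ hl.2)
    have e := congrArg (asym ρ Q) (H1.hr l (hQ hl.2) hl.1 hlv)
    rw [map_add, asym_swap ρ hu hl.2 hl.1.symm,
      zero_of_two (H1.next (hQ hl.2) hl.1 hlv) hQ hc hu hl.2, add_zero] at e
    have e3 : (2 : K) • asym ρ Q h = 0 := by
      rw [two_smul]
      nth_rewrite 1 [e]
      abel
    exact (smul_eq_zero.1 e3).resolve_left (by norm_num)

theorem zero_all {Q : Finset α} (H1 : PP ρ P u v h) (hQ : Q ⊆ P) (hc : Q.card = 3) :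
    asym ρ Q h = 0 := by
  by_cases hu : u ∈ Q
  · exact zero_of_one H1 hQ hc hu
  by_cases hv : v ∈ Q
  · exact zero_of_one H1.symm hQ hc hv
  obtain ⟨l, hl⟩ : Q.Nonempty := by
    rw [← Finset.card_pos, hc]
    norm_num
  have hlu : l ≠ u := fun h => hu (h ▸ hl)
  have hlv : l ≠ v := fun h => hv (h ▸ hl)
  rw [H1.hr l (hQ hl) hlu hlv, map_add,
    zero_of_one (H1.next (hQ hl) hlu hlv).symm hQ hc hl,
    zero_of_one (H1.symm.next (hQ hl) hlv hlu).symm hQ hc hl, add_zero]

end

end F3X

theorem prf_F3 : S_F3 := by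
  intro K _ _ α _ _ H _ _ ρ P h u v hu hv huv hs hr Q hQ hc
  exact F3X.zero_all ⟨hu, hv, huv, hs, hr⟩ hQ hc

end Pool.Agent.Work.MP_1233f5_ag.Y

end

section

/-! MP_1233f5_ag, block Y, item Kos: the Koszul step. -/

set_option autoImplicit false

namespace Pool.Agent.Work.MP_1233f5_ag.Y

open Finset
open Pool.Agent.Work.MP_1233f5_ag.Sec (Fk wd ct ee ff hh IsSec IsDeg swd brk)

theorem prf_Kos : S_Kos := by
  intro K _ _ H _ _ r k f hf c hc h0
  obtain ⟨X, hX⟩ : ∃ X, X = ∑ t ∈ range (r + 1), f t (c t) := ⟨_, rfl⟩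
  rw [← hX]
  have h1 : ((k + 1 : ℕ) : K) • X = ∑ t ∈ range (r + 1), ∑ s ∈ range (r + 1),
      f t (wd s (ct s (c t))) := by
    rw [hX, smul_sum]
    refine sum_congr rfl fun t ht => ?_
    have ht' : t ≤ r := by
      rw [mem_range] at ht
      omega
    rw [← map_sum, Sec.IsDeg.num (hc t ht'), map_smul]
  have h2 : ∀ s ∈ range (r + 1), ∑ t ∈ range (r + 1), f t (wd s (ct s (c t))) = -f s (c s) := by
    intro s hs
    have hs' : s ≤ r := by
      rw [mem_range] at hs
      omega
    have h3 : ∀ t ∈ range (r + 1), f t (wd s (ct s (c t))) =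
        f s (ct s (wd t (c t))) - f s (if s = t then c t else 0) := by
      intro t ht
      have ht' : t ≤ r := by
        rw [mem_range] at ht
        omega
      have h4 := hf s hs' t ht' (ct s (c t)) ((hc t ht').ct s)
      have h5 := Sec.ct_wd s t (c t)
      rw [← h5, map_add]
      rw [eq_neg_of_add_eq_zero_left h4]
      abel
    rw [sum_congr rfl h3, sum_sub_distrib, ← map_sum, ← map_sum, h0, map_zero, map_zero, zero_sub,
      ← map_sum, sum_ite_eq, if_pos hs]
  rw [sum_comm, sum_congr rfl h2, sum_neg_distrib, ← hX] at h1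
  have hk : ((k + 2 : ℕ) : K) ≠ 0 := by exact_mod_cast (Nat.succ_ne_zero (k + 1))
  have h6 : ((k + 2 : ℕ) : K) • X = 0 := by
    have h7 : ((k + 2 : ℕ) : K) • X = ((k + 1 : ℕ) : K) • X + X := by
      push_cast
      module
    rw [h7, h1, neg_add_cancel]
  exact (smul_eq_zero.1 h6).resolve_left hk

end Pool.Agent.Work.MP_1233f5_ag.Y

end

section

/-! MP_1233f5_ag, block Y: the linear algebra statement LA. -/

set_option autoImplicit false

namespace Pool.Agent.Work.MP_1233f5_ag.Y

open Finset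
open Pool.Agent.Work.MP_1233f5_ag.Sec (Fk wd ct ee ff hh IsSec IsDeg swd brk)

namespace LAX

variable {K : Type} [Field K]

/-- free of the last basis vector. -/
def Fr (r : ℕ) (x : Fk K) : Prop := ∀ S : Finset ℕ, r ∈ S → x S = 0

theorem Fr.wd {r s : ℕ} (hs : s ≠ r) {x : Fk K} (hx : Fr r x) : Fr r (Sec.wd s x) := by
  intro S hS
  rw [Sec.wd_apply]
  split_ifs with h
  · rw [hx _ (mem_erase.2 ⟨fun q => hs q.symm, hS⟩), mul_zero]
  · rfl

theorem fr_ct (r : ℕ) (x : Fk K) : Fr r (Sec.ct r x) := by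
  intro S hS
  rw [Sec.ct_apply, if_pos hS]

theorem fr_sub (r : ℕ) (x : Fk K) : Fr r (x - Sec.wd r (Sec.ct r x)) := by
  intro S hS
  rw [Pi.sub_apply, Sec.wd_ct_self, if_pos hS, sub_self]

theorem Fr.deg {r k : ℕ} {x : Fk K} (hx : Fr (r + 1) x) (hd : IsDeg (r + 1) k x) :
    IsDeg r k x := by
  intro S hS
  obtain ⟨h1, h2⟩ := hd S hS
  refine ⟨fun i hi => ?_, h2⟩
  have h3 := mem_range.1 (h1 hi)
  rw [mem_range]
  rcases Nat.lt_or_ge i (r + 1) with h | h
  · exact h
  · have h4 : i = r + 1 := by omega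
    exact absurd (hx S (h4 ▸ hi)) hS

theorem deg_up {r k : ℕ} {x : Fk K} (hd : IsDeg r k x) : IsDeg (r + 1) k x ∧ Fr (r + 1) x := by
  refine ⟨fun S hS => ?_, fun S hS => ?_⟩
  · obtain ⟨h1, h2⟩ := hd S hS
    exact ⟨fun i hi => mem_range.2 (by have := mem_range.1 (h1 hi); omega), h2⟩
  · by_contra h
    have := mem_range.1 ((hd S h).1 hS)
    omega

theorem fr_zero {k : ℕ} {x : Fk K} (hx : Fr 0 x) (hd : IsDeg 0 (k + 1) x) : x = 0 := by
  funext S
  by_contra h
  obtain ⟨h1, h2⟩ := hd S h
  obtain ⟨i, hi⟩ : S.Nonempty := by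
    rw [← card_pos]
    omega
  have h3 : i = 0 := by
    have := mem_range.1 (h1 hi)
    omega
  exact h (hx S (h3 ▸ hi))

/-- the number of slots of the block `j` at the last basis vector. -/
def cn (r : ℕ) (I : Finset (ℕ × ℕ)) (j : ℕ) (t : ℕ × ℕ → ℕ) : ℕ :=
  ((sl I j).filter (fun i => t i = r)).card

theorem cn_congr {r : ℕ} {I : Finset (ℕ × ℕ)} {j : ℕ} {t t' : ℕ × ℕ → ℕ}
    (h : ∀ i ∈ sl I j, t i = t' i) : cn r I j t = cn r I j t' := by
  unfold cn
  congr 1
  refine filter_congr fun i hi => ?_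
  rw [h i hi]

theorem cn_update {r : ℕ} {I : Finset (ℕ × ℕ)} {j : ℕ} {t : ℕ × ℕ → ℕ} {i : ℕ × ℕ}
    (hi : i ∈ sl I j) (ht : t i ≠ r) : cn r I j (Function.update t i r) = cn r I j t + 1 := by
  unfold cn
  have h1 : (sl I j).filter (fun l => Function.update t i r l = r) =
      insert i ((sl I j).filter (fun l => t l = r)) := by
    ext l
    rw [mem_filter, mem_insert, mem_filter]
    by_cases hl : l = i
    · subst hl
      rw [Function.update_self]
      exact ⟨fun _ => Or.inl rfl, fun _ => ⟨hi, rfl⟩⟩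
    · rw [Function.update_of_ne hl]
      exact ⟨fun q => Or.inr q, fun q => q.resolve_left hl⟩
  have h2 : i ∉ (sl I j).filter (fun l => t l = r) := fun q => ht (mem_filter.1 q).2
  rw [h1, card_insert_of_notMem h2]

variable {H : Type} [AddCommGroup H] [Module K H]

/-- the exchange hypothesis. -/
def Ex (r k : ℕ) (I : Finset (ℕ × ℕ)) (f : (ℕ × ℕ → ℕ) → (Fk K →ₗ[K] H)) : Prop :=
  ∀ j ∈ I.image Prod.fst, ∀ t : ℕ × ℕ → ℕ, (∀ i ∈ I, t i ≤ r) →
    ∀ s ≤ r, ∀ x, IsDeg r k x →
    f t (Sec.wd s x) + ∑ i ∈ sl I j, f (Function.update t i s) (Sec.wd (t i) x) = 0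

theorem upd_le {r : ℕ} {I : Finset (ℕ × ℕ)} {t : ℕ × ℕ → ℕ} (ht : ∀ i ∈ I, t i ≤ r)
    (l : ℕ × ℕ) {s : ℕ} (hs : s ≤ r) : ∀ i ∈ I, Function.update t l s i ≤ r := by
  intro i hi
  by_cases h : i = l
  · subst h
    rw [Function.update_self]
    exact hs
  · rw [Function.update_of_ne h]
    exact ht i hi

/-- `alpha_c` from `beta_(c+1)`. -/
theorem alpha [CharZero K] {r k : ℕ} {I : Finset (ℕ × ℕ)} {f : (ℕ × ℕ → ℕ) → (Fk K →ₗ[K] H)}
    (hex : Ex r k I f) {j : ℕ} (hj : j ∈ I.image Prod.fst) {c : ℕ}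
    (hb : ∀ t : ℕ × ℕ → ℕ, (∀ i ∈ I, t i ≤ r) → c + 1 ≤ cn r I j t → ∀ z, IsDeg r (k + 1) z →
      Fr r z → f t z = 0)
    {t : ℕ × ℕ → ℕ} (ht : ∀ i ∈ I, t i ≤ r) (hc : c ≤ cn r I j t) {y : Fk K}
    (hy : IsDeg r k y) (hf : Fr r y) : f t (Sec.wd r y) = 0 := by
  have h1 := hex j hj t ht r le_rfl y hy
  have h2 : ∀ i ∈ sl I j, f (Function.update t i r) (Sec.wd (t i) y) =
      if t i = r then f t (Sec.wd r y) else 0 := by
    intro i hi
    have hiI : i ∈ I := (mem_filter.1 hi).1
    split_ifs with h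
    · rw [h]
      congr 2
      nth_rewrite 1 [← h]
      exact Function.update_eq_self i t
    · refine hb _ (upd_le ht i le_rfl) ?_ _ (hy.wd (ht i hiI)) (hf.wd h)
      rw [cn_update hi h]
      omega
  rw [sum_congr rfl h2, ← sum_filter, sum_const, ← Nat.cast_smul_eq_nsmul K] at h1
  have h3 : (((cn r I j t : ℕ) : K) + 1) • f t (Sec.wd r y) = 0 := by
    rw [add_smul, one_smul, add_comm]
    exact h1
  exact (smul_eq_zero.1 h3).resolve_left (Nat.cast_add_one_ne_zero (cn r I j t))

theorem main [CharZero K] (r : ℕ) : ∀ (k : ℕ) (I : Finset (ℕ × ℕ))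
    (f : (ℕ × ℕ → ℕ) → (Fk K →ₗ[K] H)), r + 2 ≤ k + 1 + (I.image Prod.fst).card →
    Ex r k I f → ∀ t : ℕ × ℕ → ℕ, (∀ i ∈ I, t i ≤ r) → ∀ x, IsDeg r (k + 1) x → f t x = 0 := by
  induction r with
  | zero =>
    intro k I f hk hex t ht x hx
    rcases (I.image Prod.fst).eq_empty_or_nonempty with h0 | ⟨j, hj⟩
    · rw [h0, card_empty] at hk
      rw [hx.eq_zero (by omega), map_zero]
    · have key : ∀ n c : ℕ, n + c = (sl I j).card + 1 → ∀ t : ℕ × ℕ → ℕ, (∀ i ∈ I, t i ≤ 0) →
          c ≤ cn 0 I j t → ∀ y, IsDeg 0 k y → Fr 0 y → f t (Sec.wd 0 y) = 0 := by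
        intro n
        induction n with
        | zero =>
          intro c hc t _ hct
          have : cn 0 I j t ≤ (sl I j).card := card_filter_le _ _
          omega
        | succ n ih =>
          intro c hc t ht hct y hy hf
          refine alpha hex hj (c := c) ?_ ht hct hy hf
          intro t' _ _ z hz hfz
          rw [fr_zero hfz hz, map_zero]
      have h1 : x = Sec.wd 0 (Sec.ct 0 x) + (x - Sec.wd 0 (Sec.ct 0 x)) := by abel
      have h2 : x - Sec.wd 0 (Sec.ct 0 x) = 0 :=
        fr_zero (fr_sub 0 x) (hx.sub ((hx.ct 0).wd le_rfl))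
      rw [h1, h2, add_zero]
      exact key ((sl I j).card + 1) 0 (by omega) t ht (Nat.zero_le _) _ (hx.ct 0) (fr_ct 0 x)
  | succ r IH =>
    intro k I f hk hex t ht x hx
    rcases (I.image Prod.fst).eq_empty_or_nonempty with h0 | ⟨j, hj⟩
    · rw [h0, card_empty] at hk
      rw [hx.eq_zero (by omega), map_zero]
    · have key : ∀ n c : ℕ, n + c = (sl I j).card + 1 →
          (∀ t : ℕ × ℕ → ℕ, (∀ i ∈ I, t i ≤ r + 1) →
            c ≤ cn (r + 1) I j t → ∀ y, IsDeg (r + 1) k y → Fr (r + 1) y →
              f t (Sec.wd (r + 1) y) = 0) ∧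
          (∀ t : ℕ × ℕ → ℕ, (∀ i ∈ I, t i ≤ r + 1) →
            c ≤ cn (r + 1) I j t → ∀ z, IsDeg (r + 1) (k + 1) z → Fr (r + 1) z →
              f t z = 0) := by
        intro n
        induction n with
        | zero =>
          intro c hc
          have h9 : ∀ t : ℕ × ℕ → ℕ, ¬ c ≤ cn (r + 1) I j t := fun t hct => by
            have : cn (r + 1) I j t ≤ (sl I j).card := card_filter_le _ _
            omega
          exact ⟨fun t _ hct => absurd hct (h9 t), fun t _ hct => absurd hct (h9 t)⟩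
        | succ n ih =>
          intro c hc
          have hal : ∀ t : ℕ × ℕ → ℕ, (∀ i ∈ I, t i ≤ r + 1) →
              c ≤ cn (r + 1) I j t → ∀ y, IsDeg (r + 1) k y → Fr (r + 1) y →
                f t (Sec.wd (r + 1) y) = 0 := fun t ht hct y hy hf =>
            alpha hex hj (c := c) (fun t' ht' hc' z hz hfz =>
              (ih (c + 1) (by omega)).2 t' ht' hc' z hz hfz) ht hct hy hf
          refine ⟨hal, ?_⟩
          intro t0 ht0 hct0 z hz hfz
          have hz' : IsDeg r (k + 1) z := hfz.deg hz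
          by_cases hA : ∃ j' ∈ I.image Prod.fst, j' ≠ j ∧ ∀ i ∈ sl I j', t0 i = r + 1
          · -- case A
            obtain ⟨j', hj', hne, hall⟩ := hA
            have h1 : ∀ s ≤ r, ∀ y, IsDeg r k y → f t0 (Sec.wd s y) = 0 := by
              intro s hs y hy
              obtain ⟨hy1, hy2⟩ := deg_up hy
              have h2 := hex j' hj' t0 ht0 s (by omega) y hy1
              have h3 : ∀ i ∈ sl I j', f (Function.update t0 i s) (Sec.wd (t0 i) y) = 0 := by
                intro i hi
                rw [hall i hi]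
                refine hal _ (upd_le ht0 i (by omega)) ?_ y hy1 hy2
                rw [cn_congr (t' := t0)]
                · exact hct0
                · intro l hl
                  have h4 : l ≠ i := by
                    rintro rfl
                    exact hne ((mem_filter.1 hi).2.symm.trans (mem_filter.1 hl).2)
                  rw [Function.update_of_ne h4]
              rw [sum_eq_zero h3, add_zero] at h2
              exact h2
            rw [hz'.eq_sum, map_sum]
            refine sum_eq_zero fun s hs => ?_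
            exact h1 s (by have := mem_range.1 hs; omega) _ ((hz'.ct s).smul _)
          · -- case B
            push Not at hA
            obtain ⟨I1, hI1⟩ : ∃ I1, I1 = I.filter (fun i => i.1 ≠ j ∧ t0 i ≠ r + 1) := ⟨_, rfl⟩
            have hI1m : ∀ i, i ∈ I1 ↔ i ∈ I ∧ i.1 ≠ j ∧ t0 i ≠ r + 1 := fun i => by
              rw [hI1, mem_filter]
            have him : I1.image Prod.fst = (I.image Prod.fst).erase j := by
              ext j'
              rw [mem_image, mem_erase]
              constructor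
              · rintro ⟨i, hi, rfl⟩
                rw [hI1m] at hi
                exact ⟨hi.2.1, mem_image_of_mem _ hi.1⟩
              · rintro ⟨h1, h2⟩
                obtain ⟨i, hi, hti⟩ := hA j' h2 h1
                have hi' := mem_filter.1 hi
                exact ⟨i, (hI1m i).2 ⟨hi'.1, hi'.2.symm ▸ h1, hti⟩, hi'.2⟩
            have hcard : (I1.image Prod.fst).card + 1 = (I.image Prod.fst).card := by
              rw [him, card_erase_of_mem hj]
              have : 0 < (I.image Prod.fst).card := card_pos.2 ⟨j, hj⟩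
              omega
            have hIH := IH k I1 (fun t1 => f (fun i => if i ∈ I1 then t1 i else t0 i))
              (by omega) ?_ t0 ?_ z hz'
            · have h5 : (fun i => if i ∈ I1 then t0 i else t0 i) = t0 := by
                funext i
                split_ifs <;> rfl
              simp only [h5] at hIH
              exact hIH
            · intro j' hj' t1 ht1 s hs y hy
              obtain ⟨hy1, hy2⟩ := deg_up hy
              rw [him, mem_erase] at hj'
              obtain ⟨T, hT⟩ : ∃ T : ℕ × ℕ → ℕ, T = fun i => if i ∈ I1 then t1 i else t0 i :=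
                ⟨_, rfl⟩
              have hT1 : ∀ i ∈ I1, T i = t1 i := fun i hi => by rw [hT]; exact if_pos hi
              have hT0 : ∀ i, i ∉ I1 → T i = t0 i := fun i hi => by rw [hT]; exact if_neg hi
              have hTv : ∀ i ∈ I, T i ≤ r + 1 := by
                intro i hi
                by_cases h6 : i ∈ I1
                · rw [hT1 i h6]
                  exact (ht1 i h6).trans (by omega)
                · rw [hT0 i h6]
                  exact ht0 i hi
              have h2 := hex j' hj'.2 T hTv s (by omega) y hy1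
              have hsub : sl I1 j' ⊆ sl I j' := by
                intro i hi
                have hi' := mem_filter.1 hi
                exact mem_filter.2 ⟨((hI1m i).1 hi'.1).1, hi'.2⟩
              have h3 : ∑ i ∈ sl I j', f (Function.update T i s) (Sec.wd (T i) y) =
                  ∑ i ∈ sl I1 j', f (Function.update T i s) (Sec.wd (T i) y) := by
                refine (sum_subset hsub fun i hi hi1 => ?_).symm
                have hi' := mem_filter.1 hi
                have hiI1 : i ∉ I1 := fun q => hi1 (mem_filter.2 ⟨q, hi'.2⟩)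
                have hti : t0 i = r + 1 := by
                  by_contra h7
                  exact hiI1 ((hI1m i).2 ⟨hi'.1, hi'.2.symm ▸ hj'.1, h7⟩)
                rw [hT0 i hiI1, hti]
                refine hal _ (upd_le hTv i (by omega)) ?_ y hy1 hy2
                rw [cn_congr (t' := t0)]
                · exact hct0
                · intro l hl
                  have hl' := mem_filter.1 hl
                  have h4 : l ≠ i := by
                    rintro rfl
                    exact hj'.1 (hi'.2.symm.trans hl'.2)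
                  rw [Function.update_of_ne h4, hT0]
                  exact fun q => ((hI1m l).1 q).2.1 hl'.2
              rw [h3] at h2
              have h8 : (fun i => if i ∈ I1 then t1 i else t0 i) = T := hT.symm
              have h9 : ∀ i ∈ sl I1 j', f (fun l => if l ∈ I1 then Function.update t1 i s l
                  else t0 l) (Sec.wd (t1 i) y) = f (Function.update T i s) (Sec.wd (T i) y) := by
                intro i hi
                have hiI : i ∈ I1 := (mem_filter.1 hi).1
                rw [hT1 i hiI]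
                congr 2
                funext l
                by_cases hl : l = i
                · subst hl
                  rw [Function.update_self, Function.update_self, if_pos hiI]
                · rw [Function.update_of_ne hl, Function.update_of_ne hl, hT]
              beta_reduce
              rw [sum_congr rfl h9, h8]
              exact h2
            · intro i hi
              have h6 := (hI1m i).1 hi
              have h7 := ht0 i h6.1
              have h8 := h6.2.2
              omega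
      have h1 : x = Sec.wd (r + 1) (Sec.ct (r + 1) x) + (x - Sec.wd (r + 1) (Sec.ct (r + 1) x)) := by
        abel
      rw [h1, map_add]
      obtain ⟨ka, kb⟩ := key ((sl I j).card + 1) 0 (by omega)
      rw [ka t ht (Nat.zero_le _) _ (hx.ct _) (fr_ct _ x),
        kb t ht (Nat.zero_le _) _ (hx.sub ((hx.ct _).wd le_rfl)) (fr_sub _ x), add_zero]

end LAX

theorem prf_LA : S_LA := by
  intro K _ _ H _ _ r k I f hk hex t ht ht0 x hx
  have h1 := LAX.main r k I (fun t' => f (fun i => if i ∈ I then t' i else 0)) hk ?_ t ht x hx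
  · have h2 : (fun i => if i ∈ I then t i else 0) = t := by
      funext i
      split_ifs with h
      · rfl
      · exact (ht0 i h).symm
    simp only [h2] at h1
    exact h1
  · intro j hj t' ht' s hs y hy
    obtain ⟨T, hT⟩ : ∃ T : ℕ × ℕ → ℕ, T = fun i => if i ∈ I then t' i else 0 := ⟨_, rfl⟩
    have hT1 : ∀ i ∈ I, T i = t' i := fun i hi => by rw [hT]; exact if_pos hi
    have h2 := hex j hj T (fun i hi => by rw [hT1 i hi]; exact ht' i hi)
      (fun i hi => by rw [hT]; exact if_neg hi) s hs y hy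
    have h9 : ∀ i ∈ sl I j, f (fun l => if l ∈ I then Function.update t' i s l
        else 0) (wd (t' i) y) = f (Function.update T i s) (wd (T i) y) := by
      intro i hi
      have hiI : i ∈ I := (mem_filter.1 hi).1
      rw [hT1 i hiI]
      congr 2
      funext l
      by_cases hl : l = i
      · subst hl
        rw [Function.update_self, Function.update_self, if_pos hiI]
      · rw [Function.update_of_ne hl, Function.update_of_ne hl, hT]
    beta_reduce
    rw [sum_congr rfl h9, ← hT]
    exact h2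

end Pool.Agent.Work.MP_1233f5_ag.Y

end

section

set_option autoImplicit false

namespace Pool.Agent.Work.MP_1233f5_ag.Y

open Finset
open Pool.Agent.Work.MP_1233f5_ag.Sec (Fk wd ct ee ff hh IsSec IsDeg swd brk)

namespace PlkX

theorem swd_insert {K : Type} [Field K] {α : Type} [DecidableEq α] (a : α) (n Y : Finset α)
    (h : a ∉ n) (w : Finset α → Fk K) :
    swd (insert a n) w Y = wd ((n ∩ Y).card + if a ∈ Y then 1 else 0) (w ((Y \ n).erase a)) := by
  have h1 : Y \ insert a n = (Y \ n).erase a := by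
    ext b
    simp only [mem_sdiff, mem_insert, mem_erase]
    tauto
  have h2 : (insert a n ∩ Y).card = (n ∩ Y).card + if a ∈ Y then 1 else 0 := by
    by_cases ha : a ∈ Y
    · rw [if_pos ha, insert_inter_of_mem ha, card_insert_of_notMem]
      simp [h]
    · rw [if_neg ha, insert_inter_of_notMem ha, add_zero]
  unfold Sec.swd
  rw [h1, h2]

end PlkX

theorem prf_Plk : S_Plk := by
  intro K _ α _ u v l n x huv hul hvl hu hv hl
  funext Y
  rw [Pi.add_apply, Pi.add_apply, Pi.zero_apply, PlkX.swd_insert l n Y hl,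
    PlkX.swd_insert u n Y hu, PlkX.swd_insert v n Y hv]
  have mu : u ∈ Y \ n ↔ u ∈ Y := by simp [hu]
  have mv : v ∈ Y \ n ↔ v ∈ Y := by simp [hv]
  have ml : l ∈ Y \ n ↔ l ∈ Y := by simp [hl]
  generalize (n ∩ Y).card = c
  generalize Y \ n = Z at *
  have e1 : ∀ a b : α, (Z.erase a).erase b = (Z.erase b).erase a := fun a b => erase_right_comm
  by_cases h1 : u ∈ Y <;> by_cases h2 : v ∈ Y <;> by_cases h3 : l ∈ Y <;>
    simp only [h1, h2, h3, iff_true, iff_false] at mu mv ml <;>
    simp [Sec.brk, h1, h2, h3, mu, mv, ml, huv, hul, hvl, huv.symm, hul.symm, hvl.symm, e1 l u,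
      e1 v u, e1 l v]

end Pool.Agent.Work.MP_1233f5_ag.Y

end

section

/-! MP_1233f5_ag, block Y, item Rep1: generation by invariants and by vectors antisymmetric
in two points. -/

set_option autoImplicit false

namespace Pool.Agent.Work.MP_1233f5_ag.Y

open Finset

namespace Rep1X

variable {α : Type}

theorem sup_one (P : Finset α) : Sup P (1 : Equiv.Perm α) := fun _ _ => rfl

theorem sup_mul {P : Finset α} {σ τ : Equiv.Perm α} (hσ : Sup P σ) (hτ : Sup P τ) :
    Sup P (σ * τ) := by
  intro a ha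
  rw [Equiv.Perm.mul_apply, hτ a ha, hσ a ha]

theorem sup_inv {P : Finset α} {σ : Equiv.Perm α} (hσ : Sup P σ) : Sup P σ⁻¹ := by
  intro a ha
  rw [Equiv.Perm.inv_eq_iff_eq]
  exact (hσ a ha).symm

theorem sup_swap [DecidableEq α] {P : Finset α} {u v : α} (hu : u ∈ P) (hv : v ∈ P) :
    Sup P (Equiv.swap u v) := by
  intro a ha
  apply Equiv.swap_apply_of_ne_of_ne
  · rintro rfl
    exact ha hu
  · rintro rfl
    exact ha hv

theorem diff_mem {K : Type} [Field K] [CharZero K] [Fintype α] [DecidableEq α] {H : Type}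
    [AddCommGroup H] [Module K H] (ρ : Equiv.Perm α →* Module.End K H) (P : Finset α)
    (Z B : Submodule K H) (hZ : ∀ σ, Sup P σ → ∀ z ∈ Z, ρ σ z ∈ Z)
    (hB : ∀ σ, Sup P σ → ∀ z ∈ B, ρ σ z ∈ B)
    (hA : ∀ u ∈ P, ∀ v ∈ P, u ≠ v → ∀ z ∈ Z, ρ (Equiv.swap u v) z = -z → z ∈ B)
    (σ : Equiv.Perm α) (hσ : Sup P σ) (z : H) (hz : z ∈ Z) : z - ρ σ z ∈ B := by
  classical
  have hA' : ∀ u ∈ P, ∀ v ∈ P, u ≠ v → ∀ z ∈ Z, z - ρ (Equiv.swap u v) z ∈ B := by
    intro u hu v hv huv z hz
    apply hA u hu v hv huv _ (Z.sub_mem hz (hZ _ (sup_swap hu hv) z hz))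
    have h2 : ρ (Equiv.swap u v) (ρ (Equiv.swap u v) z) = z := by
      rw [← Module.End.mul_apply, ← map_mul, Equiv.swap_mul_self, map_one, Module.End.one_apply]
    rw [map_sub, h2, neg_sub]
  have key : ∀ τ : Equiv.Perm {a : α // a ∈ P},
      z - ρ (Equiv.Perm.ofSubtype τ) z ∈ B := by
    intro τ
    induction τ using Equiv.Perm.swap_induction_on with
    | one =>
      rw [map_one, map_one, Module.End.one_apply, sub_self]
      exact B.zero_mem
    | swap_mul f x y hxy ih =>
      have e : z - ρ (Equiv.Perm.ofSubtype (Equiv.swap x y * f)) z =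
          (z - ρ (Equiv.swap (x : α) (y : α)) z) +
            ρ (Equiv.swap (x : α) (y : α)) (z - ρ (Equiv.Perm.ofSubtype f) z) := by
        rw [map_mul, Equiv.Perm.ofSubtype_swap_eq, map_mul, Module.End.mul_apply, map_sub]
        abel
      rw [e]
      refine B.add_mem (hA' _ x.2 _ y.2 (fun h => hxy (Subtype.ext h)) z hz)
        (hB _ (sup_swap x.2 y.2) _ ih)
  have h1 : ∀ x, σ x ∈ P ↔ x ∈ P := by
    intro x
    constructor
    · intro hx
      by_contra hn
      rw [hσ x hn] at hx
      exact hn hx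
    · intro hx
      by_contra hn
      have := hσ _ hn
      rw [σ.injective this] at hn
      exact hn hx
  have h2 : ∀ x, σ x ≠ x → x ∈ P := by
    intro x hx
    by_contra hn
    exact hx (hσ x hn)
  have := key (σ.subtypePerm h1)
  rwa [Equiv.Perm.ofSubtype_subtypePerm h1 h2] at this

end Rep1X

open Rep1X in
theorem prf_Rep1 : S_Rep1 := by
  classical
  intro K _ _ α _ _ H _ _ ρ P Z B hZ hB hI hA z hz
  set F : Finset (Equiv.Perm α) := univ.filter (fun σ => Sup P σ) with hF
  have hmem : ∀ σ, σ ∈ F ↔ Sup P σ := by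
    intro σ
    rw [hF, mem_filter]
    simp
  have hy : (∑ σ ∈ F, ρ σ z) ∈ B := by
    apply hI
    · exact Z.sum_mem (fun σ hσ => hZ σ ((hmem σ).1 hσ) z hz)
    · intro τ hτ
      rw [map_sum]
      refine Finset.sum_bij' (fun σ _ => τ * σ) (fun σ _ => τ⁻¹ * σ) ?_ ?_ ?_ ?_ ?_
      · intro σ hσ
        exact (hmem _).2 (sup_mul hτ ((hmem σ).1 hσ))
      · intro σ hσ
        exact (hmem _).2 (sup_mul (sup_inv hτ) ((hmem σ).1 hσ))
      · intro σ _
        simp
      · intro σ _
        simp
      · intro σ _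
        rw [map_mul, Module.End.mul_apply]
  have hd : (∑ σ ∈ F, (z - ρ σ z)) ∈ B :=
    B.sum_mem (fun σ hσ => diff_mem ρ P Z B hZ hB hA σ ((hmem σ).1 hσ) z hz)
  have hs : ((F.card : K)) • z ∈ B := by
    have e : ((F.card : K)) • z = (∑ σ ∈ F, (z - ρ σ z)) + ∑ σ ∈ F, ρ σ z := by
      rw [← Finset.sum_add_distrib]
      simp only [sub_add_cancel, Finset.sum_const]
      rw [Nat.cast_smul_eq_nsmul]
    rw [e]
    exact B.add_mem hd hy
  have hN : (F.card : K) ≠ 0 := by
    rw [Nat.cast_ne_zero]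
    exact Finset.card_ne_zero_of_mem ((hmem 1).2 (sup_one P))
  have := B.smul_mem ((F.card : K))⁻¹ hs
  rwa [smul_smul, inv_mul_cancel₀ hN, one_smul] at this

end Pool.Agent.Work.MP_1233f5_ag.Y

end

section

/-! Generation by vectors invariant under stabilizers of subsets and by vectors antisymmetric in
three points, for the permutations of a finite set `P`. -/

set_option autoImplicit false

namespace Pool.Agent.Work.MP_1233f5_ag.Y

open Finset
open Pool.Agent.Work.MP_1233f5_ag.Sec (Fk wd ct ee ff hh IsSec IsDeg swd brk)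

namespace Rep2X

variable {α : Type} [DecidableEq α] {P : Finset α}

theorem mem_iff {σ : Equiv.Perm α} (h : Sup P σ) (x : α) : σ x ∈ P ↔ x ∈ P := by
  constructor
  · intro hx
    by_contra hcon
    rw [h x hcon] at hx
    exact hcon hx
  · intro hx
    by_contra hcon
    have h1 := h _ hcon
    have h2 := σ.injective h1
    rw [h2] at hcon
    exact hcon hx

/-- the restriction to `P` -/
def rs {σ : Equiv.Perm α} (h : Sup P σ) : Equiv.Perm {a // a ∈ P} :=
  σ.subtypePerm (p := fun a => a ∈ P) (mem_iff h)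

theorem of_rs {σ : Equiv.Perm α} (h : Sup P σ) :
    Equiv.Perm.ofSubtype (p := fun a => a ∈ P) (rs h) = σ :=
  Equiv.Perm.ofSubtype_subtypePerm (p := fun a => a ∈ P) (mem_iff h) fun x hx => by
    by_contra hcon
    exact hx (h x hcon)

theorem rs_coe {σ : Equiv.Perm α} (h : Sup P σ) (a : {a // a ∈ P}) : (rs h a : α) = σ a := rfl

theorem sup_of (s : Equiv.Perm {a // a ∈ P}) :
    Sup P (Equiv.Perm.ofSubtype (p := fun a => a ∈ P) s) := fun _ ha =>
  Equiv.Perm.ofSubtype_apply_of_not_mem s ha

end Rep2X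

open Rep2X in
theorem prf_Rep2 (hRep : Pool.Agent.Work.MP_1233f5_ag.V.S_Rep) : S_Rep2 := by
  intro K _ _ α _ _ H _ _ ρ P Z B hZ hB hY hQ
  refine hRep K {a // a ∈ P} H (ρ.comp (Equiv.Perm.ofSubtype (p := fun a => a ∈ P))) Z B
    (fun σ z hz => hZ _ (sup_of σ) z hz) (fun σ z hz => hB _ (sup_of σ) z hz) 2 ?_ ?_
  · intro π z hz hinv
    set Y : Finset α := (univ.filter fun a : {a // a ∈ P} => π a = 0).map
      (Function.Embedding.subtype _) with hYdef
    have hmem : ∀ a : {a // a ∈ P}, (a : α) ∈ Y ↔ π a = 0 := by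
      intro a
      rw [hYdef, Finset.mem_map]
      constructor
      · rintro ⟨a', ha', h1⟩
        have h2 : a' = a := Subtype.ext h1
        rw [← h2]
        exact (Finset.mem_filter.1 ha').2
      · intro h1
        exact ⟨a, Finset.mem_filter.2 ⟨Finset.mem_univ _, h1⟩, rfl⟩
    refine hY Y ?_ z hz ?_
    · intro a ha
      rw [hYdef, Finset.mem_map] at ha
      obtain ⟨a', -, rfl⟩ := ha
      exact a'.2
    · rintro σ ⟨hs, him⟩
      have h1 := hinv (rs hs) ?_
      · rw [MonoidHom.comp_apply, of_rs] at h1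
        exact h1
      · intro a
        have h2 : π (rs hs a) = 0 ↔ π a = 0 := by
          rw [← hmem, ← hmem, rs_coe]
          conv_lhs => rw [← him]
          unfold im
          rw [Finset.mem_map_equiv, Equiv.symm_apply_apply]
        have h3 : ∀ i : Fin 2, i = 0 ∨ i = 1 := by decide
        rcases h3 (π a) with h4 | h4
        · rw [h4, h2.2 h4]
        · rcases h3 (π (rs hs a)) with h5 | h5
          · rw [h2.1 h5, h5]
          · rw [h4, h5]
  · intro Q hQc z hz hanti
    refine hQ (Q.map (Function.Embedding.subtype _)) ?_ ?_ z hz ?_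
    · intro a ha
      rw [Finset.mem_map] at ha
      obtain ⟨a', -, rfl⟩ := ha
      exact a'.2
    · rw [Finset.card_map, hQc]
    · intro σ hs
      have hsP : Sup P σ := by
        intro a ha
        refine hs a fun h1 => ha ?_
        rw [Finset.mem_map] at h1
        obtain ⟨a', -, rfl⟩ := h1
        exact a'.2
      have h1 := hanti (rs hsP) ?_
      · rw [MonoidHom.comp_apply, of_rs] at h1
        rw [h1]
        have h2 := Equiv.Perm.sign_ofSubtype (p := fun a => a ∈ P) (rs hsP)
        rw [of_rs] at h2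
        rw [h2]
      · intro a ha
        refine Subtype.ext ?_
        rw [rs_coe]
        refine hs _ fun h1 => ha ?_
        rw [Finset.mem_map] at h1
        obtain ⟨a', ha', h2⟩ := h1
        have h3 : a' = a := Subtype.ext h2
        rw [← h3]
        exact ha'

end Pool.Agent.Work.MP_1233f5_ag.Y

end

section

/-! MP_1233f5_ag, block Y: the action of the permutations on sections. -/

set_option autoImplicit false

namespace Pool.Agent.Work.MP_1233f5_ag.Y

open Finset
open Pool.Agent.Work.MP_1233f5_ag.Sec (Fk wd ct ee ff hh IsSec IsDeg swd brk)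

namespace SActX

variable {α : Type}

theorem im_inv_im (σ : Equiv.Perm α) (Y : Finset α) : im σ⁻¹ (im σ Y) = Y := by
  rw [← im_mul, inv_mul_cancel, im_one]

theorem im_im_inv (σ : Equiv.Perm α) (Y : Finset α) : im σ (im σ⁻¹ Y) = Y := by
  rw [← im_mul, mul_inv_cancel, im_one]

theorem im_sub (σ : Equiv.Perm α) {Y Z : Finset α} (h : Y ⊆ Z) : im σ Y ⊆ im σ Z := by
  intro a ha
  rw [mem_im] at ha ⊢
  exact h ha

theorem im_inv_sub (σ : Equiv.Perm α) {Y R : Finset α} (h : Y ⊆ im σ R) : im σ⁻¹ Y ⊆ R := by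
  have := im_sub σ⁻¹ h
  rwa [im_inv_im] at this

theorem sact_apply (K : Type) [Field K] (σ : Equiv.Perm α) (s : Finset α → Fk K) (Y : Finset α) :
    sact K α σ s Y = s (im σ⁻¹ Y) := rfl

theorem sum_im {M : Type} [AddCommMonoid M] (σ : Equiv.Perm α) (Y : Finset α) (g : α → M) :
    ∑ a ∈ im σ Y, g a = ∑ a ∈ Y, g (σ a) := by
  rw [im, sum_map]
  rfl

variable [DecidableEq α]

theorem im_insert (σ : Equiv.Perm α) (a : α) (Y : Finset α) :
    im σ (insert a Y) = insert (σ a) (im σ Y) := by
  ext b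
  rw [mem_im, mem_insert, mem_insert, mem_im, Equiv.Perm.inv_eq_iff_eq]

theorem im_erase (σ : Equiv.Perm α) (a : α) (Y : Finset α) :
    im σ (Y.erase a) = (im σ Y).erase (σ a) := by
  ext b
  rw [mem_im, mem_erase, mem_erase, mem_im, Ne, Equiv.Perm.inv_eq_iff_eq]

theorem im_sdiff (σ : Equiv.Perm α) (Y Z : Finset α) :
    im σ (Y \ Z) = im σ Y \ im σ Z := by
  ext b
  rw [mem_im, mem_sdiff, mem_sdiff, mem_im, mem_im]

end SActX

open SActX in
theorem prf_SAct : S_SAct := by
  intro K _ _ α _ _ r q R σ s hs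
  obtain ⟨⟨h1, h2, h3⟩, h4⟩ := hs
  refine ⟨⟨fun Y hY => ?_, fun Y hY => ?_, fun Y hY => ?_⟩, fun Y => ?_⟩
  · rw [sact_apply]
    apply h1
    intro h
    apply hY
    have := im_sub σ h
    rwa [im_im_inv] at this
  · rw [sact_apply, h2 _ (im_inv_sub σ hY)]
    have h5 : im σ R \ Y = im σ (R \ im σ⁻¹ Y) := by
      rw [im_sdiff, im_im_inv]
    rw [h5, sum_im]
    apply sum_congr rfl
    intro a _
    rw [sact_apply, im_insert]
    congr 2
    exact (σ.symm_apply_apply a).symm
  · rw [sact_apply, h3 _ (im_inv_sub σ hY)]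
    rw [sum_im]
    apply sum_congr rfl
    intro a _
    rw [sact_apply, im_erase]
  · rw [sact_apply]
    exact h4 _

end Pool.Agent.Work.MP_1233f5_ag.Y

end

section

/-! MP_1233f5_ag, block Y: no sections with values above the top degree. -/

set_option autoImplicit false

namespace Pool.Agent.Work.MP_1233f5_ag.Y

open Finset
open Pool.Agent.Work.MP_1233f5_ag.Sec (Fk wd ct ee ff hh IsSec IsDeg swd brk)

theorem prf_Sz : S_Sz := by
  intro K _ _ α _ r q R h
  rw [Submodule.eq_bot_iff]
  intro s hs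
  funext Y
  exact (hs.2 Y).eq_zero h

end Pool.Agent.Work.MP_1233f5_ag.Y

end

section

/-! MP_1233f5_ag, block Y: item Tri. -/

set_option autoImplicit false

namespace Pool.Agent.Work.MP_1233f5_ag.Y

open Finset
open Pool.Agent.Work.MP_1233f5_ag.Sec (Fk wd ct ee ff hh IsSec IsDeg swd brk)

namespace TriX

variable {α : Type} [DecidableEq α]

theorem pigeon {Q : Finset α} (hQ : Q.card = 3) (Y : Finset α) :
    ∃ a ∈ Q, ∃ b ∈ Q, a ≠ b ∧ (a ∈ Y ↔ b ∈ Y) := by
  obtain ⟨a, b, c, hab, hac, hbc, rfl⟩ := Finset.card_eq_three.1 hQ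
  by_cases ha : a ∈ Y <;> by_cases hb : b ∈ Y <;> by_cases hc : c ∈ Y
  · exact ⟨a, by simp, b, by simp, hab, by simp [ha, hb]⟩
  · exact ⟨a, by simp, b, by simp, hab, by simp [ha, hb]⟩
  · exact ⟨a, by simp, c, by simp, hac, by simp [ha, hc]⟩
  · exact ⟨b, by simp, c, by simp, hbc, by simp [hb, hc]⟩
  · exact ⟨b, by simp, c, by simp, hbc, by simp [hb, hc]⟩
  · exact ⟨a, by simp, c, by simp, hac, by simp [ha, hc]⟩
  · exact ⟨a, by simp, b, by simp, hab, by simp [ha, hb]⟩
  · exact ⟨a, by simp, b, by simp, hab, by simp [ha, hb]⟩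

theorem im_swap {a b : α} {Y : Finset α} (h : a ∈ Y ↔ b ∈ Y) : im (Equiv.swap a b) Y = Y := by
  ext c
  rw [mem_im, Equiv.swap_inv]
  by_cases h1 : c = a
  · rw [h1, Equiv.swap_apply_left]; exact h.symm
  · by_cases h2 : c = b
    · rw [h2, Equiv.swap_apply_right]; exact h
    · rw [Equiv.swap_apply_of_ne_of_ne h1 h2]

end TriX

open TriX

theorem prf_Tri : S_Tri := by
  intro K _ _ α _ inst r q R Q hQ s _
  obtain rfl : inst = (fun a b => Classical.propDecidable (a = b)) := Subsingleton.elim _ _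
  classical
  funext Y
  obtain ⟨a, ha, b, hb, hab, hY⟩ := pigeon hQ Y
  have h1 : asym (sact K α) Q s Y =
      ∑ σ ∈ univ.filter (fun σ : Equiv.Perm α => Sup Q σ),
        ((Equiv.Perm.sign σ : ℤ) : K) • s (im σ⁻¹ Y) := by
    unfold asym
    rw [LinearMap.sum_apply, Finset.sum_apply]
    refine Finset.sum_congr (by congr) fun σ _ => ?_
    rw [LinearMap.smul_apply, Pi.smul_apply]
    rfl
  rw [h1]
  show _ = (0 : Fk K)
  refine Finset.sum_involution (fun σ _ => Equiv.swap a b * σ) ?_ ?_ ?_ ?_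
  · intro σ _
    have h2 : im (Equiv.swap a b * σ)⁻¹ Y = im σ⁻¹ Y := by
      rw [mul_inv_rev, Equiv.swap_inv, im_mul, im_swap hY]
    rw [h2, Equiv.Perm.sign_mul, Equiv.Perm.sign_swap hab]
    have h3 : (((-1 * Equiv.Perm.sign σ : ℤˣ) : ℤ) : K) = -((Equiv.Perm.sign σ : ℤ) : K) := by
      push_cast
      ring
    rw [h3, neg_smul, add_neg_cancel]
  · intro σ _ _ h
    have h2 : Equiv.swap a b = 1 := by
      have := mul_right_cancel (h.trans (one_mul σ).symm)
      exact this
    exact hab (Equiv.swap_eq_one_iff.1 h2)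
  · intro σ hσ
    rw [Finset.mem_filter] at hσ ⊢
    refine ⟨Finset.mem_univ _, fun c hc => ?_⟩
    rw [Equiv.Perm.mul_apply, hσ.2 c hc]
    apply Equiv.swap_apply_of_ne_of_ne
    · rintro rfl; exact hc ha
    · rintro rfl; exact hc hb
  · intro σ _
    show Equiv.swap a b * (Equiv.swap a b * σ) = σ
    rw [← mul_assoc, Equiv.swap_mul_self, one_mul]

end Pool.Agent.Work.MP_1233f5_ag.Y

end

section

/-! MP_1233f5_ag, block Y, part L, item Brs: with many points every section is a combination of
multiples of brackets. -/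

set_option autoImplicit false

namespace Pool.Agent.Work.MP_1233f5_ag.Y

open Finset
open Pool.Agent.Work.MP_1233f5_ag.Sec (Fk wd ct ee ff hh IsSec IsDeg swd brk)

namespace BrsX

/-- the value of a section at the full set vanishes if there are many points. -/
theorem val_zero {K : Type} [Field K] [CharZero K] {α : Type} [DecidableEq α] {r q : ℕ}
    {R : Finset α} (hq : q * r < R.card + q * (q - 1)) {z : Finset α → Fk K}
    (hz : z ∈ Sc K r q R) : z R = 0 := by
  have hdeg : IsDeg r q (z R) := hz.2 R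
  by_cases hlt : r + 1 < q
  · exact hdeg.eq_zero hlt
  · have hw : hh K r (z R) = (2 * (R.card : K) - R.card) • z R :=
      Sec.IsSec.hh (Sec.sl_fock r) hz.1 R (Subset.refl R)
    have hw' : hh K r (z R) = (((R.card : ℤ)) : K) • z R := by
      rw [hw]
      congr 1
      push_cast
      ring
    refine hdeg.eq_zero_of_weight (R.card : ℤ) hw' (Or.inl ?_)
    have hq' : (q : ℤ) * r < R.card + q * (q - 1) := by
      rcases Nat.eq_zero_or_pos q with h0 | h0
      · subst h0
        have : 0 < R.card := by simpa using hq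
        have h2 : (0 : ℤ) < R.card := by exact_mod_cast this
        simpa using h2
      · have h1 : ((q - 1 : ℕ) : ℤ) = (q : ℤ) - 1 := by
          rw [Nat.cast_sub h0]
          rfl
        have h2 : ((q * r : ℕ) : ℤ) < ((R.card + q * (q - 1) : ℕ) : ℤ) := by
          exact_mod_cast hq
        rw [Nat.cast_mul, Nat.cast_add, Nat.cast_mul, h1] at h2
        exact h2
    nlinarith

end BrsX

theorem prf_Brs (hRep1 : S_Rep1) (hSAct : S_SAct) (hDiv : S_Div) (hDet : S_Det) : S_Brs := by
  intro K _ _ α _ _ r q R hq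
  apply hRep1 K α (Finset α → Fk K) (sact K α) R (Sc K r q R)
  · intro σ hσ z hz
    have h := hSAct K α r q R σ z hz
    rwa [U.sup_im hσ] at h
  · intro σ hσ z hz
    induction hz using Submodule.span_induction with
    | mem s hs =>
      obtain ⟨u, v, hu, hv, huv, x, hx, rfl⟩ := hs
      apply Submodule.subset_span
      refine ⟨σ u, σ v, U.sup_mem hσ hu, U.sup_mem hσ hv,
        fun h => huv (σ.injective h), sact K α σ x, ?_, U.sact_brk σ u v x⟩
      have h := hSAct K α r q _ σ x hx
      rwa [U.im_erase, U.im_erase, U.sup_im hσ] at h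
    | zero => rw [map_zero]; exact Submodule.zero_mem _
    | add a b _ _ iha ihb => rw [map_add]; exact Submodule.add_mem _ iha ihb
    | smul c a _ iha => rw [map_smul]; exact Submodule.smul_mem _ c iha
  · intro z hz hinv
    have h0 : z = 0 := hDet K α r q R R (Subset.refl R) z hz (fun σ h => hinv σ h.1)
      (BrsX.val_zero hq hz)
    rw [h0]
    exact Submodule.zero_mem _
  · intro u hu v hv huv z hz hanti
    obtain ⟨x, hx, hzx⟩ := hDiv K α r q R u v hu hv huv z hz hanti
    exact Submodule.subset_span ⟨u, v, hu, hv, huv, x, hx, hzx⟩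

end Pool.Agent.Work.MP_1233f5_ag.Y

end

section

/-! MP_1233f5_ag, block Y, part L: item Fex, the symmetrized functionals with exchange. -/

set_option autoImplicit false

namespace Pool.Agent.Work.MP_1233f5_ag.Y

open Finset
open Pool.Agent.Work.MP_1233f5_ag.Sec (Fk wd ct ee ff hh IsSec IsDeg swd brk)

namespace FexX

/-! ### projection to a weight -/

section proj

variable {K : Type} [Field K]

open Classical in
/-- the projection to the weight `w`. -/
noncomputable def pr (r : ℕ) (w : K) : Fk K →ₗ[K] Fk K where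
  toFun x S := if Sec.wt K r S = w then x S else 0
  map_add' x y := by
    funext S
    simp only [Pi.add_apply]
    split_ifs
    · rfl
    · rw [add_zero]
  map_smul' c x := by
    funext S
    simp only [Pi.smul_apply, smul_eq_mul, RingHom.id_apply]
    split_ifs
    · rfl
    · rw [mul_zero]

open Classical in
theorem pr_apply (r : ℕ) (w : K) (x : Fk K) (S : Finset ℕ) :
    pr r w x S = if Sec.wt K r S = w then x S else 0 := rfl

theorem pr_fix {r : ℕ} {w : K} {x : Fk K} (h : hh K r x = w • x) : pr r w x = x := by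
  funext S
  rw [pr_apply]
  split_ifs with h1
  · rfl
  · have h2 := congrFun h S
    have h3 : hh K r x S = Sec.wt K r S * x S := rfl
    rw [h3, Pi.smul_apply, smul_eq_mul] at h2
    by_contra h4
    exact h1 (mul_right_cancel₀ (fun h5 => h4 h5.symm) h2)

theorem hh_pr (r : ℕ) (w : K) (x : Fk K) : hh K r (pr r w x) = w • pr r w x := by
  funext S
  have h3 : hh K r (pr r w x) S = Sec.wt K r S * pr r w x S := rfl
  rw [h3, Pi.smul_apply, smul_eq_mul, pr_apply]
  split_ifs with h1
  · rw [h1]
  · rw [mul_zero, mul_zero]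

theorem deg_pr {r k : ℕ} {x : Fk K} (w : K) (hx : IsDeg r k x) : IsDeg r k (pr r w x) := by
  intro S h
  rw [pr_apply] at h
  split_ifs at h with h1
  · exact hx S h
  · exact absurd rfl h

theorem wt_erase {r s : ℕ} (hs : s ≤ r) {S : Finset ℕ} (h : s ∈ S) :
    Sec.wt K r S = Sec.wt K r (S.erase s) + (2 * (s : K) - r) := by
  unfold Sec.wt
  have hi1 : s ∈ range (r + 1) := mem_range.2 (by omega)
  rw [← add_sum_erase _ _ hi1,
    ← add_sum_erase (range (r + 1)) (fun l => if l ∈ S.erase s then (2 * (l : K) - r) else 0) hi1,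
    if_pos h, if_neg (fun t => (mem_erase.1 t).1 rfl), zero_add, add_comm]
  congr 1
  refine sum_congr rfl fun l hl => ?_
  have : l ∈ S.erase s ↔ l ∈ S := by
    rw [mem_erase]
    exact ⟨fun t => t.2, fun t => ⟨(mem_erase.1 hl).1, t⟩⟩
  simp only [this]

theorem pr_wd {r s : ℕ} (hs : s ≤ r) {w w' : K} (hw : w = w' + (2 * (s : K) - r)) (x : Fk K) :
    pr r w (wd s x) = wd s (pr r w' x) := by
  funext S
  rw [pr_apply, Sec.wd_apply, Sec.wd_apply]
  by_cases h : s ∈ S
  · rw [if_pos h, if_pos h, pr_apply]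
    have h1 : Sec.wt K r S = w ↔ Sec.wt K r (S.erase s) = w' := by
      rw [wt_erase hs h, hw]
      exact add_left_inj _
    by_cases h2 : Sec.wt K r S = w
    · rw [if_pos h2, if_pos (h1.1 h2)]
    · rw [if_neg h2, if_neg (fun t => h2 (h1.2 t)), mul_zero]
  · rw [if_neg h, if_neg h, ite_self]

end proj

/-! ### existence of families -/

section fam

variable {α : Type} [DecidableEq α]

theorem cut {ι : Type} [DecidableEq ι] (A : Finset α) (I : Finset ι) (a : ι → ℕ)
    (h : ∑ i ∈ I, a i ≤ A.card) :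
    ∃ g : ι → Finset α, (∀ i ∈ I, g i ⊆ A ∧ (g i).card = a i) ∧
      ∀ i ∈ I, ∀ j ∈ I, i ≠ j → Disjoint (g i) (g j) := by
  induction I using Finset.induction_on with
  | empty =>
    exact ⟨fun _ => ∅, fun i hi => absurd hi (notMem_empty i), fun i hi => absurd hi (notMem_empty i)⟩
  | insert i₀ I hi₀ ih =>
    rw [sum_insert hi₀] at h
    obtain ⟨g, h1, h2⟩ := ih (by omega)
    have h3 : (I.biUnion g).card = ∑ i ∈ I, a i := by
      rw [card_biUnion (fun i hi j hj hij => h2 i hi j hj hij)]
      exact sum_congr rfl fun i hi => (h1 i hi).2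
    have h4 : I.biUnion g ⊆ A := biUnion_subset.2 fun i hi => (h1 i hi).1
    have h5 : a i₀ ≤ (A \ I.biUnion g).card := by
      rw [card_sdiff_of_subset h4, h3]
      omega
    obtain ⟨b, hb, hbc⟩ := exists_subset_card_eq h5
    have hbd : ∀ i ∈ I, Disjoint b (g i) := fun i hi => by
      rw [Finset.disjoint_left]
      intro c hc hc'
      exact (mem_sdiff.1 (hb hc)).2 (mem_biUnion.2 ⟨i, hi, hc'⟩)
    refine ⟨Function.update g i₀ b, ?_, ?_⟩
    · intro i hi
      by_cases hii : i = i₀
      · subst hii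
        rw [Function.update_self]
        exact ⟨hb.trans sdiff_subset, hbc⟩
      · rw [Function.update_of_ne hii]
        exact h1 i ((mem_insert.1 hi).resolve_left hii)
    · intro i hi j hj hij
      by_cases hii : i = i₀
      · have hji : j ≠ i₀ := fun t => hij (hii.trans t.symm)
        rw [hii, Function.update_self, Function.update_of_ne hji]
        exact hbd j ((mem_insert.1 hj).resolve_left hji)
      · rw [Function.update_of_ne hii]
        have hi' := (mem_insert.1 hi).resolve_left hii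
        by_cases hji : j = i₀
        · rw [hji, Function.update_self]
          exact (hbd i hi').symm
        · rw [Function.update_of_ne hji]
          exact h2 i hi' j ((mem_insert.1 hj).resolve_left hji) hij

/-- the free part after a cut. -/
theorem cut_free {ι : Type} [DecidableEq ι] (A : Finset α) (I : Finset ι) (a : ι → ℕ) (s : ℕ)
    (h : ∑ i ∈ I, a i + s ≤ A.card) :
    ∃ (g : ι → Finset α) (b : Finset α), (∀ i ∈ I, g i ⊆ A ∧ (g i).card = a i) ∧
      (∀ i ∈ I, ∀ j ∈ I, i ≠ j → Disjoint (g i) (g j)) ∧ b ⊆ A ∧ b.card = s ∧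
      ∀ i ∈ I, Disjoint b (g i) := by
  obtain ⟨g, h1, h2⟩ := cut A I a (by omega)
  have h3 : (I.biUnion g).card = ∑ i ∈ I, a i := by
    rw [card_biUnion (fun i hi j hj hij => h2 i hi j hj hij)]
    exact sum_congr rfl fun i hi => (h1 i hi).2
  have h4 : I.biUnion g ⊆ A := biUnion_subset.2 fun i hi => (h1 i hi).1
  have h5 : s ≤ (A \ I.biUnion g).card := by
    rw [card_sdiff_of_subset h4, h3]
    omega
  obtain ⟨b, hb, hbc⟩ := exists_subset_card_eq h5
  refine ⟨g, b, h1, h2, hb.trans sdiff_subset, hbc, fun i hi => ?_⟩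
  rw [Finset.disjoint_left]
  intro c hc hc'
  exact (mem_sdiff.1 (hb hc)).2 (mem_biUnion.2 ⟨i, hi, hc'⟩)

/-- families with given types. -/
theorem exfam (r : ℕ) (I : Finset (ℕ × ℕ)) (P Y : Finset α) (hY : Y ⊆ P) (t : ℕ × ℕ → ℕ)
    (ht : ∀ i ∈ I, t i ≤ r) (s : ℕ) (hs : s ≤ r) (h1 : ∑ i ∈ I, t i + s ≤ Y.card)
    (h2 : ∑ i ∈ I, (r - t i) + (r - s) ≤ (P \ Y).card) :
    ∃ (n : ℕ × ℕ → Finset α) (m : Finset α), Cf r I P n ∧ (∀ i ∈ I, (n i ∩ Y).card = t i) ∧
      m ⊆ rest I P n ∧ m.card = r ∧ (m ∩ Y).card = s := by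
  obtain ⟨g, b, g1, g2, b1, b2, b3⟩ := cut_free Y I t s h1
  obtain ⟨g', b', g1', g2', b1', b2', b3'⟩ := cut_free (P \ Y) I (fun i => r - t i) (r - s) h2
  have hd : ∀ {X Z : Finset α}, X ⊆ Y → Z ⊆ P \ Y → Disjoint X Z := by
    intro X Z hX hZ
    rw [Finset.disjoint_left]
    intro c hc hc'
    exact (mem_sdiff.1 (hZ hc')).2 (hX hc)
  have hi : ∀ {X Z : Finset α}, X ⊆ Y → Z ⊆ P \ Y → (X ∪ Z) ∩ Y = X := by
    intro X Z hX hZ
    ext c
    rw [mem_inter, mem_union]
    constructor
    · rintro ⟨h | h, h'⟩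
      · exact h
      · exact absurd h' (mem_sdiff.1 (hZ h)).2
    · intro h
      exact ⟨Or.inl h, hX h⟩
  have hsub : ∀ {X Z : Finset α}, X ⊆ Y → Z ⊆ P \ Y → X ∪ Z ⊆ P := fun hX hZ =>
    union_subset (hX.trans hY) (hZ.trans sdiff_subset)
  refine ⟨fun i => g i ∪ g' i, b ∪ b', ⟨fun i hiI => ⟨?_, ?_⟩, fun i hiI j hjI hij => ?_⟩,
    fun i hiI => ?_, ?_, ?_, ?_⟩
  · rw [card_union_of_disjoint (hd (g1 i hiI).1 (g1' i hiI).1), (g1 i hiI).2, (g1' i hiI).2]
    have := ht i hiI
    omega
  · exact hsub (g1 i hiI).1 (g1' i hiI).1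
  · rw [disjoint_union_left, disjoint_union_right, disjoint_union_right]
    exact ⟨⟨g2 i hiI j hjI hij, hd (g1 i hiI).1 (g1' j hjI).1⟩,
      ⟨(hd (g1 j hjI).1 (g1' i hiI).1).symm, g2' i hiI j hjI hij⟩⟩
  · rw [hi (g1 i hiI).1 (g1' i hiI).1, (g1 i hiI).2]
  · intro c hc
    rw [U.mem_rest]
    refine ⟨hsub b1 b1' hc, fun i hiI hci => ?_⟩
    have : Disjoint (b ∪ b') (g i ∪ g' i) := by
      rw [disjoint_union_left, disjoint_union_right, disjoint_union_right]
      exact ⟨⟨b3 i hiI, hd b1 (g1' i hiI).1⟩, ⟨(hd (g1 i hiI).1 b1').symm, b3' i hiI⟩⟩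
    exact Finset.disjoint_left.1 this hc hci
  · rw [card_union_of_disjoint (hd b1 b1'), b2, b2']
    omega
  · rw [hi b1 b1', b2]

end fam

/-! ### the weights -/

/-- the weight of the values at the type `t`. -/
def wz (r c p l : ℕ) (I : Finset (ℕ × ℕ)) (t : ℕ × ℕ → ℕ) : ℤ :=
  2 * ((c : ℤ) - ∑ i ∈ I, (t i : ℤ)) - ((p : ℤ) - r * l)

theorem wz_update (r c p l : ℕ) (I : Finset (ℕ × ℕ)) (t : ℕ × ℕ → ℕ) {i : ℕ × ℕ} (hi : i ∈ I)
    (s : ℕ) : wz r c p l I (Function.update t i s) = wz r c p l I t - 2 * s + 2 * t i := by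
  unfold wz
  have h1 : ∑ j ∈ I, ((Function.update t i s j : ℕ) : ℤ) = ∑ j ∈ I, (t j : ℤ) + s - t i := by
    rw [← add_sum_erase _ _ hi, ← add_sum_erase I (fun j => (t j : ℤ)) hi, Function.update_self]
    have h2 : ∀ j ∈ I.erase i, ((Function.update t i s j : ℕ) : ℤ) = t j := fun j hj => by
      rw [Function.update_of_ne (ne_of_mem_erase hj)]
    rw [sum_congr rfl h2]
    ring
  rw [h1]
  ring

end FexX

open FexX in
theorem prf_Fex (hPhi : S_Phi) (hExist : S_Exist) : S_Fex := by
  intro K _ _ α _ _ H _ _ ρ r k I P Y Φ hA hY hc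
  obtain ⟨φ, hφ⟩ := hPhi K α H ρ r k I P Y Φ hA hY
  obtain ⟨w, hw⟩ : ∃ w : (ℕ × ℕ → ℕ) → ℤ, w = wz r Y.card P.card I.card I := ⟨_, rfl⟩
  refine ⟨fun t => (φ t) ∘ₗ (pr r (w t : K)), ?_, ?_⟩
  · intro n hn s hs
    rw [hφ n hn s hs, LinearMap.comp_apply, pr_fix]
    have h1 := hs.1.hh (Sec.sl_fock (K := K) r) (rest I Y n)
      (by rw [U.rest_inter hY]; exact inter_subset_left)
    rw [h1]
    congr 1
    have h2 := U.card_rest hn
    have h3 := U.card_rest_Y (Y := Y) hn
    have h4 : ∑ i ∈ I, tp I Y n i = ∑ i ∈ I, (n i ∩ Y).card := by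
      refine sum_congr rfl fun i hi => ?_
      unfold tp
      rw [if_pos hi]
    have h5 : w (tp I Y n) = 2 * ((rest I Y n).card : ℤ) - (rest I P n).card := by
      rw [hw]
      unfold wz
      rw [← h3, ← h2, ← Nat.cast_sum, h4]
      push_cast
      ring
    rw [h5]
    push_cast
    ring
  · intro j hj t ht1 ht2 s hs x hx
    obtain ⟨w', hw'⟩ : ∃ w' : ℤ, w' = w t - (2 * s - r) := ⟨_, rfl⟩
    obtain ⟨x', hx'⟩ : ∃ x' : Fk K, x' = pr r (w' : K) x := ⟨_, rfl⟩
    have hT : pr r (w t : K) (wd s x) = wd s x' := by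
      rw [hx']
      refine pr_wd hs ?_ x
      rw [hw']
      push_cast
      ring
    have hTi : ∀ i ∈ sl I j, pr r (w (Function.update t i s) : K) (wd (t i) x) =
        wd (t i) x' := by
      intro i hi
      have hiI : i ∈ I := (mem_filter.1 hi).1
      rw [hx']
      refine pr_wd (ht1 i hiI) ?_ x
      have h1 : w (Function.update t i s) = w t - 2 * s + 2 * t i := by
        rw [hw]
        exact wz_update r Y.card P.card I.card I t hiI s
      rw [h1, hw']
      push_cast
      ring
    have hdx : IsDeg r k x' := hx' ▸ deg_pr _ hx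
    have hhx : hh K r x' = (w' : K) • x' := hx' ▸ hh_pr r (w' : K) x
    change (φ t ∘ₗ pr r (w t : K)) (wd s x) + ∑ i ∈ sl I j,
      (φ (Function.update t i s) ∘ₗ pr r (w (Function.update t i s) : K)) (wd (t i) x) = 0
    rw [LinearMap.comp_apply, hT]
    have hsum : ∑ i ∈ sl I j,
        (φ (Function.update t i s) ∘ₗ pr r (w (Function.update t i s) : K)) (wd (t i) x) =
        ∑ i ∈ sl I j, φ (Function.update t i s) (wd (t i) x') := by
      refine sum_congr rfl fun i hi => ?_
      rw [LinearMap.comp_apply, hTi i hi]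
    rw [hsum]
    have hPY : (P \ Y).card = P.card - Y.card := card_sdiff_of_subset hY
    have hYP := card_le_card hY
    have hsr : ∑ i ∈ I, (r - t i) + ∑ i ∈ I, t i = r * I.card := by
      rw [← sum_add_distrib]
      have h1 : ∀ i ∈ I, r - t i + t i = r := fun i hi => by
        have := ht1 i hi
        omega
      rw [sum_congr rfl h1, sum_const, smul_eq_mul, mul_comm]
    have hw2 : w' = 2 * ((Y.card : ℤ) - (∑ i ∈ I, t i : ℕ) - s) -
        ((P.card : ℤ) - (r * I.card : ℕ) - r) := by
      rw [hw', hw]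
      unfold wz
      push_cast
      ring
    have hc2 : (k * (r + 1 - k) : ℤ) ≤ (P.card : ℤ) - (r * I.card : ℕ) - r := by
      have h1 : ((r * I.card + (k + 1) * r : ℕ) : ℤ) ≤ ((P.card + k * (k - 1) : ℕ) : ℤ) := by
        exact_mod_cast hc
      have h2 : ((k * (k - 1) : ℕ) : ℤ) = (k : ℤ) * k - k := by
        rcases k with _ | k
        · simp
        · rw [Nat.add_sub_cancel]
          push_cast
          ring
      rw [Nat.cast_add, Nat.cast_add, h2] at h1
      push_cast at h1 ⊢
      nlinarith only [h1]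
    by_cases hcase : ∑ i ∈ I, t i + s ≤ Y.card ∧ ∑ i ∈ I, (r - t i) + (r - s) ≤ (P \ Y).card
    · obtain ⟨n, m, hn, hnt, hm, hmc, hms⟩ := exfam r I P Y hY t ht1 s hs hcase.1 hcase.2
      have htp : tp I Y n = t := by
        funext i
        unfold tp
        split_ifs with h1
        · exact hnt i h1
        · exact (ht2 i h1).symm
      have hRY : rest I Y n = rest I P n ∩ Y := U.rest_inter hY
      have hRc := U.card_rest hn
      have hRYc := U.card_rest_Y (Y := Y) hn
      rw [sum_congr rfl hnt] at hRYc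
      have hmR : (rest I P n \ m).card = (rest I P n).card - r := by
        rw [card_sdiff_of_subset hm, hmc]
      have hmle : r ≤ (rest I P n).card := hmc ▸ card_le_card hm
      have hmY : m ∩ rest I Y n = m ∩ Y := by
        ext c
        rw [hRY]
        simp only [mem_inter]
        exact ⟨fun h => ⟨h.1, h.2.2⟩, fun h => ⟨h.1, hm h.1, h.2⟩⟩
      have hYm : (rest I Y n \ m).card = (rest I Y n).card - s := by
        have h1 : rest I Y n \ m = rest I Y n \ (m ∩ Y) := by
          ext c
          rw [hRY]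
          simp only [mem_sdiff, mem_inter, not_and]
          exact ⟨fun h => ⟨h.1, fun h' => absurd h' h.2⟩, fun h => ⟨h.1, fun h' => h.2 h' h.1.2⟩⟩
        have h2 : m ∩ Y ⊆ rest I Y n := by
          rw [← hmY]
          exact inter_subset_right
        rw [h1, card_sdiff_of_subset h2, hms]
      have hsle : s ≤ (rest I Y n).card := by
        rw [← hms, ← hmY]
        exact card_le_card inter_subset_right
      have hEq : rest I Y n \ m = (rest I P n \ m) ∩ Y := by
        ext c
        rw [hRY]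
        simp only [mem_sdiff, mem_inter]
        tauto
      obtain ⟨X, hX, hXv⟩ := hExist K α r k (rest I P n \ m) (rest I Y n \ m)
        (by rw [hEq]; exact inter_subset_left)
        (by
          rw [hmR]
          have h3 : (k + 1) * r = k * r + r := by ring
          omega) x' hdx (by
          rw [hhx]
          congr 1
          have h1 : w' = 2 * ((rest I Y n \ m).card : ℤ) - (rest I P n \ m).card := by
            rw [hw2, hmR, hYm, Nat.cast_sub hmle, Nat.cast_sub hsle]
            have h2 : ((rest I P n).card : ℤ) + (r * I.card : ℕ) = P.card := by exact_mod_cast hRc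
            have h3 : ((rest I Y n).card : ℤ) + (∑ i ∈ I, t i : ℕ) = Y.card := by
              exact_mod_cast hRYc
            linarith
          rw [h1]
          push_cast
          ring)
      have hex := congrArg (symm ρ P Y) (hA.exch j hj n hn m hm hmc X hX)
      rw [map_add, map_zero, map_sum] at hex
      have hmem : swd m X ∈ Sc K r (k + 1) (rest I P n) := U.swd_mem' hmc hm hX
      rw [hφ n hn _ hmem, htp, U.swd_val, hmY, hms, hXv] at hex
      rw [← hex]
      congr 1
      refine sum_congr rfl fun i hi => ?_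
      have hiI : i ∈ I := (mem_filter.1 hi).1
      have hn' : Cf r I P (Function.update n i m) := U.cf_update hn hm hmc
      have hR' := U.rest_update hiI hn hm
      have hdis : Disjoint (rest I P n \ m) (n i) :=
        (U.rest_disj hiI).mono_left sdiff_subset
      have hmem' : swd (n i) X ∈ Sc K r (k + 1) (rest I P (Function.update n i m)) := by
        rw [hR']
        exact U.swd_mem (hn.1 i hiI).1 hdis hX
      rw [hφ _ hn' _ hmem', U.swd_val]
      have htp' : tp I Y (Function.update n i m) = Function.update t i s := by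
        funext l
        unfold tp
        by_cases hli : l = i
        · rw [hli, if_pos hiI, Function.update_self, Function.update_self, hms]
        · rw [Function.update_of_ne hli, Function.update_of_ne hli]
          split_ifs with h1
          · exact hnt l h1
          · exact (ht2 l h1).symm
      have hRY' : rest I Y (Function.update n i m) = ((rest I P n \ m) ∪ n i) ∩ Y := by
        rw [U.rest_inter hY, hR']
      have e1 : n i ∩ rest I Y (Function.update n i m) = n i ∩ Y := by
        ext c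
        rw [hRY']
        simp only [mem_inter, mem_union]
        tauto
      have e2 : rest I Y (Function.update n i m) \ n i = rest I Y n \ m := by
        ext c
        rw [hRY', hEq]
        simp only [mem_inter, mem_union, mem_sdiff]
        constructor
        · rintro ⟨⟨h1 | h1, h2⟩, h3⟩
          · exact ⟨h1, h2⟩
          · exact absurd h1 h3
        · rintro ⟨h1, h2⟩
          exact ⟨⟨Or.inl h1, h2⟩, fun h3 =>
            Finset.disjoint_left.1 hdis (mem_sdiff.2 h1) h3⟩
      rw [htp', e1, e2, hnt i hiI, hXv]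
    · have hx0 : x' = 0 := by
        refine hdx.eq_zero_of_weight w' hhx ?_
        by_cases hc1 : ∑ i ∈ I, t i + s ≤ Y.card
        · left
          have h1 : ¬ ∑ i ∈ I, (r - t i) + (r - s) ≤ (P \ Y).card := fun h => hcase ⟨hc1, h⟩
          rw [hPY] at h1
          have h2 : (P.card : ℤ) - Y.card + 1 ≤
              ((∑ i ∈ I, (r - t i) : ℕ) : ℤ) + (r - s) := by
            have h3 : P.card - Y.card + 1 ≤ ∑ i ∈ I, (r - t i) + (r - s) := by omega
            have h4 : ((P.card - Y.card + 1 : ℕ) : ℤ) ≤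
                ((∑ i ∈ I, (r - t i) + (r - s) : ℕ) : ℤ) := by exact_mod_cast h3
            rw [Nat.cast_add, Nat.cast_sub hYP, Nat.cast_add, Nat.cast_sub hs] at h4
            exact_mod_cast h4
          have h5 : ((∑ i ∈ I, (r - t i) : ℕ) : ℤ) + (∑ i ∈ I, t i : ℕ) = (r * I.card : ℕ) := by
            exact_mod_cast hsr
          rw [hw2]
          linarith
        · right
          have h1 : (Y.card : ℤ) + 1 ≤ (∑ i ∈ I, t i : ℕ) + s := by
            have h2 : Y.card + 1 ≤ ∑ i ∈ I, t i + s := by omega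
            exact_mod_cast h2
          rw [hw2]
          linarith
      rw [hx0]
      simp only [map_zero, sum_const_zero, add_zero]

end Pool.Agent.Work.MP_1233f5_ag.Y

end

section

/-! MP_1233f5_ag, block Y, part L: the last step, exchange and two rows. -/

set_option autoImplicit false

namespace Pool.Agent.Work.MP_1233f5_ag.Y

open Finset
open Pool.Agent.Work.MP_1233f5_ag.Sec (Fk wd ct ee ff hh IsSec IsDeg swd brk)

theorem prf_Fin (hRep2 : S_Rep2) (hFex : S_Fex) (hLA : S_LA) (hSAct : S_SAct) : S_Fin := by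
  intro K _ _ α _ _ H _ _ ρ r k I P Φ hA hb hc hT n hn s hs
  obtain ⟨Z, hZ⟩ : ∃ Z : Submodule K H, Z = Submodule.span K
    {z | ∃ n s, Cf r I P n ∧ s ∈ Sc K r (k + 1) (rest I P n) ∧ z = Φ n s} := ⟨_, rfl⟩
  have hmem : ∀ n s, Cf r I P n → s ∈ Sc K r (k + 1) (rest I P n) → Φ n s ∈ Z := by
    intro n s hn hs
    rw [hZ]
    exact Submodule.subset_span ⟨n, s, hn, hs, rfl⟩
  have hind : ∀ L : H →ₗ[K] H, (∀ n s, Cf r I P n → s ∈ Sc K r (k + 1) (rest I P n) →
      L (Φ n s) = 0) → ∀ z ∈ Z, L z = 0 := by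
    intro L hL z hz
    rw [hZ] at hz
    have h1 : Submodule.span K
        {z | ∃ n s, Cf r I P n ∧ s ∈ Sc K r (k + 1) (rest I P n) ∧ z = Φ n s} ≤
        LinearMap.ker L := by
      rw [Submodule.span_le]
      rintro _ ⟨n, s, hn, hs, rfl⟩
      exact hL n s hn hs
    exact h1 hz
  have key : Z ≤ ⊥ := by
    refine hRep2 K α H ρ P Z ⊥ ?_ ?_ ?_ ?_
    · intro σ hσ z hz
      have h1 : Z ≤ Z.comap (ρ σ) := by
        nth_rw 1 [hZ]
        rw [Submodule.span_le]
        rintro _ ⟨n, s, hn, hs, rfl⟩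
        show ρ σ (Φ n s) ∈ Z
        rw [← hA.eqv σ hσ n hn s hs]
        refine hmem _ _ (U.cf_im hσ hn) ?_
        rw [U.rest_im hσ]
        exact hSAct K α r (k + 1) _ σ s hs
      exact h1 hz
    · intro σ _ z hz
      rw [(Submodule.mem_bot K).1 hz, map_zero]
      exact Submodule.zero_mem _
    · intro Y hY z hz hinv
      obtain ⟨f, hf, hfe⟩ := hFex K α H ρ r k I P Y Φ hA hY hc
      obtain ⟨N, hN, hNs⟩ := U.symm_of_inv ρ P Y
      have h1 : symm ρ P Y z = 0 := by
        refine hind _ (fun n s hn hs => ?_) z hz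
        rw [hf n hn s hs]
        refine hLA K H r k I f hb hfe _ (fun i hi => ?_) (fun i hi => ?_) _ (hs.2 _)
        · unfold tp
          rw [if_pos hi, ← (hn.1 i hi).1]
          exact card_le_card inter_subset_left
        · unfold tp
          rw [if_neg hi]
      rw [hNs z hinv] at h1
      exact (Submodule.mem_bot K).2 ((smul_eq_zero.1 h1).resolve_left hN)
    · intro Q hQ hQ3 z hz hanti
      obtain ⟨N, hN, hNs⟩ := U.asym_of_anti ρ Q
      have h1 : asym ρ Q z = 0 :=
        hind _ (fun n s hn hs => hT n hn s hs Q hQ hQ3) z hz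
      rw [hNs z hanti] at h1
      exact (Submodule.mem_bot K).2 ((smul_eq_zero.1 h1).resolve_left hN)
  exact (Submodule.mem_bot K).1 (key (hmem n s hn hs))

end Pool.Agent.Work.MP_1233f5_ag.Y

end

section

/-! MP_1233f5_ag, block Y, part L, item LemL: Lemma L. -/

set_option autoImplicit false

namespace Pool.Agent.Work.MP_1233f5_ag.Y

open Finset
open Pool.Agent.Work.MP_1233f5_ag.Sec (Fk wd ct ee ff hh IsSec IsDeg swd brk)

namespace LemLX

variable {I : Finset (ℕ × ℕ)} {i : ℕ × ℕ}

/-- the sum in `need`. -/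
def sm (I : Finset (ℕ × ℕ)) : ℕ := ∑ j ∈ I.image Prod.fst, ((sl I j).card - 2)

theorem mem_sl (j : ℕ) (x : ℕ × ℕ) : x ∈ sl I j ↔ x ∈ I ∧ x.1 = j := by
  unfold sl
  exact mem_filter

theorem sl_erase_ne {j : ℕ} (hj : j ≠ i.1) : sl (I.erase i) j = sl I j := by
  ext x
  rw [mem_sl, mem_sl, mem_erase]
  constructor
  · rintro ⟨⟨_, h2⟩, h3⟩
    exact ⟨h2, h3⟩
  · rintro ⟨h2, h3⟩
    exact ⟨⟨fun h => hj (by rw [← h3, h]), h2⟩, h3⟩

theorem sl_erase_eq : sl (I.erase i) i.1 = (sl I i.1).erase i := by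
  ext x
  rw [mem_sl, mem_erase, mem_erase, mem_sl]
  tauto

theorem card_sl_erase (hi : i ∈ I) : (sl (I.erase i) i.1).card + 1 = (sl I i.1).card := by
  rw [sl_erase_eq]
  exact card_erase_add_one ((mem_sl _ _).2 ⟨hi, rfl⟩)

/-- the block of `i` is `{i}`. -/
theorem image_erase_one (h : sl I i.1 = {i}) :
    (I.erase i).image Prod.fst = (I.image Prod.fst).erase i.1 := by
  ext j
  simp only [mem_image, mem_erase]
  constructor
  · rintro ⟨x, ⟨hx1, hx2⟩, rfl⟩
    refine ⟨fun h3 => hx1 ?_, x, hx2, rfl⟩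
    have : x ∈ sl I i.1 := (mem_sl _ _).2 ⟨hx2, h3⟩
    rw [h] at this
    exact mem_singleton.1 this
  · rintro ⟨hj, x, hx, rfl⟩
    exact ⟨x, ⟨fun h3 => hj (by rw [h3]), hx⟩, rfl⟩

/-- the block of `i` has another slot. -/
theorem image_erase_two (hi : i ∈ I) (h : 2 ≤ (sl I i.1).card) :
    (I.erase i).image Prod.fst = I.image Prod.fst := by
  ext j
  simp only [mem_image, mem_erase]
  constructor
  · rintro ⟨x, ⟨_, hx2⟩, rfl⟩
    exact ⟨x, hx2, rfl⟩
  · rintro ⟨x, hx, rfl⟩
    by_cases hxi : x = i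
    · have h1 := card_sl_erase hi
      have h2 : 0 < (sl (I.erase i) i.1).card := by omega
      obtain ⟨y, hy⟩ := card_pos.1 h2
      rw [mem_sl, mem_erase] at hy
      exact ⟨y, hy.1, by rw [hy.2, hxi]⟩
    · exact ⟨x, ⟨hxi, hx⟩, rfl⟩

theorem sm_erase_one (hi : i ∈ I) (h : sl I i.1 = {i}) : sm (I.erase i) = sm I := by
  unfold sm
  rw [image_erase_one h]
  have h1 : i.1 ∈ I.image Prod.fst := mem_image_of_mem _ hi
  rw [← add_sum_erase _ (fun j => (sl I j).card - 2) h1]
  have h2 : (sl I i.1).card - 2 = 0 := by rw [h, card_singleton]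
  rw [h2, zero_add]
  exact sum_congr rfl fun j hj => by rw [sl_erase_ne (ne_of_mem_erase hj)]

theorem sm_erase_two (hi : i ∈ I) (h : 2 ≤ (sl I i.1).card) :
    sm (I.erase i) + ((sl I i.1).card - 2) = sm I + ((sl I i.1).card - 3) := by
  unfold sm
  rw [image_erase_two hi h]
  have h1 : i.1 ∈ I.image Prod.fst := mem_image_of_mem _ hi
  rw [← add_sum_erase _ (fun j => (sl I j).card - 2) h1,
    ← add_sum_erase _ (fun j => (sl (I.erase i) j).card - 2) h1]
  have h3 : ∑ j ∈ (I.image Prod.fst).erase i.1, ((sl (I.erase i) j).card - 2) =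
      ∑ j ∈ (I.image Prod.fst).erase i.1, ((sl I j).card - 2) :=
    sum_congr rfl fun j hj => by rw [sl_erase_ne (ne_of_mem_erase hj)]
  have h4 := card_sl_erase hi
  simp only [h3]
  omega

theorem need_le (I : Finset (ℕ × ℕ)) : need I ≤ 2 + sm I := by
  unfold need
  split_ifs
  · exact Nat.add_le_add_right (by norm_num) _
  · exact le_refl _

theorem need_one (h : ∃ j ∈ I.image Prod.fst, (sl I j).card = 1) : need I = 1 + sm I := by
  unfold need
  rw [if_pos h]
  rfl

theorem need_two (h : ¬ ∃ j ∈ I.image Prod.fst, (sl I j).card = 1) : need I = 2 + sm I := by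
  unfold need
  rw [if_neg h]
  rfl

/-- all blocks have at least two slots. -/
theorem need_erase_two (hi : i ∈ I) (h : ¬ ∃ j ∈ I.image Prod.fst, (sl I j).card = 1)
    (h2 : 2 ≤ (sl I i.1).card) : need (I.erase i) + 1 ≤ need I := by
  rw [need_two h]
  have h3 := sm_erase_two hi h2
  by_cases h4 : (sl I i.1).card = 2
  · have h5 : ∃ j ∈ (I.erase i).image Prod.fst, (sl (I.erase i) j).card = 1 := by
      refine ⟨i.1, ?_, ?_⟩
      · rw [image_erase_two hi h2]
        exact mem_image_of_mem _ hi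
      · have := card_sl_erase hi
        omega
    rw [need_one h5]
    omega
  · have := need_le (I.erase i)
    omega

end LemLX

open LemLX in
theorem prf_LemL (hSz : S_Sz) (hMrgA : S_MrgA) (hFrz : S_Frz) (hTwo : S_Two) (hFin : S_Fin) :
    S_LemL := by
  intro K _ _ α _ _ H _ _ ρ r k I P Φ hΦ hr hk him hb
  induction hN : I.card generalizing k I P Φ with
  | zero =>
    intro n hn s hs
    have hI : I = ∅ := card_eq_zero.1 hN
    rw [hI, image_empty, card_empty] at him
    rw [hSz K α r (k + 1) (rest I P n) (by omega), Submodule.mem_bot] at hs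
    rw [hs, map_zero]
  | succ N ih =>
    by_cases h1 : ∃ j ∈ I.image Prod.fst, (sl I j).card = 1
    · -- a slot which is alone in its block
      obtain ⟨j, hj, hj1⟩ := h1
      obtain ⟨i, hi⟩ := card_eq_one.1 hj1
      have hiI : i ∈ I ∧ i.1 = j := (mem_sl _ _).1 (by rw [hi]; exact mem_singleton_self i)
      obtain ⟨hiI, rfl⟩ := hiI
      have hneed : need I = 1 + sm I := need_one ⟨i.1, hj, hj1⟩
      obtain ⟨Ψ, hΨ, hΦΨ⟩ := hMrgA K α H ρ r k I P i Φ hΦ hiI hi (by omega)
      intro n hn s hs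
      rw [hΦΨ n hn s hs]
      have hc1 : ((I.erase i).image Prod.fst).card + 1 = (I.image Prod.fst).card := by
        rw [image_erase_one hi]
        exact card_erase_add_one hj
      have hc2 : (I.erase i).card = N := by
        rw [card_erase_of_mem hiI, hN]
        rfl
      have hc3 : need (I.erase i) ≤ need I + 1 := by
        have h3 := need_le (I.erase i)
        rw [sm_erase_one hiI hi] at h3
        omega
      refine ih (k + 1) (I.erase i) P Ψ hΨ (by omega) (by omega) ?_ hc2 n (U.cf_erase i hn) _ ?_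
      · rw [hc2]
        rw [hN] at hb
        obtain ⟨k', rfl⟩ : ∃ k', k = k' + 1 := ⟨k - 1, by omega⟩
        simp only [Nat.add_sub_cancel] at hb ⊢
        nlinarith
      · rw [U.rest_erase hiI hn]
        exact U.swd_mem (hn.1 i hiI).1 (U.rest_disj hiI) hs
    · -- all blocks have at least two slots
      have h2 : ∀ i ∈ I, 2 ≤ (sl I i.1).card := by
        intro i hi
        have h3 : 0 < (sl I i.1).card := card_pos.2 ⟨i, (mem_sl _ _).2 ⟨hi, rfl⟩⟩
        have h4 : (sl I i.1).card ≠ 1 := fun h => h1 ⟨i.1, mem_image_of_mem _ hi, h⟩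
        omega
      have hneed : need I = 2 + sm I := need_two h1
      have hcyc : CycR r k I P Φ := by
        intro n hn i hi l hl u hu v hv huv x hx
        have hu' := (U.mem_rest u).1 hu
        have hv' := (U.mem_rest v).1 hv
        have hni := hn.1 i hi
        have hul : u ≠ l := fun h => hu'.2 i hi (h ▸ hl)
        have hvl : v ≠ l := fun h => hv'.2 i hi (h ▸ hl)
        have hug : u ∉ (n i).erase l := fun h => hu'.2 i hi (mem_of_mem_erase h)
        have hvg : v ∉ (n i).erase l := fun h => hv'.2 i hi (mem_of_mem_erase h)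
        have hlg : l ∉ (n i).erase l := notMem_erase l _
        have hgc : ((n i).erase l).card + 1 = r := by rw [card_erase_add_one hl, hni.1]
        have hins : insert l ((n i).erase l) = n i := insert_erase hl
        obtain ⟨Ψ, hΨ, hfr⟩ := hFrz K α H ρ r k I P i Φ hΦ hi u v l ((n i).erase l) hu'.1 hv'.1
          (hni.2 hl) ((erase_subset _ _).trans hni.2) huv hul hvl hug hvg hlg hgc
        rw [hins] at hΨ
        have hsub : insert u (insert v (n i)) ⊆ P := by
          intro a ha
          rw [mem_insert, mem_insert] at ha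
          rcases ha with rfl | rfl | ha
          · exact hu'.1
          · exact hv'.1
          · exact hni.2 ha
        have hcard : (insert u (insert v (n i))).card = r + 2 := by
          rw [card_insert_of_notMem, card_insert_of_notMem, hni.1]
          · exact hv'.2 i hi
          · rw [mem_insert, not_or]
            exact ⟨huv, hu'.2 i hi⟩
        have hPc : (P \ insert u (insert v (n i))).card + (r + 2) = P.card := by
          rw [← hcard]
          exact card_sdiff_add_card_eq_card hsub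
        have hc2 : (I.erase i).card = N := by
          rw [card_erase_of_mem hi, hN]
          rfl
        have hc3 := need_erase_two hi h1 (h2 i hi)
        have hrest : rest (I.erase i) (P \ insert u (insert v (n i))) n =
            ((rest I P n).erase u).erase v := by
          ext a
          simp only [U.mem_rest, mem_erase, mem_sdiff, mem_insert, not_or]
          constructor
          · rintro ⟨⟨a1, a2, a3, a4⟩, a5⟩
            refine ⟨a3, a2, a1, fun j hj => ?_⟩
            by_cases hji : j = i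
            · rw [hji]
              exact a4
            · exact a5 j ⟨hji, hj⟩
          · rintro ⟨a3, a2, a1, a5⟩
            exact ⟨⟨a1, a2, a3, a5 i hi⟩, fun j hj => a5 j hj.2⟩
        have hcf : Cf r (I.erase i) (P \ insert u (insert v (n i))) n := by
          refine ⟨fun j hj => ⟨(hn.1 j (mem_of_mem_erase hj)).1, fun a ha => ?_⟩,
            fun j hj j' hj' hjj => hn.2 j (mem_of_mem_erase hj) j' (mem_of_mem_erase hj') hjj⟩
          rw [mem_sdiff, mem_insert, mem_insert, not_or, not_or]
          refine ⟨(hn.1 j (mem_of_mem_erase hj)).2 ha, ?_, ?_, ?_⟩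
          · rintro rfl
            exact hu'.2 j (mem_of_mem_erase hj) ha
          · rintro rfl
            exact hv'.2 j (mem_of_mem_erase hj) ha
          · intro hai
            exact Finset.disjoint_left.1
              (hn.2 j (mem_of_mem_erase hj) i hi (ne_of_mem_erase hj)) ha hai
        have h0 : Ψ n x = 0 := by
          refine ih k (I.erase i) _ Ψ hΨ hk ?_ ?_ hc2 n hcf x ?_
          · rw [image_erase_two hi (h2 i hi)]
            exact him
          · rw [hc2]
            rw [hN] at hb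
            have e1 : r * (N + 1) = r * N + r := by ring
            rw [e1] at hb
            omega
          · rw [hrest]
            exact hx
        rw [hfr n x] at h0
        unfold frz at h0
        rw [hins, Function.update_eq_self] at h0
        exact h0
      have hk2 : k * (k - 1) ≤ (k + 1) * k := by
        rw [mul_comm (k + 1) k]
        exact Nat.mul_le_mul_left k (by omega)
      exact hFin K α H ρ r k I P Φ hΦ him (by omega)
        (hTwo K α H ρ r k I P Φ hΦ hcyc (by omega))

end Pool.Agent.Work.MP_1233f5_ag.Y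

end

section

/-! MP_1233f5_ag, block Y, part L: merging a slot which is alone in its block. -/

set_option autoImplicit false

set_option linter.unusedSectionVars false

namespace Pool.Agent.Work.MP_1233f5_ag.Y

open Finset
open Pool.Agent.Work.MP_1233f5_ag.Sec (Fk wd ct ee ff hh IsSec IsDeg swd brk)

namespace MrgX

section basic

variable {α : Type} [DecidableEq α] {r : ℕ} {P : Finset α} {i : ℕ × ℕ}

theorem rest_single (n : ℕ × ℕ → Finset α) (R : Finset α) : rest {i} R n = R \ n i := by
  unfold rest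
  rw [singleton_biUnion]

theorem cf_single {n : ℕ × ℕ → Finset α} : Cf r {i} P n ↔ (n i).card = r ∧ n i ⊆ P := by
  constructor
  · intro h
    exact h.1 i (mem_singleton_self i)
  · intro h
    refine ⟨fun j hj => ?_, fun j hj j' hj' hjj => ?_⟩
    · rw [mem_singleton.1 hj]
      exact h
    · exact absurd ((mem_singleton.1 hj).trans (mem_singleton.1 hj').symm) hjj

theorem sl_single : sl {i} i.1 = {i} := by
  unfold sl
  rw [filter_singleton, if_pos rfl]

end basic

section main

variable {K : Type} [Field K] {α : Type} [DecidableEq α] {H : Type}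
  [AddCommGroup H] [Module K H] {ρ : Equiv.Perm α →* Module.End K H} {r k : ℕ}
  {P : Finset α} {i : ℕ × ℕ} {Φ : (ℕ × ℕ → Finset α) → ((Finset α → Fk K) →ₗ[K] H)}

theorem loc' (hA : Adm ρ r k {i} P Φ) (n : ℕ × ℕ → Finset α) : Φ n = Φ (fun _ => n i) := by
  refine hA.loc _ _ fun j hj => ?_
  rw [mem_singleton.1 hj]

/-- exchange for one slot. -/
theorem exch' (hA : Adm ρ r k {i} P Φ) {g m : Finset α} (hg : g.card = r) (hgP : g ⊆ P)
    (hm : m.card = r) (hmP : m ⊆ P \ g) {x : Finset α → Fk K}
    (hx : x ∈ Sc K r k ((P \ g) \ m)) :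
    Φ (fun _ => g) (swd m x) = -Φ (fun _ => m) (swd g x) := by
  have h1 := hA.exch i.1 (mem_image_of_mem _ (mem_singleton_self i)) (fun _ => g)
    (cf_single.2 ⟨hg, hgP⟩) m (by rw [rest_single]; exact hmP) hm x
    (by rw [rest_single]; exact hx)
  rw [sl_single, sum_singleton, loc' hA (Function.update (fun _ => g) i m)] at h1
  simp only [Function.update_self] at h1
  exact eq_neg_of_add_eq_zero_left h1

theorem cycR [CharZero K] [Fintype α] (hPlk : S_Plk) (hWsp : S_Wsp) (hA : Adm ρ r k {i} P Φ)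
    (hP : (k + 2) * r + 2 ≤ P.card + k * (k - 1)) : CycR r k {i} P Φ := by
  intro n hn i' hi' l hl u hu v hv huv x hx
  rw [mem_singleton] at hi'
  subst hi'
  rw [cf_single] at hn
  obtain ⟨hg, hgP⟩ := hn
  rw [rest_single] at hu hv hx
  rw [loc' hA n, loc' hA (Function.update n i' _), loc' hA (Function.update n i' _)]
  simp only [Function.update_self]
  generalize n i' = g at *
  rw [mem_sdiff] at hu hv
  have hlP : l ∈ P := hgP hl
  have hul : u ≠ l := fun h => hu.2 (h ▸ hl)
  have hvl : v ≠ l := fun h => hv.2 (h ▸ hl)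
  set g' := g.erase l with hg'
  have hug' : u ∉ g' := fun h => hu.2 (mem_of_mem_erase h)
  have hvg' : v ∉ g' := fun h => hv.2 (mem_of_mem_erase h)
  have hlg' : l ∉ g' := notMem_erase l g
  have hgi : insert l g' = g := insert_erase hl
  have hg'c : g'.card + 1 = r := by rw [← hg, ← hgi, card_insert_of_notMem hlg']
  set R := ((P \ g).erase u).erase v with hR
  have hRc : R.card + 2 + r = P.card := by
    have h1 : v ∈ (P \ g).erase u := mem_erase.2 ⟨huv.symm, mem_sdiff.2 hv⟩
    have h2 : u ∈ P \ g := mem_sdiff.2 hu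
    have h3 := card_erase_add_one h1
    have h4 := card_erase_add_one h2
    rw [← hR] at h3
    have h5 : (P \ g).card + r = P.card := by
      rw [← hg]
      exact card_sdiff_add_card_eq_card hgP
    omega
  have hsp := hWsp K α r k R (by
    have h1 : (k + 2) * r = (k + 1) * r + r := by ring
    omega)
  -- the linear map
  set L : (Finset α → Fk K) →ₗ[K] H :=
    (Φ (fun _ => g)).comp (U.brkL u v) + (Φ (fun _ => insert u g')).comp (U.brkL v l) +
      (Φ (fun _ => insert v g')).comp (U.brkL l u) with hL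
  have hker : Submodule.span K {s | ∃ m ⊆ R, m.card = r ∧
      ∃ y ∈ Sc K r k (R \ m), s = swd m y} ≤ LinearMap.ker L := by
    rw [Submodule.span_le]
    rintro s ⟨m, hmR, hm, y, hy, rfl⟩
    rw [SetLike.mem_coe, LinearMap.mem_ker]
    simp only [hL, LinearMap.add_apply, LinearMap.comp_apply, U.brkL_apply]
    have hmem : ∀ a ∈ m, a ≠ v ∧ a ≠ u ∧ a ∈ P ∧ a ∉ g := by
      intro a ha
      have h := hmR ha
      rw [hR, mem_erase, mem_erase, mem_sdiff] at h
      exact ⟨h.1, h.2.1, h.2.2.1, h.2.2.2⟩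
    have hum : u ∉ m := fun h => (hmem u h).2.1 rfl
    have hvm : v ∉ m := fun h => (hmem v h).1 rfl
    have hlm : l ∉ m := fun h => (hmem l h).2.2.2 hl
    have hg'g : ∀ a, a ∈ g' ↔ a ≠ l ∧ a ∈ g := fun a => mem_erase
    rw [U.brk_swd' hum hvm, U.brk_swd' hvm hlm, U.brk_swd' hlm hum]
    have e1 : Φ (fun _ => g) (swd m (brk u v y)) = -Φ (fun _ => m) (swd g (brk u v y)) := by
      refine exch' hA hg hgP hm (fun a ha => mem_sdiff.2 ⟨(hmem a ha).2.2.1, (hmem a ha).2.2.2⟩) ?_
      refine U.brk_mem' huv (mem_sdiff.2 ⟨mem_sdiff.2 hu, hum⟩) (mem_sdiff.2 ⟨mem_sdiff.2 hv, hvm⟩) ?_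
      have h : (((P \ g) \ m).erase u).erase v = R \ m := by
        ext a
        simp only [hR, mem_erase, mem_sdiff]
        tauto
      rw [h]
      exact hy
    have e2 : Φ (fun _ => insert u g') (swd m (brk v l y)) =
        -Φ (fun _ => m) (swd (insert u g') (brk v l y)) := by
      refine exch' hA (by rw [card_insert_of_notMem hug']; exact hg'c) ?_ hm ?_ ?_
      · intro a ha
        rcases mem_insert.1 ha with h | h
        · rw [h]; exact hu.1
        · exact hgP (mem_of_mem_erase h)
      · intro a ha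
        refine mem_sdiff.2 ⟨(hmem a ha).2.2.1, fun h => ?_⟩
        rcases mem_insert.1 h with h | h
        · exact (hmem a ha).2.1 h
        · exact (hmem a ha).2.2.2 (mem_of_mem_erase h)
      · refine U.brk_mem' hvl (mem_sdiff.2 ⟨mem_sdiff.2 ⟨hv.1, ?_⟩, hvm⟩)
          (mem_sdiff.2 ⟨mem_sdiff.2 ⟨hlP, ?_⟩, hlm⟩) ?_
        · rw [mem_insert, not_or]
          exact ⟨huv.symm, hvg'⟩
        · rw [mem_insert, not_or]
          exact ⟨hul.symm, hlg'⟩
        · have h : (((P \ insert u g') \ m).erase v).erase l = R \ m := by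
            ext a
            simp only [hR, mem_erase, mem_sdiff, mem_insert, hg'g]
            by_cases hal : a = l
            · subst hal
              tauto
            · tauto
          rw [h]
          exact hy
    have e3 : Φ (fun _ => insert v g') (swd m (brk l u y)) =
        -Φ (fun _ => m) (swd (insert v g') (brk l u y)) := by
      refine exch' hA (by rw [card_insert_of_notMem hvg']; exact hg'c) ?_ hm ?_ ?_
      · intro a ha
        rcases mem_insert.1 ha with h | h
        · rw [h]; exact hv.1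
        · exact hgP (mem_of_mem_erase h)
      · intro a ha
        refine mem_sdiff.2 ⟨(hmem a ha).2.2.1, fun h => ?_⟩
        rcases mem_insert.1 h with h | h
        · exact (hmem a ha).1 h
        · exact (hmem a ha).2.2.2 (mem_of_mem_erase h)
      · refine U.brk_mem' hul.symm (mem_sdiff.2 ⟨mem_sdiff.2 ⟨hlP, ?_⟩, hlm⟩)
          (mem_sdiff.2 ⟨mem_sdiff.2 ⟨hu.1, ?_⟩, hum⟩) ?_
        · rw [mem_insert, not_or]
          exact ⟨hvl.symm, hlg'⟩
        · rw [mem_insert, not_or]
          exact ⟨huv, hug'⟩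
        · have h : (((P \ insert v g') \ m).erase l).erase u = R \ m := by
            ext a
            simp only [hR, mem_erase, mem_sdiff, mem_insert, hg'g]
            by_cases hal : a = l
            · subst hal
              tauto
            · tauto
          rw [h]
          exact hy
    rw [e1, e2, e3, ← neg_add, ← neg_add, ← map_add, ← map_add]
    have hp := hPlk K α u v l g' y huv hul hvl hug' hvg' hlg'
    rw [hgi] at hp
    rw [hp, map_zero, neg_zero]
  have h := hker (hsp hx)
  rw [LinearMap.mem_ker] at h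
  simpa only [hL, LinearMap.add_apply, LinearMap.comp_apply, U.brkL_apply] using h

/-- the linear algebra step. -/
theorem factor {F V : Type} [AddCommGroup F] [Module K F] [AddCommGroup V] [Module K V]
    (M : Submodule K F) (p : F →ₗ[K] V) (h : F →ₗ[K] H)
    (hk : ∀ c ∈ M, p c = 0 → h c = 0) : ∃ Ψ : V →ₗ[K] H, ∀ c ∈ M, h c = Ψ (p c) := by
  set p' : M →ₗ[K] V := p.domRestrict M with hp'
  set h' : M →ₗ[K] H := h.domRestrict M with hh'
  have hle : LinearMap.ker p' ≤ LinearMap.ker h' := by
    intro c hc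
    rw [LinearMap.mem_ker] at hc ⊢
    exact hk c c.2 hc
  set Ψ0 : LinearMap.range p' →ₗ[K] H :=
    ((LinearMap.ker p').liftQ h' hle).comp (LinearMap.quotKerEquivRange p').symm.toLinearMap
    with hΨ0
  obtain ⟨Ψ, hΨ⟩ := LinearMap.exists_extend Ψ0
  refine ⟨Ψ, fun c hc => ?_⟩
  have h1 : Ψ (p c) = Ψ0 ⟨p' ⟨c, hc⟩, LinearMap.mem_range_self _ _⟩ := by
    rw [← hΨ]
    rfl
  rw [h1, hΨ0, LinearMap.comp_apply]
  have h2 : (LinearMap.quotKerEquivRange p').symm.toLinearMap
      ⟨p' ⟨c, hc⟩, LinearMap.mem_range_self _ _⟩ = (LinearMap.ker p').mkQ ⟨c, hc⟩ := by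
    rw [LinearEquiv.coe_coe, LinearEquiv.symm_apply_eq]
    rfl
  rw [h2]
  rfl

/-- the type with value `t` at `i`. -/
def ty (i : ℕ × ℕ) (t : ℕ) : ℕ × ℕ → ℕ := fun j => if j ∈ ({i} : Finset (ℕ × ℕ)) then t else 0

theorem ty_self (i : ℕ × ℕ) (t : ℕ) : ty i t i = t := by
  unfold ty
  rw [if_pos (mem_singleton_self i)]

theorem ty_update (i : ℕ × ℕ) (t s : ℕ) : Function.update (ty i t) i s = ty i s := by
  funext j
  by_cases h : j = i
  · rw [h, Function.update_self, ty_self]
  · rw [Function.update_of_ne h]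
    unfold ty
    rw [if_neg (fun hc => h (mem_singleton.1 hc)), if_neg (fun hc => h (mem_singleton.1 hc))]

end main

end MrgX

open MrgX in
theorem prf_Mrg (hRep2 : S_Rep2) (hSAct : S_SAct) (hPlk : S_Plk) (hWsp : S_Wsp) (hTwo : S_Two)
    (hFex : S_Fex) (hKos : S_Kos) : S_Mrg := by
  intro K _ _ α _ _ H _ _ ρ r k P i Φ hA hP
  have hcyc := cycR hPlk hWsp hA hP
  have hk2 : k * (k - 1) ≤ (k + 1) * k := by
    have : k * (k - 1) ≤ k * (k + 1) := Nat.mul_le_mul_left k (by omega)
    rw [mul_comm (k + 1) k]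
    exact this
  have hkr : (k + 2) * r = (k + 1) * r + r := by ring
  have htwo := hTwo K α H ρ r k {i} P Φ hA hcyc (by
    rw [card_singleton, mul_one]
    omega)
  set G : Finset (Finset α) := P.powersetCard r with hG
  have hGm : ∀ g, g ∈ G ↔ g ⊆ P ∧ g.card = r := fun g => mem_powersetCard
  have hcf : ∀ g ∈ G, Cf r {i} P (fun _ => g) := fun g hg =>
    cf_single.2 ⟨((hGm g).1 hg).2, ((hGm g).1 hg).1⟩
  -- the functions
  set M : Submodule K (Finset α → (Finset α → Fk K)) :=
    ⨅ g ∈ G, (Sc K r (k + 1) (P \ g)).comap (LinearMap.proj g) with hM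
  have hMm : ∀ c, c ∈ M ↔ ∀ g ∈ G, c g ∈ Sc K r (k + 1) (P \ g) := by
    intro c
    rw [hM, Submodule.mem_iInf]
    refine forall_congr' fun g => ?_
    rw [Submodule.mem_iInf]
    rfl
  set p : (Finset α → (Finset α → Fk K)) →ₗ[K] (Finset α → Fk K) :=
    ∑ g ∈ G, (U.swdL g).comp (LinearMap.proj g) with hp
  have hpa : ∀ c, p c = ∑ g ∈ G, swd g (c g) := by
    intro c
    rw [hp, LinearMap.sum_apply]
    rfl
  set h : (Finset α → (Finset α → Fk K)) →ₗ[K] H :=
    ∑ g ∈ G, (Φ (fun _ => g)).comp (LinearMap.proj g) with hh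
  have hha : ∀ c, h c = ∑ g ∈ G, Φ (fun _ => g) (c g) := by
    intro c
    rw [hh, LinearMap.sum_apply]
    rfl
  set Z : Submodule K H := (M ⊓ LinearMap.ker p).map h with hZ
  have hZm : ∀ z, z ∈ Z ↔ ∃ c, c ∈ M ∧ p c = 0 ∧ h c = z := by
    intro z
    rw [hZ, Submodule.mem_map]
    constructor
    · rintro ⟨c, hc, rfl⟩
      exact ⟨c, hc.1, hc.2, rfl⟩
    · rintro ⟨c, h1, h2, rfl⟩
      exact ⟨c, ⟨h1, h2⟩, rfl⟩
  have hZ0 : Z ≤ ⊥ := by
    refine hRep2 K α H ρ P Z ⊥ ?_ ?_ ?_ ?_
    · -- stability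
      intro σ hσ z hz
      obtain ⟨c, hc, hpc, rfl⟩ := (hZm z).1 hz
      rw [hMm] at hc
      have hσG : ∀ g ∈ G, im σ⁻¹ g ∈ G := fun g hg => by
        rw [hGm] at hg ⊢
        exact ⟨U.im_sub (U.sup_inv hσ) hg.1, by rw [card_im]; exact hg.2⟩
      have hσG' : ∀ g ∈ G, im σ g ∈ G := fun g hg => by
        rw [hGm] at hg ⊢
        exact ⟨U.im_sub hσ hg.1, by rw [card_im]; exact hg.2⟩
      refine (hZm _).2 ⟨fun g => sact K α σ (c (im σ⁻¹ g)), ?_, ?_, ?_⟩
      · rw [hMm]
        intro g hg
        have h1 := hSAct K α r (k + 1) (P \ im σ⁻¹ g) σ _ (hc _ (hσG g hg))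
        rw [U.im_sdiff, U.sup_im hσ, U.im_im_inv] at h1
        exact h1
      · rw [hpa]
        have h1 : ∑ g ∈ G, swd g (sact K α σ (c (im σ⁻¹ g))) =
            ∑ g ∈ G, sact K α σ (swd g (c g)) := by
          refine sum_nbij' (fun g => im σ⁻¹ g) (fun g => im σ g) hσG hσG'
            (fun g _ => U.im_im_inv σ g) (fun g _ => U.im_inv_im σ g) fun g _ => ?_
          rw [U.sact_swd, U.im_im_inv]
        rw [h1, ← map_sum, ← hpa, hpc, map_zero]
      · rw [hha, hha, map_sum]
        refine sum_nbij' (fun g => im σ⁻¹ g) (fun g => im σ g) hσG hσG'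
          (fun g _ => U.im_im_inv σ g) (fun g _ => U.im_inv_im σ g) fun g hg => ?_
        have h1 := hA.eqv σ hσ (fun _ => im σ⁻¹ g) (hcf _ (hσG g hg)) (c (im σ⁻¹ g))
          (by rw [rest_single]; exact hc _ (hσG g hg))
        rw [← h1]
        simp only [U.im_im_inv]
    · intro σ _ z hz
      rw [Submodule.mem_bot] at hz ⊢
      rw [hz, map_zero]
    · -- invariant vectors
      intro Y hY z hz hinv
      obtain ⟨c, hc, hpc, rfl⟩ := (hZm z).1 hz
      rw [hMm] at hc
      obtain ⟨N, hN, hNs⟩ := U.symm_of_inv ρ P Y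
      have h1 := hNs _ hinv
      obtain ⟨f, hf1, hf2⟩ := hFex K α H ρ r k {i} P Y Φ hA hY (by
        rw [card_singleton, mul_one]
        omega)
      have h2 : symm ρ P Y (h c) = ∑ g ∈ G, f (ty i (g ∩ Y).card) (c g (Y \ g)) := by
        rw [hha, map_sum]
        refine sum_congr rfl fun g hg => ?_
        rw [hf1 (fun _ => g) (hcf g hg) (c g) (by rw [rest_single]; exact hc g hg), rest_single]
        rfl
      set C : ℕ → Fk K := fun t => ∑ g ∈ G.filter (fun g => (g ∩ Y).card = t), c g (Y \ g) with hC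
      have hcard : ∀ g ∈ G, (g ∩ Y).card ∈ range (r + 1) := by
        intro g hg
        rw [mem_range, Nat.lt_succ_iff, ← ((hGm g).1 hg).2]
        exact card_le_card inter_subset_left
      have h3 : ∑ g ∈ G, f (ty i (g ∩ Y).card) (c g (Y \ g)) =
          ∑ t ∈ range (r + 1), f (ty i t) (C t) := by
        rw [← sum_fiberwise_of_maps_to hcard]
        refine sum_congr rfl fun t _ => ?_
        rw [hC, map_sum]
        refine sum_congr rfl fun g hg => ?_
        rw [(mem_filter.1 hg).2]
      have h4 : ∑ t ∈ range (r + 1), wd t (C t) = 0 := by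
        have h5 : ∑ g ∈ G, wd (g ∩ Y).card (c g (Y \ g)) = 0 := by
          have h6 := congrFun hpc Y
          rw [hpa, Finset.sum_apply] at h6
          exact h6
        rw [← h5, ← sum_fiberwise_of_maps_to hcard]
        refine sum_congr rfl fun t _ => ?_
        rw [hC, map_sum]
        refine sum_congr rfl fun g hg => ?_
        rw [(mem_filter.1 hg).2]
      have h7 := hKos K H r k (fun t => f (ty i t)) (by
        intro s hs t ht x hx
        have h8 := hf2 i.1 (mem_image_of_mem _ (mem_singleton_self i)) (ty i t) (by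
          intro j hj
          unfold ty
          rw [if_pos hj]
          exact ht) (by
          intro j hj
          unfold ty
          rw [if_neg hj]) s hs x hx
        rw [sl_single, sum_singleton, ty_update, ty_self] at h8
        exact h8) C (by
        intro t _
        rw [hC]
        exact IsDeg.sum _ _ fun g hg => (hc g (mem_filter.1 hg).1).2 _) h4
      rw [h2, h3, h7] at h1
      rw [Submodule.mem_bot]
      exact (smul_eq_zero.1 h1.symm).resolve_left hN
    · -- antisymmetric vectors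
      intro Q hQ hQ3 z hz hanti
      obtain ⟨c, hc, hpc, rfl⟩ := (hZm z).1 hz
      rw [hMm] at hc
      obtain ⟨N, hN, hNs⟩ := U.asym_of_anti ρ Q
      have h1 := hNs _ hanti
      have h2 : asym ρ Q (h c) = 0 := by
        rw [hha, map_sum]
        refine sum_eq_zero fun g hg => ?_
        exact htwo (fun _ => g) (hcf g hg) (c g) (by rw [rest_single]; exact hc g hg) Q hQ hQ3
      rw [h2] at h1
      rw [Submodule.mem_bot]
      exact (smul_eq_zero.1 h1.symm).resolve_left hN
  obtain ⟨Ψ, hΨ⟩ := factor M p h (by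
    intro c hc hpc
    have h1 : h c ∈ Z := (hZm _).2 ⟨c, hc, hpc, rfl⟩
    exact (Submodule.mem_bot K).1 (hZ0 h1))
  refine ⟨Ψ, fun n hn s hs => ?_⟩
  rw [cf_single] at hn
  rw [rest_single] at hs
  have hgG : n i ∈ G := (hGm _).2 ⟨hn.2, hn.1⟩
  set c : Finset α → (Finset α → Fk K) := fun g => if g = n i then s else 0 with hc
  have h1 := hΨ c (by
    rw [hMm]
    intro g hg
    rw [hc]
    simp only
    split_ifs with h2
    · rw [h2]
      exact hs
    · exact Submodule.zero_mem _)
  have h2 : h c = Φ n s := by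
    rw [hha, sum_eq_single_of_mem (n i) hgG, loc' hA n]
    · rw [hc]
      simp only [if_true]
    · intro g _ hg
      rw [hc]
      simp only [if_neg hg, map_zero]
  have h3 : p c = swd (n i) s := by
    rw [hpa, sum_eq_single_of_mem (n i) hgG]
    · rw [hc]
      simp only [if_true]
    · intro g _ hg
      rw [hc]
      simp only [if_neg hg]
      exact map_zero (U.swdL g)
  rw [← h2, ← h3]
  exact h1

end Pool.Agent.Work.MP_1233f5_ag.Y

end

section

/-! MP_1233f5_ag, block Y: merging a slot which is alone in its block, with all slots. -/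

set_option autoImplicit false

namespace Pool.Agent.Work.MP_1233f5_ag.Y

open Finset
open Pool.Agent.Work.MP_1233f5_ag.Sec (Fk wd ct ee ff hh IsSec IsDeg swd brk)

namespace MrgAX

section

variable {K : Type} [Field K] {α : Type} [DecidableEq α] {H : Type} [AddCommGroup H] [Module K H]
  {r k : ℕ} {I : Finset (ℕ × ℕ)} {P : Finset α} {i : ℕ × ℕ}

theorem sl_single (i : ℕ × ℕ) : sl {i} i.1 = {i} := by
  unfold sl
  rw [Finset.filter_singleton, if_pos rfl]

theorem rest_single (Q : Finset α) (n : ℕ × ℕ → Finset α) : rest {i} Q n = Q \ n i := by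
  unfold rest
  rw [singleton_biUnion]

/-- the slots of the other blocks. -/
theorem sl_erase (hs : sl I i.1 = {i}) {j : ℕ} (hj : j ∈ (I.erase i).image Prod.fst) :
    j ≠ i.1 ∧ sl (I.erase i) j = sl I j := by
  rw [mem_image] at hj
  obtain ⟨i', hi', hj'⟩ := hj
  have h1 : j ≠ i.1 := by
    intro h
    have h2 : i' ∈ sl I i.1 := by
      unfold sl
      rw [mem_filter]
      exact ⟨mem_of_mem_erase hi', hj'.trans h⟩
    rw [hs, mem_singleton] at h2
    exact ne_of_mem_erase hi' h2
  refine ⟨h1, ?_⟩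
  ext a
  unfold sl
  rw [mem_filter, mem_filter, mem_erase]
  constructor
  · rintro ⟨⟨_, h2⟩, h3⟩
    exact ⟨h2, h3⟩
  · rintro ⟨h2, h3⟩
    refine ⟨⟨?_, h2⟩, h3⟩
    intro h4
    rw [h4] at h3
    exact h1 h3.symm

/-- the exchange in the block of `i`. -/
theorem exch_i {ρ : Equiv.Perm α →* Module.End K H}
    {Φ : (ℕ × ℕ → Finset α) → ((Finset α → Fk K) →ₗ[K] H)}
    (hΦ : Adm ρ r k I P Φ) (hi : i ∈ I) (hs : sl I i.1 = {i}) {n : ℕ × ℕ → Finset α}
    {g m : Finset α} (hn : Cf r I P (Function.update n i g))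
    (hm : m ⊆ rest I P (Function.update n i g)) (hc : m.card = r) {x : Finset α → Fk K}
    (hx : x ∈ Sc K r k (rest I P (Function.update n i g) \ m)) :
    Φ (Function.update n i g) (swd m x) = -Φ (Function.update n i m) (swd g x) := by
  have h := hΦ.exch i.1 (mem_image_of_mem _ hi) _ hn m hm hc x hx
  rw [hs, sum_singleton, Function.update_idem, Function.update_self] at h
  exact eq_neg_of_add_eq_zero_left h

/-- the functional of one slot is admissible. -/
theorem adm_one {ρ : Equiv.Perm α →* Module.End K H}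
    {Φ : (ℕ × ℕ → Finset α) → ((Finset α → Fk K) →ₗ[K] H)}
    (hΦ : Adm ρ r k I P Φ) (hi : i ∈ I) (hs : sl I i.1 = {i}) {n : ℕ × ℕ → Finset α}
    (hn : Cf r (I.erase i) P n) :
    Adm ρ r k {i} (rest (I.erase i) P n)
      (fun n' => Φ (Function.update n i (n' i))) where
  loc := by
    intro n' n'' h
    rw [h i (mem_singleton_self i)]
  eqv := by
    intro σ hσ n' hn' s hs'
    obtain ⟨hc, hsub⟩ := hn'.1 i (mem_singleton_self i)
    have hσP : Sup P σ := U.sup_mono U.rest_sub hσ
    have hN := U.cf_insert hn hsub hc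
    rw [rest_single, ← U.rest_insert hi] at hs'
    rw [← hΦ.eqv σ hσP _ hN s hs']
    refine LinearMap.congr_fun (hΦ.loc _ _ ?_) _
    intro j hj
    by_cases hji : j = i
    · rw [hji, Function.update_self, Function.update_self]
    · rw [Function.update_of_ne hji, Function.update_of_ne hji]
      exact (U.sup_im_disj hσ (U.rest_disj (mem_erase.2 ⟨hji, hj⟩)).symm).symm
  exch := by
    intro j hj n' hn' m hm hc' x hx
    obtain ⟨hc, hsub⟩ := hn'.1 i (mem_singleton_self i)
    have hN := U.cf_insert hn hsub hc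
    rw [image_singleton, mem_singleton] at hj
    rw [hj, sl_single, sum_singleton]
    rw [rest_single, ← U.rest_insert hi] at hm hx
    rw [exch_i hΦ hi hs hN hm hc' hx, Function.update_self]
    exact neg_add_cancel _

/-- a choice of the functionals. -/
theorem exists_psi {Φ : (ℕ × ℕ → Finset α) → ((Finset α → Fk K) →ₗ[K] H)}
    (hloc : ∀ n n', (∀ j ∈ I, n j = n' j) → Φ n = Φ n')
    (hA : ∀ n, Cf r (I.erase i) P n → ∃ ψ : (Finset α → Fk K) →ₗ[K] H,
      ∀ g ⊆ rest (I.erase i) P n, g.card = r → ∀ s ∈ Sc K r (k + 1) (rest (I.erase i) P n \ g),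
      Φ (Function.update n i g) s = ψ (swd g s)) :
    ∃ Ψ : (ℕ × ℕ → Finset α) → ((Finset α → Fk K) →ₗ[K] H),
      (∀ n n', (∀ j ∈ I.erase i, n j = n' j) → Ψ n = Ψ n') ∧
      ∀ n, Cf r (I.erase i) P n → ∀ g ⊆ rest (I.erase i) P n, g.card = r →
        ∀ s ∈ Sc K r (k + 1) (rest (I.erase i) P n \ g),
        Ψ n (swd g s) = Φ (Function.update n i g) s := by
  classical
  let nt : (ℕ × ℕ → Finset α) → (ℕ × ℕ → Finset α) := fun n j => if j ∈ I.erase i then n j else ∅
  refine ⟨fun n => if h : Cf r (I.erase i) P (nt n) then (hA (nt n) h).choose else 0, ?_, ?_⟩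
  · intro n n' h
    have h1 : nt n = nt n' := by
      funext j
      change (if j ∈ I.erase i then n j else ∅) = (if j ∈ I.erase i then n' j else ∅)
      by_cases hj : j ∈ I.erase i
      · rw [if_pos hj, if_pos hj, h j hj]
      · rw [if_neg hj, if_neg hj]
    dsimp only
    rw [h1]
  · intro n hn g hg hc s hs
    have h1 : ∀ j ∈ I.erase i, n j = nt n j := by
      intro j hj
      exact (if_pos hj).symm
    have h2 : Cf r (I.erase i) P (nt n) := U.cf_congr h1 hn
    have h3 : rest (I.erase i) P n = rest (I.erase i) P (nt n) := U.rest_congr h1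
    dsimp only
    rw [dif_pos h2]
    rw [h3] at hg hs
    rw [← (hA (nt n) h2).choose_spec g hg hc s hs]
    refine LinearMap.congr_fun (hloc _ _ ?_) _
    intro j hj
    by_cases hji : j = i
    · rw [hji, Function.update_self, Function.update_self]
    · rw [Function.update_of_ne hji, Function.update_of_ne hji]
      exact (h1 j (mem_erase.2 ⟨hji, hj⟩)).symm

end

end MrgAX

theorem prf_MrgA (hMrg : S_Mrg) (hWsp : S_Wsp) (hSAct : S_SAct) : S_MrgA := by
  intro K _ _ α _ _ H _ _ ρ r k I P i Φ hΦ hi hs hcard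
  have hIc : (I.erase i).card + 1 = I.card := card_erase_add_one hi
  -- the number of points
  have hPc : ∀ n, Cf r (I.erase i) P n →
      (k + 2) * r + 2 ≤ (rest (I.erase i) P n).card + k * (k - 1) := by
    intro n hn
    have h1 := U.card_rest hn
    have h2 : r * I.card = r * (I.erase i).card + r := by rw [← hIc]; ring
    have h3 : (k + 2) * r = (k + 1) * r + r := by ring
    omega
  -- the functionals
  have hA : ∀ n, Cf r (I.erase i) P n → ∃ ψ : (Finset α → Fk K) →ₗ[K] H,
      ∀ g ⊆ rest (I.erase i) P n, g.card = r → ∀ s ∈ Sc K r (k + 1) (rest (I.erase i) P n \ g),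
      Φ (Function.update n i g) s = ψ (swd g s) := by
    intro n hn
    obtain ⟨ψ, hψ⟩ := hMrg K α H ρ r k (rest (I.erase i) P n) i _
      (MrgAX.adm_one hΦ hi hs hn) (hPc n hn)
    refine ⟨ψ, fun g hg hc s hs' => ?_⟩
    have hcf : Cf r {i} (rest (I.erase i) P n) (fun _ => g) := by
      refine ⟨fun j _ => ⟨hc, hg⟩, fun j hj j' hj' hjj => ?_⟩
      rw [mem_singleton] at hj hj'
      exact absurd (hj.trans hj'.symm) hjj
    refine hψ (fun _ => g) hcf s ?_
    rw [MrgAX.rest_single]
    exact hs'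
  obtain ⟨Ψ, hloc, hΨ⟩ := MrgAX.exists_psi hΦ.loc hA
  refine ⟨Ψ, ⟨hloc, ?_, ?_⟩, ?_⟩
  · -- equivariance
    intro σ hσ n hn s hs'
    have h1 : ((k + 1) + 1) * r ≤ (rest (I.erase i) P n).card + (k + 1) * (k + 1 - 1) := by
      have h2 := hPc n hn
      have h3 : k * (k - 1) ≤ (k + 1) * (k + 1 - 1) := Nat.mul_le_mul (by omega) (by omega)
      have h4 : ((k + 1) + 1) * r = (k + 2) * r := by ring
      omega
    have h2 := hWsp K α r (k + 1) (rest (I.erase i) P n) h1 hs'
    clear hs'
    induction h2 using Submodule.span_induction with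
    | mem s hs' =>
      obtain ⟨g, hg, hc, x, hx, rfl⟩ := hs'
      have hcf := U.cf_insert hn hg hc
      have hx' : x ∈ Sc K r (k + 1) (rest I P (Function.update n i g)) := by
        rw [U.rest_insert hi]
        exact hx
      have hσx := hSAct K α r (k + 1) _ σ x hx
      rw [U.im_sdiff, ← U.rest_im hσ] at hσx
      have hg' : im σ g ⊆ rest (I.erase i) P (fun j => im σ (n j)) := by
        rw [U.rest_im hσ]
        exact U.im_sub_im hg
      rw [hΨ n hn g hg hc x hx, U.sact_swd,
        hΨ _ (U.cf_im hσ hn) (im σ g) hg' (by rw [card_im, hc]) _ hσx,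
        ← hΦ.eqv σ hσ _ hcf x hx', U.update_im]
    | zero => simp only [map_zero]
    | add x y _ _ hx hy => rw [map_add, map_add, map_add, map_add, hx, hy]
    | smul c x _ hx => rw [map_smul, map_smul, map_smul, map_smul, hx]
  · -- exchange
    intro j hj n hn m hm hc x hx
    obtain ⟨hji, hsl⟩ := MrgAX.sl_erase hs hj
    have hj' : j ∈ I.image Prod.fst := by
      rw [mem_image] at hj ⊢
      obtain ⟨a, ha, ha'⟩ := hj
      exact ⟨a, mem_of_mem_erase ha, ha'⟩
    have h1 : (k + 1) * r ≤ (rest (I.erase i) P n \ m).card + k * (k - 1) := by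
      have h2 := hPc n hn
      have h3 := card_sdiff_of_subset hm
      have h4 := card_le_card hm
      have h5 : (k + 2) * r = (k + 1) * r + r := by ring
      omega
    have h2 := hWsp K α r k (rest (I.erase i) P n \ m) h1 hx
    -- linearity
    have hlin : ∀ z : Finset α → Fk K, Ψ n (swd m z) +
        ∑ i' ∈ sl (I.erase i) j, Ψ (Function.update n i' m) (swd (n i') z) =
        ((Ψ n).comp (U.swdL m) + ∑ i' ∈ sl (I.erase i) j,
          (Ψ (Function.update n i' m)).comp (U.swdL (n i'))) z := by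
      intro z
      rw [LinearMap.add_apply, LinearMap.sum_apply]
      rfl
    rw [hlin]
    suffices hsuff : Submodule.span K {s | ∃ g ⊆ rest (I.erase i) P n \ m, g.card = r ∧
        ∃ y ∈ Sc K r k ((rest (I.erase i) P n \ m) \ g), s = swd g y} ≤
        LinearMap.ker ((Ψ n).comp (U.swdL m) + ∑ i' ∈ sl (I.erase i) j,
          (Ψ (Function.update n i' m)).comp (U.swdL (n i'))) from hsuff h2
    rw [Submodule.span_le]
    rintro _ ⟨g, hg, hgc, y, hy, rfl⟩
    rw [SetLike.mem_coe, LinearMap.mem_ker, ← hlin]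
    have hgP : g ⊆ rest (I.erase i) P n := hg.trans sdiff_subset
    have hmg : m ⊆ rest (I.erase i) P n \ g := by
      intro a ha
      rw [mem_sdiff]
      exact ⟨hm ha, fun h => (mem_sdiff.1 (hg h)).2 ha⟩
    have hgy : swd g y ∈ Sc K r (k + 1) (rest (I.erase i) P n \ m) := U.swd_mem' hgc hg hy
    -- the first term
    have e1 : Ψ n (swd m (swd g y)) = -Φ (Function.update n i g) (swd m y) := by
      rw [hΨ n hn m hm hc _ hgy]
      refine MrgAX.exch_i hΦ hi hs (U.cf_insert hn hm hc) ?_ hgc ?_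
      · rw [U.rest_insert hi]
        exact hg
      · rw [U.rest_insert hi]
        exact hy
    -- the other terms
    have e2 : ∀ i' ∈ sl I j, Ψ (Function.update n i' m) (swd (n i') (swd g y)) =
        -Φ (Function.update (Function.update n i g) i' m)
          (swd (Function.update n i g i') y) := by
      intro i' hi'
      have hi'j : i'.1 = j := (mem_filter.1 hi').2
      have hi'I : i' ∈ I := (mem_filter.1 hi').1
      have hi'i : i' ≠ i := by
        intro h
        rw [h] at hi'j
        exact hji hi'j.symm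
      have hi'e : i' ∈ I.erase i := mem_erase.2 ⟨hi'i, hi'I⟩
      have hN : Cf r (I.erase i) P (Function.update n i' m) := U.cf_update hn hm hc
      have hR : rest (I.erase i) P (Function.update n i' m) =
          (rest (I.erase i) P n \ m) ∪ n i' := U.rest_update hi'e hn hm
      have hd : Disjoint (rest (I.erase i) P n \ m) (n i') :=
        (U.rest_disj hi'e).mono_left sdiff_subset
      have hR' : rest (I.erase i) P (Function.update n i' m) \ n i' =
          rest (I.erase i) P n \ m := by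
        rw [hR, union_sdiff_right, sdiff_eq_self_of_disjoint hd]
      have hni : n i' ⊆ rest (I.erase i) P (Function.update n i' m) := by
        rw [hR]
        exact subset_union_right
      have hnc : (n i').card = r := (hn.1 i' hi'e).1
      rw [hΨ _ hN (n i') hni hnc _ (by rw [hR']; exact hgy)]
      rw [MrgAX.exch_i hΦ hi hs (U.cf_insert hN hni hnc) (m := g) ?_ hgc ?_]
      · rw [Function.update_comm hi'i, Function.update_of_ne hi'i]
      · rw [U.rest_insert hi, hR']
        exact hg
      · rw [U.rest_insert hi, hR']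
        exact hy
    rw [hsl, e1, sum_congr rfl e2, sum_neg_distrib, ← neg_add]
    have e3 := hΦ.exch j hj' (Function.update n i g) (U.cf_insert hn hgP hgc) m
      (by rw [U.rest_insert hi]; exact hmg) hc y
      (by rw [U.rest_insert hi, sdiff_right_comm]; exact hy)
    rw [e3, neg_zero]
  · -- the formula
    intro n hn s hs'
    have h1 : rest (I.erase i) P n \ n i = rest I P n := by
      rw [← U.rest_insert hi, Function.update_eq_self]
    have h2 : n i ⊆ rest (I.erase i) P n := by
      rw [U.rest_erase hi hn]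
      exact subset_union_right
    rw [hΨ n (U.cf_erase i hn) (n i) h2 (hn.1 i hi).1 s (by rw [h1]; exact hs'),
      Function.update_eq_self]

end Pool.Agent.Work.MP_1233f5_ag.Y

end

section

/-! MP_1233f5_ag, block Y, part L: item Phi. -/

set_option autoImplicit false

namespace Pool.Agent.Work.MP_1233f5_ag.Y

open Finset
open Pool.Agent.Work.MP_1233f5_ag.Sec (Fk wd ct ee ff hh IsSec IsDeg swd brk)

namespace PhiX

/-- factorization of linear maps. -/
theorem factor {K : Type} [Field K] {W E H : Type} [AddCommGroup W] [Module K W]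
    [AddCommGroup E] [Module K E] [AddCommGroup H] [Module K H] (S : Submodule K W)
    (ev : W →ₗ[K] E) (g : W →ₗ[K] H) (h : ∀ s ∈ S, ev s = 0 → g s = 0) :
    ∃ φ : E →ₗ[K] H, ∀ s ∈ S, g s = φ (ev s) := by
  set ev' : S →ₗ[K] E := ev.comp S.subtype with hev'
  set g' : S →ₗ[K] H := g.comp S.subtype with hg'
  have hk : LinearMap.ker ev' ≤ LinearMap.ker g' := by
    rintro ⟨s, hs⟩ h1
    rw [LinearMap.mem_ker] at h1 ⊢
    exact h s hs h1
  obtain ⟨φ, hφ⟩ := LinearMap.exists_extend
    (((LinearMap.ker ev').liftQ g' hk).comp ev'.quotKerEquivRange.symm.toLinearMap)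
  refine ⟨φ, fun s hs => ?_⟩
  have key : ∀ w : S, g' w = φ (ev' w) := by
    intro w
    have h1 := LinearMap.congr_fun hφ ⟨ev' w, LinearMap.mem_range_self ev' w⟩
    have h2 : ev'.quotKerEquivRange.symm ⟨ev' w, LinearMap.mem_range_self ev' w⟩ =
        Submodule.Quotient.mk w := by
      rw [LinearEquiv.symm_apply_eq]
      rfl
    have h3 : (((LinearMap.ker ev').liftQ g' hk).comp ev'.quotKerEquivRange.symm.toLinearMap)
        ⟨ev' w, LinearMap.mem_range_self ev' w⟩ = g' w := by
      change (LinearMap.ker ev').liftQ g' hk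
        (ev'.quotKerEquivRange.symm ⟨ev' w, LinearMap.mem_range_self ev' w⟩) = g' w
      rw [h2]
      exact Submodule.liftQ_apply _ _ _
    exact h3.symm.trans h1.symm
  exact key ⟨s, hs⟩

section
variable {K : Type} [Field K] [CharZero K] {α : Type} [Fintype α] [DecidableEq α] {H : Type}
  [AddCommGroup H] [Module K H] {ρ : Equiv.Perm α →* Module.End K H} {r k : ℕ}
  {I : Finset (ℕ × ℕ)} {P Y : Finset α}
  {Φ : (ℕ × ℕ → Finset α) → ((Finset α → Fk K) →ₗ[K] H)}

omit [Fintype α] in
theorem sty_up {n : ℕ × ℕ → Finset α} (hY : Y ⊆ P) {σ : Equiv.Perm α}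
    (hσ : StY (rest I P n) (rest I Y n) σ) : StY P Y σ := by
  refine ⟨U.sup_mono U.rest_sub hσ.1, ?_⟩
  ext a
  rw [mem_im]
  by_cases ha : a ∈ rest I P n
  · have h1 : σ⁻¹ a ∈ rest I P n := U.sup_mem (U.sup_inv hσ.1) ha
    have h2 := U.sty_mem_iff (U.sty_inv hσ) a
    rw [U.rest_inter hY, mem_inter, mem_inter] at h2
    constructor
    · intro h3
      exact (h2.1 ⟨h1, h3⟩).2
    · intro h3
      exact (h2.2 ⟨ha, h3⟩).2
  · rw [(U.sup_inv hσ.1) a ha]

theorem partA (hSAct : S_SAct) (hDet : S_Det) (hA : Adm ρ r k I P Φ) (hY : Y ⊆ P)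
    {n : ℕ × ℕ → Finset α} (hn : Cf r I P n) {s : Finset α → Fk K}
    (hs : s ∈ Sc K r (k + 1) (rest I P n)) (h0 : s (rest I Y n) = 0) :
    symm ρ P Y (Φ n s) = 0 := by
  classical
  set R := rest I P n with hR
  set Y' := rest I Y n with hY'
  have hYR : Y' ⊆ R := by
    rw [hY', U.rest_inter hY]
    exact inter_subset_left
  have hmem : ∀ σ : Equiv.Perm α, StY R Y' σ → sact K α σ s ∈ Sc K r (k + 1) R := by
    intro σ hσ
    have h1 := hSAct K α r (k + 1) R σ s hs
    rwa [U.sup_im hσ.1] at h1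
  set s1 := symm (sact K α) R Y' s with hs1
  have hs1' : s1 = ∑ σ ∈ univ.filter (fun σ : Equiv.Perm α => StY R Y' σ), sact K α σ s := by
    rw [hs1]
    refine (U.symm_apply (sact K α) R Y' s).trans (sum_congr ?_ fun _ _ => rfl)
    ext σ
    simp only [mem_filter, mem_univ, true_and]
  have hs1m : s1 ∈ Sc K r (k + 1) R := by
    rw [hs1']
    exact Submodule.sum_mem _ fun σ hσ => hmem σ (mem_filter.1 hσ).2
  have hs1v : s1 Y' = 0 := by
    rw [hs1', Finset.sum_apply]
    refine sum_eq_zero fun σ hσ => ?_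
    rw [U.sact_apply, (U.sty_inv (mem_filter.1 hσ).2).2]
    exact h0
  have hs10 : s1 = 0 := hDet K α r (k + 1) R Y' hYR s1 hs1m
    (fun σ hσ => U.rho_symm (sact K α) hσ s) hs1v
  have hterm : ∀ σ : Equiv.Perm α, StY R Y' σ →
      symm ρ P Y (Φ n (sact K α σ s)) = symm ρ P Y (Φ n s) := by
    intro σ hσ
    have hσP : StY P Y σ := sty_up hY hσ
    have h1 := hA.eqv σ hσP.1 n hn s hs
    have h2 : Φ (fun i => im σ (n i)) = Φ n := by
      refine hA.loc _ _ fun i hi => ?_
      exact U.sup_im_disj hσ.1 (U.rest_disj hi).symm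
    rw [h2] at h1
    rw [h1]
    exact U.symm_rho ρ hσP _
  have hsum : symm ρ P Y (Φ n s1) =
      ((univ.filter (fun σ : Equiv.Perm α => StY R Y' σ)).card : K) • symm ρ P Y (Φ n s) := by
    rw [hs1', map_sum, map_sum, sum_congr rfl (fun σ hσ => hterm σ (mem_filter.1 hσ).2),
      sum_const, Nat.cast_smul_eq_nsmul]
  rw [hs10, map_zero, map_zero] at hsum
  have hne : ((univ.filter (fun σ : Equiv.Perm α => StY R Y' σ)).card : K) ≠ 0 := by
    refine Nat.cast_ne_zero.2 (Nat.pos_iff_ne_zero.1 (card_pos.2 ⟨1, ?_⟩))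
    simp only [mem_filter, mem_univ, true_and]
    exact U.sty_one R Y'
  exact (smul_eq_zero.1 hsum.symm).resolve_left hne

theorem partB (hSAct : S_SAct) (hDet : S_Det) (hA : Adm ρ r k I P Φ) (hY : Y ⊆ P)
    {n : ℕ × ℕ → Finset α} (hn : Cf r I P n) :
    ∃ φ : Fk K →ₗ[K] H, ∀ s ∈ Sc K r (k + 1) (rest I P n),
      symm ρ P Y (Φ n s) = φ (s (rest I Y n)) := by
  obtain ⟨φ, hφ⟩ := factor (Sc K r (k + 1) (rest I P n))
    (LinearMap.proj (R := K) (φ := fun _ : Finset α => Fk K) (rest I Y n))
    ((symm ρ P Y).comp (Φ n)) (fun s hs h0 => partA hSAct hDet hA hY hn hs h0)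
  exact ⟨φ, hφ⟩

end

end PhiX

theorem prf_Phi (hSAct : S_SAct) (hDet : S_Det) (hTrans : S_Trans) : S_Phi := by
  intro K _ _ α _ _ H _ _ ρ r k I P Y Φ hA hY
  classical
  have hB : ∀ n : ℕ × ℕ → Finset α, Cf r I P n →
      ∃ φ : Fk K →ₗ[K] H, ∀ s ∈ Sc K r (k + 1) (rest I P n),
        symm ρ P Y (Φ n s) = φ (s (rest I Y n)) :=
    fun n hn => PhiX.partB hSAct hDet hA hY hn
  have hC : ∀ τ : ℕ × ℕ → ℕ, ∃ φ : Fk K →ₗ[K] H, ∀ n, Cf r I P n → tp I Y n = τ →
      ∀ s ∈ Sc K r (k + 1) (rest I P n), symm ρ P Y (Φ n s) = φ (s (rest I Y n)) := by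
    intro τ
    by_cases hex : ∃ n, Cf r I P n ∧ tp I Y n = τ
    · obtain ⟨n, hn, hτ⟩ := hex
      obtain ⟨φ, hφ⟩ := hB n hn
      refine ⟨φ, fun n' hn' hτ' s' hs' => ?_⟩
      obtain ⟨σ, hσ, hσn⟩ := hTrans α (ℕ × ℕ) I P Y n n' hY (fun i hi => (hn.1 i hi).2)
        (fun i hi => (hn'.1 i hi).2) hn.2 hn'.2
        (fun i hi => by
          have h1 := congrFun (hτ.trans hτ'.symm) i
          simpa [tp, hi] using h1)
        (fun i hi => by rw [(hn.1 i hi).1, (hn'.1 i hi).1])
      have hr1 : rest I P n' = im σ (rest I P n) := by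
        rw [← U.rest_im hσ.1]
        exact U.rest_congr fun i hi => (hσn i hi).symm
      have hr2 : rest I Y n' = im σ (rest I Y n) := by
        rw [← U.rest_im_Y hσ]
        exact U.rest_congr fun i hi => (hσn i hi).symm
      set s := sact K α σ⁻¹ s' with hs
      have hsm : s ∈ Sc K r (k + 1) (rest I P n) := by
        have h1 := hSAct K α r (k + 1) (rest I P n') σ⁻¹ s' hs'
        rwa [hr1, U.im_inv_im] at h1
      have hss : sact K α σ s = s' := by
        rw [hs, ← Module.End.mul_apply, ← map_mul, mul_inv_cancel, map_one, Module.End.one_apply]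
      have h2 := hA.eqv σ hσ.1 n hn s hsm
      rw [hss, hA.loc _ n' hσn] at h2
      rw [h2, U.symm_rho ρ hσ, hφ s hsm, hr2, hs, U.sact_apply, inv_inv]
    · exact ⟨0, fun n hn hτ => absurd ⟨n, hn, hτ⟩ hex⟩
  choose φ hφ using hC
  exact ⟨φ, fun n hn s hs => hφ (tp I Y n) n hn rfl s hs⟩

end Pool.Agent.Work.MP_1233f5_ag.Y

end

section

/-! Two rows: the values of an admissible functional have no part antisymmetric in three points. -/

set_option autoImplicit false
set_option linter.unusedSimpArgs false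
set_option linter.unusedVariables false

namespace Pool.Agent.Work.MP_1233f5_ag.Y

open Finset
open Pool.Agent.Work.MP_1233f5_ag.Sec (Fk wd ct ee ff hh IsSec IsDeg swd brk)

namespace TwoX

section

variable {K : Type} [Field K] {α : Type} [DecidableEq α]

theorem im_swap_fix {u l : α} {Z : Finset α} (hu : u ∉ Z) (hl : l ∉ Z) :
    im (Equiv.swap u l) Z = Z :=
  U.im_eq_of_fix fun a ha => Equiv.swap_apply_of_ne_of_ne (fun h => hu (h ▸ ha))
    (fun h => hl (h ▸ ha))

/-- the image of a set containing `u` and not `l`. -/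
theorem im_swap_move {u l : α} {Z : Finset α} (hu : u ∈ Z) (hl : l ∉ Z) :
    im (Equiv.swap u l) Z = insert l (Z.erase u) := by
  have h1 : Z = insert u (Z.erase u) := (insert_erase hu).symm
  conv_lhs => rw [h1]
  rw [U.im_insert, Equiv.swap_apply_left, im_swap_fix (notMem_erase u Z)
    (fun h => hl (mem_of_mem_erase h))]

/-- the same with the roles exchanged. -/
theorem im_swap_move' {u l : α} {Z : Finset α} (hu : u ∉ Z) (hl : l ∈ Z) :
    im (Equiv.swap u l) Z = insert u (Z.erase l) := by
  rw [Equiv.swap_comm]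
  exact im_swap_move hl hu

theorem sact_swap_val {u l : α} (x : Finset α → Fk K) {Z : Finset α} (hl : l ∉ Z) :
    sact K α (Equiv.swap u l) x Z = if u ∈ Z then x (insert l (Z.erase u)) else x Z := by
  rw [U.sact_apply, Equiv.swap_inv]
  split_ifs with h
  · rw [im_swap_move h hl]
  · rw [im_swap_fix h hl]

/-- the three term relation. -/
theorem three {u v l : α} (huv : u ≠ v) (hul : l ≠ u) (hvl : l ≠ v) (x : Finset α → Fk K) :
    brk u v x = brk l v (sact K α (Equiv.swap u l) x) + brk u l (sact K α (Equiv.swap v l) x) := by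
  funext Y
  have e1 : sact K α (Equiv.swap u l) x (Y.erase l) =
      if u ∈ Y then x (insert l ((Y.erase l).erase u)) else x (Y.erase l) := by
    rw [sact_swap_val x (notMem_erase l Y)]
    simp only [mem_erase, ne_eq, hul.symm, not_false_eq_true, true_and]
  have e2 : sact K α (Equiv.swap v l) x (Y.erase l) =
      if v ∈ Y then x (insert l ((Y.erase l).erase v)) else x (Y.erase l) := by
    rw [sact_swap_val x (notMem_erase l Y)]
    simp only [mem_erase, ne_eq, hvl.symm, not_false_eq_true, true_and]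
  have e3 : l ∉ Y → sact K α (Equiv.swap u l) x (Y.erase v) =
      if u ∈ Y then x (insert l ((Y.erase v).erase u)) else x (Y.erase v) := by
    intro h
    rw [sact_swap_val x (fun h1 => h (mem_of_mem_erase h1))]
    simp only [mem_erase, ne_eq, huv, not_false_eq_true, true_and]
  have e4 : l ∉ Y → sact K α (Equiv.swap v l) x (Y.erase u) =
      if v ∈ Y then x (insert l ((Y.erase u).erase v)) else x (Y.erase u) := by
    intro h
    rw [sact_swap_val x (fun h1 => h (mem_of_mem_erase h1))]
    simp only [mem_erase, ne_eq, huv.symm, not_false_eq_true, true_and]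
  have e5 : l ∈ Y → insert l ((Y.erase l).erase v) = Y.erase v := fun h => by
    rw [erase_right_comm, insert_erase (mem_erase.2 ⟨hvl, h⟩)]
  have e6 : l ∈ Y → insert l ((Y.erase l).erase u) = Y.erase u := fun h => by
    rw [erase_right_comm, insert_erase (mem_erase.2 ⟨hul, h⟩)]
  rw [Pi.add_apply]
  unfold brk
  by_cases hu : u ∈ Y <;> by_cases hv : v ∈ Y <;> by_cases hl : l ∈ Y
  · simp [hu, hv, hl]
  · simp only [hu, hv, hl, not_true_eq_false, not_false_eq_true, and_false, and_true, and_self,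
      if_true, if_false, e3 hl, e4 hl, erase_right_comm (a := v) (b := u)]
    simp
  · simp only [hu, hv, hl, not_true_eq_false, not_false_eq_true, and_false, and_true, and_self,
      if_true, if_false, e1, e6 hl, false_and]
    simp
  · simp only [hu, hv, hl, not_true_eq_false, not_false_eq_true, and_false, and_true, and_self,
      if_true, if_false, e4 hl, false_and]
    simp
  · simp only [hu, hv, hl, not_true_eq_false, not_false_eq_true, and_false, and_true, and_self,
      if_true, if_false, e2, e5 hl, false_and]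
    simp
  · simp only [hu, hv, hl, not_true_eq_false, not_false_eq_true, and_false, and_true, and_self,
      if_true, if_false, e3 hl, false_and]
    simp
  · simp only [hu, hv, hl, not_true_eq_false, not_false_eq_true, and_false, and_true, and_self,
      if_true, if_false, e1, e2, false_and]
    simp
  · simp [hu, hv, hl]

end

end TwoX

open TwoX in
theorem prf_Two (hF3 : S_F3) (hBrs : S_Brs) : S_Two := by
  intro K _ _ α _ _ H _ _ ρ r k I P Φ hA hC hcard n hn s hs Q hQ hQ3
  set R := rest I P n with hR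
  have hRc := U.card_rest hn
  have hlt : (k + 1) * r < R.card + (k + 1) * (k + 1 - 1) := by
    rw [← hR] at hRc
    rw [Nat.add_sub_cancel]
    omega
  have h1 := hBrs K α r (k + 1) R hlt hs
  suffices hspan : Submodule.span K {s | ∃ u v : α, u ∈ R ∧ v ∈ R ∧ u ≠ v ∧
      ∃ x ∈ Sc K r (k + 1) ((R.erase u).erase v), s = brk u v x} ≤
      LinearMap.ker ((asym ρ Q).comp (Φ n)) by
    exact LinearMap.mem_ker.1 (hspan h1)
  rw [Submodule.span_le]
  rintro s ⟨u, v, hu, hv, huv, x, hx, rfl⟩
  change asym ρ Q (Φ n (brk u v x)) = 0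
  have huP : u ∈ P := ((U.mem_rest u).1 hu).1
  have hvP : v ∈ P := ((U.mem_rest v).1 hv).1
  have hsR : brk u v x ∈ Sc K r (k + 1) R := U.brk_mem' huv hu hv hx
  have hun : ∀ i ∈ I, u ∉ n i := ((U.mem_rest u).1 hu).2
  have hvn : ∀ i ∈ I, v ∉ n i := ((U.mem_rest v).1 hv).2
  refine hF3 K α H ρ P _ u v huP hvP huv ?_ ?_ Q hQ hQ3
  · have h2 := hA.eqv _ (U.sup_swap huP hvP) n hn _ hsR
    rw [hA.loc _ n fun i hi => im_swap_fix (hun i hi) (hvn i hi)] at h2
    rw [← h2, U.sact_brk, Equiv.swap_apply_left, Equiv.swap_apply_right, U.brk_neg,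
      U.sact_fix (R := (R.erase u).erase v) _ hx, map_neg]
    intro a ha
    exact Equiv.swap_apply_of_ne_of_ne (mem_erase.1 (mem_erase.1 ha).2).1 (mem_erase.1 ha).1
  · intro l hlP hlu hlv
    have h2 := hA.eqv _ (U.sup_swap huP hlP) n hn _ hsR
    have h3 := hA.eqv _ (U.sup_swap hvP hlP) n hn _ hsR
    rw [U.sact_brk, Equiv.swap_apply_left, Equiv.swap_apply_of_ne_of_ne huv.symm hlv.symm] at h2
    rw [U.sact_brk, Equiv.swap_apply_left, Equiv.swap_apply_of_ne_of_ne huv hlu.symm] at h3
    rw [← h2, ← h3]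
    by_cases hlR : l ∈ R
    · have hln : ∀ i ∈ I, l ∉ n i := ((U.mem_rest l).1 hlR).2
      rw [hA.loc _ n fun i hi => im_swap_fix (hun i hi) (hln i hi),
        hA.loc _ n fun i hi => im_swap_fix (hvn i hi) (hln i hi), ← map_add,
        ← three huv hlu hlv x]
    · obtain ⟨i, hi, hli⟩ : ∃ i ∈ I, l ∈ n i := by
        by_contra hcon
        push Not at hcon
        exact hlR ((U.mem_rest l).2 ⟨hlP, hcon⟩)
      have hlR' : l ∉ (R.erase u).erase v := fun h =>
        hlR (mem_of_mem_erase (mem_of_mem_erase h))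
      have hnj : ∀ j ∈ I, j ≠ i → l ∉ n j := fun j hj hji h =>
        (Finset.disjoint_left.1 (hn.2 j hj i hi hji)) h hli
      have e1 : Φ (fun j => im (Equiv.swap u l) (n j)) =
          Φ (Function.update n i (insert u ((n i).erase l))) := by
        refine hA.loc _ _ fun j hj => ?_
        by_cases hji : j = i
        · rw [hji, Function.update_self]
          exact im_swap_move' (hun i hi) hli
        · rw [Function.update_of_ne hji]
          exact im_swap_fix (hun j hj) (hnj j hj hji)
      have e2 : Φ (fun j => im (Equiv.swap v l) (n j)) =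
          Φ (Function.update n i (insert v ((n i).erase l))) := by
        refine hA.loc _ _ fun j hj => ?_
        by_cases hji : j = i
        · rw [hji, Function.update_self]
          exact im_swap_move' (hvn i hi) hli
        · rw [Function.update_of_ne hji]
          exact im_swap_fix (hvn j hj) (hnj j hj hji)
      have e3 : sact K α (Equiv.swap u l) x = x := by
        refine U.sact_fix (R := (R.erase u).erase v) (fun a ha => ?_) hx
        exact Equiv.swap_apply_of_ne_of_ne (mem_erase.1 (mem_erase.1 ha).2).1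
          (fun h => hlR' (h ▸ ha))
      have e4 : sact K α (Equiv.swap v l) x = x := by
        refine U.sact_fix (R := (R.erase u).erase v) (fun a ha => ?_) hx
        exact Equiv.swap_apply_of_ne_of_ne (mem_erase.1 ha).1 (fun h => hlR' (h ▸ ha))
      have h4 := hC n hn i hi l hli u hu v hv huv x hx
      rw [e1, e2, e3, e4, U.brk_neg v l x, U.brk_neg l u x, map_neg, map_neg]
      rw [add_assoc] at h4
      have h6 := eq_neg_of_add_eq_zero_left h4
      rw [h6, neg_add]

end Pool.Agent.Work.MP_1233f5_ag.Y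

end

section

/-! MP_1233f5_ag, block Y, part L, item Wsp: with many points every section is a combination of
products with `r`-sets. -/

set_option autoImplicit false

namespace Pool.Agent.Work.MP_1233f5_ag.Y

open Finset
open Pool.Agent.Work.MP_1233f5_ag.Sec (Fk wd ct ee ff hh IsSec IsDeg swd brk)

namespace WspX

/-- the span of the products. -/
def Bs (K : Type) [Field K] {α : Type} [DecidableEq α] (r k : ℕ) (R : Finset α) :
    Submodule K (Finset α → Fk K) :=
  Submodule.span K {s | ∃ g ⊆ R, g.card = r ∧ ∃ x ∈ Sc K r k (R \ g), s = swd g x}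

theorem bs_le (K : Type) [Field K] {α : Type} [DecidableEq α] (r k : ℕ) (R : Finset α) :
    Bs K r k R ≤ Sc K r (k + 1) R := by
  apply Submodule.span_le.2
  rintro s ⟨g, hg, hc, x, hx, rfl⟩
  exact U.swd_mem' hc hg hx

theorem bs_act (hSAct : S_SAct) (K : Type) [Field K] [CharZero K] {α : Type} [Fintype α]
    [DecidableEq α] (r k : ℕ) (R : Finset α) (σ : Equiv.Perm α) (hσ : Sup R σ)
    (z : Finset α → Fk K) (hz : z ∈ Bs K r k R) : sact K α σ z ∈ Bs K r k R := by
  unfold Bs at hz ⊢
  induction hz using Submodule.span_induction with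
  | mem s hs =>
    obtain ⟨g, hg, hc, x, hx, rfl⟩ := hs
    apply Submodule.subset_span
    refine ⟨im σ g, U.im_sub hσ hg, by rw [card_im, hc], sact K α σ x, ?_, U.sact_swd σ g x⟩
    have h := hSAct K α r k _ σ x hx
    rwa [U.im_sdiff, U.sup_im hσ] at h
  | zero =>
    rw [map_zero]
    exact Submodule.zero_mem _
  | add x y _ _ hx hy =>
    rw [map_add]
    exact Submodule.add_mem _ hx hy
  | smul c x _ hx =>
    rw [map_smul]
    exact Submodule.smul_mem _ c hx

/-- the values at `Y` of one direction are the values of products. -/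
theorem val_one (hExist : S_Exist) (K : Type) [Field K] [CharZero K] {α : Type} [Fintype α]
    [DecidableEq α] (r k : ℕ) (R Y : Finset α) (hY : Y ⊆ R)
    (hcard : (k + 1) * r ≤ R.card + k * (k - 1)) (ε : Fk K) (hε : IsDeg r (k + 1) ε)
    (hw : hh K r ε = (2 * (Y.card : K) - R.card) • ε) (i : ℕ) (hi : i ≤ r) :
    ∃ b ∈ Bs K r k R, b Y = wd i (ct i ε) := by
  by_cases hc0 : ct i ε = 0
  · exact ⟨0, Submodule.zero_mem _, by rw [hc0, map_zero]; rfl⟩
  have hdeg : IsDeg r k (ct i ε) := hε.ct i
  have hwc := Sec.hh_ct hi hw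
  have hint : (k : ℤ) * (r + 1 - k) ≤ R.card - r := by
    have h1 : ((k * (k - 1) : ℕ) : ℤ) = (k : ℤ) * (k - 1) := by
      rcases Nat.eq_zero_or_pos k with h0 | h0
      · subst h0; simp
      · rw [Nat.cast_mul, Nat.cast_sub h0]; rfl
    have h2 : (((k + 1) * r : ℕ) : ℤ) ≤ ((R.card + k * (k - 1) : ℕ) : ℤ) := by exact_mod_cast hcard
    rw [Nat.cast_add, h1] at h2
    push_cast at h2
    linarith
  have hwi : hh K r (ct i ε) = ((2 * (Y.card : ℤ) - R.card - (2 * i - r) : ℤ) : K) • ct i ε := by
    rw [hwc]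
    congr 1
    push_cast
    ring
  have hYR : Y.card ≤ R.card := card_le_card hY
  have hRY : (R \ Y).card = R.card - Y.card := card_sdiff_of_subset hY
  have hiY : i ≤ Y.card := by
    by_contra hcon
    push Not at hcon
    apply hc0
    refine hdeg.eq_zero_of_weight _ hwi (Or.inr ?_)
    have : (Y.card : ℤ) < i := by exact_mod_cast hcon
    linarith
  have hiR : r - i ≤ (R \ Y).card := by
    by_contra hcon
    push Not at hcon
    apply hc0
    refine hdeg.eq_zero_of_weight _ hwi (Or.inl ?_)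
    rw [hRY] at hcon
    have h1 : (R.card : ℤ) - Y.card < r - i := by omega
    linarith
  obtain ⟨g₁, hg₁, hc₁⟩ := exists_subset_card_eq hiY
  obtain ⟨g₂, hg₂, hc₂⟩ := exists_subset_card_eq hiR
  have hd : Disjoint g₁ g₂ := by
    rw [Finset.disjoint_left]
    intro a h1 h2
    exact (mem_sdiff.1 (hg₂ h2)).2 (hg₁ h1)
  have hgR : g₁ ∪ g₂ ⊆ R := union_subset (hg₁.trans hY) (hg₂.trans sdiff_subset)
  have hgc : (g₁ ∪ g₂).card = r := by
    rw [card_union_of_disjoint hd, hc₁, hc₂]
    omega
  have hgY : (g₁ ∪ g₂) ∩ Y = g₁ := by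
    ext a
    simp only [mem_inter, mem_union]
    constructor
    · rintro ⟨h1 | h1, h2⟩
      · exact h1
      · exact absurd h2 (mem_sdiff.1 (hg₂ h1)).2
    · intro h1
      exact ⟨Or.inl h1, hg₁ h1⟩
  have hYg : (Y \ (g₁ ∪ g₂)).card = Y.card - i := by
    rw [card_sdiff, hgY, hc₁]
  have hRg : (R \ (g₁ ∪ g₂)).card = R.card - r := by
    rw [card_sdiff_of_subset hgR, hgc]
  have hrR : r ≤ R.card := by rw [← hgc]; exact card_le_card hgR
  obtain ⟨x, hx, hxv⟩ := hExist K α r k (R \ (g₁ ∪ g₂)) (Y \ (g₁ ∪ g₂))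
    (sdiff_subset_sdiff hY (Subset.refl _)) (by
      rw [hRg]
      have : (k + 1) * r = k * r + r := by ring
      omega) (ct i ε) hdeg (by
      rw [hwi, hYg, hRg, Nat.cast_sub hiY, Nat.cast_sub hrR]
      congr 1
      push_cast
      ring)
  refine ⟨swd (g₁ ∪ g₂) x, Submodule.subset_span ⟨_, hgR, hgc, x, hx, rfl⟩, ?_⟩
  rw [U.swd_val, hgY, hc₁, hxv]

end WspX

open Classical in
theorem prf_Wsp (hRep2 : S_Rep2) (hSAct : S_SAct) (hTri : S_Tri) (hDet : S_Det)
    (hExist : S_Exist) : S_Wsp := by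
  intro K _ _ α _ _ r k R hcard
  change Sc K r (k + 1) R ≤ WspX.Bs K r k R
  apply hRep2 K α (Finset α → Fk K) (sact K α) R (Sc K r (k + 1) R)
  · intro σ hσ z hz
    have h := hSAct K α r (k + 1) R σ z hz
    rwa [U.sup_im hσ] at h
  · intro σ hσ z hz
    exact WspX.bs_act hSAct K r k R σ hσ z hz
  · intro Y hY z hz hinv
    have hw : hh K r (z Y) = (2 * (Y.card : K) - R.card) • z Y :=
      Sec.IsSec.hh (Sec.sl_fock r) hz.1 Y hY
    have hb : ∀ i : ℕ, ∃ b ∈ WspX.Bs K r k R, i ≤ r → b Y = wd i (ct i (z Y)) := by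
      intro i
      by_cases hi : i ≤ r
      · obtain ⟨b, h1, h2⟩ := WspX.val_one hExist K r k R Y hY hcard (z Y) (hz.2 Y) hw i hi
        exact ⟨b, h1, fun _ => h2⟩
      · exact ⟨0, Submodule.zero_mem _, fun h => absurd h hi⟩
    choose b hb1 hb2 using hb
    set y₀ : Finset α → Fk K := ((k : K) + 1)⁻¹ • ∑ i ∈ range (r + 1), b i with hy₀
    have hk : ((k : K) + 1) ≠ 0 := by exact_mod_cast Nat.succ_ne_zero k
    have hy₀B : y₀ ∈ WspX.Bs K r k R :=
      Submodule.smul_mem _ _ (Submodule.sum_mem _ fun i _ => hb1 i)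
    have hy₀Y : y₀ Y = z Y := by
      rw [hy₀, Pi.smul_apply, Finset.sum_apply]
      have h1 : ∑ i ∈ range (r + 1), b i Y = ∑ i ∈ range (r + 1), wd i (ct i (z Y)) :=
        sum_congr rfl fun i hi => hb2 i (by rw [mem_range] at hi; omega)
      rw [h1, (hz.2 Y).num, smul_smul]
      have h2 : ((k : K) + 1)⁻¹ * ((k + 1 : ℕ) : K) = 1 := by
        rw [Nat.cast_add, Nat.cast_one]
        exact inv_mul_cancel₀ hk
      rw [h2, one_smul]
    obtain ⟨M, hM0, hMv⟩ : ∃ M : K, M ≠ 0 ∧ symm (sact K α) R Y y₀ Y = M • z Y := by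
      rw [U.symm_apply, Finset.sum_apply, sum_congr rfl (g := fun _ => z Y) (fun σ hσ => by
        rw [U.sact_apply, (U.sty_inv (mem_filter.1 hσ).2).2, hy₀Y]), sum_const,
        ← Nat.cast_smul_eq_nsmul K]
      refine ⟨_, ?_, rfl⟩
      refine Nat.cast_ne_zero.2 (Nat.pos_iff_ne_zero.1 (card_pos.2 ⟨1, ?_⟩))
      simp only [mem_filter, mem_univ, true_and]
      exact U.sty_one R Y
    set y : Finset α → Fk K := M⁻¹ • symm (sact K α) R Y y₀ with hy
    have hyB : y ∈ WspX.Bs K r k R := by
      refine Submodule.smul_mem _ _ ?_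
      rw [U.symm_apply]
      refine Submodule.sum_mem _ fun σ hσ => ?_
      exact WspX.bs_act hSAct K r k R σ (mem_filter.1 hσ).2.1 y₀ hy₀B
    have hyinv : ∀ σ, StY R Y σ → sact K α σ y = y := by
      intro σ hσ
      rw [hy, map_smul, U.rho_symm (sact K α) hσ]
    have hyY : y Y = z Y := by
      rw [hy, Pi.smul_apply, hMv, smul_smul, inv_mul_cancel₀ hM0, one_smul]
    have hsub : z - y = 0 := by
      refine hDet K α r (k + 1) R Y hY (z - y)
        (Submodule.sub_mem _ hz (WspX.bs_le K r k R hyB)) ?_ ?_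
      · intro σ hσ
        rw [map_sub, hinv σ hσ, hyinv σ hσ]
      · rw [Pi.sub_apply, hyY, sub_self]
    rw [sub_eq_zero.1 hsub]
    exact hyB
  · intro Q hQ hc z hz hanti
    obtain ⟨N, hN, h⟩ := U.asym_of_anti (K := K) (sact K α) Q
    have h1 := h z hanti
    rw [hTri K α r (k + 1) R Q hc z hz] at h1
    have h2 : z = 0 := (smul_eq_zero.1 h1.symm).resolve_left hN
    rw [h2]
    exact Submodule.zero_mem _

end Pool.Agent.Work.MP_1233f5_ag.Y

end
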