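import Pool.Agent.Work.MP_1233f5_ag.X.Basic
import Pool.Agent.Work.MP_1233f5_ag.Bd.B03
import Pool.Agent.Work.MP_1233f5_ag.Bd.B02

/-! Bundle of small proof modules (one section per former module). -/

section

set_option autoImplicit false

namespace Pool.Agent.Work.MP_1233f5_ag.V

open Finset

/-- boundaries as a submodule. -/
def XT3_Bd (K : Type) [Field K] (α : Type) [Fintype α] [DecidableEq α] (d : ℕ) (P : Finset α)
    (p : ℕ) : Submodule K ((Fin p → Finset α) → K) where
  carrier := {c | IsBd d P p c}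
  zero_mem' := by
    refine ⟨Step.rCh_zero _ _, fun _ => 0, Step.rCh_zero _ _, fun t _ => ?_⟩
    simp [dd]
  add_mem' := by
    rintro c c' ⟨h1, g, h2, h3⟩ ⟨h1', g', h2', h3'⟩
    refine ⟨Step.rCh_add h1 h1', fun t => g t + g' t, Step.rCh_add h2 h2', fun t ht => ?_⟩
    rw [Step.dd_add, h3 t ht, h3' t ht]; rfl
  smul_mem' := by
    rintro a c ⟨h1, g, h2, h3⟩
    refine ⟨Step.rCh_smul a h1, fun t => a * g t, Step.rCh_smul a h2, fun t ht => ?_⟩
    rw [Step.dd_smul, h3 t ht]; rfl

theorem XT3_mem {K : Type} [Field K] {α : Type} [Fintype α] [DecidableEq α] {d : ℕ} {P : Finset α}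
    {p : ℕ} {c : (Fin p → Finset α) → K} : c ∈ XT3_Bd K α d P p ↔ IsBd d P p c := Iff.rfl

theorem XT3_rho {K : Type} [Field K] {α : Type} [Fintype α] [DecidableEq α] {d p : ℕ}
    (σ : Equiv.Perm α) {c : (Fin p → Finset α) → K} (h : c ∈ XT3_Bd K α d univ p) :
    Step.rho K α p σ c ∈ XT3_Bd K α d univ p := by
  obtain ⟨h1, g, h2, h3⟩ := h
  refine ⟨Step.rCh_rho d p σ h1, Step.rho K α (p + 1) σ g, Step.rCh_rho d _ σ h2, fun t ht => ?_⟩
  rw [Step.dd_rho, h3 _ (Step.vm_map' d p _ ht)]
  rfl

theorem XT3_vm_map {α : Type} [DecidableEq α] {d p : ℕ} {P : Finset α} (τ : Equiv.Perm α)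
    (t : Fin p → Finset α) :
    vm d (P.map τ.toEmbedding) p (fun i => (t i).map τ.toEmbedding) ↔ vm d P p t := by
  unfold vm
  simp only [Finset.card_map, Finset.map_subset_map, Finset.disjoint_map]

theorem XT3_aXY {K : Type} [Field K] {α : Type} [DecidableEq α] (r : ℕ) (X Y : Finset α)
    (τ : Equiv.Perm α) (t : Fin r → Finset α) :
    aXY (K := K) r (X.map τ.toEmbedding) (Y.map τ.toEmbedding)
      (fun i => (t i).map τ.toEmbedding) = aXY r X Y t := by
  unfold aXY
  have h1 : vm (r + 1) (X.map τ.toEmbedding ∪ Y.map τ.toEmbedding) r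
      (fun i => (t i).map τ.toEmbedding) ↔ vm (r + 1) (X ∪ Y) r t := by
    rw [← Finset.map_union, XT3_vm_map]
  have h2 : ∀ i, ((t i).map τ.toEmbedding ∩ X.map τ.toEmbedding).card = (t i ∩ X).card := by
    intro i; rw [← Finset.map_inter, Finset.card_map]
  have h3 : ∀ i, ((t i).map τ.toEmbedding ∩ Y.map τ.toEmbedding).card = (t i ∩ Y).card := by
    intro i; rw [← Finset.map_inter, Finset.card_map]
  by_cases hv : vm (r + 1) (X ∪ Y) r t
  · rw [if_pos (h1.2 hv), if_pos hv]
    simp only [h2, h3, Finset.card_map]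
  · rw [if_neg (fun h => hv (h1.1 h)), if_neg hv]

theorem XT3_zXY {K : Type} [Field K] {α : Type} [DecidableEq α] (r : ℕ) (X Y : Finset α)
    (τ : Equiv.Perm α) (t : Fin r → Finset α) :
    zXY (K := K) r (X.map τ.toEmbedding) (Y.map τ.toEmbedding)
      (fun i => (t i).map τ.toEmbedding) = zXY r X Y t := by
  unfold zXY
  rw [Finset.powersetCard_map, Finset.sum_map]
  refine Finset.sum_congr rfl (fun f _ => ?_)
  have : Y.map τ.toEmbedding \ (Finset.mapEmbedding τ.toEmbedding).toEmbedding f
      = (Y \ f).map τ.toEmbedding := by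
    rw [Finset.map_sdiff]; rfl
  rw [this, XT3_aXY]

/-- the class of `X`. -/
noncomputable def XT3_z (K : Type) [Field K] {α : Type} [Fintype α] [DecidableEq α] (r : ℕ)
    (X : Finset α) : (Fin r → Finset α) → K := fun t => zXY r X (univ \ X) t

theorem XT3_rho_z {K : Type} [Field K] {α : Type} [Fintype α] [DecidableEq α] (r : ℕ)
    (σ : Equiv.Perm α) (X : Finset α) :
    Step.rho K α r σ (XT3_z K r X) = XT3_z K r (X.map σ.toEmbedding) := by
  funext t
  rw [Step.rho_apply]
  unfold XT3_z
  have h1 := XT3_zXY (K := K) r (X.map σ.toEmbedding) (univ \ X.map σ.toEmbedding) σ⁻¹ t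
  rw [← h1]
  have h2 : (X.map σ.toEmbedding).map (σ⁻¹ : Equiv.Perm α).toEmbedding = X := by
    rw [Finset.map_map]
    ext a
    simp
  have h3 : (univ \ X.map σ.toEmbedding).map (σ⁻¹ : Equiv.Perm α).toEmbedding = univ \ X := by
    rw [Finset.map_sdiff, h2]
    congr 1
    ext a
    simp
  rw [h2, h3]

/-- the span of the classes and the boundaries. -/
noncomputable def XT3_B (K : Type) [Field K] (α : Type) [Fintype α] [DecidableEq α] (r : ℕ) :
    Submodule K ((Fin r → Finset α) → K) :=
  XT3_Bd K α (r + 1) univ r ⊔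
    Submodule.span K (XT3_z K r '' {X : Finset α | 2 * X.card = r * (r + 3)})

theorem XT3_B_rho {K : Type} [Field K] {α : Type} [Fintype α] [DecidableEq α] (r : ℕ)
    (σ : Equiv.Perm α) : ∀ z ∈ XT3_B K α r, Step.rho K α r σ z ∈ XT3_B K α r := by
  intro z hz
  unfold XT3_B at hz ⊢
  rw [Submodule.mem_sup] at hz
  obtain ⟨y, hy, w, hw, rfl⟩ := hz
  rw [map_add]
  refine Submodule.add_mem_sup (XT3_rho σ hy) ?_
  have h1 : Submodule.span K (XT3_z K r '' {X : Finset α | 2 * X.card = r * (r + 3)}) ≤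
      (Submodule.span K (XT3_z K r '' {X : Finset α | 2 * X.card = r * (r + 3)})).comap
        (Step.rho K α r σ) := by
    rw [Submodule.span_le]
    rintro _ ⟨X, hX, rfl⟩
    rw [SetLike.mem_coe, Submodule.mem_comap, XT3_rho_z]
    refine Submodule.subset_span ⟨X.map σ.toEmbedding, ?_, rfl⟩
    rw [Set.mem_setOf_eq, Finset.card_map]
    exact hX
  exact h1 hw

theorem XT3_B_exists {K : Type} [Field K] {α : Type} [Fintype α] [DecidableEq α] {r : ℕ}
    {z : (Fin r → Finset α) → K} (hz : z ∈ XT3_B K α r) :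
    ∃ l : Finset α → K, IsBd (r + 1) univ r (fun t => z t -
      ∑ X ∈ univ.filter (fun X : Finset α => 2 * X.card = r * (r + 3)),
        l X * zXY r X (univ \ X) t) := by
  unfold XT3_B at hz
  rw [Submodule.mem_sup] at hz
  obtain ⟨y, hy, w, hw, rfl⟩ := hz
  have hset : ({X : Finset α | 2 * X.card = r * (r + 3)} : Set (Finset α)) =
      ((univ.filter (fun X : Finset α => 2 * X.card = r * (r + 3)) : Finset (Finset α)) :
        Set (Finset α)) := by
    ext X; simp
  rw [hset, Submodule.mem_span_image_finset_iff_exists_fun] at hw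
  obtain ⟨l', hl'⟩ := hw
  set l : Finset α → K := fun X =>
    if h : X ∈ univ.filter (fun X : Finset α => 2 * X.card = r * (r + 3)) then l' ⟨X, h⟩ else 0
    with hl0
  have hl : ∑ X ∈ univ.filter (fun X : Finset α => 2 * X.card = r * (r + 3)),
      l X • XT3_z K r X = w := by
    rw [← hl', ← Finset.sum_coe_sort]
    refine Finset.sum_congr rfl (fun i _ => ?_)
    rw [hl0]
    simp only []
    rw [dif_pos i.2]
  refine ⟨l, ?_⟩
  have h1 : (fun t => (y + w) t -
      ∑ X ∈ univ.filter (fun X : Finset α => 2 * X.card = r * (r + 3)),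
        l X * zXY r X (univ \ X) t) = y := by
    funext t
    rw [← hl, Pi.add_apply, Finset.sum_apply]
    simp only [Pi.smul_apply, smul_eq_mul, XT3_z]
    ring
  rw [h1]
  exact hy

theorem pr_XT3 (hXI2 : S_XI2) (hXAnti3 : S_XAnti3) (hRep : S_Rep) : S_XT3 := by
  intro K _ _ β _ _ r hr hβ z hz
  apply XT3_B_exists
  have key : Step.subZ (K := K) (univ : Finset (Finset β)) (vm (r + 1) univ) r ≤
      XT3_B K β r := by
    refine hRep K β _ (Step.rho K β r) _ _ ?_ (XT3_B_rho r) 2 ?_ ?_
    · rintro σ z ⟨hz1, hz2⟩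
      refine ⟨Step.rCh_rho (r + 1) r σ hz1, ?_⟩
      rcases r with _ | p
      · trivial
      · intro t ht
        rw [Step.dd_rho]
        exact hz2 _ (Step.vm_map' _ p _ ht)
    · rintro π z hz' hinv
      have hI := hXI2 K β r hr hβ π z hz' (by
        intro σ hσ t
        have h3 := hinv σ⁻¹ (by
          intro a
          have := hσ (σ⁻¹ a)
          rw [show σ (σ⁻¹ a) = a from σ.apply_symm_apply a] at this
          exact this.symm)
        have h4 := congrFun h3 t
        rw [Step.rho_apply, inv_inv] at h4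
        exact h4)
      rcases hI with h | ⟨hX, l, hl⟩
      · exact Submodule.mem_sup_left h
      · have h1 : z = (fun t => z t -
            l * zXY r (univ.filter (fun a => π a = 0)) (univ \ univ.filter (fun a => π a = 0)) t)
            + l • XT3_z K r (univ.filter (fun a => π a = 0)) := by
          funext t
          simp [XT3_z]
        rw [h1]
        refine Submodule.add_mem_sup hl (Submodule.smul_mem _ _ (Submodule.subset_span
          ⟨_, hX, rfl⟩))
    · rintro Q hQ z hz' hanti
      refine Submodule.mem_sup_left (hXAnti3 K β r hr hβ Q hQ z hz' ?_)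
      intro σ hσ t
      have h3 := hanti σ⁻¹ (by
        intro a ha
        have := hσ a ha
        rw [Equiv.Perm.inv_eq_iff_eq]
        exact this.symm)
      have h4 := congrFun h3 t
      rw [Step.rho_apply, inv_inv, Equiv.Perm.sign_inv] at h4
      exact h4
  exact key hz

end Pool.Agent.Work.MP_1233f5_ag.V

end

section

set_option autoImplicit false

namespace Pool.Agent.Work.MP_1233f5_ag.V

open Finset

/-- cycles on a subset are cycles. -/
theorem XIII_IsCy_univ {K : Type} [Field K] {α : Type} [Fintype α] [DecidableEq α] {d p : ℕ}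
    {P : Finset α} {c : (Fin p → Finset α) → K} (h : IsCy d P p c) : IsCy d univ p c := by
  have hmono : ∀ (q : ℕ) (t : Fin q → Finset α), vm d P q t → vm d univ q t := by
    intro q t ht
    exact ⟨fun i => ⟨(ht.1 i).1, subset_univ _⟩, ht.2⟩
  refine ⟨⟨h.1.1, fun t ht => hmono _ _ (h.1.2 t ht)⟩, ?_⟩
  cases p with
  | zero => trivial
  | succ p =>
    intro t _
    by_cases h2 : vm d P p t
    · exact h.2 t h2
    · unfold dd
      refine Finset.sum_eq_zero (fun b _ => ?_)
      by_contra hne
      have h3 := h.1.2 _ hne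
      apply h2
      refine ⟨fun i => ?_, fun i j hij => ?_⟩
      · have := h3.1 i.succ
        simpa using this
      · have := h3.2 i.succ j.succ (fun e => hij (Fin.succ_injective _ e))
        simpa using this

theorem XIII_z_cy (hXA1 : S_XA1) (K : Type) [Field K] [CharZero K] {β : Type} [Fintype β]
    [DecidableEq β] {r : ℕ} (hr : 2 ≤ r) (hβ : Fintype.card β = r * (r + 3)) {X : Finset β}
    (hX : 2 * X.card = r * (r + 3)) :
    XT3_z K r X ∈ Step.subZ (K := K) (univ : Finset (Finset β)) (vm (r + 1) univ) r := by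
  have hYc : (univ \ X).card = Fintype.card β - X.card := by
    rw [Finset.card_sdiff_of_subset (subset_univ _), Finset.card_univ]
  have hz : XT3_z K r X = ∑ f ∈ powersetCard r (univ \ X), aXY (K := K) r X ((univ \ X) \ f) := by
    funext t
    rw [Finset.sum_apply]
    rfl
  rw [hz]
  refine Submodule.sum_mem _ (fun f hf => ?_)
  rw [mem_powersetCard] at hf
  refine XIII_IsCy_univ (hXA1 K β r X ((univ \ X) \ f) hr ?_ hX ?_)
  · exact Finset.disjoint_of_subset_right sdiff_subset Finset.disjoint_sdiff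
  · rw [Finset.card_sdiff_of_subset hf.1, hf.2, hYc, hβ]
    have h5 : r * (r + 3) = r * (r + 1) + 2 * r := by ring
    have h6 : X.card ≤ r * (r + 3) := by rw [← hβ]; exact Finset.card_le_univ X
    omega

/-- averaging over the permutations moving only points of `Q`. -/
noncomputable def XIII_av (K : Type) [Field K] {β : Type} [Fintype β] [DecidableEq β] (r : ℕ)
    (Q : Finset β) : Module.End K ((Fin r → Finset β) → K) :=
  ∑ σ ∈ univ.filter (fun σ : Equiv.Perm β => ∀ a, a ∉ Q → σ a = a), Step.rho K β r σ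

theorem XIII_av_mul (K : Type) [Field K] {β : Type} [Fintype β] [DecidableEq β] (r : ℕ)
    (Q : Finset β) (τ : Equiv.Perm β) (hτ : ∀ a, a ∉ Q → τ a = a) (z : (Fin r → Finset β) → K) :
    XIII_av K r Q (Step.rho K β r τ z) = XIII_av K r Q z := by
  unfold XIII_av
  rw [LinearMap.sum_apply, LinearMap.sum_apply]
  refine Finset.sum_bij (fun σ _ => σ * τ) ?_ ?_ ?_ ?_
  · intro σ hσ
    rw [mem_filter] at hσ ⊢
    refine ⟨mem_univ _, fun a ha => ?_⟩
    rw [Equiv.Perm.mul_apply, hτ a ha, hσ.2 a ha]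
  · intro σ _ σ' _ h
    exact mul_right_cancel h
  · intro σ hσ
    rw [mem_filter] at hσ
    refine ⟨σ * τ⁻¹, ?_, by simp⟩
    rw [mem_filter]
    refine ⟨mem_univ _, fun a ha => ?_⟩
    have h1 : τ⁻¹ a = a := by
      rw [Equiv.Perm.inv_eq_iff_eq]; exact (hτ a ha).symm
    rw [Equiv.Perm.mul_apply, h1, hσ.2 a ha]
  · intro σ _
    rw [map_mul]
    rfl

theorem XIII_av_mem {K : Type} [Field K] {β : Type} [Fintype β] [DecidableEq β] {d r : ℕ}
    (Q : Finset β) {z : (Fin r → Finset β) → K} (hz : z ∈ XT3_Bd K β d univ r) :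
    XIII_av K r Q z ∈ XT3_Bd K β d univ r := by
  unfold XIII_av
  rw [LinearMap.sum_apply]
  exact Submodule.sum_mem _ (fun σ _ => XT3_rho σ hz)

/-- the relation of a set with one more point. -/
theorem XIII_rel (hXI2 : S_XI2) (hXA1 : S_XA1) (K : Type) [Field K] [CharZero K] {β : Type}
    [Fintype β] [DecidableEq β] {r : ℕ} (hr : 2 ≤ r) (hβ : Fintype.card β = r * (r + 3))
    {P : Finset β} (hP : 2 * P.card = r * (r + 3) + 2) :
    ∑ x ∈ P, XT3_z K r (P.erase x) ∈ XT3_Bd K β (r + 1) univ r := by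
  classical
  set π : β → Fin 2 := fun a => if a ∈ P then 0 else 1 with hπ
  have hcy : ∑ x ∈ P, XT3_z K r (P.erase x) ∈
      Step.subZ (K := K) (univ : Finset (Finset β)) (vm (r + 1) univ) r := by
    refine Submodule.sum_mem _ (fun x hx => XIII_z_cy hXA1 K hr hβ ?_)
    rw [Finset.card_erase_of_mem hx]
    omega
  have hrho : ∀ σ : Equiv.Perm β, (∀ a, π (σ a) = π a) →
      Step.rho K β r σ (∑ x ∈ P, XT3_z K r (P.erase x)) = ∑ x ∈ P, XT3_z K r (P.erase x) := by
    intro σ hσ
    have hPσ : ∀ a, σ a ∈ P ↔ a ∈ P := by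
      intro a
      have h1 := hσ a
      rw [hπ] at h1
      simp only [] at h1
      by_cases h2 : a ∈ P
      · rw [if_pos h2] at h1
        by_cases h3 : σ a ∈ P
        · exact ⟨fun _ => h2, fun _ => h3⟩
        · rw [if_neg h3] at h1
          exact absurd h1 (by decide)
      · rw [if_neg h2] at h1
        by_cases h3 : σ a ∈ P
        · rw [if_pos h3] at h1
          exact absurd h1 (by decide)
        · exact ⟨fun h => absurd h h3, fun h => absurd h h2⟩
    rw [map_sum]
    refine Finset.sum_bij (fun x _ => σ x) (fun x hx => (hPσ x).2 hx)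
      (fun x _ y _ h => σ.injective h) (fun y hy => ⟨σ.symm y, ?_, by simp⟩) ?_
    · rw [← hPσ]; simpa using hy
    · intro x hx
      rw [XT3_rho_z]
      congr 1
      ext a
      rw [Finset.mem_map_equiv, Finset.mem_erase, Finset.mem_erase]
      have h4 := hPσ (σ.symm a)
      rw [Equiv.apply_symm_apply] at h4
      rw [← h4]
      have h5 : σ.symm a ≠ x ↔ a ≠ σ x := by
        rw [Ne, Ne, Equiv.symm_apply_eq]
      rw [h5]
  have hI := hXI2 K β r hr hβ π _ hcy (by
    intro σ hσ t
    have h1 := congrFun (hrho σ⁻¹ (by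
      intro a
      have := hσ (σ⁻¹ a)
      rw [show σ (σ⁻¹ a) = a from σ.apply_symm_apply a] at this
      exact this.symm)) t
    rw [Step.rho_apply, inv_inv] at h1
    exact h1)
  rcases hI with h | ⟨h, _⟩
  · exact h
  · exfalso
    have h1 : univ.filter (fun a => π a = 0) = P := by
      ext a
      rw [mem_filter, hπ]
      by_cases ha : a ∈ P
      · simp [ha]
      · simp [ha]
    rw [h1] at h
    omega

theorem XIII_av_z (hXI2 : S_XI2) (hXA1 : S_XA1) (K : Type) [Field K] [CharZero K] {β : Type}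
    [Fintype β] [DecidableEq β] {r : ℕ} (hr : 2 ≤ r) (hβ : Fintype.card β = r * (r + 3))
    {Q : Finset β} (hQ : 2 * Q.card = r * (r + 3) + 2) :
    ∀ (k : ℕ) (X : Finset β), (X \ Q).card = k → 2 * X.card = r * (r + 3) →
      XIII_av K r Q (XT3_z K r X) ∈ XT3_Bd K β (r + 1) univ r := by
  intro k
  induction k using Nat.strong_induction_on with
  | _ k ih =>
    intro X hk hX
    obtain ⟨y, hyQ, hyX⟩ : ∃ y ∈ Q, y ∉ X := by
      by_contra hcon
      push Not at hcon
      have : Q.card ≤ X.card := Finset.card_le_card hcon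
      omega
    have hP : 2 * (insert y X).card = r * (r + 3) + 2 := by
      rw [Finset.card_insert_of_notMem hyX]; omega
    have h1 := XIII_av_mem Q (XIII_rel hXI2 hXA1 K hr hβ hP)
    rw [map_sum, Finset.sum_insert hyX, Finset.erase_insert hyX] at h1
    have hsplit : ∑ x ∈ X, XIII_av K r Q (XT3_z K r ((insert y X).erase x)) =
        ∑ x ∈ X ∩ Q, XIII_av K r Q (XT3_z K r ((insert y X).erase x)) +
        ∑ x ∈ X \ Q, XIII_av K r Q (XT3_z K r ((insert y X).erase x)) := by
      rw [add_comm]
      have := Finset.sum_sdiff (s₁ := X ∩ Q) (s₂ := X) (f := fun x =>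
        XIII_av K r Q (XT3_z K r ((insert y X).erase x))) Finset.inter_subset_left
      rw [← this, Finset.sdiff_inter_self_left]
    have h2 : ∀ x ∈ X ∩ Q, XIII_av K r Q (XT3_z K r ((insert y X).erase x)) =
        XIII_av K r Q (XT3_z K r X) := by
      intro x hx
      rw [mem_inter] at hx
      have hxy : x ≠ y := fun e => hyX (e ▸ hx.1)
      rw [← XIII_av_mul K r Q (Equiv.swap x y) ?_ (XT3_z K r X), XT3_rho_z]
      · congr 2
        ext a
        rw [Finset.mem_map_equiv, Equiv.symm_swap, Finset.mem_erase, Finset.mem_insert]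
        by_cases hax : a = x
        · rw [hax, Equiv.swap_apply_left]
          constructor
          · rintro ⟨h, _⟩; exact absurd rfl h
          · intro h; exact absurd h hyX
        · by_cases hay : a = y
          · rw [hay, Equiv.swap_apply_right]
            constructor
            · intro _; exact hx.1
            · intro _; exact ⟨hxy.symm, Or.inl rfl⟩
          · rw [Equiv.swap_apply_of_ne_of_ne hax hay]
            constructor
            · rintro ⟨_, h⟩; exact h.resolve_left hay
            · intro h; exact ⟨hax, Or.inr h⟩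
      · intro a ha
        refine Equiv.swap_apply_of_ne_of_ne ?_ ?_
        · rintro rfl; exact ha hx.2
        · rintro rfl; exact ha hyQ
    have h3 : ∑ x ∈ X \ Q, XIII_av K r Q (XT3_z K r ((insert y X).erase x)) ∈
        XT3_Bd K β (r + 1) univ r := by
      refine Submodule.sum_mem _ (fun x hx => ?_)
      rw [mem_sdiff] at hx
      have hxP : x ∈ insert y X := Finset.mem_insert_of_mem hx.1
      refine ih (((insert y X).erase x) \ Q).card ?_ _ rfl ?_
      · rw [← hk]
        refine Finset.card_lt_card ?_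
        rw [Finset.ssubset_iff_of_subset]
        · refine ⟨x, mem_sdiff.2 hx, ?_⟩
          rw [mem_sdiff, mem_erase]
          rintro ⟨⟨h, _⟩, _⟩
          exact h rfl
        · intro a ha
          rw [mem_sdiff, mem_erase, mem_insert] at ha
          rw [mem_sdiff]
          obtain ⟨⟨ha1, ha2⟩, ha3⟩ := ha
          refine ⟨ha2.resolve_left ?_, ha3⟩
          rintro rfl
          exact ha3 hyQ
      · rw [Finset.card_erase_of_mem hxP]
        omega
    rw [hsplit, Finset.sum_congr rfl h2, Finset.sum_const, ← add_assoc] at h1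
    have h4 := Submodule.sub_mem _ h1 h3
    rw [add_sub_cancel_right] at h4
    have h5 : XIII_av K r Q (XT3_z K r X) + (X ∩ Q).card • XIII_av K r Q (XT3_z K r X) =
        ((((X ∩ Q).card + 1 : ℕ) : K)) • XIII_av K r Q (XT3_z K r X) := by
      rw [Nat.cast_smul_eq_nsmul, add_smul, one_smul, add_comm]
    rw [h5] at h4
    have h6 : (((X ∩ Q).card + 1 : ℕ) : K) ≠ 0 := Nat.cast_ne_zero.2 (by omega)
    have h7 := Submodule.smul_mem _ ((((X ∩ Q).card + 1 : ℕ) : K)⁻¹) h4
    rwa [smul_smul, inv_mul_cancel₀ h6, one_smul] at h7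

theorem pr_XIII (hXT3 : S_XT3) (hXI2 : S_XI2) (hXA1 : S_XA1) : S_XIII := by
  intro K _ _ β _ _ r hr hβ Q hQ z hz hinv
  obtain ⟨l, hl⟩ := hXT3 K β r hr hβ z hz
  set S : Finset (Finset β) := univ.filter (fun X : Finset β => 2 * X.card = r * (r + 3)) with hS
  have hz1 : z = (fun t => z t - ∑ X ∈ S, l X * zXY r X (univ \ X) t) +
      ∑ X ∈ S, l X • XT3_z K r X := by
    funext t
    rw [Pi.add_apply, Finset.sum_apply]
    simp only [Pi.smul_apply, smul_eq_mul, XT3_z]
    ring
  have h1 : XIII_av K r Q z ∈ XT3_Bd K β (r + 1) univ r := by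
    rw [hz1, map_add, map_sum]
    refine Submodule.add_mem _ (XIII_av_mem Q hl) (Submodule.sum_mem _ (fun X hX => ?_))
    rw [map_smul]
    refine Submodule.smul_mem _ _ ?_
    rw [hS, mem_filter] at hX
    exact XIII_av_z hXI2 hXA1 K hr hβ hQ _ X rfl hX.2
  have h2 : XIII_av K r Q z =
      (((univ.filter (fun σ : Equiv.Perm β => ∀ a, a ∉ Q → σ a = a)).card : ℕ) : K) • z := by
    unfold XIII_av
    rw [LinearMap.sum_apply, Nat.cast_smul_eq_nsmul, ← Finset.sum_const]
    refine Finset.sum_congr rfl (fun σ hσ => ?_)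
    rw [mem_filter] at hσ
    funext t
    rw [Step.rho_apply]
    refine hinv σ⁻¹ (fun a ha => ?_) t
    rw [Equiv.Perm.inv_eq_iff_eq]
    exact (hσ.2 a ha).symm
  rw [h2] at h1
  have h3 : (((univ.filter (fun σ : Equiv.Perm β => ∀ a, a ∉ Q → σ a = a)).card : ℕ) : K) ≠ 0 := by
    rw [Nat.cast_ne_zero, Finset.card_ne_zero]
    exact ⟨1, by rw [mem_filter]; exact ⟨mem_univ _, fun a _ => rfl⟩⟩
  have h4 := Submodule.smul_mem _
    ((((univ.filter (fun σ : Equiv.Perm β => ∀ a, a ∉ Q → σ a = a)).card : ℕ) : K)⁻¹) h1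
  rw [smul_smul, inv_mul_cancel₀ h3, one_smul] at h4
  exact h4

end Pool.Agent.Work.MP_1233f5_ag.V

end
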