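import Pool.Agent.Work.MP_1233f5_ag.Y.StmtsL
import Pool.Agent.Work.MP_1233f5_ag.Y.Basic
import Pool.Agent.Work.MP_1233f5_ag.Y.StmtsC
import Pool.Agent.Work.MP_1233f5_ag.Y.Util

/-! Bundle of small proof modules (one section per former module). -/

section

/-! MP_1233f5_ag, block Y: sections are combinations of the sections of configurations. -/

set_option autoImplicit false
set_option linter.unusedSectionVars false

namespace Pool.Agent.Work.MP_1233f5_ag.Y

open Finset
open Pool.Agent.Work.MP_1233f5_ag.Sec (Fk wd ct ee ff hh IsSec IsDeg swd brk)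

namespace CspX

section fock
variable {K : Type} [Field K]

theorem vac_apply (S : Finset ℕ) : (vac : Fk K) S = if S = ∅ then 1 else 0 := rfl

theorem mb_congr : ∀ (q : ℕ) (t t' : ℕ → ℕ), (∀ i < q, t i = t' i) →
    (mb q t : Fk K) = mb q t' := by
  intro q
  induction q with
  | zero => intro t t' _; rfl
  | succ q ih =>
    intro t t' h
    show wd (t 0) (mb q fun i => t (i + 1)) = wd (t' 0) (mb q fun i => t' (i + 1))
    rw [h 0 (Nat.succ_pos q), ih _ _ fun i hi => h (i + 1) (Nat.succ_lt_succ hi)]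

theorem deg_vac (r : ℕ) : IsDeg r 0 (vac : Fk K) := by
  intro S hS
  have h1 : S = ∅ := by
    by_contra h
    exact hS (if_neg h)
  rw [h1]
  exact ⟨empty_subset _, card_empty⟩

/-- the product is a nonzero multiple of a basis vector. -/
theorem mb_spec : ∀ (q : ℕ) (t : ℕ → ℕ), (∀ i < q, ∀ j < q, t i = t j → i = j) →
    ∃ c : K, c ≠ 0 ∧ ∀ S, (mb q t : Fk K) S = if S = (range q).image t then c else 0 := by
  intro q
  induction q with
  | zero =>
    intro t _
    refine ⟨1, one_ne_zero, fun S => ?_⟩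
    rw [range_zero, image_empty]
    rfl
  | succ q ih =>
    intro t ht
    obtain ⟨c, hc, h⟩ := ih (fun i => t (i + 1)) fun i hi j hj hij =>
      Nat.succ_injective (ht (i + 1) (Nat.succ_lt_succ hi) (j + 1) (Nat.succ_lt_succ hj) hij)
    have h0 : t 0 ∉ (range q).image (fun i => t (i + 1)) := by
      intro hm
      obtain ⟨i, hi, hti⟩ := mem_image.1 hm
      have := ht (i + 1) (Nat.succ_lt_succ (mem_range.1 hi)) 0 (Nat.succ_pos q) hti
      omega
    have him : (range (q + 1)).image t = insert (t 0) ((range q).image (fun i => t (i + 1))) := by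
      ext l
      rw [mem_insert, mem_image, mem_image]
      constructor
      · rintro ⟨i, hi, rfl⟩
        rcases i with _ | i
        · exact Or.inl rfl
        · exact Or.inr ⟨i, mem_range.2 (by have := mem_range.1 hi; omega), rfl⟩
      · rintro (rfl | ⟨i, hi, rfl⟩)
        · exact ⟨0, mem_range.2 (Nat.succ_pos q), rfl⟩
        · exact ⟨i + 1, mem_range.2 (by have := mem_range.1 hi; omega), rfl⟩
    obtain ⟨U, hU⟩ : ∃ U, U = (range (q + 1)).image t := ⟨_, rfl⟩
    have hUe : U.erase (t 0) = (range q).image (fun i => t (i + 1)) := by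
      rw [hU, him, erase_insert h0]
    have hUm : t 0 ∈ U := by
      rw [hU, him]
      exact mem_insert_self _ _
    refine ⟨Sec.sg K (t 0) U * c, mul_ne_zero ?_ hc, fun S => ?_⟩
    · intro hz
      have h1 := Sec.sg_sq (K := K) (t 0) U
      rw [hz, mul_zero] at h1
      exact zero_ne_one h1
    · have h1 : (mb (q + 1) t : Fk K) S = wd (t 0) (mb q fun i => t (i + 1)) S := rfl
      rw [h1, Sec.wd_apply, ← hU]
      by_cases h2 : t 0 ∈ S
      · rw [if_pos h2, h]
        by_cases h3 : S = U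
        · rw [if_pos h3, h3, hUe, if_pos rfl]
        · rw [if_neg h3, if_neg, mul_zero]
          intro h4
          rw [← hUe] at h4
          apply h3
          rw [← insert_erase h2, h4, insert_erase hUm]
      · rw [if_neg h2, if_neg]
        intro h3
        exact h2 (h3 ▸ hUm)

end fock

section secs
variable {K : Type} [Field K] {α : Type} [DecidableEq α]

/-- the points of a configuration. -/
def cvr (a q : ℕ) (u v : ℕ → α) (m : ℕ → Finset α) : Finset α :=
  (range a).image u ∪ (range a).image v ∪ (range q).biUnion m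

theorem mem_cvr {a q : ℕ} {u v : ℕ → α} {m : ℕ → Finset α} {y : α} :
    y ∈ cvr a q u v m ↔ (∃ i < a, u i = y) ∨ (∃ i < a, v i = y) ∨ ∃ i < q, y ∈ m i := by
  unfold cvr
  simp only [mem_union, mem_image, mem_range, mem_biUnion, or_assoc]

theorem sc_apply (a q : ℕ) (u v : ℕ → α) (m : ℕ → Finset α) (Y : Finset α) :
    (sc a q u v m : Finset α → Fk K) Y = if Y ⊆ cvr a q u v m then
      (∏ i ∈ range a, ((if v i ∈ Y then (1 : K) else 0) - (if u i ∈ Y then 1 else 0))) •
        mb q (fun i => (m i ∩ Y).card)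
    else 0 := rfl

/-- splitting off a set. -/
theorem sc_swd {q : ℕ} (u v : ℕ → α) {m : ℕ → Finset α}
    (hd : ∀ i < q, Disjoint (m (i + 1)) (m 0)) :
    (sc 0 (q + 1) u v m : Finset α → Fk K) = swd (m 0) (sc 0 q u v (fun i => m (i + 1))) := by
  funext Y
  have h1 : swd (m 0) (sc 0 q u v (fun i => m (i + 1)) : Finset α → Fk K) Y =
      wd (m 0 ∩ Y).card ((sc 0 q u v (fun i => m (i + 1)) : Finset α → Fk K) (Y \ m 0)) := rfl
  rw [h1, sc_apply, sc_apply, range_zero, prod_empty, prod_empty, one_smul, one_smul]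
  have h2 : (Y ⊆ cvr 0 (q + 1) u v m) ↔ (Y \ m 0 ⊆ cvr 0 q u v (fun i => m (i + 1))) := by
    constructor
    · intro h y hy
      rw [mem_sdiff] at hy
      have h3 := mem_cvr.1 (h hy.1)
      refine mem_cvr.2 ?_
      rcases h3 with ⟨i, hi, _⟩ | ⟨i, hi, _⟩ | ⟨i, hi, hm⟩
      · omega
      · omega
      · rcases i with _ | i
        · exact absurd hm hy.2
        · exact Or.inr (Or.inr ⟨i, by omega, hm⟩)
    · intro h y hy
      refine mem_cvr.2 (Or.inr (Or.inr ?_))
      by_cases h0 : y ∈ m 0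
      · exact ⟨0, Nat.succ_pos q, h0⟩
      · rcases mem_cvr.1 (h (mem_sdiff.2 ⟨hy, h0⟩)) with ⟨i, hi, _⟩ | ⟨i, hi, _⟩ | ⟨i, hi, hm⟩
        · omega
        · omega
        · exact ⟨i + 1, by omega, hm⟩
  by_cases h3 : Y ⊆ cvr 0 (q + 1) u v m
  · rw [if_pos h3, if_pos (h2.1 h3)]
    show wd (m 0 ∩ Y).card (mb q fun i => (m (i + 1) ∩ Y).card) = _
    congr 1
    refine mb_congr q _ _ fun i hi => ?_
    congr 1
    ext y
    rw [mem_inter, mem_inter, mem_sdiff]
    exact ⟨fun t => ⟨t.1, t.2, fun q => (Finset.disjoint_left.1 (hd i hi)) t.1 q⟩,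
      fun t => ⟨t.1, t.2.1⟩⟩
  · rw [if_neg h3, if_neg fun q => h3 (h2.2 q), map_zero]

/-- splitting off a pair. -/
theorem sc_brk {a q : ℕ} {u v : ℕ → α} {m : ℕ → Finset α}
    (hu : ∀ i < a, u i ≠ u a) (hv : ∀ i < a, v i ≠ v a) (huv : ∀ i < a, u i ≠ v a)
    (hvu : ∀ i < a, v i ≠ u a) (hum : ∀ i < q, u a ∉ m i) (hvm : ∀ i < q, v a ∉ m i) :
    (sc (a + 1) q u v m : Finset α → Fk K) = brk (u a) (v a) (sc a q u v m) := by
  funext Y
  have key : ∀ w, (∀ i < a, u i ≠ w) → (∀ i < a, v i ≠ w) → (∀ i < q, w ∉ m i) →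
      (Y ⊆ cvr (a + 1) q u v m ↔ Y.erase w ⊆ cvr a q u v m) →
      (if Y ⊆ cvr (a + 1) q u v m then
        (∏ i ∈ range a, ((if v i ∈ Y then (1 : K) else 0) - (if u i ∈ Y then 1 else 0))) •
          mb q (fun i => (m i ∩ Y).card) else 0) = (sc a q u v m : Finset α → Fk K) (Y.erase w) := by
    intro w h1 h2 h3 h4
    rw [sc_apply]
    by_cases h5 : Y ⊆ cvr (a + 1) q u v m
    · rw [if_pos h5, if_pos (h4.1 h5)]
      congr 1
      · refine prod_congr rfl fun i hi => ?_
        have h6 : v i ∈ Y.erase w ↔ v i ∈ Y := by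
          rw [mem_erase]
          exact ⟨fun t => t.2, fun t => ⟨h2 i (mem_range.1 hi), t⟩⟩
        have h7 : u i ∈ Y.erase w ↔ u i ∈ Y := by
          rw [mem_erase]
          exact ⟨fun t => t.2, fun t => ⟨h1 i (mem_range.1 hi), t⟩⟩
        simp only [h6, h7]
      · refine mb_congr q _ _ fun i hi => ?_
        congr 1
        ext y
        rw [mem_inter, mem_inter, mem_erase]
        exact ⟨fun t => ⟨t.1, fun q => h3 i hi (q ▸ t.1), t.2⟩, fun t => ⟨t.1, t.2.2⟩⟩
    · rw [if_neg h5, if_neg fun q => h5 (h4.2 q)]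
  have hmem : ∀ y, y ∈ cvr (a + 1) q u v m ↔ y = u a ∨ y = v a ∨ y ∈ cvr a q u v m := by
    intro y
    rw [mem_cvr, mem_cvr]
    constructor
    · rintro (⟨i, hi, rfl⟩ | ⟨i, hi, rfl⟩ | h)
      · rcases Nat.lt_succ_iff_lt_or_eq.1 hi with h | rfl
        · exact Or.inr (Or.inr (Or.inl ⟨i, h, rfl⟩))
        · exact Or.inl rfl
      · rcases Nat.lt_succ_iff_lt_or_eq.1 hi with h | rfl
        · exact Or.inr (Or.inr (Or.inr (Or.inl ⟨i, h, rfl⟩)))
        · exact Or.inr (Or.inl rfl)
      · exact Or.inr (Or.inr (Or.inr (Or.inr h)))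
    · rintro (rfl | rfl | ⟨i, hi, rfl⟩ | ⟨i, hi, rfl⟩ | h)
      · exact Or.inl ⟨a, Nat.lt_succ_self a, rfl⟩
      · exact Or.inr (Or.inl ⟨a, Nat.lt_succ_self a, rfl⟩)
      · exact Or.inl ⟨i, by omega, rfl⟩
      · exact Or.inr (Or.inl ⟨i, by omega, rfl⟩)
      · exact Or.inr (Or.inr h)
  rw [sc_apply, prod_range_succ]
  by_cases h1 : v a ∈ Y
  · by_cases h2 : u a ∈ Y
    · have hb : brk (u a) (v a) (sc a q u v m : Finset α → Fk K) Y = 0 := by
        unfold Sec.brk
        rw [if_neg (fun t => t.2 h2), if_neg (fun t => t.2 h1)]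
      have hf : ((if v a ∈ Y then (1 : K) else 0) - (if u a ∈ Y then 1 else 0)) = 0 := by
        rw [if_pos h1, if_pos h2, sub_self]
      rw [hb, hf, mul_zero, zero_smul, ite_self]
    · have hb : brk (u a) (v a) (sc a q u v m : Finset α → Fk K) Y =
          (sc a q u v m : Finset α → Fk K) (Y.erase (v a)) := by
        unfold Sec.brk
        rw [if_pos ⟨h1, h2⟩]
      have hf : ((if v a ∈ Y then (1 : K) else 0) - (if u a ∈ Y then 1 else 0)) = 1 := by
        rw [if_pos h1, if_neg h2, sub_zero]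
      rw [hb, hf, mul_one]
      refine key (v a) huv hv hvm ?_
      constructor
      · intro h y hy
        rw [mem_erase] at hy
        rcases (hmem y).1 (h hy.2) with h3 | h3 | h3
        · exact absurd (h3 ▸ hy.2) h2
        · exact absurd h3 hy.1
        · exact h3
      · intro h y hy
        rw [hmem]
        by_cases h3 : y = v a
        · exact Or.inr (Or.inl h3)
        · exact Or.inr (Or.inr (h (mem_erase.2 ⟨h3, hy⟩)))
  · by_cases h2 : u a ∈ Y
    · have hb : brk (u a) (v a) (sc a q u v m : Finset α → Fk K) Y =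
          -(sc a q u v m : Finset α → Fk K) (Y.erase (u a)) := by
        unfold Sec.brk
        rw [if_neg (fun t => h1 t.1), if_pos ⟨h2, h1⟩]
      have hf : ((if v a ∈ Y then (1 : K) else 0) - (if u a ∈ Y then 1 else 0)) = -1 := by
        rw [if_neg h1, if_pos h2, zero_sub]
      rw [hb, hf, mul_neg, mul_one, ← key (u a) hu hvu hum ?_]
      · by_cases h5 : Y ⊆ cvr (a + 1) q u v m
        · rw [if_pos h5, if_pos h5, neg_smul]
        · rw [if_neg h5, if_neg h5, neg_zero]
      constructor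
      · intro h y hy
        rw [mem_erase] at hy
        rcases (hmem y).1 (h hy.2) with h3 | h3 | h3
        · exact absurd h3 hy.1
        · exact absurd (h3 ▸ hy.2) h1
        · exact h3
      · intro h y hy
        rw [hmem]
        by_cases h3 : y = u a
        · exact Or.inl h3
        · exact Or.inr (Or.inr (h (mem_erase.2 ⟨h3, hy⟩)))
    · have hb : brk (u a) (v a) (sc a q u v m : Finset α → Fk K) Y = 0 := by
        unfold Sec.brk
        rw [if_neg (fun t => h1 t.1), if_neg (fun t => h2 t.1)]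
      have hf : ((if v a ∈ Y then (1 : K) else 0) - (if u a ∈ Y then 1 else 0)) = 0 := by
        rw [if_neg h1, if_neg h2, sub_self]
      rw [hb, hf, mul_zero, zero_smul, ite_self]

theorem sc_mem_zero (r : ℕ) (u v : ℕ → α) (q : ℕ) : ∀ (m : ℕ → Finset α) (R : Finset α),
    VC r R 0 q u v m → (sc 0 q u v m : Finset α → Fk K) ∈ Sc K r q R := by
  induction q with
  | zero =>
    intro m R h
    have hR : R = ∅ := by
      rw [← h.cov]
      simp
    have h1 : ∀ Y, (sc 0 0 u v m : Finset α → Fk K) Y = if Y ⊆ ∅ then vac else 0 := by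
      intro Y
      rw [sc_apply]
      have h2 : cvr 0 0 u v m = ∅ := by simp [cvr]
      rw [h2, range_zero, prod_empty, one_smul]
      rfl
    subst hR
    refine ⟨⟨?_, ?_, ?_⟩, ?_⟩
    · intro Y hY
      rw [h1, if_neg hY]
    · intro Y hY
      have hY' : Y = ∅ := subset_empty.1 hY
      rw [h1, if_pos hY, hY', sdiff_empty, sum_empty, Sec.ee_apply]
      refine sum_eq_zero fun i _ => ?_
      rw [(deg_vac (K := K) r).ct_zero, map_zero, smul_zero]
    · intro Y hY
      have hY' : Y = ∅ := subset_empty.1 hY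
      rw [h1, if_pos hY, hY', sum_empty, Sec.ff_apply]
      refine sum_eq_zero fun i _ => ?_
      rw [(deg_vac (K := K) r).ct_zero, map_zero, smul_zero]
    · intro Y
      rw [h1]
      split_ifs
      · exact deg_vac r
      · exact IsDeg.zero r 0
  | succ q ih =>
    intro m R h
    have hd : ∀ i < q, Disjoint (m (i + 1)) (m 0) := fun i hi =>
      h.dis (i + 1) (by omega) 0 (by omega) (by omega)
    have hV : VC r (cvr 0 q u v fun i => m (i + 1)) 0 q u v (fun i => m (i + 1)) := by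
      refine ⟨fun i hi => h.card (i + 1) (by omega), fun i hi j hj hij =>
        h.dis (i + 1) (by omega) (j + 1) (by omega) (by omega), fun i hi => absurd hi (by omega),
        fun i hi => absurd hi (by omega), fun i hi => absurd hi (by omega),
        fun i hi => absurd hi (by omega), fun i hi => absurd hi (by omega), rfl⟩
    have h1 := ih (fun i => m (i + 1)) _ hV
    have hdis : Disjoint (cvr 0 q u v fun i => m (i + 1)) (m 0) := by
      rw [Finset.disjoint_left]
      intro y hy hy0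
      rcases mem_cvr.1 hy with ⟨i, hi, _⟩ | ⟨i, hi, _⟩ | ⟨i, hi, hm⟩
      · omega
      · omega
      · exact (Finset.disjoint_left.1 (hd i hi)) hm hy0
    have hR : R = (cvr 0 q u v fun i => m (i + 1)) ∪ m 0 := by
      have h2 : R = cvr 0 (q + 1) u v m := h.cov.symm
      rw [h2]
      ext y
      rw [mem_union, mem_cvr, mem_cvr]
      constructor
      · rintro (⟨i, hi, _⟩ | ⟨i, hi, _⟩ | ⟨i, hi, hm⟩)
        · omega
        · omega
        · rcases i with _ | i
          · exact Or.inr hm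
          · exact Or.inl (Or.inr (Or.inr ⟨i, by omega, hm⟩))
      · rintro ((⟨i, hi, _⟩ | ⟨i, hi, _⟩ | ⟨i, hi, hm⟩) | hm)
        · omega
        · omega
        · exact Or.inr (Or.inr ⟨i + 1, by omega, hm⟩)
        · exact Or.inr (Or.inr ⟨0, by omega, hm⟩)
    rw [sc_swd u v hd, hR]
    exact ⟨h1.1.swd (h.card 0 (by omega)) hdis, fun Y => IsDeg.swd (h.card 0 (by omega)) h1.2 Y⟩

theorem sc_mem (r q : ℕ) (u v : ℕ → α) (m : ℕ → Finset α) (a : ℕ) : ∀ (R : Finset α),
    VC r R a q u v m → (sc a q u v m : Finset α → Fk K) ∈ Sc K r q R := by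
  induction a with
  | zero => exact fun R h => sc_mem_zero r u v q m R h
  | succ a ih =>
    intro R h
    have hV : VC r (cvr a q u v m) a q u v m := by
      refine ⟨h.card, h.dis, fun i hi j hj => h.uinj i (by omega) j (by omega),
        fun i hi j hj => h.vinj i (by omega) j (by omega),
        fun i hi j hj => h.uv i (by omega) j (by omega),
        fun i hi j hj => h.uout i (by omega) j hj, fun i hi j hj => h.vout i (by omega) j hj, rfl⟩
    have h1 := ih _ hV
    have hua : u a ∉ cvr a q u v m := by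
      intro hm
      rcases mem_cvr.1 hm with ⟨i, hi, he⟩ | ⟨i, hi, he⟩ | ⟨i, hi, he⟩
      · have := h.uinj i (by omega) a (by omega) he
        omega
      · exact h.uv a (by omega) i (by omega) he.symm
      · exact h.uout a (by omega) i hi he
    have hva : v a ∉ cvr a q u v m := by
      intro hm
      rcases mem_cvr.1 hm with ⟨i, hi, he⟩ | ⟨i, hi, he⟩ | ⟨i, hi, he⟩
      · exact h.uv i (by omega) a (by omega) he
      · have := h.vinj i (by omega) a (by omega) he
        omega
      · exact h.vout a (by omega) i hi he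
    have hR : R = insert (u a) (insert (v a) (cvr a q u v m)) := by
      have h2 : R = cvr (a + 1) q u v m := h.cov.symm
      rw [h2]
      ext y
      rw [mem_insert, mem_insert, mem_cvr, mem_cvr]
      constructor
      · rintro (⟨i, hi, rfl⟩ | ⟨i, hi, rfl⟩ | h)
        · rcases Nat.lt_succ_iff_lt_or_eq.1 hi with h | rfl
          · exact Or.inr (Or.inr (Or.inl ⟨i, h, rfl⟩))
          · exact Or.inl rfl
        · rcases Nat.lt_succ_iff_lt_or_eq.1 hi with h | rfl
          · exact Or.inr (Or.inr (Or.inr (Or.inl ⟨i, h, rfl⟩)))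
          · exact Or.inr (Or.inl rfl)
        · exact Or.inr (Or.inr (Or.inr (Or.inr h)))
      · rintro (rfl | rfl | ⟨i, hi, rfl⟩ | ⟨i, hi, rfl⟩ | h)
        · exact Or.inl ⟨a, Nat.lt_succ_self a, rfl⟩
        · exact Or.inr (Or.inl ⟨a, Nat.lt_succ_self a, rfl⟩)
        · exact Or.inl ⟨i, by omega, rfl⟩
        · exact Or.inr (Or.inl ⟨i, by omega, rfl⟩)
        · exact Or.inr (Or.inr h)
    have hb : (sc (a + 1) q u v m : Finset α → Fk K) = brk (u a) (v a) (sc a q u v m) := by
      refine sc_brk ?_ ?_ ?_ ?_ ?_ ?_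
      · intro i hi he
        have := h.uinj i (by omega) a (by omega) he
        omega
      · intro i hi he
        have := h.vinj i (by omega) a (by omega) he
        omega
      · exact fun i hi => h.uv i (by omega) a (by omega)
      · exact fun i hi he => h.uv a (by omega) i (by omega) he.symm
      · exact fun i hi => h.uout a (by omega) i hi
      · exact fun i hi => h.vout a (by omega) i hi
    rw [hb, hR]
    exact ⟨h1.1.brk (h.uv a (by omega) a (by omega)) hua hva, fun Y => IsDeg.brk h1.2 Y⟩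

/-- the action on the sections of configurations. -/
theorem sact_sc (σ : Equiv.Perm α) (a q : ℕ) (u v : ℕ → α) (m : ℕ → Finset α) :
    sact K α σ (sc a q u v m) = sc a q (fun i => σ (u i)) (fun i => σ (v i))
      (fun i => im σ (m i)) := by
  funext Y
  have h0 : sact K α σ (sc a q u v m) Y = (sc a q u v m : Finset α → Fk K) (im σ⁻¹ Y) := rfl
  have hm : ∀ y, y ∈ im σ⁻¹ Y ↔ σ y ∈ Y := fun y => by
    rw [mem_im, inv_inv]
  have hsub : im σ⁻¹ Y ⊆ cvr a q u v m ↔
      Y ⊆ cvr a q (fun i => σ (u i)) (fun i => σ (v i)) (fun i => im σ (m i)) := by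
    constructor
    · intro h y hy
      have h1 : σ⁻¹ y ∈ im σ⁻¹ Y := by
        rw [hm, perm_ai]
        exact hy
      rcases mem_cvr.1 (h h1) with ⟨i, hi, he⟩ | ⟨i, hi, he⟩ | ⟨i, hi, he⟩
      · refine mem_cvr.2 (Or.inl ⟨i, hi, ?_⟩)
        rw [he, perm_ai]
      · refine mem_cvr.2 (Or.inr (Or.inl ⟨i, hi, ?_⟩))
        rw [he, perm_ai]
      · exact mem_cvr.2 (Or.inr (Or.inr ⟨i, hi, (mem_im σ _ y).2 he⟩))
    · intro h y hy
      rw [hm] at hy
      rcases mem_cvr.1 (h hy) with ⟨i, hi, he⟩ | ⟨i, hi, he⟩ | ⟨i, hi, he⟩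
      · exact mem_cvr.2 (Or.inl ⟨i, hi, σ.injective he⟩)
      · exact mem_cvr.2 (Or.inr (Or.inl ⟨i, hi, σ.injective he⟩))
      · refine mem_cvr.2 (Or.inr (Or.inr ⟨i, hi, ?_⟩))
        rw [mem_im] at he
        have h2 : σ⁻¹ (σ y) = y := σ.symm_apply_apply y
        rwa [h2] at he
  rw [h0, sc_apply, sc_apply]
  by_cases h : im σ⁻¹ Y ⊆ cvr a q u v m
  · rw [if_pos h, if_pos (hsub.1 h)]
    congr 1
    · refine prod_congr rfl fun i _ => ?_
      simp only [hm]
    · refine mb_congr q _ _ fun i _ => ?_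
      rw [← card_im σ (m i ∩ im σ⁻¹ Y)]
      congr 1
      ext y
      rw [mem_im, mem_inter, mem_inter, hm, perm_ai, mem_im]
  · rw [if_neg h, if_neg fun q => h (hsub.2 q)]

theorem VC_im {r : ℕ} {R : Finset α} {a q : ℕ} {u v : ℕ → α} {m : ℕ → Finset α}
    (h : VC r R a q u v m) {σ : Equiv.Perm α} (hσ : Sup R σ) :
    VC r R a q (fun i => σ (u i)) (fun i => σ (v i)) (fun i => im σ (m i)) := by
  have hmm : ∀ x (Z : Finset α), σ x ∈ im σ Z ↔ x ∈ Z := fun x Z => by
    rw [mem_im]
    have h2 : σ⁻¹ (σ x) = x := σ.symm_apply_apply x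
    rw [h2]
  refine ⟨fun i hi => ?_, fun i hi j hj hij => ?_, fun i hi j hj he => ?_, fun i hi j hj he => ?_,
    fun i hi j hj he => ?_, fun i hi j hj he => ?_, fun i hi j hj he => ?_, ?_⟩
  · rw [card_im]
    exact h.card i hi
  · exact (Finset.disjoint_map _).2 (h.dis i hi j hj hij)
  · exact h.uinj i hi j hj (σ.injective he)
  · exact h.vinj i hi j hj (σ.injective he)
  · exact h.uv i hi j hj (σ.injective he)
  · exact h.uout i hi j hj ((hmm _ _).1 he)
  · exact h.vout i hi j hj ((hmm _ _).1 he)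
  · have h1 : cvr a q (fun i => σ (u i)) (fun i => σ (v i)) (fun i => im σ (m i)) =
        im σ (cvr a q u v m) := by
      ext y
      rw [mem_im, mem_cvr, mem_cvr]
      have h2 : ∀ x, σ x = y ↔ x = σ⁻¹ y := fun x => by
        constructor
        · intro q
          rw [← q]
          exact (σ.symm_apply_apply x).symm
        · intro q
          rw [q]
          exact perm_ai σ y
      simp only [h2, mem_im]
    have h2 : cvr a q u v m = R := h.cov
    rw [h2, im_sup hσ] at h1
    exact h1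

end secs

section conf
variable {α : Type} [DecidableEq α]

/-- cutting a set into points and pieces. -/
theorem cut [Nonempty α] (a : ℕ) (t : ℕ → ℕ) (q : ℕ) : ∀ (Y : Finset α),
    Y.card = a + ∑ i ∈ range q, t i → ∃ (v : ℕ → α) (p : ℕ → Finset α),
      (∀ i < a, v i ∈ Y) ∧ (∀ i < a, ∀ j < a, v i = v j → i = j) ∧
      (∀ i < q, (p i).card = t i) ∧ (∀ i < q, p i ⊆ Y) ∧
      (∀ i < q, ∀ j < q, i ≠ j → Disjoint (p i) (p j)) ∧ (∀ i < a, ∀ j < q, v i ∉ p j) ∧
      ∀ y ∈ Y, (∃ i < a, v i = y) ∨ ∃ i < q, y ∈ p i := by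
  induction q with
  | zero =>
    intro Y hY
    rw [range_zero, sum_empty, add_zero] at hY
    obtain ⟨e⟩ : Nonempty (Y ≃ Fin a) := ⟨Y.equivFinOfCardEq hY⟩
    obtain ⟨d⟩ := (inferInstance : Nonempty α)
    refine ⟨fun i => if h : i < a then (e.symm ⟨i, h⟩ : α) else d, fun _ => ∅, ?_, ?_,
      fun i hi => absurd hi (by omega), fun i hi => absurd hi (by omega),
      fun i hi => absurd hi (by omega), fun i _ j hj => absurd hj (by omega), ?_⟩
    · intro i hi
      beta_reduce
      rw [dif_pos hi]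
      exact (e.symm ⟨i, hi⟩).2
    · intro i hi j hj hij
      beta_reduce at hij
      rw [dif_pos hi, dif_pos hj] at hij
      have h1 := e.symm.injective (Subtype.ext hij)
      exact congrArg Fin.val h1
    · intro y hy
      refine Or.inl ⟨(e ⟨y, hy⟩ : ℕ), (e ⟨y, hy⟩).2, ?_⟩
      beta_reduce
      rw [dif_pos (e ⟨y, hy⟩).2]
      have h1 : e.symm ⟨(e ⟨y, hy⟩ : ℕ), (e ⟨y, hy⟩).2⟩ = ⟨y, hy⟩ := by
        rw [Fin.eta, Equiv.symm_apply_apply]
      rw [h1]
  | succ q ih =>
    intro Y hY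
    rw [sum_range_succ] at hY
    obtain ⟨P, hP, hPc⟩ : ∃ P ⊆ Y, P.card = t q :=
      Finset.exists_subset_card_eq (by omega)
    obtain ⟨v, p, h1, h2, h3, h4, h5, h6, h7⟩ := ih (Y \ P) (by
      rw [card_sdiff_of_subset hP]
      omega)
    have hd : ∀ i < q, Disjoint (p i) P := fun i hi => by
      rw [Finset.disjoint_left]
      exact fun y hy hyP => (mem_sdiff.1 (h4 i hi hy)).2 hyP
    refine ⟨v, fun i => if i = q then P else p i, ?_, h2, ?_, ?_, ?_, ?_, ?_⟩
    · exact fun i hi => (mem_sdiff.1 (h1 i hi)).1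
    · intro i hi
      beta_reduce
      split_ifs with h
      · rw [h]
        exact hPc
      · exact h3 i (by omega)
    · intro i hi
      beta_reduce
      split_ifs with h
      · exact hP
      · exact (h4 i (by omega)).trans sdiff_subset
    · intro i hi j hj hij
      beta_reduce
      split_ifs with h h' h'
      · omega
      · exact (hd j (by omega)).symm
      · exact hd i (by omega)
      · exact h5 i (by omega) j (by omega) hij
    · intro i hi j hj
      beta_reduce
      split_ifs with h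
      · exact (mem_sdiff.1 (h1 i hi)).2
      · exact h6 i hi j (by omega)
    · intro y hy
      by_cases hyP : y ∈ P
      · refine Or.inr ⟨q, by omega, ?_⟩
        beta_reduce
        rw [if_pos rfl]
        exact hyP
      · rcases h7 y (mem_sdiff.2 ⟨hy, hyP⟩) with h | ⟨i, hi, h⟩
        · exact Or.inl h
        · refine Or.inr ⟨i, by omega, ?_⟩
          beta_reduce
          rw [if_neg (by omega)]
          exact h

/-- a configuration of given type. -/
theorem conf [Nonempty α] {r a q : ℕ} {R Y : Finset α} (hR : R.card = 2 * a + q * r)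
    (hYR : Y ⊆ R) {t : ℕ → ℕ} (ht : ∀ i < q, t i ≤ r)
    (hY : Y.card = a + ∑ i ∈ range q, t i) : ∃ (u v : ℕ → α) (m : ℕ → Finset α),
      VC r R a q u v m ∧ (∀ i < a, v i ∈ Y) ∧ (∀ i < a, u i ∉ Y) ∧
        ∀ i < q, (m i ∩ Y).card = t i := by
  obtain ⟨v, p, h1, h2, h3, h4, h5, h6, h7⟩ := cut a t q Y hY
  have hs : ∑ i ∈ range q, t i + ∑ i ∈ range q, (r - t i) = q * r := by
    rw [← sum_add_distrib]
    have h8 : ∀ i ∈ range q, t i + (r - t i) = r := fun i hi => by
      have := ht i (mem_range.1 hi)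
      omega
    rw [sum_congr rfl h8, sum_const, card_range, smul_eq_mul]
  obtain ⟨u, p', g1, g2, g3, g4, g5, g6, g7⟩ := cut a (fun i => r - t i) q (R \ Y) (by
    rw [card_sdiff_of_subset hYR]
    omega)
  have hpp : ∀ i < q, ∀ j < q, Disjoint (p i) (p' j) := fun i hi j hj => by
    rw [Finset.disjoint_left]
    exact fun y hy hy' => (mem_sdiff.1 (g4 j hj hy')).2 (h4 i hi hy)
  have hup : ∀ i < a, ∀ j < q, u i ∉ p j := fun i hi j hj hm =>
    (mem_sdiff.1 (g1 i hi)).2 (h4 j hj hm)
  have hvp : ∀ i < a, ∀ j < q, v i ∉ p' j := fun i hi j hj hm =>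
    (mem_sdiff.1 (g4 j hj hm)).2 (h1 i hi)
  refine ⟨u, v, fun i => p i ∪ p' i, ⟨?_, ?_, g2, h2, ?_, ?_, ?_, ?_⟩, h1,
    fun i hi => (mem_sdiff.1 (g1 i hi)).2, ?_⟩
  · intro i hi
    rw [card_union_of_disjoint (hpp i hi i hi), h3 i hi, g3 i hi]
    have := ht i hi
    omega
  · intro i hi j hj hij
    rw [disjoint_union_left, disjoint_union_right, disjoint_union_right]
    exact ⟨⟨h5 i hi j hj hij, hpp i hi j hj⟩, (hpp j hj i hi).symm, g5 i hi j hj hij⟩
  · intro i hi j hj he
    exact (mem_sdiff.1 (g1 i hi)).2 (he ▸ h1 j hj)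
  · intro i hi j hj hm
    rcases mem_union.1 hm with hm | hm
    · exact hup i hi j hj hm
    · exact g6 i hi j hj hm
  · intro i hi j hj hm
    rcases mem_union.1 hm with hm | hm
    · exact h6 i hi j hj hm
    · exact hvp i hi j hj hm
  · show cvr a q u v (fun i => p i ∪ p' i) = R
    ext y
    rw [mem_cvr]
    constructor
    · rintro (⟨i, hi, rfl⟩ | ⟨i, hi, rfl⟩ | ⟨i, hi, hm⟩)
      · exact (mem_sdiff.1 (g1 i hi)).1
      · exact hYR (h1 i hi)
      · rcases mem_union.1 hm with hm | hm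
        · exact hYR (h4 i hi hm)
        · exact (mem_sdiff.1 (g4 i hi hm)).1
    · intro hy
      by_cases hyY : y ∈ Y
      · rcases h7 y hyY with ⟨i, hi, h⟩ | ⟨i, hi, h⟩
        · exact Or.inr (Or.inl ⟨i, hi, h⟩)
        · exact Or.inr (Or.inr ⟨i, hi, mem_union_left _ h⟩)
      · rcases g7 y (mem_sdiff.2 ⟨hy, hyY⟩) with ⟨i, hi, h⟩ | ⟨i, hi, h⟩
        · exact Or.inl ⟨i, hi, h⟩
        · exact Or.inr (Or.inr ⟨i, hi, mem_union_right _ h⟩)
  · intro i hi
    beta_reduce
    rw [← h3 i hi]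
    congr 1
    ext y
    rw [mem_inter, mem_union]
    constructor
    · rintro ⟨hm | hm, hy⟩
      · exact hm
      · exact absurd hy (mem_sdiff.1 (g4 i hi hm)).2
    · exact fun hm => ⟨Or.inl hm, h4 i hi hm⟩

end conf

section main
variable {K : Type} [Field K] [CharZero K] {α : Type} [Fintype α] [DecidableEq α]

/-- the span of the sections of configurations. -/
noncomputable def Bs (K : Type) [Field K] {α : Type} [DecidableEq α] (r a q : ℕ) (R : Finset α) :
    Submodule K (Finset α → Fk K) :=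
  Submodule.span K {s | ∃ u v m, VC r R a q u v m ∧ s = sc a q u v m}

omit [CharZero K] [Fintype α] in
theorem Bs_le (r a q : ℕ) (R : Finset α) : Bs K r a q R ≤ Sc K r q R := by
  unfold Bs
  rw [Submodule.span_le]
  rintro _ ⟨u, v, m, h, rfl⟩
  exact sc_mem r q u v m a R h

omit [CharZero K] [Fintype α] in
theorem Bs_act {r a q : ℕ} {R : Finset α} {σ : Equiv.Perm α} (hσ : Sup R σ)
    {z : Finset α → Fk K} (hz : z ∈ Bs K r a q R) : sact K α σ z ∈ Bs K r a q R := by
  unfold Bs at hz ⊢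
  induction hz using Submodule.span_induction with
  | mem x hx =>
    obtain ⟨u, v, m, h, rfl⟩ := hx
    exact Submodule.subset_span ⟨_, _, _, VC_im h hσ, sact_sc σ a q u v m⟩
  | zero => rw [map_zero]; exact Submodule.zero_mem _
  | add x y _ _ hx hy => rw [map_add]; exact Submodule.add_mem _ hx hy
  | smul c x _ hx => rw [map_smul]; exact Submodule.smul_mem _ _ hx

/-- the enumeration of a set of numbers. -/
theorem enum (S : Finset ℕ) : ∃ t : ℕ → ℕ, (∀ i < S.card, ∀ j < S.card, t i = t j → i = j) ∧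
    (range S.card).image t = S := by
  obtain ⟨v, p, h1, h2, h3, h4, h5, h6, h7⟩ := cut S.card (fun _ => 0) 0 S (by simp)
  refine ⟨v, h2, ?_⟩
  ext y
  rw [mem_image]
  constructor
  · rintro ⟨i, hi, rfl⟩
    exact h1 i (mem_range.1 hi)
  · intro hy
    rcases h7 y hy with ⟨i, hi, h⟩ | ⟨i, hi, h⟩
    · exact ⟨i, mem_range.2 hi, h⟩
    · omega

/-- basis vectors of the right weight are values. -/
theorem value_basis [Nonempty α] {r a q : ℕ} {R Y : Finset α} (hR : R.card = 2 * a + q * r)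
    (hYR : Y ⊆ R) {S : Finset ℕ} (hS : S ⊆ range (r + 1)) (hSc : S.card = q)
    (hw : Y.card = a + ∑ i ∈ S, i) :
    ∃ y ∈ Bs K r a q R, y Y = fun S' => if S' = S then (1 : K) else 0 := by
  obtain ⟨t, ht1, ht2⟩ := enum S
  rw [hSc] at ht1 ht2
  have hinj : Set.InjOn t (range q : Set ℕ) := fun i hi j hj hij =>
    ht1 i (mem_range.1 (mem_coe.1 hi)) j (mem_range.1 (mem_coe.1 hj)) hij
  have ht3 : ∀ i < q, t i ≤ r := by
    intro i hi
    have h1 : t i ∈ S := by
      rw [← ht2]
      exact mem_image_of_mem _ (mem_range.2 hi)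
    have h2 := mem_range.1 (hS h1)
    omega
  have hY : Y.card = a + ∑ i ∈ range q, t i := by
    rw [hw, ← ht2, sum_image hinj]
  obtain ⟨u, v, m, hV, hv, hu, hm⟩ := conf hR hYR ht3 hY
  obtain ⟨c, hc, hmb⟩ := mb_spec (K := K) q t ht1
  refine ⟨c⁻¹ • sc a q u v m, Submodule.smul_mem _ _ (Submodule.subset_span ⟨u, v, m, hV, rfl⟩), ?_⟩
  have h1 : (sc a q u v m : Finset α → Fk K) Y = mb q t := by
    have h2 : cvr a q u v m = R := hV.cov
    rw [sc_apply, h2, if_pos hYR]
    have h3 : ∏ i ∈ range a, ((if v i ∈ Y then (1 : K) else 0) - (if u i ∈ Y then 1 else 0)) =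
        1 := by
      refine prod_eq_one fun i hi => ?_
      rw [mem_range] at hi
      rw [if_pos (hv i hi), if_neg (hu i hi), sub_zero]
    rw [h3, one_smul]
    exact mb_congr q _ _ hm
  rw [Pi.smul_apply, h1]
  funext S'
  rw [Pi.smul_apply, hmb, ht2, smul_eq_mul]
  split_ifs
  · exact inv_mul_cancel₀ hc
  · rw [mul_zero]

/-- every value of a section is a value of a combination of configurations. -/
theorem value [Nonempty α] {r a q : ℕ} {R Y : Finset α} (hR : R.card = 2 * a + q * r)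
    (hYR : Y ⊆ R) {z : Finset α → Fk K} (hz : z ∈ Sc K r q R) :
    ∃ y ∈ Bs K r a q R, y Y = z Y := by
  have hdeg : IsDeg r q (z Y) := hz.2 Y
  have hwt : Sec.hh K r (z Y) = (2 * (Y.card : K) - R.card) • z Y :=
    IsSec.hh (Sec.sl_fock r) hz.1 Y hYR
  obtain ⟨ε, hε⟩ : ∃ ε, ε = z Y := ⟨_, rfl⟩
  rw [← hε] at hdeg hwt ⊢
  have h1 : ∀ S ∈ powersetCard q (range (r + 1)), ∃ y ∈ Bs K r a q R,
      y Y = fun S' => if S' = S then ε S else 0 := by
    intro S hS
    rw [mem_powersetCard] at hS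
    by_cases h0 : ε S = 0
    · refine ⟨0, Submodule.zero_mem _, ?_⟩
      funext S'
      rw [h0, ite_self]
      rfl
    · have h3 := congrFun hwt S
      have h6 : Sec.hh K r ε S = Sec.wt K r S * ε S := rfl
      rw [h6, Pi.smul_apply, smul_eq_mul, Sec.wt_int r q S hS.1 hS.2] at h3
      have h4 := mul_right_cancel₀ h0 h3
      have h5 : (2 * (∑ i ∈ S, i : ℕ) - r * q : ℤ) = 2 * (Y.card : ℤ) - R.card := by
        have h7 : (((2 * (∑ i ∈ S, i : ℕ) - r * q : ℤ)) : K) =
            ((2 * (Y.card : ℤ) - R.card : ℤ) : K) := by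
          rw [h4]
          push_cast
          ring
        exact_mod_cast h7
      have h8 : Y.card = a + ∑ i ∈ S, i := by
        rw [hR] at h5
        push_cast at h5
        have h9 : (r : ℤ) * q = q * r := mul_comm _ _
        rw [h9] at h5
        have h10 : (Y.card : ℤ) = a + ((∑ i ∈ S, i : ℕ) : ℤ) := by
          push_cast
          linarith
        exact_mod_cast h10
      obtain ⟨y, hy, hyY⟩ := value_basis (K := K) hR hYR hS.1 hS.2 h8
      refine ⟨ε S • y, Submodule.smul_mem _ _ hy, ?_⟩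
      rw [Pi.smul_apply, hyY]
      funext S'
      rw [Pi.smul_apply, smul_eq_mul]
      split_ifs
      · rw [mul_one]
      · rw [mul_zero]
  choose! y hy hyY using h1
  refine ⟨∑ S ∈ powersetCard q (range (r + 1)), y S, Submodule.sum_mem _ hy, ?_⟩
  rw [Finset.sum_apply]
  funext S'
  rw [sum_congr rfl hyY, Finset.sum_apply, sum_ite_eq]
  split_ifs with h
  · rfl
  · by_contra hne
    obtain ⟨h2, h3⟩ := hdeg S' fun q => hne q.symm
    exact h (mem_powersetCard.2 ⟨h2, h3⟩)

theorem StY_one (P Y : Finset α) : StY P Y (1 : Equiv.Perm α) := ⟨fun _ _ => rfl, im_one Y⟩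

theorem StY_mul {P Y : Finset α} {σ τ : Equiv.Perm α} (hσ : StY P Y σ) (hτ : StY P Y τ) :
    StY P Y (σ * τ) := by
  refine ⟨fun a ha => ?_, ?_⟩
  · rw [Equiv.Perm.mul_apply, hτ.1 a ha, hσ.1 a ha]
  · rw [im_mul, hτ.2, hσ.2]

theorem StY_inv {P Y : Finset α} {σ : Equiv.Perm α} (hσ : StY P Y σ) : StY P Y σ⁻¹ := by
  refine ⟨fun a ha => ?_, ?_⟩
  · rw [Equiv.Perm.inv_eq_iff_eq]
    exact (hσ.1 a ha).symm
  · have h1 := im_mul σ⁻¹ σ Y
    rw [inv_mul_cancel, im_one, hσ.2] at h1
    exact h1.symm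

theorem invariant_case (hDet : S_Det) [Nonempty α] {r a q : ℕ} {R Y : Finset α}
    (hR : R.card = 2 * a + q * r) (hYR : Y ⊆ R) {z : Finset α → Fk K} (hz : z ∈ Sc K r q R)
    (hinv : ∀ σ, StY R Y σ → sact K α σ z = z) : z ∈ Bs K r a q R := by
  classical
  obtain ⟨y, hy, hyY⟩ := value hR hYR hz
  obtain ⟨F, hF⟩ : ∃ F, F = univ.filter (fun σ : Equiv.Perm α => StY R Y σ) := ⟨_, rfl⟩
  have hFm : ∀ σ, σ ∈ F ↔ StY R Y σ := fun σ => by
    rw [hF, mem_filter]
    exact ⟨fun t => t.2, fun t => ⟨mem_univ _, t⟩⟩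
  have hN : ((F.card : ℕ) : K) ≠ 0 := by
    have : 0 < F.card := card_pos.2 ⟨1, (hFm 1).2 (StY_one R Y)⟩
    exact_mod_cast this.ne'
  obtain ⟨w, hw⟩ : ∃ w, w = ((F.card : ℕ) : K)⁻¹ • ∑ σ ∈ F, sact K α σ y := ⟨_, rfl⟩
  have hwB : w ∈ Bs K r a q R := by
    rw [hw]
    exact Submodule.smul_mem _ _ (Submodule.sum_mem _ fun σ hσ => Bs_act ((hFm σ).1 hσ).1 hy)
  have hwinv : ∀ τ, StY R Y τ → sact K α τ w = w := by
    intro τ hτ
    rw [hw, map_smul, map_sum]
    congr 1
    refine Finset.sum_bij (fun σ _ => τ * σ) ?_ ?_ ?_ ?_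
    · exact fun σ hσ => (hFm _).2 (StY_mul hτ ((hFm σ).1 hσ))
    · exact fun σ _ σ' _ h => mul_left_cancel h
    · intro σ hσ
      refine ⟨τ⁻¹ * σ, (hFm _).2 (StY_mul (StY_inv hτ) ((hFm σ).1 hσ)), ?_⟩
      rw [mul_inv_cancel_left]
    · intro σ _
      rw [map_mul, Module.End.mul_apply]
  have hwY : w Y = z Y := by
    rw [hw, Pi.smul_apply, Finset.sum_apply]
    have h1 : ∀ σ ∈ F, sact K α σ y Y = z Y := by
      intro σ hσ
      have h2 : sact K α σ y Y = y (im σ⁻¹ Y) := rfl
      rw [h2, (StY_inv ((hFm σ).1 hσ)).2, hyY]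
    rw [sum_congr rfl h1, sum_const, ← Nat.cast_smul_eq_nsmul K, smul_smul,
      inv_mul_cancel₀ hN, one_smul]
  have h0 : z - w = 0 := by
    refine hDet K α r q R Y hYR (z - w) (Submodule.sub_mem _ hz (Bs_le r a q R hwB)) ?_ ?_
    · intro σ hσ
      rw [map_sub, hinv σ hσ, hwinv σ hσ]
    · rw [Pi.sub_apply, hwY, sub_self]
  rw [sub_eq_zero] at h0
  rw [h0]
  exact hwB

theorem anti_case (hTri : S_Tri) {r q : ℕ} {R Q : Finset α} (hQ : Q.card = 3)
    {z : Finset α → Fk K} (hz : z ∈ Sc K r q R)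
    (h : ∀ σ, Sup Q σ → sact K α σ z = ((Equiv.Perm.sign σ : ℤ) : K) • z) : z = 0 := by
  classical
  have h1 := hTri K α r q R Q hQ z hz
  have hI : ‹DecidableEq α› = fun a b => Classical.propDecidable (a = b) :=
    Subsingleton.elim _ _
  subst hI
  unfold asym at h1
  rw [LinearMap.sum_apply] at h1
  have h2 : ∀ σ ∈ univ.filter (fun σ : Equiv.Perm α => Sup Q σ),
      (((Equiv.Perm.sign σ : ℤ) : K) • (sact K α σ : (Finset α → Fk K) →ₗ[K] _)) z = z := by
    intro σ hσ
    rw [LinearMap.smul_apply, h σ (mem_filter.1 hσ).2, smul_smul]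
    rcases Int.units_eq_one_or (Equiv.Perm.sign σ) with h3 | h3
    · rw [h3]; simp
    · rw [h3]; simp
  have h5 : ∑ σ ∈ univ.filter (fun σ : Equiv.Perm α => Sup Q σ), z = 0 := by
    rw [← sum_congr rfl h2]
    exact h1
  rw [sum_const, ← Nat.cast_smul_eq_nsmul K] at h5
  refine (smul_eq_zero.1 h5).resolve_left ?_
  have h6 : 0 < (univ.filter (fun σ : Equiv.Perm α => Sup Q σ)).card :=
    card_pos.2 ⟨1, mem_filter.2 ⟨mem_univ _, fun _ _ => rfl⟩⟩
  exact_mod_cast h6.ne'

theorem main (hRep2 : S_Rep2) (hSAct : S_SAct) (hTri : S_Tri) (hDet : S_Det) [Nonempty α]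
    (r a q : ℕ) (R : Finset α) (hR : R.card = 2 * a + q * r) :
    Sc K r q R = Bs K r a q R := by
  refine le_antisymm ?_ (Bs_le r a q R)
  refine hRep2 K α (Finset α → Fk K) (sact K α) R (Sc K r q R) (Bs K r a q R) ?_ ?_ ?_ ?_
  · intro σ hσ z hz
    have h1 := hSAct K α r q R σ z hz
    rwa [im_sup hσ] at h1
  · exact fun σ hσ z hz => Bs_act hσ hz
  · exact fun Y hY z hz hinv => invariant_case hDet hR hY hz hinv
  · intro Q _ hQ z hz h
    rw [anti_case hTri hQ hz h]
    exact Submodule.zero_mem _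

end main

end CspX

theorem prf_Csp (hRep2 : S_Rep2) (hSAct : S_SAct) (hTri : S_Tri) (hDet : S_Det) : S_Csp := by
  intro K _ _ α _ _ _ r a q R hR
  exact CspX.main hRep2 hSAct hTri hDet r a q R hR

end Pool.Agent.Work.MP_1233f5_ag.Y

end

section

/-! MP_1233f5_ag, block Y, item Anti: antisymmetrized chains. -/

set_option autoImplicit false

namespace Pool.Agent.Work.MP_1233f5_ag.Y

open Finset
open Pool.Agent.Work.MP_1233f5_ag.V (vm ML theta)
open Pool.Agent.Work.MP_1233f5_ag.Sec (Fk wd ct ee ff hh IsSec IsDeg swd brk)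

namespace AntiX

section split

variable {K : Type} [Field K] {α : Type} [DecidableEq α]

omit [DecidableEq α] in
theorem ed_mul_mo (e : Finset α) (l : ℕ) (t : Fin l → Finset α) :
    (ed e * mo t : Lx K α) = ((-1 : K) ^ l) • (mo t * ed e) := by
  induction l with
  | zero => rw [mo_zero, mul_one, one_mul, pow_zero, one_smul]
  | succ l ih =>
    rw [mo_succ, ← mul_assoc, ed_mul_ed, neg_mul, mul_assoc, ih, mul_smul_comm, pow_succ,
      mul_neg_one, neg_smul, mul_assoc]

/-- the sets which meet `Q` come first. -/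
theorem split (d : ℕ) (Q : Finset α) : ∀ (j : ℕ) (P : Finset α) (t : Fin j → Finset α),
    vm d P j t → ∃ (l p : ℕ) (c : K) (t' : Fin l → Finset α) (w : Lx K α), l + p = j ∧
      vm d P l t' ∧ (∀ i, ¬ Disjoint (t' i) Q) ∧
      w ∈ Mt K d ((P \ Q) \ univ.biUnion t') p ∧ (mo t : Lx K α) = c • (mo t' * w) := by
  intro j
  induction j with
  | zero =>
    intro P t _
    refine ⟨0, 0, 1, fun i => i.elim0, 1, rfl, ⟨fun i => i.elim0, fun i => i.elim0⟩,
      fun i => i.elim0, one_mem_Mt d _, ?_⟩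
    rw [mo_zero, mo_zero, one_mul, one_smul]
  | succ j ih =>
    intro P t ht
    obtain ⟨l, p, c, t', w, hlp, ht', hQ, hw, he⟩ := ih (P \ t 0) (Fin.tail t) (vm_tail ht)
    have hdis : Disjoint (t 0) (univ.biUnion t') := by
      rw [Finset.disjoint_biUnion_right]
      intro i _
      exact (disjoint_sdiff (s := t 0) (t := P)).mono_right (ht'.1 i).2
    by_cases h : Disjoint (t 0) Q
    · refine ⟨l, p + 1, c * (-1) ^ l, t', ed (t 0) * w, by omega, vm_mono sdiff_subset ht', hQ,
        ?_, ?_⟩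
      · refine ed_mul_mem_Mt (P' := ((P \ t 0) \ Q) \ univ.biUnion t') (ht.1 0).1 ?_ ?_ ?_ hw
        · intro x hx
          rw [mem_sdiff, mem_sdiff]
          exact ⟨⟨(ht.1 0).2 hx, Finset.disjoint_left.1 h hx⟩, Finset.disjoint_left.1 hdis hx⟩
        · exact sdiff_subset_sdiff (sdiff_subset_sdiff sdiff_subset (Subset.refl _))
            (Subset.refl _)
        · rw [Finset.disjoint_left]
          intro x hx hx'
          rw [mem_sdiff, mem_sdiff, mem_sdiff] at hx'
          exact hx'.1.1.2 hx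
      · rw [mo_succ, he, mul_smul_comm, ← mul_assoc, ed_mul_mo, smul_mul_assoc, smul_smul,
          mul_assoc]
    · refine ⟨l + 1, p, c, Fin.cons (t 0) t', w, by omega, ⟨fun i => ?_, fun i i' hij => ?_⟩,
        fun i => ?_, ?_, ?_⟩
      · refine Fin.cases ?_ (fun i => ?_) i
        · exact ht.1 0
        · exact ⟨(ht'.1 i).1, (ht'.1 i).2.trans sdiff_subset⟩
      · revert hij
        refine Fin.cases ?_ (fun i => ?_) i <;> refine Fin.cases ?_ (fun i' => ?_) i'
        · intro h; exact absurd rfl h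
        · intro _
          rw [Fin.cons_zero, Fin.cons_succ]
          exact hdis.mono_right (subset_biUnion_of_mem t' (mem_univ i'))
        · intro _
          rw [Fin.cons_zero, Fin.cons_succ]
          exact (hdis.mono_right (subset_biUnion_of_mem t' (mem_univ i))).symm
        · intro h
          rw [Fin.cons_succ, Fin.cons_succ]
          exact ht'.2 i i' fun h' => h (by rw [h'])
      · refine Fin.cases ?_ (fun i => ?_) i
        · exact h
        · exact hQ i
      · refine Mt_mono ?_ hw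
        intro x hx
        rw [mem_sdiff, mem_sdiff, mem_sdiff] at hx
        rw [mem_sdiff, mem_sdiff]
        refine ⟨⟨hx.1.1.1, hx.1.2⟩, fun hc => ?_⟩
        obtain ⟨i, _, hi⟩ := mem_biUnion.1 hc
        revert hi
        refine Fin.cases ?_ (fun i => ?_) i
        · rw [Fin.cons_zero]
          exact hx.1.1.2
        · rw [Fin.cons_succ]
          exact fun hi => hx.2 (mem_biUnion.2 ⟨i, mem_univ i, hi⟩)
      · rw [mo_succ, he, mul_smul_comm, ← mul_assoc, mo_cons]

end split

section perms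

variable {α : Type} [Fintype α] [DecidableEq α] {K : Type} [Field K] {H : Type} [AddCommGroup H]
  [Module K H] (ρ : Equiv.Perm α →* Module.End K H)

theorem sgn_sq (σ : Equiv.Perm α) :
    ((Equiv.Perm.sign σ : ℤ) : K) * ((Equiv.Perm.sign σ : ℤ) : K) = 1 := by
  rw [← Int.cast_mul, Int.units_coe_mul_self, Int.cast_one]

theorem asym_rho {Q : Finset α} {τ : Equiv.Perm α} (hτ : Sup Q τ) (h : H) :
    asym ρ Q (ρ τ h) = ((Equiv.Perm.sign τ : ℤ) : K) • asym ρ Q h := by
  classical
  rw [U.asym_apply, U.asym_apply, smul_sum]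
  refine sum_nbij' (fun σ => σ * τ) (fun σ => σ * τ⁻¹) ?_ ?_ ?_ ?_ ?_
  · intro σ hσ
    simp only [mem_filter, mem_univ, true_and] at hσ ⊢
    exact U.sup_mul hσ hτ
  · intro σ hσ
    simp only [mem_filter, mem_univ, true_and] at hσ ⊢
    exact U.sup_mul hσ (U.sup_inv hτ)
  · intro σ _
    exact mul_inv_cancel_right σ τ
  · intro σ _
    exact inv_mul_cancel_right σ τ
  · intro σ _
    rw [map_mul ρ, Module.End.mul_apply, smul_smul, Equiv.Perm.sign_mul, Units.val_mul,
      Int.cast_mul, mul_comm ((Equiv.Perm.sign σ : ℤ) : K), ← mul_assoc, sgn_sq, one_mul]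

theorem asym_zero [CharZero K] {Q : Finset α} {x y : α} (hx : x ∈ Q) (hy : y ∈ Q) (hxy : x ≠ y)
    {h : H} (hh : ρ (Equiv.swap x y) h = h) : asym ρ Q h = 0 := by
  have h1 := asym_rho ρ (U.sup_swap hx hy) h
  rw [hh, Equiv.Perm.sign_swap hxy] at h1
  have h2 : (2 : K) • asym ρ Q h = 0 := by
    rw [two_smul]
    nth_rw 2 [h1]
    push_cast
    rw [neg_smul, one_smul, add_neg_cancel]
  exact (smul_eq_zero.1 h2).resolve_left two_ne_zero

end perms

section comp

variable {α : Type} [Fintype α] [DecidableEq α] {K : Type} [Field K]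

/-- reindexing the alternating sum. -/
theorem asym_eq {M : Type} [AddCommGroup M] [Module K M] (m : ℕ) (q : ℕ → α)
    (hq : ∀ i ≤ m, ∀ i' ≤ m, q i = q i' → i = i') (ρ : Equiv.Perm α →* Module.End K M) (z : M)
    (τ : Equiv.Perm (Fin (m + 1))) (F : Equiv.Perm (Fin (m + 1)) → M)
    (hF : ∀ (σ : Equiv.Perm α) (π : Equiv.Perm (Fin (m + 1))),
      Sup ((range (m + 1)).image q) σ → (∀ i : Fin (m + 1), σ (q i) = q (π i)) →
      ρ σ z = F (π * τ)) :
    asym ρ ((range (m + 1)).image q) z =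
      ((Equiv.Perm.sign τ : ℤ) : K) • ∑ π, ((Equiv.Perm.sign π : ℤ) : K) • F π := by
  classical
  obtain ⟨Q, hQ⟩ : ∃ Q, Q = (range (m + 1)).image q := ⟨_, rfl⟩
  have hmem : ∀ i : Fin (m + 1), q i ∈ Q := fun i => by
    rw [hQ]
    exact mem_image_of_mem q (mem_range.2 i.2)
  have hinj : Function.Injective (fun i : Fin (m + 1) => (⟨q i, hmem i⟩ : {x // x ∈ Q})) := by
    intro i i' h
    exact Fin.ext (hq _ (Nat.le_of_lt_succ i.2) _ (Nat.le_of_lt_succ i'.2)
      (congrArg Subtype.val h))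
  have hsurj : Function.Surjective (fun i : Fin (m + 1) => (⟨q i, hmem i⟩ : {x // x ∈ Q})) := by
    rintro ⟨x, hx⟩
    rw [hQ] at hx
    obtain ⟨i, hi, rfl⟩ := mem_image.1 hx
    exact ⟨⟨i, mem_range.1 hi⟩, rfl⟩
  obtain ⟨e, he⟩ : ∃ e : Fin (m + 1) ≃ {x // x ∈ Q}, ∀ i, ((e i : {x // x ∈ Q}) : α) = q i :=
    ⟨Equiv.ofBijective _ ⟨hinj, hsurj⟩, fun _ => rfl⟩
  have happ : ∀ (π : Equiv.Perm (Fin (m + 1))) (i : Fin (m + 1)),
      Equiv.Perm.extendDomain π e (q i) = q (π i) := by
    intro π i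
    rw [← he i, Equiv.Perm.extendDomain_apply_image, he]
  have hsup : ∀ π : Equiv.Perm (Fin (m + 1)), Sup Q (Equiv.Perm.extendDomain π e) :=
    fun π x hx => Equiv.Perm.extendDomain_apply_not_subtype _ _ hx
  rw [← hQ] at hF ⊢
  rw [U.asym_apply]
  have h1 : ∑ σ ∈ univ.filter (fun σ : Equiv.Perm α => Sup Q σ),
      ((Equiv.Perm.sign σ : ℤ) : K) • ρ σ z =
      ∑ π : Equiv.Perm (Fin (m + 1)), ((Equiv.Perm.sign π : ℤ) : K) • F (π * τ) := by
    symm
    refine sum_bij (fun π _ => Equiv.Perm.extendDomain π e) ?_ ?_ ?_ ?_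
    · intro π _
      exact mem_filter.2 ⟨mem_univ _, hsup π⟩
    · intro π _ π' _ h
      apply Equiv.ext
      intro i
      have h1 := happ π i
      have h2 : Equiv.Perm.extendDomain π e = Equiv.Perm.extendDomain π' e := h
      rw [h2, happ π' i] at h1
      exact Fin.ext (hq _ (Nat.le_of_lt_succ (π i).2) _ (Nat.le_of_lt_succ (π' i).2) h1.symm)
    · intro σ hσ
      have hσ' := (mem_filter.1 hσ).2
      refine ⟨(e.trans (σ.subtypePerm (fun x => U.sup_mem_iff hσ' x))).trans e.symm, mem_univ _,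
        ?_⟩
      apply Equiv.ext
      intro x
      by_cases hx : x ∈ Q
      · have hx' := hx
        rw [hQ] at hx'
        obtain ⟨i, hi, rfl⟩ := mem_image.1 hx'
        have h3 : ∀ y : {x // x ∈ Q}, q (e.symm y : Fin (m + 1)) = y := fun y => by
          rw [← he, Equiv.apply_symm_apply]
        calc Equiv.Perm.extendDomain
              ((e.trans (σ.subtypePerm (fun x => U.sup_mem_iff hσ' x))).trans e.symm) e (q i) =
              q (((e.trans (σ.subtypePerm (fun x => U.sup_mem_iff hσ' x))).trans e.symm)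
                ⟨i, mem_range.1 hi⟩ : Fin (m + 1)) := happ _ ⟨i, mem_range.1 hi⟩
          _ = (σ.subtypePerm (fun x => U.sup_mem_iff hσ' x) (e ⟨i, mem_range.1 hi⟩) :
              {x // x ∈ Q}) := h3 _
          _ = σ (e ⟨i, mem_range.1 hi⟩ : {x // x ∈ Q}) := rfl
          _ = σ (q i) := by rw [he]
      · rw [hσ' x hx]
        exact Equiv.Perm.extendDomain_apply_not_subtype _ _ hx
    · intro π _
      rw [Equiv.Perm.sign_extendDomain, hF _ π (hsup π) (happ π)]
  rw [h1, smul_sum, ← Equiv.sum_comp (Equiv.mulRight τ)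
    (fun π => ((Equiv.Perm.sign τ : ℤ) : K) • ((Equiv.Perm.sign π : ℤ) : K) • F π)]
  refine sum_congr rfl fun π _ => ?_
  rw [Equiv.coe_mulRight, smul_smul, Equiv.Perm.sign_mul, Units.val_mul, Int.cast_mul,
    mul_comm ((Equiv.Perm.sign π : ℤ) : K), ← mul_assoc, sgn_sq, one_mul]

theorem main [CharZero K] (r m j : ℕ) (P : Finset α) (q : ℕ → α)
    (hq : ∀ i ≤ m, ∀ i' ≤ m, q i = q i' → i = i') (hqP : ∀ i ≤ m, q i ∈ P)
    (t : Fin j → Finset α) (ht : vm (r + 1) P j t) :
    asym (act K α) ((range (m + 1)).image q) (mo t) ∈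
      spE K r P m j q (Mt K (r + 1)) ⊔ spQ K r P m j q (Mt K (r + 1)) := by
  obtain ⟨Q, hQ⟩ : ∃ Q, Q = (range (m + 1)).image q := ⟨_, rfl⟩
  rw [← hQ]
  have hmem : ∀ i : Fin (m + 1), q i ∈ Q := fun i => by
    rw [hQ]
    exact mem_image_of_mem q (mem_range.2 i.2)
  have hmem' : ∀ i ≤ m, q i ∈ Q := fun i hi => hmem ⟨i, Nat.lt_succ_of_le hi⟩
  obtain ⟨l, p, c, t', w, hlp, ht', hQ', hw, he⟩ := split (K := K) (r + 1) Q j P t ht
  rw [he, map_smul]
  refine Submodule.smul_mem _ _ ?_
  have hact : ∀ σ, Sup Q σ → act K α σ (mo t' * w) = mo (fun i => im σ (t' i)) * w := by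
    intro σ hσ
    rw [act_mul, act_mo, act_eq_self (fun a ha => hσ a ?_) hw]
    exact (mem_sdiff.1 (mem_sdiff.1 ha).1).2
  by_cases hcase : ∃ x ∈ Q, ∃ y ∈ Q, x ≠ y ∧ ∀ i, x ∈ t' i ↔ y ∈ t' i
  · obtain ⟨x, hx, y, hy, hxy, h⟩ := hcase
    rw [asym_zero (act K α) hx hy hxy ?_]
    · exact Submodule.zero_mem _
    · rw [hact _ (U.sup_swap hx hy)]
      congr 2
      funext i
      exact (U.sty_swap (P := Q) (Y := t' i) hx hy (h i)).2
  have hcase' : ∀ x ∈ Q, ∀ y ∈ Q, x ≠ y → ∃ i, ¬(x ∈ t' i ↔ y ∈ t' i) := by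
    intro x hx y hy hxy
    by_contra hc
    exact hcase ⟨x, hx, y, hy, hxy, fun i => by
      by_contra hi
      exact hc ⟨i, hi⟩⟩
  have hφ : ∀ i, ∃ a : Fin (m + 1), q a ∈ t' i ∧ ∀ x ∈ Q, x ∈ t' i → x = q a := by
    intro i
    obtain ⟨x, hx, hxQ⟩ := Finset.not_disjoint_iff.1 (hQ' i)
    have hxQ' := hxQ
    rw [hQ] at hxQ'
    obtain ⟨k, hk, rfl⟩ := mem_image.1 hxQ'
    refine ⟨⟨k, mem_range.1 hk⟩, hx, ?_⟩
    intro y hy hyi
    by_contra hne
    obtain ⟨i', hi'⟩ := hcase' y hy (q k) hxQ hne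
    apply hi'
    by_cases h : i' = i
    · subst h
      exact ⟨fun _ => hx, fun _ => hyi⟩
    · have hd := ht'.2 i' i h
      exact ⟨fun h1 => absurd hyi (Finset.disjoint_left.1 hd h1),
        fun h1 => absurd hx (Finset.disjoint_left.1 hd h1)⟩
  choose a ha1 ha2 using hφ
  have hqinj : ∀ k k' : Fin (m + 1), q k = q k' → k = k' := fun k k' h =>
    Fin.ext (hq _ (Nat.le_of_lt_succ k.2) _ (Nat.le_of_lt_succ k'.2) h)
  have hainj : Function.Injective a := by
    intro i i' h
    by_contra hne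
    refine Finset.disjoint_left.1 (ht'.2 i i' hne) (ha1 i) ?_
    rw [h]
    exact ha1 i'
  have hunc : ∀ k k' : Fin (m + 1), (∀ i, a i ≠ k) → (∀ i, a i ≠ k') → k = k' := by
    intro k k' h h'
    by_contra hne
    obtain ⟨i, hi⟩ := hcase' (q k) (hmem k) (q k') (hmem k') (fun h1 => hne (hqinj k k' h1))
    apply hi
    constructor
    · intro h1
      exact absurd (hqinj _ _ (ha2 i (q k) (hmem k) h1)).symm (h i)
    · intro h1
      exact absurd (hqinj _ _ (ha2 i (q k') (hmem k') h1)).symm (h' i)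
  have hl1 : l ≤ m + 1 := by
    have := Fintype.card_le_of_injective a hainj
    rwa [Fintype.card_fin, Fintype.card_fin] at this
  have hl2 : m ≤ l := by
    by_contra hlt
    have h1 : (univ.image a).card = l := by
      rw [card_image_of_injective _ hainj, card_univ, Fintype.card_fin]
    have h2 : 1 < (univ.image a)ᶜ.card := by
      rw [card_compl, h1, Fintype.card_fin]
      omega
    obtain ⟨k, hk, k', hk', hne⟩ := Finset.one_lt_card.1 h2
    rw [mem_compl, mem_image] at hk hk'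
    exact hne (hunc k k' (fun i hi => hk ⟨i, mem_univ i, hi⟩)
      (fun i hi => hk' ⟨i, mem_univ i, hi⟩))
  obtain ⟨f, hf⟩ : ∃ f : ℕ → Finset α, ∀ i : Fin l, f (i : ℕ) = (t' i).erase (q (a i)) :=
    ⟨fun n => if h : n < l then (t' ⟨n, h⟩).erase (q (a ⟨n, h⟩)) else ∅, fun i => dif_pos i.2⟩
  have hins : ∀ i : Fin l, t' i = insert (q (a i)) (f i) := fun i => by
    rw [hf, insert_erase (ha1 i)]
  have hfQ : ∀ i : Fin l, ∀ x ∈ f i, x ∉ Q := by
    intro i x hx hxQ
    rw [hf] at hx
    exact (mem_erase.1 hx).1 (ha2 i x hxQ (mem_erase.1 hx).2)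
  have hfc : ∀ i : Fin l, (f i).card = r := by
    intro i
    rw [hf, card_erase_of_mem (ha1 i), (ht'.1 i).1]
    rfl
  have hfs : ∀ i : Fin l, f i ⊆ t' i := fun i => by
    rw [hf]
    exact erase_subset _ _
  have him : ∀ (σ : Equiv.Perm α) (π : Equiv.Perm (Fin (m + 1))), Sup Q σ →
      (∀ i : Fin (m + 1), σ (q i) = q (π i)) → ∀ i : Fin l,
      im σ (t' i) = insert (q (π (a i))) (f i) := by
    intro σ π hσ hπ i
    rw [hins i, im_insert, hπ, im_eq_self (fun x hx => hσ x (hfQ i x hx))]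
  rcases (by omega : l = m + 1 ∨ l = m) with h | h
  · subst h
    obtain ⟨τ, hτ⟩ : ∃ τ : Equiv.Perm (Fin (m + 1)), ∀ i, τ i = a i :=
      ⟨Equiv.ofBijective a (Finite.injective_iff_bijective.1 hainj), fun _ => rfl⟩
    apply Submodule.mem_sup_left
    have key : asym (act K α) Q (mo t' * w) =
        ((Equiv.Perm.sign τ : ℤ) : K) • ((En m q f : Lx K α) * w) := by
      rw [hQ, asym_eq m q hq (act K α) (mo t' * w) τ
        (fun π => (mo (fun i : Fin (m + 1) => insert (q ((π i : Fin (m + 1)) : ℕ)) (f (i : ℕ))) :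
          Lx K α) * w) ?_]
      · unfold En
        rw [sum_mul]
        simp only [smul_mul_assoc]
      · intro σ π hσ hπ
        rw [← hQ] at hσ
        rw [hact σ hσ]
        simp only [him σ π hσ hπ, Equiv.Perm.mul_apply, hτ]
    rw [key]
    refine Submodule.smul_mem _ _ (Submodule.subset_span ⟨f, w, ?_, by omega, ?_, rfl⟩)
    · refine ⟨hq, hqP, ?_, ?_, ?_, ?_⟩
      · intro i hi
        exact hfc ⟨i, Nat.lt_succ_of_le hi⟩
      · intro i hi
        exact (hfs ⟨i, Nat.lt_succ_of_le hi⟩).trans (ht'.1 _).2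
      · intro i hi i' hi' hne
        exact (ht'.2 ⟨i, Nat.lt_succ_of_le hi⟩ ⟨i', Nat.lt_succ_of_le hi'⟩
          (fun h => hne (congrArg Fin.val h))).mono (hfs ⟨i, Nat.lt_succ_of_le hi⟩)
            (hfs ⟨i', Nat.lt_succ_of_le hi'⟩)
      · intro i hi i' hi' hc
        exact hfQ ⟨i', Nat.lt_succ_of_le hi'⟩ _ hc (hmem' i hi)
    · rw [show j - (m + 1) = p by omega]
      refine Mt_mono ?_ hw
      intro x hx
      rw [mem_sdiff, mem_sdiff] at hx
      rw [mem_sdiff]
      refine ⟨hx.1.1, fun hc => ?_⟩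
      rcases mem_union.1 hc with hc | hc
      · rw [← hQ] at hc
        exact hx.1.2 hc
      · obtain ⟨i, hi, hi'⟩ := mem_biUnion.1 hc
        exact hx.2 (mem_biUnion.2 ⟨⟨i, mem_range.1 hi⟩, mem_univ _, hfs _ hi'⟩)
  · subst h
    obtain ⟨k0, hk0⟩ : ∃ k0 : Fin (l + 1), ∀ i, a i ≠ k0 := by
      by_contra hc
      have hs : Function.Surjective a := by
        intro k
        by_contra hk
        exact hc ⟨k, fun i hi => hk ⟨i, hi⟩⟩
      have := Fintype.card_le_of_surjective a hs
      rw [Fintype.card_fin, Fintype.card_fin] at this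
      omega
    obtain ⟨g, hg1, hg2⟩ : ∃ g : Fin (l + 1) → Fin (l + 1), (∀ i : Fin l, g i.castSucc = a i) ∧
        g (Fin.last l) = k0 :=
      ⟨Fin.snoc (α := fun _ => Fin (l + 1)) a k0, fun i => Fin.snoc_castSucc _ _ _,
        Fin.snoc_last _ _⟩
    have hginj : Function.Injective g := by
      intro i i'
      refine Fin.lastCases ?_ (fun i => ?_) i <;> refine Fin.lastCases ?_ (fun i' => ?_) i'
      · intro _; rfl
      · intro h
        rw [hg1, hg2] at h
        exact absurd h.symm (hk0 i')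
      · intro h
        rw [hg1, hg2] at h
        exact absurd h (hk0 i)
      · intro h
        rw [hg1, hg1] at h
        rw [hainj h]
    obtain ⟨τ, hτ⟩ : ∃ τ : Equiv.Perm (Fin (l + 1)), ∀ i : Fin l, τ i.castSucc = a i :=
      ⟨Equiv.ofBijective g (Finite.injective_iff_bijective.1 hginj), hg1⟩
    apply Submodule.mem_sup_right
    have key : asym (act K α) Q (mo t' * w) =
        ((Equiv.Perm.sign τ : ℤ) : K) • ((qn l q f : Lx K α) * w) := by
      rw [hQ, asym_eq l q hq (act K α) (mo t' * w) τ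
        (fun π => (mo (fun i : Fin l => insert (q ((π i.castSucc : Fin (l + 1)) : ℕ))
          (f (i : ℕ))) : Lx K α) * w) ?_]
      · unfold qn
        rw [sum_mul]
        simp only [smul_mul_assoc]
      · intro σ π hσ hπ
        rw [← hQ] at hσ
        rw [hact σ hσ]
        simp only [him σ π hσ hπ, Equiv.Perm.mul_apply, hτ]
    rw [key]
    refine Submodule.smul_mem _ _ (Submodule.subset_span ⟨f, w, ?_, by omega, ?_, rfl⟩)
    · refine ⟨hq, hqP, ?_, ?_, ?_, ?_⟩
      · intro i hi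
        exact hfc ⟨i, hi⟩
      · intro i hi
        exact (hfs ⟨i, hi⟩).trans (ht'.1 _).2
      · intro i hi i' hi' hne
        exact (ht'.2 ⟨i, hi⟩ ⟨i', hi'⟩
          (fun h => hne (congrArg Fin.val h))).mono (hfs ⟨i, hi⟩) (hfs ⟨i', hi'⟩)
      · intro i hi i' hi' hc
        exact hfQ ⟨i', hi'⟩ _ hc (hmem' i hi)
    · rw [show j - l = p by omega]
      refine Mt_mono ?_ hw
      intro x hx
      rw [mem_sdiff, mem_sdiff] at hx
      rw [mem_sdiff]
      refine ⟨hx.1.1, fun hc => ?_⟩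
      rcases mem_union.1 hc with hc | hc
      · rw [← hQ] at hc
        exact hx.1.2 hc
      · obtain ⟨i, hi, hi'⟩ := mem_biUnion.1 hc
        exact hx.2 (mem_biUnion.2 ⟨⟨i, mem_range.1 hi⟩, mem_univ _, hfs _ hi'⟩)

end comp

end AntiX

theorem prf_Anti : S_Anti := by
  intro K _ _ α _ _ r m j P q hq hqP z hz
  induction hz using Submodule.span_induction with
  | mem z hz =>
    obtain ⟨t, ht, rfl⟩ := hz
    exact AntiX.main r m j P q hq hqP t ht
  | zero =>
    rw [map_zero]
    exact Submodule.zero_mem _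
  | add x y _ _ hx hy =>
    rw [map_add]
    exact Submodule.add_mem _ hx hy
  | smul c x _ hx =>
    rw [map_smul]
    exact Submodule.smul_mem _ _ hx

end Pool.Agent.Work.MP_1233f5_ag.Y

end

section

/-! MP_1233f5_ag, block Y: the contractions commute with the differential up to sign. -/

set_option autoImplicit false

namespace Pool.Agent.Work.MP_1233f5_ag.Y

open Finset
open Pool.Agent.Work.MP_1233f5_ag.V (vm ML theta)
open Pool.Agent.Work.MP_1233f5_ag.Sec (Fk wd ct ee ff hh IsSec IsDeg swd brk)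

theorem prf_CfD : S_CfD := by
  intro K _ α _ m
  induction m with
  | zero =>
    intro e x
    show Dx x = ((-1 : K) ^ 0) • Dx x
    rw [pow_zero, one_smul]
  | succ m ih =>
    intro e x
    show Dx (cf m (fun i => e (i + 1)) (ctr (Finsupp.lapply (e 0)) x)) =
      ((-1 : K) ^ (m + 1)) • cf m (fun i => e (i + 1)) (ctr (Finsupp.lapply (e 0)) (Dx x))
    rw [ih]
    have h : Dx (ctr (Finsupp.lapply (e 0)) x) =
        -(ctr (Finsupp.lapply (e 0)) (Dx x) : Lx K α) := by
      unfold Dx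
      rw [ctr_ctr]
    rw [h, map_neg, pow_succ, mul_neg_one, neg_smul, smul_neg]

end Pool.Agent.Work.MP_1233f5_ag.Y

end

section

/-! MP_1233f5_ag, block Y, item CfE: contraction of `E_m`. -/

set_option autoImplicit false

namespace Pool.Agent.Work.MP_1233f5_ag.Y

open Finset
open Pool.Agent.Work.MP_1233f5_ag.V (vm ML theta)
open Pool.Agent.Work.MP_1233f5_ag.Sec (Fk wd ct ee ff hh IsSec IsDeg swd brk)

namespace CfEX

section
variable {K : Type} [Field K] {α : Type}

theorem ctr_mo_mul (e : Finset α) {p : ℕ} (t : Fin p → Finset α) (h : ∀ i, t i ≠ e)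
    (w : Lx K α) (hw : ctr (Finsupp.lapply e) w = 0) :
    ctr (Finsupp.lapply e) (mo t * w) = 0 := by
  induction p with
  | zero => rw [mo_zero, one_mul]; exact hw
  | succ p ih =>
    have h1 : (Finsupp.lapply e : (Finset α →₀ K) →ₗ[K] K) (Finsupp.single (t 0) 1) = 0 := by
      rw [Finsupp.lapply_apply]
      exact Finsupp.single_eq_of_ne (h 0).symm
    rw [mo_succ, mul_assoc, ctr_ed_mul, ih (Fin.tail t) (fun i => h _), mul_zero, sub_zero, h1,
      zero_smul]

theorem cf_mo (m : ℕ) (e : ℕ → Finset α) (he : ∀ i < m, ∀ j < m, e i = e j → i = j)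
    (w : Lx K α) (hw : ∀ i < m, ctr (Finsupp.lapply (e i)) w = 0) :
    cf m e (mo (fun i : Fin m => e (i : ℕ)) * w) = w := by
  induction m generalizing e with
  | zero =>
    rw [mo_zero, one_mul]
    rfl
  | succ m ih =>
    have h0 : (Finsupp.lapply (e 0) : (Finset α →₀ K) →ₗ[K] K) (Finsupp.single (e 0) 1) = 1 := by
      rw [Finsupp.lapply_apply]
      exact Finsupp.single_eq_same
    have h1 : ctr (Finsupp.lapply (e 0)) ((mo (Fin.tail (fun i : Fin (m + 1) => e (i : ℕ))) :
        Lx K α) * w) = 0 := by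
      refine ctr_mo_mul (e 0) _ (fun i hi => ?_) w (hw 0 (Nat.succ_pos m))
      have h2 := he ((i : ℕ) + 1) (Nat.succ_lt_succ i.2) 0 (Nat.succ_pos m) hi
      exact Nat.succ_ne_zero _ h2
    have h3 : (mo (fun i : Fin (m + 1) => e (i : ℕ)) : Lx K α) =
        ed (e 0) * mo (fun i : Fin m => e ((i : ℕ) + 1)) := by
      rw [mo_succ]
      rfl
    have h4 : (mo (Fin.tail (fun i : Fin (m + 1) => e (i : ℕ))) : Lx K α) =
        mo (fun i : Fin m => e ((i : ℕ) + 1)) := rfl
    rw [h4] at h1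
    show cf m (fun i => e (i + 1)) (ctr (Finsupp.lapply (e 0)) _) = w
    rw [h3, mul_assoc, ctr_ed_mul, h0, one_smul, h1, mul_zero, sub_zero]
    exact ih (fun i => e (i + 1))
      (fun i hi j hj hij => Nat.succ_injective
        (he (i + 1) (Nat.succ_lt_succ hi) (j + 1) (Nat.succ_lt_succ hj) hij))
      (fun i hi => hw (i + 1) (Nat.succ_lt_succ hi))

theorem cf_zero_of (m : ℕ) (e : ℕ → Finset α) (x : Lx K α) (k : ℕ) (hk : k < m)
    (h : ctr (Finsupp.lapply (e k)) x = 0) : cf m e x = 0 := by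
  induction m generalizing e k x with
  | zero => exact absurd hk (Nat.not_lt_zero k)
  | succ m ih =>
    show cf m (fun i => e (i + 1)) (ctr (Finsupp.lapply (e 0)) x) = 0
    rcases Nat.eq_zero_or_pos k with rfl | hk0
    · rw [h, map_zero]
    · obtain ⟨k, rfl⟩ := Nat.exists_eq_succ_of_ne_zero hk0.ne'
      refine ih (fun i => e (i + 1)) _ k (Nat.lt_of_succ_lt_succ hk) ?_
      show ctr (Finsupp.lapply (e (k + 1))) _ = 0
      rw [ctr_ctr]
      have h5 : ctr (Finsupp.lapply (e (k + 1))) x = 0 := h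
      rw [h5, map_zero, neg_zero]

end

section
variable {K : Type} [Field K] {α : Type}

theorem ctr_Mt {d p : ℕ} {P : Finset α} (e : Finset α) (he : ¬ e ⊆ P) {w : Lx K α}
    (hw : w ∈ Mt K d P p) : ctr (Finsupp.lapply e) w = 0 := by
  induction hw using Submodule.span_induction with
  | mem x hx =>
    obtain ⟨t, ht, rfl⟩ := hx
    have h := ctr_mo_mul (K := K) e t (fun i hi => he (hi ▸ (ht.1 i).2)) 1 (ctr_one _)
    rwa [mul_one] at h
  | zero => rw [map_zero]
  | add x y _ _ hx hy => rw [map_add, hx, hy, add_zero]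
  | smul c x _ hx => rw [map_smul, hx, smul_zero]

end

end CfEX

open Classical in
theorem prf_CfE : S_CfE := by
  intro K _ α _ r m p P q f f0 hr hf hf0 w hw
  have hdf : ∀ i ≤ m, ∀ j ≤ m, f i = f j → i = j := by
    intro i hi j hj hij
    by_contra hne
    have h1 := hf.dis i hi j hj hne
    rw [← hij, disjoint_self_iff_empty] at h1
    have h2 := hf.card i hi
    rw [h1, card_empty] at h2
    omega
  have hee : ∀ i < m + 1, ∀ j < m + 1,
      (insert (q i) (f i) : Finset α) = insert (q j) (f j) → i = j := by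
    intro i hi j hj hij
    have h1 : q i ∈ (insert (q j) (f j) : Finset α) := hij ▸ mem_insert_self _ _
    rcases mem_insert.1 h1 with h1 | h1
    · exact hf.inj i (by omega) j (by omega) h1
    · exact absurd h1 (hf.out i (by omega) j (by omega))
  have hwk : ∀ i < m + 1, ctr (Finsupp.lapply (insert (q i) (f i) : Finset α)) w = 0 := by
    intro i hi
    refine CfEX.ctr_Mt _ (fun hsub => ?_) hw
    have h1 := hsub (mem_insert_self _ _)
    rw [mem_sdiff] at h1
    exact h1.2 (mem_union_left _ (mem_image_of_mem _ (mem_range.2 hi)))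
  set e : ℕ → Finset α := fun i => insert (q i) (f i) with he
  -- the contribution of one permutation
  have key : ∀ σ : Equiv.Perm (Fin (m + 1)),
      cf (m + 1) e ((((Equiv.Perm.sign σ : ℤ) : K) • (mo (fun i : Fin (m + 1) =>
        insert (q ((σ i : Fin (m + 1)) : ℕ)) (f0 (i : ℕ))) : Lx K α)) * w) =
      if ∀ i : Fin (m + 1), f0 (i : ℕ) = f ((σ i : Fin (m + 1)) : ℕ) then w else 0 := by
    intro σ
    rw [smul_mul_assoc, map_smul]
    split_ifs with hC
    · have h1 : (fun i : Fin (m + 1) => (insert (q ((σ i : Fin (m + 1)) : ℕ)) (f0 (i : ℕ)) :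
          Finset α)) = (fun i : Fin (m + 1) => e (i : ℕ)) ∘ σ := by
        funext i
        rw [hC i]
        rfl
      rw [h1, mo_perm, smul_mul_assoc, map_smul, smul_smul, CfEX.cf_mo (m + 1) e hee w hwk]
      have h2 : (((Equiv.Perm.sign σ : ℤ) : K)) * ((Equiv.Perm.sign σ : ℤ) : K) = 1 := by
        rw [← Int.cast_mul]
        rcases Int.units_eq_one_or (Equiv.Perm.sign σ) with h | h <;> simp [h]
      rw [h2, one_smul]
    · have h1 : ∃ k < m + 1, ∀ i : Fin (m + 1),
          (insert (q ((σ i : Fin (m + 1)) : ℕ)) (f0 (i : ℕ)) : Finset α) ≠ e k := by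
        by_contra hcon
        push Not at hcon
        apply hC
        intro i
        obtain ⟨i', hi'⟩ := hcon ((σ i : Fin (m + 1)) : ℕ) (σ i).2
        have h2 : q ((σ i' : Fin (m + 1)) : ℕ) ∈
            (insert (q ((σ i : Fin (m + 1)) : ℕ)) (f ((σ i : Fin (m + 1)) : ℕ)) : Finset α) := by
          have h0 : (insert (q ((σ i' : Fin (m + 1)) : ℕ)) (f0 (i' : ℕ)) : Finset α) =
            insert (q ((σ i : Fin (m + 1)) : ℕ)) (f ((σ i : Fin (m + 1)) : ℕ)) := hi'
          rw [← h0]
          exact mem_insert_self _ _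
        have h3 : ((σ i' : Fin (m + 1)) : ℕ) = ((σ i : Fin (m + 1)) : ℕ) := by
          rcases mem_insert.1 h2 with h2 | h2
          · exact hf.inj _ (Nat.le_of_lt_succ (σ i').2) _ (Nat.le_of_lt_succ (σ i).2) h2
          · exact absurd h2 (hf.out _ (Nat.le_of_lt_succ (σ i').2) _ (Nat.le_of_lt_succ (σ i).2))
        have h4 : i' = i := σ.injective (Fin.ext h3)
        rw [h4] at hi'
        have h5 : q ((σ i : Fin (m + 1)) : ℕ) ∉ f0 (i : ℕ) :=
          hf0.out _ (Nat.le_of_lt_succ (σ i).2) _ (Nat.le_of_lt_succ i.2)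
        have h6 : q ((σ i : Fin (m + 1)) : ℕ) ∉ f ((σ i : Fin (m + 1)) : ℕ) :=
          hf.out _ (Nat.le_of_lt_succ (σ i).2) _ (Nat.le_of_lt_succ (σ i).2)
        have h7 := congrArg (fun s : Finset α => s.erase (q ((σ i : Fin (m + 1)) : ℕ))) hi'
        simp only [he, erase_insert h5, erase_insert h6] at h7
        exact h7
      obtain ⟨k, hk, hk'⟩ := h1
      rw [CfEX.cf_zero_of (m + 1) e _ k hk (CfEX.ctr_mo_mul (e k) _ hk' w (hwk k hk)), smul_zero]
  have hsum : cf (m + 1) e (En m q f0 * w) = ∑ σ : Equiv.Perm (Fin (m + 1)),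
      (if ∀ i : Fin (m + 1), f0 (i : ℕ) = f ((σ i : Fin (m + 1)) : ℕ) then w else 0) := by
    unfold En
    rw [Finset.sum_mul, map_sum]
    exact Finset.sum_congr rfl fun σ _ => key σ
  rw [hsum]
  split_ifs with hex
  · obtain ⟨σ, hσ⟩ := hex
    rw [Finset.sum_eq_single σ]
    · rw [if_pos hσ]
    · intro τ _ hτ
      rw [if_neg]
      intro hC
      apply hτ
      apply Equiv.ext
      intro i
      apply Fin.ext
      exact hdf _ (Nat.le_of_lt_succ (τ i).2) _ (Nat.le_of_lt_succ (σ i).2)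
        ((hC i).symm.trans (hσ i))
    · intro h
      exact absurd (Finset.mem_univ σ) h
  · refine Finset.sum_eq_zero fun σ _ => ?_
    rw [if_neg]
    intro hC
    exact hex ⟨σ, hC⟩

end Pool.Agent.Work.MP_1233f5_ag.Y

end

section

/-! MP_1233f5_ag, block Y: support of the contractions. -/

set_option autoImplicit false

namespace Pool.Agent.Work.MP_1233f5_ag.Y

open Finset
open Pool.Agent.Work.MP_1233f5_ag.V (vm ML theta)
open Pool.Agent.Work.MP_1233f5_ag.Sec (Fk wd ct ee ff hh IsSec IsDeg swd brk)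

namespace CfMX

variable {K : Type} [Field K] {α : Type} [DecidableEq α]

omit [DecidableEq α] in
/-- the contraction of a product which does not contain `e`. -/
theorem ctr_mo_zero {p : ℕ} (e : Finset α) (t : Fin p → Finset α) (h : ∀ i, t i ≠ e) :
    ctr (Finsupp.lapply e) (mo t : Lx K α) = 0 := by
  induction p with
  | zero => rw [mo_zero, ctr_one]
  | succ p ih =>
    rw [mo_succ, ctr_ed_mul, ih (Fin.tail t) (fun i => h i.succ), mul_zero, sub_zero,
      Finsupp.lapply_apply, Finsupp.single_eq_of_ne (h 0).symm, zero_smul]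

/-- the contraction of a product of disjoint sets. -/
theorem ctr_mo_mem {d j : ℕ} (P e : Finset α) (t : Fin (j + 1) → Finset α)
    (ht : vm d P (j + 1) t) :
    ctr (Finsupp.lapply e) (mo t : Lx K α) ∈ Mt K d (P \ e) j := by
  induction j generalizing P with
  | zero =>
    rw [mo_succ, ctr_ed_mul, mo_zero, ctr_one, mul_zero, sub_zero]
    exact Submodule.smul_mem _ _ (one_mem_Mt d _)
  | succ j ih =>
    by_cases h0 : t 0 = e
    · by_cases h1 : ∃ i, Fin.tail t i = e
      · obtain ⟨i, hi⟩ := h1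
        have h2 : (mo t : Lx K α) = 0 :=
          mo_eq_zero t 0 i.succ (Fin.succ_ne_zero i).symm (h0.trans hi.symm)
        rw [h2, map_zero]
        exact Submodule.zero_mem _
      · have h2 : ctr (Finsupp.lapply e) (mo (Fin.tail t) : Lx K α) = 0 :=
          ctr_mo_zero e _ fun i hi => h1 ⟨i, hi⟩
        rw [mo_succ, ctr_ed_mul, h2, mul_zero, sub_zero]
        refine Submodule.smul_mem _ _ (mo_mem_Mt ?_)
        rw [← h0]
        exact vm_tail ht
    · have h3 : (Finsupp.lapply e : (Finset α →₀ K) →ₗ[K] K) (Finsupp.single (t 0) 1) = 0 := by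
        rw [Finsupp.lapply_apply, Finsupp.single_eq_of_ne (Ne.symm h0)]
      rw [mo_succ, ctr_ed_mul, h3, zero_smul, zero_sub]
      refine Submodule.neg_mem _ ?_
      by_cases h1 : ∃ i, Fin.tail t i = e
      · obtain ⟨i, hi⟩ := h1
        have hd : Disjoint (t 0) e := by
          rw [← hi]
          exact ht.2 0 i.succ (Fin.succ_ne_zero i).symm
        refine ed_mul_mem_Mt (P' := (P \ t 0) \ e) (ht.1 0).1 ?_ ?_ ?_ (ih _ _ (vm_tail ht))
        · intro a ha
          exact mem_sdiff.2 ⟨(ht.1 0).2 ha, Finset.disjoint_left.1 hd ha⟩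
        · exact sdiff_subset_sdiff sdiff_subset (Subset.refl _)
        · rw [Finset.disjoint_left]
          intro a ha hc
          exact (mem_sdiff.1 (mem_sdiff.1 hc).1).2 ha
      · rw [ctr_mo_zero e _ fun i hi => h1 ⟨i, hi⟩, mul_zero]
        exact Submodule.zero_mem _

theorem ctr_mem {d j : ℕ} (P e : Finset α) {x : Lx K α} (hx : x ∈ Mt K d P (j + 1)) :
    ctr (Finsupp.lapply e) x ∈ Mt K d (P \ e) j := by
  induction hx using Submodule.span_induction with
  | mem x hx =>
    obtain ⟨t, ht, rfl⟩ := hx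
    exact ctr_mo_mem P e t ht
  | zero => rw [map_zero]; exact Submodule.zero_mem _
  | add x y _ _ hx hy => rw [map_add]; exact Submodule.add_mem _ hx hy
  | smul c x _ hx => rw [map_smul]; exact Submodule.smul_mem _ _ hx

end CfMX

theorem prf_CfM : S_CfM := by
  intro K _ α _ d m
  induction m with
  | zero =>
    intro j P e _ x hx
    show x ∈ _
    rw [Finset.range_zero, Finset.biUnion_empty, Finset.sdiff_empty, Nat.sub_zero]
    exact hx
  | succ m ih =>
    intro j P e hj x hx
    obtain ⟨j, rfl⟩ : ∃ i, j = i + 1 := ⟨j - 1, by omega⟩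
    show cf m (fun i => e (i + 1)) (ctr (Finsupp.lapply (e 0)) x) ∈ _
    have h1 := ih j (P \ e 0) (fun i => e (i + 1)) (by omega) _ (CfMX.ctr_mem P (e 0) hx)
    have h2 : j + 1 - (m + 1) = j - m := by omega
    have h3 : P \ (range (m + 1)).biUnion e = (P \ e 0) \ (range m).biUnion fun i => e (i + 1) := by
      ext a
      simp only [mem_sdiff, mem_biUnion, mem_range, not_exists, not_and]
      constructor
      · rintro ⟨ha, h⟩
        exact ⟨⟨ha, h 0 (by omega)⟩, fun i hi => h (i + 1) (by omega)⟩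
      · rintro ⟨⟨ha, h0⟩, h⟩
        refine ⟨ha, fun i hi => ?_⟩
        rcases i with _ | i
        · exact h0
        · exact h i (by omega)
    rw [h2, h3]
    exact h1

end Pool.Agent.Work.MP_1233f5_ag.Y

end

section

set_option autoImplicit false

namespace Pool.Agent.Work.MP_1233f5_ag.Y

open Finset
open Pool.Agent.Work.MP_1233f5_ag.V (vm ML theta)
open Pool.Agent.Work.MP_1233f5_ag.Sec (Fk wd ct ee ff hh IsSec IsDeg swd brk)

namespace CfQ0X

variable {K : Type} [Field K] {α : Type}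

theorem ctr_mo_mul (e : Finset α) {p : ℕ} (s : Fin p → Finset α) (x : Lx K α)
    (hs : ∀ i, s i ≠ e) (hx : ctr (Finsupp.lapply e) x = 0) :
    ctr (Finsupp.lapply e) (mo s * x) = 0 := by
  induction p with
  | zero => rw [mo_zero, one_mul, hx]
  | succ p ih =>
    rw [mo_succ, mul_assoc, ctr_ed_mul, ih (Fin.tail s) (fun i => hs i.succ), mul_zero, sub_zero,
      Finsupp.lapply_apply, Finsupp.single_eq_of_ne (hs 0).symm, zero_smul]

theorem ctr_Mt [DecidableEq α] {d p : ℕ} {R e : Finset α} {a : α} (ha : a ∈ e) (hR : a ∉ R)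
    {x : Lx K α} (hx : x ∈ Mt K d R p) : ctr (Finsupp.lapply e) x = 0 := by
  induction hx using Submodule.span_induction with
  | mem x hx =>
    obtain ⟨t, ht, rfl⟩ := hx
    have h := ctr_mo_mul (K := K) e t 1 (fun i hi => hR ((ht.1 i).2 (by rw [hi]; exact ha)))
      (ctr_one _)
    rwa [mul_one] at h
  | zero => exact map_zero _
  | add x y _ _ hx hy => rw [map_add, hx, hy, add_zero]
  | smul c x _ hx => rw [map_smul, hx, smul_zero]

theorem cf_zero (m : ℕ) : ∀ (e : ℕ → Finset α) (x : Lx K α) (k : ℕ), k < m →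
    ctr (Finsupp.lapply (e k)) x = 0 → cf m e x = 0 := by
  induction m with
  | zero => intro e x k hk; exact absurd hk (Nat.not_lt_zero k)
  | succ m ih =>
    intro e x k hk hx
    show cf m (fun i => e (i + 1)) (ctr (Finsupp.lapply (e 0)) x) = 0
    rcases k with _ | k
    · rw [hx, map_zero]
    · refine ih (fun i => e (i + 1)) _ k (Nat.lt_of_succ_lt_succ hk) ?_
      rw [ctr_ctr, hx, map_zero, neg_zero]

end CfQ0X

theorem prf_CfQ0 : S_CfQ0 := by
  intro K _ α _ r m p P q f f0 _ hE hB w hw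
  rw [qn, Finset.sum_mul, map_sum]
  refine Finset.sum_eq_zero fun σ _ => ?_
  rw [smul_mul_assoc, map_smul]
  have hk : ((σ (Fin.last m) : Fin (m + 1)) : ℕ) < m + 1 := (σ (Fin.last m)).2
  have hk' : ((σ (Fin.last m) : Fin (m + 1)) : ℕ) ≤ m := Nat.le_of_lt_succ hk
  rw [CfQ0X.cf_zero (m + 1) _ _ ((σ (Fin.last m) : Fin (m + 1)) : ℕ) hk ?_, smul_zero]
  refine CfQ0X.ctr_mo_mul _ _ _ (fun i hi => ?_) ?_
  · have h1 : q ((σ (Fin.last m) : Fin (m + 1)) : ℕ) ∈
        insert (q ((σ i.castSucc : Fin (m + 1)) : ℕ)) (f0 (i : ℕ)) := by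
      rw [hi]; exact mem_insert_self _ _
    rcases mem_insert.1 h1 with h2 | h2
    · have h3 := hB.inj _ hk' _ (Nat.le_of_lt_succ (σ i.castSucc).2) h2
      have h4 := σ.injective (Fin.ext h3)
      exact absurd h4.symm (Fin.castSucc_lt_last i).ne
    · exact hB.out _ hk' _ i.2 h2
  · refine CfQ0X.ctr_Mt (a := q ((σ (Fin.last m) : Fin (m + 1)) : ℕ)) (mem_insert_self _ _) ?_ hw
    rw [mem_sdiff]
    rintro ⟨_, h⟩
    refine h (mem_union_left _ (mem_image.2 ⟨_, mem_range.2 hk, rfl⟩))

end Pool.Agent.Work.MP_1233f5_ag.Y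

end

section

/-! MP_1233f5_ag, block Y, item ED: the differential of the chain `En`. -/

set_option autoImplicit false

namespace Pool.Agent.Work.MP_1233f5_ag.Y

open Finset
open Pool.Agent.Work.MP_1233f5_ag.V (vm ML theta)
open Pool.Agent.Work.MP_1233f5_ag.Sec (Fk wd ct ee ff hh IsSec IsDeg swd brk)

namespace EDX

/-- the cycle with `i.castSucc` to `k.succAbove i` and `last` to `k`. -/
def cy (b : ℕ) (k : Fin (b + 1)) : Equiv.Perm (Fin (b + 1)) :=
  (Fin.cycleRange k)⁻¹ * finRotate (b + 1)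

theorem cy_castSucc (b : ℕ) (k : Fin (b + 1)) (i : Fin b) :
    cy b k i.castSucc = k.succAbove i := by
  unfold cy
  have h : (finRotate (b + 1)) i.castSucc = i.succ := by
    rw [finRotate_apply, Fin.coeSucc_eq_succ]
  rw [Equiv.Perm.mul_apply, h]
  exact Fin.cycleRange_symm_succ k i

theorem sign_cy (b : ℕ) (k : Fin (b + 1)) :
    Equiv.Perm.sign (cy b k) = (-1) ^ (k : ℕ) * (-1) ^ b := by
  unfold cy
  rw [map_mul, map_inv, Fin.sign_cycleRange, sign_finRotate]
  simp

theorem skp_val {β : Type} (b : ℕ) (k : Fin (b + 1)) (i : Fin b) (n : ℕ → β) :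
    n ((k.succAbove i : Fin (b + 1)) : ℕ) = skp (k : ℕ) n (i : ℕ) := by
  unfold skp
  by_cases h : (i : ℕ) < (k : ℕ)
  · rw [if_pos h, Fin.succAbove_of_castSucc_lt _ _ (by
      rw [Fin.lt_def]
      exact h)]
    rfl
  · rw [if_neg h, Fin.succAbove_of_le_castSucc _ _ (by
      rw [Fin.le_def]
      exact not_lt.1 h)]
    rfl

theorem term {K : Type} [Field K] {α : Type} [DecidableEq α] (b : ℕ) (η : ℕ → α)
    (n : ℕ → Finset α) (k : Fin (b + 1)) :
    ∑ σ : Equiv.Perm (Fin (b + 1)), ((Equiv.Perm.sign σ : ℤ) : K) • (((-1 : K) ^ (k : ℕ)) •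
      (mo (k.removeNth (fun i : Fin (b + 1) =>
        insert (η ((σ i : Fin (b + 1)) : ℕ)) (n (i : ℕ)))) : Lx K α)) =
    ((-1 : K) ^ b) • qn b η (skp (k : ℕ) n) := by
  unfold qn
  rw [Finset.smul_sum]
  refine Fintype.sum_equiv (Equiv.mulRight (cy b k)) _ _ ?_
  intro σ
  have e1 : ((Equiv.Perm.sign ((Equiv.mulRight (cy b k)) σ) : ℤ) : K) =
      ((Equiv.Perm.sign σ : ℤ) : K) * ((-1) ^ (k : ℕ) * (-1) ^ b) := by
    rw [Equiv.coe_mulRight, map_mul, sign_cy]
    push_cast
    ring
  have e2 : (k.removeNth (fun i : Fin (b + 1) =>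
        insert (η ((σ i : Fin (b + 1)) : ℕ)) (n (i : ℕ)))) =
      (fun i : Fin b => insert (η ((((Equiv.mulRight (cy b k)) σ) i.castSucc :
        Fin (b + 1)) : ℕ)) (skp (k : ℕ) n (i : ℕ))) := by
    funext i
    rw [Equiv.coe_mulRight, Equiv.Perm.mul_apply, cy_castSucc, ← skp_val]
    rfl
  rw [e1, e2, smul_smul, smul_smul]
  congr 1
  have h : ((-1 : K) ^ b) * ((-1) ^ b) = 1 := by
    rw [← mul_pow]
    simp
  calc ((Equiv.Perm.sign σ : ℤ) : K) * (-1) ^ (k : ℕ)
      = ((Equiv.Perm.sign σ : ℤ) : K) * (-1) ^ (k : ℕ) * ((-1 : K) ^ b * ((-1) ^ b)) := by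
        rw [h, mul_one]
    _ = _ := by ring

end EDX

open EDX in
theorem prf_ED : S_ED := by
  intro K _ α _ b η n
  have h : Dx (En b η n : Lx K α) =
      ∑ σ : Equiv.Perm (Fin (b + 1)), ∑ k : Fin (b + 1),
        ((Equiv.Perm.sign σ : ℤ) : K) • (((-1 : K) ^ (k : ℕ)) •
        (mo (k.removeNth (fun i : Fin (b + 1) =>
          insert (η ((σ i : Fin (b + 1)) : ℕ)) (n (i : ℕ)))) : Lx K α)) := by
    unfold En
    rw [map_sum]
    refine Finset.sum_congr rfl fun σ _ => ?_
    rw [map_smul, Dx_mo, Finset.smul_sum]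
  rw [h, Finset.sum_comm, Finset.smul_sum,
    Finset.sum_range (fun k => ((-1 : K) ^ b) • (qn b η (skp k n) : Lx K α))]
  exact Finset.sum_congr rfl fun k _ => term b η n k

end Pool.Agent.Work.MP_1233f5_ag.Y

end

section

/-! MP_1233f5_ag, block Y, part C, item ERep: replacing the products with `E_m`. -/

set_option autoImplicit false
set_option linter.unusedVariables false
set_option linter.unusedSectionVars false

namespace Pool.Agent.Work.MP_1233f5_ag.Y

open Finset
open Pool.Agent.Work.MP_1233f5_ag.V (vm ML theta)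
open Pool.Agent.Work.MP_1233f5_ag.Sec (Fk wd ct ee ff hh IsSec IsDeg swd brk)

namespace ERepX

section sets
variable {α : Type} [DecidableEq α] {r m : ℕ} {P : Finset α} {q : ℕ → α} {f : ℕ → Finset α}

/-- the index left by `skp`. -/
def sk (k i : ℕ) : ℕ := if i < k then i else i + 1

theorem skp_eq {β : Type} (k i : ℕ) (n : ℕ → β) : skp k n i = n (sk k i) := by
  unfold skp sk
  split_ifs <;> rfl

theorem sk_le {k i : ℕ} (hi : i < m) : sk k i ≤ m := by
  unfold sk
  split_ifs <;> omega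

theorem sk_ne (k i : ℕ) : sk k i ≠ k := by
  unfold sk
  split_ifs <;> omega

theorem sk_inj {k i i' : ℕ} (h : i ≠ i') : sk k i ≠ sk k i' := by
  unfold sk
  split_ifs <;> omega

theorem q_mem_es {i : ℕ} (hi : i ≤ m) : q i ∈ es m q f :=
  mem_union_left _ (mem_image.2 ⟨i, mem_range.2 (Nat.lt_succ_of_le hi), rfl⟩)

theorem f_sub_es {i : ℕ} (hi : i ≤ m) : f i ⊆ es m q f := fun a ha =>
  mem_union_right _ (mem_biUnion.2 ⟨i, mem_range.2 (Nat.lt_succ_of_le hi), ha⟩)

theorem es_sub (h : EV r P m q f) : es m q f ⊆ P := by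
  intro a ha
  rcases mem_union.1 ha with h1 | h1
  · obtain ⟨i, hi, rfl⟩ := mem_image.1 h1
    exact h.mem i (Nat.le_of_lt_succ (mem_range.1 hi))
  · obtain ⟨i, hi, h2⟩ := mem_biUnion.1 h1
    exact h.sub i (Nat.le_of_lt_succ (mem_range.1 hi)) h2

theorem bs_sub_es (k : ℕ) : bs m q (skp k f) ⊆ es m q f := by
  intro a ha
  rcases mem_union.1 ha with h1 | h1
  · obtain ⟨i, hi, rfl⟩ := mem_image.1 h1
    exact q_mem_es (Nat.le_of_lt_succ (mem_range.1 hi))
  · obtain ⟨i, hi, h2⟩ := mem_biUnion.1 h1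
    rw [skp_eq] at h2
    exact f_sub_es (sk_le (mem_range.1 hi)) h2

theorem bv_skp (h : EV r P m q f) (k : ℕ) : BV r P m q (skp k f) where
  inj := h.inj
  mem := h.mem
  card := fun i hi => by
    rw [skp_eq]
    exact h.card _ (sk_le hi)
  sub := fun i hi => by
    rw [skp_eq]
    exact h.sub _ (sk_le hi)
  dis := fun i hi i' hi' hii => by
    rw [skp_eq, skp_eq]
    exact h.dis _ (sk_le hi) _ (sk_le hi') (sk_inj hii)
  out := fun i hi i' hi' => by
    rw [skp_eq]
    exact h.out i hi _ (sk_le hi')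

theorem upd_of_le {x : α} {i : ℕ} (hi : i ≤ m) : Function.update q (m + 1) x i = q i :=
  Function.update_of_ne (by omega) _ _

theorem bv_upd (h : EV r P m q f) {x : α} (hx : x ∈ P \ es m q f) :
    BV r P (m + 1) (Function.update q (m + 1) x) f where
  inj := by
    intro i hi i' hi' heq
    have hxe := (mem_sdiff.1 hx).2
    rcases Nat.lt_or_ge m i with h1 | h1
    · have h2 : i = m + 1 := by omega
      subst h2
      rcases Nat.lt_or_ge m i' with h3 | h3
      · omega
      · rw [Function.update_self, upd_of_le h3] at heq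
        exact absurd (heq ▸ q_mem_es h3) hxe
    · rcases Nat.lt_or_ge m i' with h3 | h3
      · have h4 : i' = m + 1 := by omega
        subst h4
        rw [Function.update_self, upd_of_le h1] at heq
        exact absurd (heq ▸ q_mem_es h1) hxe
      · rw [upd_of_le h1, upd_of_le h3] at heq
        exact h.inj i h1 i' h3 heq
  mem := by
    intro i hi
    rcases Nat.lt_or_ge m i with h1 | h1
    · have h2 : i = m + 1 := by omega
      subst h2
      rw [Function.update_self]
      exact (mem_sdiff.1 hx).1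
    · rw [upd_of_le h1]
      exact h.mem i h1
  card := fun i hi => h.card i (Nat.le_of_lt_succ hi)
  sub := fun i hi => h.sub i (Nat.le_of_lt_succ hi)
  dis := fun i hi i' hi' => h.dis i (Nat.le_of_lt_succ hi) i' (Nat.le_of_lt_succ hi')
  out := by
    intro i hi i' hi'
    rcases Nat.lt_or_ge m i with h1 | h1
    · have h2 : i = m + 1 := by omega
      subst h2
      rw [Function.update_self]
      exact fun hc => (mem_sdiff.1 hx).2 (f_sub_es (Nat.le_of_lt_succ hi') hc)
    · rw [upd_of_le h1]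
      exact h.out i h1 i' (Nat.le_of_lt_succ hi')

theorem bs_upd (x : α) : bs (m + 1) (Function.update q (m + 1) x) f = insert x (es m q f) := by
  have h1 : (range (m + 1)).image (Function.update q (m + 1) x) = (range (m + 1)).image q := by
    refine image_congr fun i hi => ?_
    exact upd_of_le (Nat.le_of_lt_succ (mem_range.1 (mem_coe.1 hi)))
  unfold bs es
  rw [range_add_one (n := m + 1), image_insert, Function.update_self, h1, insert_union]

theorem ins_card (h : EV r P m q f) {x : α} (hx : x ∉ es m q f) {k : ℕ} (hk : k ≤ m) :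
    (insert x (f k)).card = r + 1 := by
  rw [card_insert_of_notMem fun hc => hx (f_sub_es hk hc), h.card k hk]

theorem ins_sub (h : EV r P m q f) {x : α} (hx : x ∈ P \ es m q f) {k : ℕ} (hk : k ≤ m) :
    insert x (f k) ⊆ P \ bs m q (skp k f) := by
  intro a ha
  rw [mem_sdiff]
  rcases mem_insert.1 ha with h1 | h1
  · rw [h1]
    exact ⟨(mem_sdiff.1 hx).1, fun hc => (mem_sdiff.1 hx).2 (bs_sub_es k hc)⟩
  · refine ⟨h.sub k hk h1, fun hc => ?_⟩
    rcases mem_union.1 hc with h2 | h2
    · obtain ⟨i, hi, rfl⟩ := mem_image.1 h2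
      exact h.out i (Nat.le_of_lt_succ (mem_range.1 hi)) k hk h1
    · obtain ⟨i, hi, h3⟩ := mem_biUnion.1 h2
      rw [skp_eq] at h3
      exact Finset.disjoint_left.1 (h.dis k hk _ (sk_le (mem_range.1 hi)) (sk_ne k i).symm) h1 h3

end sets

section chains
variable {K : Type} [Field K] {α : Type} [DecidableEq α] {r m : ℕ} {P : Finset α} {q : ℕ → α}
  {f : ℕ → Finset α}

theorem En_mem (h : EV r P m q f) : (En m q f : Lx K α) ∈ Mt K (r + 1) (es m q f) (m + 1) := by
  unfold En
  refine Submodule.sum_mem _ fun σ _ => Submodule.smul_mem _ _ (mo_mem_Mt ⟨fun i => ?_, ?_⟩)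
  · have h1 : ((σ i : Fin (m + 1)) : ℕ) ≤ m := Nat.le_of_lt_succ (σ i).2
    have h2 : (i : ℕ) ≤ m := Nat.le_of_lt_succ i.2
    refine ⟨?_, ?_⟩
    · rw [card_insert_of_notMem (h.out _ h1 _ h2), h.card _ h2]
    · exact insert_subset (q_mem_es h1) (f_sub_es h2)
  · intro i i' hii
    have h1 : ((σ i : Fin (m + 1)) : ℕ) ≤ m := Nat.le_of_lt_succ (σ i).2
    have h2 : (i : ℕ) ≤ m := Nat.le_of_lt_succ i.2
    have h1' : ((σ i' : Fin (m + 1)) : ℕ) ≤ m := Nat.le_of_lt_succ (σ i').2
    have h2' : (i' : ℕ) ≤ m := Nat.le_of_lt_succ i'.2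
    have hd : Disjoint (f (i : ℕ)) (f (i' : ℕ)) := h.dis _ h2 _ h2' fun hc => hii (Fin.ext hc)
    have hq : q ((σ i : Fin (m + 1)) : ℕ) ≠ q ((σ i' : Fin (m + 1)) : ℕ) := fun hc =>
      hii (σ.injective (Fin.ext (h.inj _ h1 _ h1' hc)))
    rw [disjoint_insert_left, disjoint_insert_right]
    refine ⟨?_, ?_, hd⟩
    · rw [mem_insert, not_or]
      exact ⟨hq, h.out _ h1 _ h2'⟩
    · exact h.out _ h1' _ h2

/-- the products with boundaries. -/
theorem bd_part (hED : S_ED) {j : ℕ} (h : EV r P m q f) (hj : m + 1 ≤ j) {β : Lx K α}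
    (hβ : β ∈ Bd K (r + 1) (P \ es m q f) (j - (m + 1))) :
    (En m q f : Lx K α) * β ∈ Bd K (r + 1) P j ⊔ spQ K r P m j q (Mt K (r + 1)) := by
  obtain ⟨w, hw, rfl⟩ := hβ
  have hE : (En m q f : Lx K α) ∈ Mt K (r + 1) (es m q f) (m + 1) := En_mem h
  have hw0 : w ∈ Mt K (r + 1) (P \ es m q f) (j - (m + 1) + 1) := hw
  have h1 := Dx_mul hE w
  have h2 : (En m q f : Lx K α) * Dx w =
      ((-1 : K) ^ (m + 1)) • (Dx (En m q f * w) - Dx (En m q f) * w) := by
    rw [h1, add_sub_cancel_left, smul_smul, ← mul_pow, neg_one_mul, neg_neg, one_pow, one_smul]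
  rw [h2]
  refine Submodule.smul_mem _ _ (Submodule.sub_mem _ ?_ ?_)
  · refine Submodule.mem_sup_left ⟨En m q f * w, ?_, rfl⟩
    have h3 := Mt_mul disjoint_sdiff hE hw0
    rwa [union_sdiff_of_subset (es_sub h),
      show m + 1 + (j - (m + 1) + 1) = j + 1 by omega] at h3
  · refine Submodule.mem_sup_right ?_
    rw [hED K α m q f, smul_mul_assoc, sum_mul]
    refine Submodule.smul_mem _ _ (Submodule.sum_mem _ fun k hk => Submodule.subset_span ?_)
    refine ⟨skp k f, w, bv_skp h k, by omega, ?_, rfl⟩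
    have h4 := Mt_mono (K := K) (sdiff_subset_sdiff (Subset.refl P) (bs_sub_es (q := q) (f := f)
      (m := m) k)) hw0
    rwa [show j - (m + 1) + 1 = j - m by omega] at h4

/-- the products with cycles missing a point. -/
theorem cy_part (hEQ : S_EQ) {j : ℕ} (h : EV r P m q f) (hj : m + 1 ≤ j) {x : α}
    (hx : x ∈ P \ es m q f) {κ : Lx K α}
    (hκ : κ ∈ Cy K (r + 1) ((P \ es m q f).erase x) (j - (m + 1))) :
    (En m q f : Lx K α) * κ ∈ spQ K r P m j q (Mt K (r + 1)) ⊔
      spQ K r P (m + 1) j (Function.update q (m + 1) x) (Cy K (r + 1)) := by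
  have h1 := hEQ K α m q x f
  have h2 : (En m q f : Lx K α) * κ = ∑ k ∈ range (m + 1),
      qn m q (skp k f) * (ed (insert x (f k)) * κ) +
      qn (m + 1) (Function.update q (m + 1) x) f * κ := by
    rw [h1, sub_mul, sum_mul]
    simp only [mul_assoc]
    abel
  rw [h2]
  refine Submodule.add_mem _ (Submodule.mem_sup_left ?_) (Submodule.mem_sup_right ?_)
  · refine Submodule.sum_mem _ fun k hk => Submodule.subset_span ?_
    have hk' : k ≤ m := Nat.le_of_lt_succ (mem_range.1 hk)
    refine ⟨skp k f, _, bv_skp h k, by omega, ?_, rfl⟩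
    have h3 : (ed (insert x (f k)) : Lx K α) * κ ∈
        Mt K (r + 1) (P \ bs m q (skp k f)) (j - (m + 1) + 1) := by
      refine ed_mul_mem_Mt (P' := (P \ es m q f).erase x) (ins_card h (mem_sdiff.1 hx).2 hk')
        (ins_sub h hx hk') ?_ ?_ hκ.1
      · exact (erase_subset _ _).trans (sdiff_subset_sdiff (Subset.refl P) (bs_sub_es k))
      · rw [disjoint_left]
        intro a ha ha'
        rcases mem_insert.1 ha with h4 | h4
        · exact (mem_erase.1 ha').1 h4
        · exact (mem_sdiff.1 (mem_erase.1 ha').2).2 (f_sub_es hk' h4)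
    rwa [show j - (m + 1) + 1 = j - m by omega] at h3
  · refine Submodule.subset_span ⟨f, κ, bv_upd h hx, hj, ?_, rfl⟩
    rw [bs_upd]
    have h5 : P \ insert x (es m q f) = (P \ es m q f).erase x := by
      ext a
      simp only [mem_sdiff, mem_insert, mem_erase, not_or]
      constructor
      · rintro ⟨h6, h7, h8⟩
        exact ⟨h7, h6, h8⟩
      · rintro ⟨h7, h6, h8⟩
        exact ⟨h6, h7, h8⟩
    rw [h5]
    exact hκ

end chains

end ERepX

theorem prf_ERep (hED : S_ED) (hEQ : S_EQ) (hQCy : S_QCy) : S_ERep := by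
  intro K _ α _ _ r m j P q f h hj hG κ hκ
  have key : Bd K (r + 1) (P \ es m q f) (j - (m + 1)) ⊔
      ⨆ x ∈ P \ es m q f, Cy K (r + 1) ((P \ es m q f).erase x) (j - (m + 1)) ≤
      (Bd K (r + 1) P j ⊔ spQ K r P m j q (Mt K (r + 1)) ⊔
        ⨆ x : α, spQ K r P (m + 1) j (Function.update q (m + 1) x) (Cy K (r + 1))).comap
        (LinearMap.mulLeft K (En m q f : Lx K α)) := by
    refine sup_le ?_ (iSup₂_le fun x hx => ?_)
    · intro β hβ
      exact Submodule.mem_sup_left (ERepX.bd_part hED h hj hβ)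
    · intro β hβ
      have h1 := ERepX.cy_part hEQ h hj hx hβ
      have h2 : spQ K r P m j q (Mt K (r + 1)) ⊔
          spQ K r P (m + 1) j (Function.update q (m + 1) x) (Cy K (r + 1)) ≤
          Bd K (r + 1) P j ⊔ spQ K r P m j q (Mt K (r + 1)) ⊔
          ⨆ x : α, spQ K r P (m + 1) j (Function.update q (m + 1) x) (Cy K (r + 1)) := by
        refine sup_le ?_ ?_
        · exact le_sup_right.trans le_sup_left
        · exact (le_iSup (fun x : α => spQ K r P (m + 1) j (Function.update q (m + 1) x)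
            (Cy K (r + 1))) x).trans le_sup_right
      exact h2 h1
  exact key (hG hκ)

end Pool.Agent.Work.MP_1233f5_ag.Y

end

section

/-! MP_1233f5_ag, block Y: symmetry of `E_b` in the sets. -/

set_option autoImplicit false

namespace Pool.Agent.Work.MP_1233f5_ag.Y

open Finset
open Pool.Agent.Work.MP_1233f5_ag.V (vm ML theta)
open Pool.Agent.Work.MP_1233f5_ag.Sec (Fk wd ct ee ff hh IsSec IsDeg swd brk)

theorem prf_ESw : S_ESw := by
  intro K _ α _ b η n n' τ hn
  unfold En
  symm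
  refine Fintype.sum_equiv (Equiv.mulRight τ) _ _ (fun ρ => ?_)
  have h1 : (fun i : Fin (b + 1) =>
      insert (η ((((Equiv.mulRight τ) ρ) i : Fin (b + 1)) : ℕ)) (n' (i : ℕ))) =
      (fun j : Fin (b + 1) => insert (η ((ρ j : Fin (b + 1)) : ℕ)) (n (j : ℕ))) ∘ τ := by
    funext i
    rw [hn i]
    rfl
  rw [h1, mo_perm, smul_smul]
  congr 1
  have h2 : Equiv.Perm.sign ((Equiv.mulRight τ) ρ) = Equiv.Perm.sign ρ * Equiv.Perm.sign τ := by
    rw [Equiv.coe_mulRight, Equiv.Perm.sign_mul]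
  rw [h2]
  have h3 : ((Equiv.Perm.sign τ : ℤ) : K) * ((Equiv.Perm.sign τ : ℤ) : K) = 1 := by
    rw [← Int.cast_mul, ← Units.val_mul, Int.units_mul_self]
    simp
  rw [Units.val_mul, Int.cast_mul, mul_assoc, h3, mul_one]

end Pool.Agent.Work.MP_1233f5_ag.Y

end

section

/-! MP_1233f5_ag, block Y, item G1: first generation theorem. -/

set_option autoImplicit false

namespace Pool.Agent.Work.MP_1233f5_ag.Y

open Finset
open Pool.Agent.Work.MP_1233f5_ag.V (vm ML theta)
open Pool.Agent.Work.MP_1233f5_ag.Sec (Fk wd ct ee ff hh IsSec IsDeg swd brk)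

namespace G1X

theorem cns_succ {β : Type} (m : β) (n : ℕ → β) (i : ℕ) : cns m n (i + 1) = n i := by
  simp [cns]

theorem cns_zero {β : Type} (m : β) (n : ℕ → β) : cns m n 0 = m := rfl

section
variable {α : Type} [DecidableEq α]

theorem VC.u_mem {r : ℕ} {R : Finset α} {a q : ℕ} {u v : ℕ → α} {m : ℕ → Finset α}
    (h : VC r R a q u v m) {i : ℕ} (hi : i < a) : u i ∈ R := by
  rw [← h.cov]
  exact mem_union_left _ (mem_union_left _ (mem_image_of_mem _ (mem_range.2 hi)))

theorem VC.v_mem {r : ℕ} {R : Finset α} {a q : ℕ} {u v : ℕ → α} {m : ℕ → Finset α}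
    (h : VC r R a q u v m) {i : ℕ} (hi : i < a) : v i ∈ R := by
  rw [← h.cov]
  exact mem_union_left _ (mem_union_right _ (mem_image_of_mem _ (mem_range.2 hi)))

theorem VC.m_sub {r : ℕ} {R : Finset α} {a q : ℕ} {u v : ℕ → α} {m : ℕ → Finset α}
    (h : VC r R a q u v m) {i : ℕ} (hi : i < q) : m i ⊆ R := by
  rw [← h.cov]
  exact (subset_biUnion_of_mem m (mem_range.2 hi)).trans subset_union_right

theorem img_cns (x : α) (u : ℕ → α) (a : ℕ) :
    (range (a + 1)).image (cns x u) = insert x ((range a).image u) := by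
  ext z
  rw [mem_image, mem_insert, mem_image]
  constructor
  · rintro ⟨i, hi, rfl⟩
    rcases i with _ | i
    · exact Or.inl rfl
    · refine Or.inr ⟨i, ?_, ?_⟩
      · rw [mem_range] at hi ⊢
        omega
      · rw [cns_succ]
  · rintro (rfl | ⟨i, hi, rfl⟩)
    · exact ⟨0, mem_range.2 (Nat.succ_pos a), rfl⟩
    · refine ⟨i + 1, ?_, cns_succ _ _ _⟩
      rw [mem_range] at hi ⊢
      omega

theorem biU_cns (g : Finset α) (m : ℕ → Finset α) (q : ℕ) :
    (range (q + 1)).biUnion (cns g m) = g ∪ (range q).biUnion m := by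
  ext z
  rw [mem_biUnion, mem_union, mem_biUnion]
  constructor
  · rintro ⟨i, hi, hz⟩
    rcases i with _ | i
    · exact Or.inl hz
    · refine Or.inr ⟨i, ?_, ?_⟩
      · rw [mem_range] at hi ⊢
        omega
      · rwa [cns_succ] at hz
  · rintro (hz | ⟨i, hi, hz⟩)
    · exact ⟨0, mem_range.2 (Nat.succ_pos q), hz⟩
    · refine ⟨i + 1, ?_, ?_⟩
      · rw [mem_range] at hi ⊢
        omega
      · rwa [cns_succ]

/-- one more pair and one more set -/
theorem VC.cns {r : ℕ} {R : Finset α} {a q : ℕ} {u v : ℕ → α} {m : ℕ → Finset α}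
    (h : VC r R a q u v m) {x y : α} {g : Finset α} (hg : g.card = r) (hx : x ∉ R) (hy : y ∉ R)
    (hxy : x ≠ y) (hgR : Disjoint g R) (hxg : x ∉ g) (hyg : y ∉ g) :
    VC r (insert x (insert y (g ∪ R))) (a + 1) (q + 1) (cns x u) (cns y v) (cns g m) := by
  refine ⟨?_, ?_, ?_, ?_, ?_, ?_, ?_, ?_⟩
  · intro i hi
    rcases i with _ | i
    · exact hg
    · rw [cns_succ]
      exact h.card i (by omega)
  · intro i hi j hj hij
    rcases i with _ | i <;> rcases j with _ | j
    · exact absurd rfl hij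
    · rw [cns_succ, cns_zero]
      exact hgR.mono_right (VC.m_sub h (by omega))
    · rw [cns_succ, cns_zero]
      exact (hgR.mono_right (VC.m_sub h (by omega))).symm
    · rw [cns_succ, cns_succ]
      exact h.dis i (by omega) j (by omega) (by omega)
  · intro i hi j hj hij
    rcases i with _ | i <;> rcases j with _ | j
    · rfl
    · rw [cns_succ, cns_zero] at hij
      exact absurd (hij ▸ VC.u_mem h (by omega) : x ∈ R) hx
    · rw [cns_succ, cns_zero] at hij
      exact absurd (hij ▸ VC.u_mem h (by omega) : x ∈ R) hx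
    · rw [cns_succ, cns_succ] at hij
      rw [h.uinj i (by omega) j (by omega) hij]
  · intro i hi j hj hij
    rcases i with _ | i <;> rcases j with _ | j
    · rfl
    · rw [cns_succ, cns_zero] at hij
      exact absurd (hij ▸ VC.v_mem h (by omega) : y ∈ R) hy
    · rw [cns_succ, cns_zero] at hij
      exact absurd (hij ▸ VC.v_mem h (by omega) : y ∈ R) hy
    · rw [cns_succ, cns_succ] at hij
      rw [h.vinj i (by omega) j (by omega) hij]
  · intro i hi j hj
    rcases i with _ | i <;> rcases j with _ | j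
    · exact hxy
    · rw [cns_succ, cns_zero]
      exact fun hc => hx (hc ▸ VC.v_mem h (by omega))
    · rw [cns_succ, cns_zero]
      exact fun hc => hy (hc ▸ VC.u_mem h (by omega))
    · rw [cns_succ, cns_succ]
      exact h.uv i (by omega) j (by omega)
  · intro i hi j hj
    rcases i with _ | i <;> rcases j with _ | j
    · exact hxg
    · rw [cns_succ, cns_zero]
      exact fun hc => hx (VC.m_sub h (by omega) hc)
    · rw [cns_succ, cns_zero]
      exact fun hc => (disjoint_left.1 hgR) hc (VC.u_mem h (by omega))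
    · rw [cns_succ, cns_succ]
      exact h.uout i (by omega) j (by omega)
  · intro i hi j hj
    rcases i with _ | i <;> rcases j with _ | j
    · exact hyg
    · rw [cns_succ, cns_zero]
      exact fun hc => hy (VC.m_sub h (by omega) hc)
    · rw [cns_succ, cns_zero]
      exact fun hc => (disjoint_left.1 hgR) hc (VC.v_mem h (by omega))
    · rw [cns_succ, cns_succ]
      exact h.vout i (by omega) j (by omega)
  · rw [img_cns, img_cns, biU_cns, ← h.cov]
    ext z
    simp only [mem_union, mem_insert]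
    tauto

theorem im_union (σ : Equiv.Perm α) (A B : Finset α) : im σ (A ∪ B) = im σ A ∪ im σ B := by
  ext z
  rw [mem_im, mem_union, mem_union, mem_im, mem_im]

omit [DecidableEq α] in
theorem mem_im_self (σ : Equiv.Perm α) (x : α) (A : Finset α) : σ x ∈ im σ A ↔ x ∈ A := by
  rw [mem_im]
  have : σ⁻¹ (σ x) = x := σ.symm_apply_apply x
  rw [this]

/-- transport -/
theorem VC.act {r : ℕ} {R : Finset α} {a q : ℕ} {u v : ℕ → α} {m : ℕ → Finset α}
    (h : VC r R a q u v m) (σ : Equiv.Perm α) :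
    VC r (im σ R) a q (fun i => σ (u i)) (fun i => σ (v i)) (fun i => im σ (m i)) := by
  refine ⟨?_, ?_, ?_, ?_, ?_, ?_, ?_, ?_⟩
  · intro i hi
    rw [card_im]
    exact h.card i hi
  · intro i hi j hj hij
    exact (Finset.disjoint_map _).2 (h.dis i hi j hj hij)
  · intro i hi j hj hij
    exact h.uinj i hi j hj (σ.injective hij)
  · intro i hi j hj hij
    exact h.vinj i hi j hj (σ.injective hij)
  · intro i hi j hj hij
    exact h.uv i hi j hj (σ.injective hij)
  · intro i hi j hj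
    rw [mem_im_self]
    exact h.uout i hi j hj
  · intro i hi j hj
    rw [mem_im_self]
    exact h.vout i hi j hj
  · rw [← h.cov, im_union, im_union]
    congr 1
    · congr 1
      · ext z
        rw [mem_image, mem_im, mem_image]
        constructor
        · rintro ⟨i, hi, rfl⟩
          exact ⟨i, hi, (σ.symm_apply_apply (u i)).symm⟩
        · rintro ⟨i, hi, h1⟩
          exact ⟨i, hi, by rw [h1, perm_ai]⟩
      · ext z
        rw [mem_image, mem_im, mem_image]
        constructor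
        · rintro ⟨i, hi, rfl⟩
          exact ⟨i, hi, (σ.symm_apply_apply (v i)).symm⟩
        · rintro ⟨i, hi, h1⟩
          exact ⟨i, hi, by rw [h1, perm_ai]⟩
    · ext z
      rw [mem_biUnion, mem_im, mem_biUnion]
      constructor
      · rintro ⟨i, hi, h1⟩
        exact ⟨i, hi, by rwa [mem_im] at h1⟩
      · rintro ⟨i, hi, h1⟩
        exact ⟨i, hi, by rwa [mem_im]⟩

theorem BV.bsv {r : ℕ} {P : Finset α} {b : ℕ} {η : ℕ → α} {n : ℕ → Finset α}
    (h : BV r P b η n) : BV r (bs b η n) b η n := by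
  refine ⟨h.inj, ?_, h.card, ?_, h.dis, h.out⟩
  · intro i hi
    exact mem_union_left _ (mem_image_of_mem _ (mem_range.2 (by omega)))
  · intro i hi
    exact (subset_biUnion_of_mem n (mem_range.2 hi)).trans subset_union_right

theorem BV.bs_sub {r : ℕ} {P : Finset α} {b : ℕ} {η : ℕ → α} {n : ℕ → Finset α}
    (h : BV r P b η n) : bs b η n ⊆ P := by
  intro z hz
  rcases mem_union.1 hz with hz | hz
  · obtain ⟨i, hi, rfl⟩ := mem_image.1 hz
    exact h.mem i (by rw [mem_range] at hi; omega)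
  · obtain ⟨i, hi, hz⟩ := mem_biUnion.1 hz
    exact h.sub i (mem_range.1 hi) hz

theorem BV.bs_card {r : ℕ} {P : Finset α} {b : ℕ} {η : ℕ → α} {n : ℕ → Finset α}
    (h : BV r P b η n) : (bs b η n).card = (b + 1) + b * r := by
  unfold bs
  rw [card_union_of_disjoint, card_image_of_injOn, card_biUnion,
    sum_congr rfl fun i hi => h.card i (mem_range.1 hi), sum_const, card_range, card_range,
    smul_eq_mul]
  · intro i hi j hj hij
    exact h.dis i (mem_range.1 hi) j (mem_range.1 hj) hij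
  · intro i hi j hj hij
    rw [coe_range, Set.mem_Iio] at hi hj
    exact h.inj i (by omega) j (by omega) hij
  · rw [disjoint_left]
    intro x hx hx'
    obtain ⟨i, hi, rfl⟩ := mem_image.1 hx
    obtain ⟨j, hj, h2⟩ := mem_biUnion.1 hx'
    rw [mem_range] at hi hj
    exact h.out i (by omega) j hj h2

end

section
variable (K : Type) [Field K] {α : Type} [DecidableEq α]

/-- the span of the products `zz` -/
noncomputable def ZS (r : ℕ) (P : Finset α) (a : ℕ) : Submodule K (Lx K α) :=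
  Submodule.span K {x | ∃ R u v m, R ⊆ P ∧ VC r R a a u v m ∧ x = zz a u v m}

variable {K}

theorem zz_mem {r a : ℕ} {P R : Finset α} {u v : ℕ → α} {m : ℕ → Finset α} (hR : R ⊆ P)
    (h : VC r R a a u v m) : (zz a u v m : Lx K α) ∈ ZS K r P a :=
  Submodule.subset_span ⟨R, u, v, m, hR, h, rfl⟩

theorem ZS_mono {r a : ℕ} {P P' : Finset α} (hP : P ⊆ P') : ZS K r P a ≤ ZS K r P' a := by
  refine Submodule.span_mono ?_
  rintro _ ⟨R, u, v, m, h1, h2, rfl⟩
  exact ⟨R, u, v, m, h1.trans hP, h2, rfl⟩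

theorem act_ZS (hZz : S_Zz) {r a : ℕ} {P : Finset α} {σ : Equiv.Perm α} (hσ : Sup P σ)
    {x : Lx K α} (hx : x ∈ ZS K r P a) : act K α σ x ∈ ZS K r P a := by
  unfold ZS at hx
  induction hx using Submodule.span_induction with
  | mem x hx =>
    obtain ⟨R, u, v, m, h1, h2, rfl⟩ := hx
    rw [(hZz K α a u v m).2.1 σ]
    refine zz_mem ?_ (VC.act h2 σ)
    rw [← im_sup hσ]
    exact Finset.map_subset_map.2 h1
  | zero => rw [map_zero]; exact Submodule.zero_mem _
  | add x y _ _ hx hy => rw [map_add]; exact Submodule.add_mem _ hx hy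
  | smul c x _ hx => rw [map_smul]; exact Submodule.smul_mem _ _ hx

theorem zz_cns (hZz : S_Zz) (a : ℕ) (x y : α) (g : Finset α) (u v : ℕ → α)
    (m : ℕ → Finset α) : (zz (a + 1) (cns x u) (cns y v) (cns g m) : Lx K α) =
      (ed (insert x g) - ed (insert y g)) * zz a u v m := by
  rw [(hZz K α a (cns x u) (cns y v) (cns g m)).1, cns_zero, cns_zero, cns_zero]
  rw [zz_congr (a := a) (u := fun i => cns x u (i + 1)) (u' := u)
    (v := fun i => cns y v (i + 1)) (v' := v) (m := fun i => cns g m (i + 1)) (m' := m)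
    (fun i _ => cns_succ _ _ _) (fun i _ => cns_succ _ _ _) (fun i _ => cns_succ _ _ _)]

theorem univ_perm2 : (univ : Finset (Equiv.Perm (Fin 2))) = {1, Equiv.swap 0 1} := by decide

omit [DecidableEq α] in
theorem qn_one [DecidableEq α] (η : ℕ → α) (n : ℕ → Finset α) :
    (qn 1 η n : Lx K α) = ed (insert (η 0) (n 0)) - ed (insert (η 1) (n 0)) := by
  have h1 : (1 : Equiv.Perm (Fin 2)) ≠ Equiv.swap 0 1 := by decide
  unfold qn
  rw [univ_perm2, sum_pair h1]
  have h2 : ∀ t : Fin 1 → Finset α, (mo t : Lx K α) = ed (t 0) := by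
    intro t
    rw [mo_succ, mo_zero, mul_one]
  rw [h2, h2]
  have h3 : Equiv.Perm.sign (Equiv.swap (0 : Fin 2) 1) = -1 := Equiv.Perm.sign_swap (by decide)
  rw [h3]
  have h4 : ((Equiv.swap (0 : Fin 2) 1) (Fin.castSucc (0 : Fin 1)) : Fin 2) = 1 := by decide
  rw [h4]
  simp [sub_eq_add_neg]

/-- multiplication of a sum of boundaries and products -/
theorem mul_Bd (hQCy : S_QCy) {r b a : ℕ} {P : Finset α} {η : ℕ → α} {n : ℕ → Finset α}
    (h : BV r P b η n) (hb : b ≤ a) {κ : Lx K α}
    (hκ : κ ∈ Bd K (r + 1) (P \ bs b η n) (a - b)) : qn b η n * κ ∈ Bd K (r + 1) P a := by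
  have h1 := Cy_mul_Bd (disjoint_sdiff : Disjoint (bs b η n) (P \ bs b η n))
    (hQCy K α r b (bs b η n) η n (BV.bsv h)) hκ
  rw [show b + (a - b) = a by omega] at h1
  refine Bd_mono ?_ h1
  exact union_subset (BV.bs_sub h) sdiff_subset

end

/-- permutations of two points -/
theorem sup_two {α : Type} [DecidableEq α] {x y : α} {σ : Equiv.Perm α}
    (h : Sup {x, y} σ) : σ = 1 ∨ σ = Equiv.swap x y := by
  have hf : ∀ a, a ≠ x → a ≠ y → σ a = a := by
    intro a h1 h2
    refine h a ?_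
    simp [h1, h2]
  have himg : ∀ a, (a = x ∨ a = y) → (σ a = x ∨ σ a = y) := by
    intro a ha
    by_contra hc
    rw [not_or] at hc
    have h1 := hf _ hc.1 hc.2
    have h2 := σ.injective h1
    rcases ha with rfl | rfl
    · exact hc.1 h2
    · exact hc.2 h2
  rcases himg x (Or.inl rfl) with h1 | h1
  · left
    ext a
    rw [Equiv.Perm.one_apply]
    by_cases hax : a = x
    · rw [hax, h1]
    · by_cases hay : a = y
      · rcases himg y (Or.inr rfl) with h2 | h2
        · rw [hay, h2]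
          exact (σ.injective (h2.trans h1.symm)).symm
        · rw [hay, h2]
      · exact hf a hax hay
  · right
    ext a
    by_cases hax : a = x
    · rw [hax, h1, Equiv.swap_apply_left]
    · by_cases hay : a = y
      · rw [hay, Equiv.swap_apply_right]
        rcases himg y (Or.inr rfl) with h2 | h2
        · exact h2
        · have h3 := σ.injective (h2.trans h1.symm)
          rw [h2, h3]
      · rw [hf a hax hay, Equiv.swap_apply_of_ne_of_ne hax hay]

section main
variable {K : Type} [Field K] {α : Type} [DecidableEq α]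

/-- case zero -/
theorem base [Nonempty α] (r : ℕ) (P : Finset α) :
    Cy K (r + 1) P 0 ≤ Bd K (r + 1) P 0 ⊔ ZS K r P 0 := by
  intro x hx
  refine Submodule.mem_sup_right ?_
  have h1 : x ∈ Mt K (r + 1) P 0 := hx.1
  obtain ⟨z⟩ := ‹Nonempty α›
  have h2 : (zz 0 (fun _ => z) (fun _ => z) (fun _ => ∅) : Lx K α) = 1 := by
    unfold zz
    rw [ExteriorAlgebra.ιMulti_zero_apply]
  have h3 : VC r (∅ : Finset α) 0 0 (fun _ => z) (fun _ => z) (fun _ => ∅) := by
    refine ⟨?_, ?_, ?_, ?_, ?_, ?_, ?_, ?_⟩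
    · intro i hi; omega
    · intro i hi; omega
    · intro i hi; omega
    · intro i hi; omega
    · intro i hi; omega
    · intro i hi; omega
    · intro i hi; omega
    · simp
  have h4 : (1 : Lx K α) ∈ ZS K r P 0 := by
    rw [← h2]
    exact zz_mem (empty_subset _) h3
  unfold Mt at h1
  refine (Submodule.span_le.2 ?_) h1
  rintro _ ⟨t, -, rfl⟩
  rw [mo_zero]
  exact h4

/-- products with `q_1` -/
theorem step1 (hZz : S_Zz) (hQCy : S_QCy) {r a : ℕ} {P : Finset α} {q : ℕ → α}
    {f : ℕ → Finset α} (h : BV r P 1 q f) (ha : 1 ≤ a) {κ : Lx K α}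
    (hκ : κ ∈ Bd K (r + 1) (P \ bs 1 q f) (a - 1) ⊔ ZS K r (P \ bs 1 q f) (a - 1)) :
    qn 1 q f * κ ∈ Bd K (r + 1) P a ⊔ ZS K r P a := by
  obtain ⟨κ1, h1, κ2, h2, rfl⟩ := Submodule.mem_sup.1 hκ
  rw [mul_add]
  refine Submodule.add_mem _ (Submodule.mem_sup_left (mul_Bd hQCy h ha h1))
    (Submodule.mem_sup_right ?_)
  clear hκ h1
  unfold ZS at h2
  induction h2 using Submodule.span_induction with
  | mem x hx =>
    obtain ⟨R, u, v, m, hR, hV, rfl⟩ := hx
    rw [qn_one, ← zz_cns hZz (a - 1)]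
    have e : a - 1 + 1 = a := by omega
    have hdis : Disjoint (bs 1 q f) R := disjoint_sdiff.mono_right hR
    have hb := BV.bsv h
    have h3 := VC.cns hV (h.card 0 Nat.zero_lt_one)
      (disjoint_left.1 hdis (hb.mem 0 (Nat.zero_le 1)))
      (disjoint_left.1 hdis (hb.mem 1 le_rfl)) (fun hc => absurd (h.inj 0 (Nat.zero_le 1) 1 le_rfl hc)
        (by omega)) (hdis.mono_left (hb.sub 0 Nat.zero_lt_one))
      (h.out 0 (Nat.zero_le 1) 0 Nat.zero_lt_one) (h.out 1 le_rfl 0 Nat.zero_lt_one)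
    rw [e] at h3 ⊢
    refine zz_mem ?_ h3
    refine insert_subset (h.mem 0 (Nat.zero_le 1)) (insert_subset (h.mem 1 le_rfl)
      (union_subset (h.sub 0 Nat.zero_lt_one) (hR.trans sdiff_subset)))
  | zero => rw [mul_zero]; exact Submodule.zero_mem _
  | add x y _ _ hx hy => rw [mul_add]; exact Submodule.add_mem _ hx hy
  | smul c x _ hx => rw [mul_smul_comm]; exact Submodule.smul_mem _ _ hx

/-- products with `q_2` -/
theorem step2 [CharZero K] [Fintype α] (hZz : S_Zz) (hQZ : S_QZ) (hQCy : S_QCy) {r a : ℕ}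
    {P : Finset α} {q : ℕ → α} {f : ℕ → Finset α} (h : BV r P 2 q f) (ha : 2 ≤ a)
    (hc : (a - 2) * (r + 2) + 1 ≤ (P \ bs 2 q f).card) {κ : Lx K α}
    (hκ : κ ∈ Bd K (r + 1) (P \ bs 2 q f) (a - 2) ⊔ ZS K r (P \ bs 2 q f) (a - 2)) :
    qn 2 q f * κ ∈ Bd K (r + 1) P a ⊔ ZS K r P a := by
  obtain ⟨κ1, h1, κ2, h2, rfl⟩ := Submodule.mem_sup.1 hκ
  rw [mul_add]
  refine Submodule.add_mem _ (Submodule.mem_sup_left (mul_Bd hQCy h ha h1))
    (Submodule.mem_sup_right ?_)
  clear hκ h1
  unfold ZS at h2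
  induction h2 using Submodule.span_induction with
  | mem x hx =>
    obtain ⟨R, u, v, m, hR, hV, rfl⟩ := hx
    have hRc : R.card = (a - 2) * (r + 2) := by
      rw [VC.card_eq hV]
      ring
    obtain ⟨y0, hy0, hy0R⟩ : ∃ y0 ∈ P \ bs 2 q f, y0 ∉ R := by
      by_contra hcon
      push Not at hcon
      have := card_le_card (show P \ bs 2 q f ⊆ R from hcon)
      omega
    have hy0b : y0 ∉ bs 2 q f := (mem_sdiff.1 hy0).2
    have hy0P : y0 ∈ P := (mem_sdiff.1 hy0).1
    have hdis : Disjoint (bs 2 q f) R := disjoint_sdiff.mono_right hR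
    have hb := BV.bsv h
    have hq0 := hb.mem 0 (by omega)
    have hq1 := hb.mem 1 (by omega)
    have hq2 := hb.mem 2 (by omega)
    have hf0 := hb.sub 0 (by omega)
    have hf1 := hb.sub 1 (by omega)
    -- the product of the brackets
    have hV1 := VC.cns hV (x := q 2) (y := y0) (g := f 1) (h.card 1 (by omega))
      (disjoint_left.1 hdis hq2) hy0R (fun hc => hy0b (hc ▸ hq2)) (hdis.mono_left hf1)
      (h.out 2 le_rfl 1 (by omega)) (fun hc => hy0b (hf1 hc))
    have hne : ∀ i ≤ 2, ∀ j ≤ 2, i ≠ j → q i ≠ q j := fun i hi j hj hij hc =>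
      hij (h.inj i hi j hj hc)
    have hV2 := VC.cns hV1 (x := q 0) (y := q 1) (g := f 0) (h.card 0 (by omega)) (by
        rw [mem_insert, mem_insert, mem_union, not_or, not_or, not_or]
        exact ⟨hne 0 (by omega) 2 le_rfl (by omega), fun hc => hy0b (hc ▸ hq0),
          h.out 0 (by omega) 1 (by omega), disjoint_left.1 hdis hq0⟩) (by
        rw [mem_insert, mem_insert, mem_union, not_or, not_or, not_or]
        exact ⟨hne 1 (by omega) 2 le_rfl (by omega), fun hc => hy0b (hc ▸ hq1),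
          h.out 1 (by omega) 1 (by omega), disjoint_left.1 hdis hq1⟩)
      (hne 0 (by omega) 1 (by omega) (by omega)) (by
        rw [disjoint_insert_right, disjoint_insert_right, disjoint_union_right]
        exact ⟨h.out 2 le_rfl 0 (by omega), fun hc => hy0b (hf0 hc),
          h.dis 0 (by omega) 1 (by omega) (by omega), hdis.mono_left hf0⟩)
      (h.out 0 (by omega) 0 (by omega)) (h.out 1 (by omega) 0 (by omega))
    have e : a - 2 + 1 + 1 = a := by omega
    have hG : ((ed (insert (q 0) (f 0)) - ed (insert (q 1) (f 0))) *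
        (ed (insert (q 2) (f 1)) - ed (insert y0 (f 1)))) * (zz (a - 2) u v m : Lx K α) ∈
          ZS K r P a := by
      rw [mul_assoc, ← zz_cns hZz (a - 2), ← zz_cns hZz (a - 2 + 1)]
      rw [e] at hV2 ⊢
      refine zz_mem ?_ hV2
      refine insert_subset (h.mem 0 (by omega)) (insert_subset (h.mem 1 (by omega))
        (union_subset (h.sub 0 (by omega)) (insert_subset (h.mem 2 le_rfl)
          (insert_subset hy0P (union_subset (h.sub 1 (by omega)) (hR.trans sdiff_subset))))))
    -- the alternating sum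
    have hA := hQZ K α q f y0 (fun i hi j hj hij => h.inj i hi j hj hij)
      (fun i hi hc => hy0b (hc ▸ hb.mem i hi)) (fun i hi j hj => h.out i hi j (by omega))
      (fun j hj hc => hy0b (hb.sub j (by omega) hc))
    have hB : asym (act K α) {q 0, q 1, q 2} ((ed (insert (q 0) (f 0)) -
        ed (insert (q 1) (f 0))) * (ed (insert (q 2) (f 1)) - ed (insert y0 (f 1)))) *
          (zz (a - 2) u v m : Lx K α) ∈ ZS K r P a := by
      unfold asym
      rw [LinearMap.sum_apply, sum_mul]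
      refine Submodule.sum_mem _ fun σ hσ => ?_
      rw [LinearMap.smul_apply, smul_mul_assoc]
      refine Submodule.smul_mem _ _ ?_
      have hσ1 : Sup {q 0, q 1, q 2} σ := by
        classical
        exact (mem_filter.1 (by convert hσ)).2
      have hfix : ∀ b ∈ R, σ b = b := by
        intro b hb'
        refine hσ1 b ?_
        rw [mem_insert, mem_insert, mem_singleton, not_or, not_or]
        exact ⟨fun hc => disjoint_left.1 hdis hq0 (hc ▸ hb'),
          fun hc => disjoint_left.1 hdis hq1 (hc ▸ hb'),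
          fun hc => disjoint_left.1 hdis hq2 (hc ▸ hb')⟩
      have hZmem : (zz (a - 2) u v m : Lx K α) ∈ Mt K (r + 1) R (a - 2) :=
        ((hZz K α (a - 2) u v m).2.2.2.2 r (a - 2) R hV le_rfl).1
      rw [← act_eq_self hfix hZmem]
      have hσP : Sup P σ := by
        intro b hb'
        refine hσ1 b ?_
        rw [mem_insert, mem_insert, mem_singleton, not_or, not_or]
        exact ⟨fun hc => hb' (hc ▸ h.mem 0 (by omega)),
          fun hc => hb' (hc ▸ h.mem 1 (by omega)),
          fun hc => hb' (hc ▸ h.mem 2 le_rfl)⟩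
      rw [← act_mul]
      exact act_ZS hZz hσP hG
    rw [hA, neg_mul, smul_mul_assoc] at hB
    have h2 : ((2 : K)⁻¹) • ((2 : K) • (qn 2 q f * zz (a - 2) u v m : Lx K α)) ∈ ZS K r P a :=
      Submodule.smul_mem _ _ ((Submodule.neg_mem_iff _).1 hB)
    rwa [smul_smul, inv_mul_cancel₀ two_ne_zero, one_smul] at h2
  | zero => rw [mul_zero]; exact Submodule.zero_mem _
  | add x y _ _ hx hy => rw [mul_add]; exact Submodule.add_mem _ hx hy
  | smul c x _ hx => rw [mul_smul_comm]; exact Submodule.smul_mem _ _ hx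

end main

end G1X

open G1X

theorem prf_G1 (hRep1 : S_Rep1) (hInv1 : S_Inv1) (hRed : S_Red) (hZz : S_Zz) (hQZ : S_QZ)
    (hGH : S_GH) (hQCy : S_QCy) : S_G1 := by
  intro K _ _ α _ _ _ r a P hr
  induction a using Nat.strong_induction_on generalizing P with
  | _ a ih =>
  intro haP
  rcases Nat.eq_zero_or_pos a with ha0 | ha1
  · subst ha0
    exact base r P
  change Cy K (r + 1) P a ≤ Bd K (r + 1) P a ⊔ ZS K r P a
  have har : a * (r + 2) = (a - 1) * (r + 2) + (r + 2) := by
    obtain ⟨b, rfl⟩ := Nat.exists_eq_add_of_le ha1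
    rw [Nat.add_sub_cancel_left]
    ring
  refine hRep1 K α (Lx K α) (act K α) P _ _ ?_ ?_ ?_ ?_
  · intro σ hσ z hz
    exact act_Cy_sup hσ (Subset.refl P) hz
  · intro σ hσ z hz
    obtain ⟨z1, h1, z2, h2, rfl⟩ := Submodule.mem_sup.1 hz
    rw [map_add]
    exact Submodule.add_mem _ (Submodule.mem_sup_left (act_Bd_sup hσ (Subset.refl P) h1))
      (Submodule.mem_sup_right (act_ZS hZz hσ h2))
  · intro z hz hinv
    rw [hInv1 K α r a P ha1 (by omega) z hz hinv]
    exact Submodule.zero_mem _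
  · intro x hx y hy hxy z hz hanti
    obtain ⟨q, hq⟩ : ∃ q : ℕ → α, q = fun i => if i = 0 then x else y := ⟨_, rfl⟩
    have hq0 : q 0 = x := by rw [hq]; simp
    have hq1 : q 1 = y := by rw [hq]; simp
    have himg : (range (1 + 1)).image q = {x, y} := by
      rw [range_add_one, image_insert, range_one, image_singleton, hq0, hq1]
      exact pair_comm y x
    have hG : 1 + 1 ≤ a → ∀ R ⊆ P, R.card + (1 + 1) * (r + 1) = P.card →
        Gx K (r + 1) R (a - (1 + 1)) := by
      intro h2 R hR hcard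
      have har2 : a * (r + 2) = (a - (1 + 1)) * (r + 2) + 2 * (r + 2) := by
        obtain ⟨b, rfl⟩ := Nat.exists_eq_add_of_le h2
        rw [Nat.add_sub_cancel_left]
        ring
      have hc : (a - (1 + 1)) * (r + 2) + 1 ≤ R.card := by omega
      refine hGH K α r (a - (1 + 1)) R hr hc ?_
      exact ih (a - (1 + 1)) (by omega) R (by omega)
    have hred := hRed K α r 1 a P q hr le_rfl (by
      intro i hi i' hi' h
      rcases Nat.le_one_iff_eq_zero_or_eq_one.1 hi with rfl | rfl <;>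
        rcases Nat.le_one_iff_eq_zero_or_eq_one.1 hi' with rfl | rfl
      · rfl
      · rw [hq0, hq1] at h; exact absurd h hxy
      · rw [hq0, hq1] at h; exact absurd h.symm hxy
      · rfl) (by
      intro i hi
      rcases Nat.le_one_iff_eq_zero_or_eq_one.1 hi with rfl | rfl
      · rw [hq0]; exact hx
      · rw [hq1]; exact hy) hG z hz (by
      intro σ hσ
      rw [himg] at hσ
      rcases sup_two hσ with rfl | rfl
      · rw [map_one, Equiv.Perm.sign_one]
        simp
      · rw [hanti, Equiv.Perm.sign_swap hxy]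
        simp)
    refine (show Bd K (r + 1) P a ⊔ spQ K r P 1 a q (Cy K (r + 1)) ⊔
      ⨆ w : α, spQ K r P (1 + 1) a (Function.update q (1 + 1) w) (Cy K (r + 1)) ≤
        Bd K (r + 1) P a ⊔ ZS K r P a from
      sup_le (sup_le le_sup_left ?_) (iSup_le fun w => ?_)) hred
    · unfold spQ
      rw [Submodule.span_le]
      rintro _ ⟨f, κ, hV, h1a, hκ, rfl⟩
      refine step1 hZz hQCy hV h1a ?_
      refine ih (a - 1) (by omega) _ ?_ hκ
      rw [card_sdiff_of_subset (BV.bs_sub hV), BV.bs_card hV]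
      omega
    · unfold spQ
      rw [Submodule.span_le]
      rintro _ ⟨f, κ, hV, h2a, hκ, rfl⟩
      have h2a' : 2 ≤ a := h2a
      have har2 : a * (r + 2) = (a - 2) * (r + 2) + 2 * (r + 2) := by
        obtain ⟨b, rfl⟩ := Nat.exists_eq_add_of_le h2a'
        rw [Nat.add_sub_cancel_left]
        ring
      have hc : (a - 2) * (r + 2) + 1 ≤ (P \ bs 2 (Function.update q (1 + 1) w) f).card := by
        rw [card_sdiff_of_subset (BV.bs_sub hV), BV.bs_card hV]
        omega
      refine step2 hZz hQZ hQCy hV h2a hc ?_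
      exact ih (a - 2) (by omega) _ (by omega) hκ

end Pool.Agent.Work.MP_1233f5_ag.Y

end

section

/-! MP_1233f5_ag, block Y, item G2: second generation theorem, local form. -/

set_option autoImplicit false

namespace Pool.Agent.Work.MP_1233f5_ag.Y

open Finset
open Pool.Agent.Work.MP_1233f5_ag.V (vm ML theta)
open Pool.Agent.Work.MP_1233f5_ag.Sec (Fk wd ct ee ff hh IsSec IsDeg swd brk)

namespace G2X

variable {α : Type} [Fintype α] [DecidableEq α] {K : Type} [Field K]

theorem rho_asym {H : Type} [AddCommGroup H] [Module K H] (ρ : Equiv.Perm α →* Module.End K H)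
    {Q : Finset α} {τ : Equiv.Perm α} (hτ : Sup Q τ) (h : H) :
    ρ τ (asym ρ Q h) = ((Equiv.Perm.sign τ : ℤ) : K) • asym ρ Q h := by
  classical
  have hsq : ((Equiv.Perm.sign τ : ℤ) : K) * ((Equiv.Perm.sign τ : ℤ) : K) = 1 := by
    rw [← Int.cast_mul, Int.units_coe_mul_self, Int.cast_one]
  rw [U.asym_apply, map_sum, smul_sum]
  refine sum_nbij' (fun σ => τ * σ) (fun σ => τ⁻¹ * σ) ?_ ?_ ?_ ?_ ?_
  · intro σ hσ
    simp only [mem_filter, mem_univ, true_and] at hσ ⊢
    exact U.sup_mul hτ hσ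
  · intro σ hσ
    simp only [mem_filter, mem_univ, true_and] at hσ ⊢
    exact U.sup_mul (U.sup_inv hτ) hσ
  · intro σ _
    exact inv_mul_cancel_left τ σ
  · intro σ _
    exact mul_inv_cancel_left τ σ
  · intro σ _
    rw [map_mul ρ, Module.End.mul_apply, map_smul, smul_smul, Equiv.Perm.sign_mul, Units.val_mul,
      Int.cast_mul, ← mul_assoc, hsq, one_mul]

theorem asym_Cy {d a : ℕ} {P Q : Finset α} (hQ : Q ⊆ P) {κ : Lx K α} (hκ : κ ∈ Cy K d P a) :
    asym (act K α) Q κ ∈ Cy K d P a := by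
  classical
  rw [U.asym_apply]
  refine Submodule.sum_mem _ fun σ hσ => Submodule.smul_mem _ _ ?_
  exact act_Cy_sup (mem_filter.1 hσ).2 hQ hκ

omit [Fintype α] in
theorem spQ_le {r a b : ℕ} {P : Finset α} {q : ℕ → α} (hb : 2 ≤ b) :
    spQ K r P b a q (Cy K (r + 1)) ≤ spB K r P a := by
  refine Submodule.span_mono ?_
  rintro _ ⟨f, w, h1, h2, h3, rfl⟩
  exact ⟨b, q, f, w, hb, h2, h1, h3, rfl⟩

end G2X

theorem prf_G2 (hG1 : S_G1) (hGH : S_GH) (hRed : S_Red) (hQCy : S_QCy) : S_G2 := by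
  intro K _ _ α _ _ r a P Q hr ha hQP hQ3 κ hκ
  have _ := hQCy
  obtain ⟨x, y, z, hxy, hxz, hyz, hQ⟩ := Finset.card_eq_three.1 hQ3
  have : Nonempty α := ⟨x⟩
  obtain ⟨q, hq0, hq1, hq2⟩ : ∃ q : ℕ → α, q 0 = x ∧ q 1 = y ∧ q 2 = z :=
    ⟨fun i => if i = 0 then x else if i = 1 then y else z, rfl, rfl, rfl⟩
  have him : (range (2 + 1)).image q = Q := by
    rw [hQ]
    ext w
    simp only [mem_image, mem_range, mem_insert, mem_singleton]
    constructor
    · rintro ⟨i, hi, rfl⟩
      have : i = 0 ∨ i = 1 ∨ i = 2 := by omega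
      rcases this with rfl | rfl | rfl
      · exact Or.inl hq0
      · exact Or.inr (Or.inl hq1)
      · exact Or.inr (Or.inr hq2)
    · rintro (rfl | rfl | rfl)
      · exact ⟨0, by omega, hq0⟩
      · exact ⟨1, by omega, hq1⟩
      · exact ⟨2, by omega, hq2⟩
  have h01 : q 0 ≠ q 1 := by rw [hq0, hq1]; exact hxy
  have h02 : q 0 ≠ q 2 := by rw [hq0, hq2]; exact hxz
  have h12 : q 1 ≠ q 2 := by rw [hq1, hq2]; exact hyz
  have hinj : ∀ i ≤ 2, ∀ i' ≤ 2, q i = q i' → i = i' := by
    intro i hi i' hi' h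
    have h1 : i = 0 ∨ i = 1 ∨ i = 2 := by omega
    have h2 : i' = 0 ∨ i' = 1 ∨ i' = 2 := by omega
    rcases h1 with rfl | rfl | rfl <;> rcases h2 with rfl | rfl | rfl <;>
      first
        | rfl
        | exact absurd h h01
        | exact absurd h.symm h01
        | exact absurd h h02
        | exact absurd h.symm h02
        | exact absurd h h12
        | exact absurd h.symm h12
  have hmem : ∀ i ≤ 2, q i ∈ P := by
    intro i hi
    apply hQP
    rw [← him]
    exact mem_image_of_mem q (mem_range.2 (by omega))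
  have h := hRed K α r 2 a P q hr (by omega) hinj hmem ?_ (asym (act K α) Q κ)
    (G2X.asym_Cy hQP hκ) ?_
  · refine (sup_le (sup_le ?_ ?_) ?_ : _ ≤ Bd K (r + 1) P a ⊔ spB K r P a) h
    · exact le_sup_left
    · exact (G2X.spQ_le le_rfl).trans le_sup_right
    · exact iSup_le fun x => (G2X.spQ_le (by omega)).trans le_sup_right
  · intro h3 R _ hRc
    have hc : (a - (2 + 1)) * (r + 2) + 1 ≤ R.card := by
      obtain ⟨a', rfl⟩ : ∃ a', a = a' + 3 := ⟨a - 3, by omega⟩
      rw [show a' + 3 - (2 + 1) = a' by omega]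
      have h4 : (a' + 3) * (r + 2) = a' * (r + 2) + 3 * r + 6 := by ring
      omega
    refine hGH K α r (a - (2 + 1)) R hr hc ?_
    exact hG1 K α r (a - (2 + 1)) R hr (by omega)
  · intro σ hσ
    rw [him] at hσ
    exact G2X.rho_asym (act K α) hσ κ

end Pool.Agent.Work.MP_1233f5_ag.Y

end

section

/-! MP_1233f5_ag, block Y, part C: item GH. -/

set_option autoImplicit false

namespace Pool.Agent.Work.MP_1233f5_ag.Y

open Finset
open Pool.Agent.Work.MP_1233f5_ag.V (vm ML theta)
open Pool.Agent.Work.MP_1233f5_ag.Sec (Fk wd ct ee ff hh IsSec IsDeg swd brk)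

theorem prf_GH (hZz : S_Zz) : S_GH := by
  intro K _ _ α _ _ _ r a P _ hc hP
  unfold Gx
  refine hP.trans (sup_le_sup le_rfl (Submodule.span_le.2 ?_))
  rintro _ ⟨R, u, v, m, hR, hV, rfl⟩
  have hz : (zz a u v m : Lx K α) ∈ Cy K (r + 1) R a :=
    (hZz K α a u v m).2.2.2.2 r a R hV le_rfl
  have hlt : R.card < P.card := by
    rw [hV.card_eq]
    refine lt_of_lt_of_le ?_ hc
    have : 2 * a + a * r + 1 = a * (r + 2) + 1 := by ring
    omega
  obtain ⟨x, hx, hxR⟩ := Finset.exists_mem_notMem_of_card_lt_card hlt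
  have hle : Cy K (r + 1) R a ≤ Cy K (r + 1) (P.erase x) a := by
    refine Cy_mono ?_
    intro y hy
    exact mem_erase.2 ⟨fun h => hxR (h ▸ hy), hR hy⟩
  exact (le_iSup₂_of_le (f := fun x (_ : x ∈ P) => Cy K (r + 1) (P.erase x) a) x hx le_rfl)
    (hle hz)

end Pool.Agent.Work.MP_1233f5_ag.Y

end

section

/-! MP_1233f5_ag, block Y, item Inv1: there are no invariant cycles. -/

set_option autoImplicit false

namespace Pool.Agent.Work.MP_1233f5_ag.Y

open Finset
open Pool.Agent.Work.MP_1233f5_ag.V (vm ML theta)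
open Pool.Agent.Work.MP_1233f5_ag.Sec (Fk wd ct ee ff hh IsSec IsDeg swd brk)

namespace Inv1X

variable {K : Type} [Field K] {α : Type} [Fintype α] [DecidableEq α]

open Classical in
/-- the sum over the permutations which move only points of `P`. -/
noncomputable def SS (K : Type) [Field K] {α : Type} [Fintype α] [DecidableEq α] (P : Finset α) :
    Lx K α →ₗ[K] Lx K α :=
  ∑ σ ∈ univ.filter (fun σ : Equiv.Perm α => Sup P σ), (act K α σ : Lx K α →ₗ[K] Lx K α)

open Classical in
theorem SS_apply (P : Finset α) (x : Lx K α) :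
    SS K P x = ∑ σ ∈ univ.filter (fun σ : Equiv.Perm α => Sup P σ), act K α σ x := by
  unfold SS
  rw [LinearMap.sum_apply]

omit [Fintype α] [DecidableEq α] in
theorem Sup_mul {P : Finset α} {σ τ : Equiv.Perm α} (h1 : Sup P σ) (h2 : Sup P τ) :
    Sup P (σ * τ) := by
  intro a ha
  rw [Equiv.Perm.mul_apply, h2 a ha, h1 a ha]

omit [Fintype α] [DecidableEq α] in
theorem Sup_inv {P : Finset α} {σ : Equiv.Perm α} (h1 : Sup P σ) : Sup P σ⁻¹ := by
  intro a ha
  rw [Equiv.Perm.inv_eq_iff_eq]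
  exact (h1 a ha).symm

open Classical in
theorem SS_act (P : Finset α) {τ : Equiv.Perm α} (hτ : Sup P τ) (x : Lx K α) :
    SS K P (act K α τ x) = SS K P x := by
  rw [SS_apply, SS_apply]
  refine Finset.sum_bij' (fun σ _ => σ * τ) (fun σ _ => σ * τ⁻¹) ?_ ?_ ?_ ?_ ?_
  · intro σ hσ
    rw [mem_filter] at hσ ⊢
    exact ⟨mem_univ _, Sup_mul hσ.2 hτ⟩
  · intro σ hσ
    rw [mem_filter] at hσ ⊢
    exact ⟨mem_univ _, Sup_mul hσ.2 (Sup_inv hτ)⟩
  · intro σ _
    simp
  · intro σ _
    simp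
  · intro σ _
    rw [map_mul]
    rfl

open Classical in
theorem eq_zero_of_SS [CharZero K] (P : Finset α) {z : Lx K α}
    (h : ∀ σ, Sup P σ → act K α σ z = z) (hz : SS K P z = 0) : z = 0 := by
  rw [SS_apply, Finset.sum_congr rfl (g := fun _ => z) (fun σ hσ => h σ (mem_filter.1 hσ).2),
    Finset.sum_const, ← Nat.cast_smul_eq_nsmul K] at hz
  rcases smul_eq_zero.1 hz with h1 | h1
  · exfalso
    rw [Nat.cast_eq_zero, Finset.card_eq_zero] at h1
    have h2 : (1 : Equiv.Perm α) ∈ univ.filter (fun σ : Equiv.Perm α => Sup P σ) := by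
      rw [mem_filter]
      exact ⟨mem_univ _, fun a _ => rfl⟩
    rw [h1] at h2
    simp at h2
  · exact h1

omit [Fintype α] in
/-- exchange of two disjoint sets with the same number of elements. -/
theorem exch {e e' : Finset α} (hc : e.card = e'.card) (hd : Disjoint e e') :
    ∃ τ : Equiv.Perm α, im τ e = e' ∧ im τ e' = e ∧ ∀ a, a ∉ e → a ∉ e' → τ a = a := by
  classical
  let E : e ≃ e' := Finset.equivOfCardEq hc
  let f : α → α := fun a => if h : a ∈ e then (E ⟨a, h⟩ : α) else
    if h' : a ∈ e' then (E.symm ⟨a, h'⟩ : α) else a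
  have f1 : ∀ a (h : a ∈ e), f a = (E ⟨a, h⟩ : α) := fun a h => by
    simp only [f]
    rw [dif_pos h]
  have f2 : ∀ a (h : a ∈ e'), f a = (E.symm ⟨a, h⟩ : α) := fun a h => by
    simp only [f]
    rw [dif_neg (fun h' => Finset.disjoint_left.1 hd h' h), dif_pos h]
  have f3 : ∀ a, a ∉ e → a ∉ e' → f a = a := fun a h h' => by
    simp only [f]
    rw [dif_neg h, dif_neg h']
  have hf : Function.Involutive f := by
    intro a
    by_cases h : a ∈ e
    · rw [f1 a h, f2 _ (E ⟨a, h⟩).2]
      simp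
    · by_cases h' : a ∈ e'
      · rw [f2 a h', f1 _ (E.symm ⟨a, h'⟩).2]
        simp
      · rw [f3 a h h', f3 a h h']
  have m1 : ∀ a ∈ e, f a ∈ e' := fun a h => by rw [f1 a h]; exact (E ⟨a, h⟩).2
  have m2 : ∀ a ∈ e', f a ∈ e := fun a h => by rw [f2 a h]; exact (E.symm ⟨a, h⟩).2
  have hinv : ∀ a, (hf.toPerm f)⁻¹ a = f a := by
    intro a
    rw [Equiv.Perm.inv_eq_iff_eq]
    exact (hf a).symm
  refine ⟨hf.toPerm f, ?_, ?_, fun a h h' => f3 a h h'⟩
  · ext a
    rw [mem_im, hinv]
    constructor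
    · intro h
      have := m1 _ h
      rwa [hf a] at this
    · exact m2 a
  · ext a
    rw [mem_im, hinv]
    constructor
    · intro h
      have := m2 _ h
      rwa [hf a] at this
    · exact m1 a

theorem SS_mo [CharZero K] {d a : ℕ} {P : Finset α} {t : Fin (a + 2) → Finset α}
    (ht : vm d P (a + 2) t) : SS K P (mo t : Lx K α) = 0 := by
  obtain ⟨τ, h1, h2, h3⟩ := exch (e := t 0) (e' := t 1) (by rw [(ht.1 0).1, (ht.1 1).1])
    (ht.2 0 1 (by simp))
  have hτ : Sup P τ := fun a ha => h3 a (fun h => ha ((ht.1 0).2 h)) (fun h => ha ((ht.1 1).2 h))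
  have h4 : (fun i => im τ (t i)) = t ∘ (Equiv.swap (0 : Fin (a + 2)) 1) := by
    funext i
    by_cases hi0 : i = 0
    · subst hi0
      simp [h1]
    · by_cases hi1 : i = 1
      · subst hi1
        simp [h2]
      · rw [Function.comp_apply, Equiv.swap_apply_of_ne_of_ne hi0 hi1]
        refine im_eq_self fun b hb => h3 b ?_ ?_
        · intro hb'
          exact Finset.disjoint_left.1 (ht.2 i 0 hi0) hb hb'
        · intro hb'
          exact Finset.disjoint_left.1 (ht.2 i 1 hi1) hb hb'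
  have h5 : act K α τ (mo t : Lx K α) = -mo t := by
    rw [act_mo, h4, mo_perm, Equiv.Perm.sign_swap (by simp)]
    simp
  have h6 := SS_act (K := K) P hτ (mo t)
  rw [h5, map_neg] at h6
  have h7 : (2 : K) • SS K P (mo t : Lx K α) = 0 := by
    rw [two_smul]
    nth_rewrite 1 [← h6]
    exact neg_add_cancel _
  exact (smul_eq_zero.1 h7).resolve_left two_ne_zero

theorem SS_Mt [CharZero K] {d a : ℕ} {P : Finset α} {x : Lx K α}
    (hx : x ∈ Mt K d P (a + 2)) : SS K P x = 0 := by
  induction hx using Submodule.span_induction with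
  | mem x hx =>
    obtain ⟨t, ht, rfl⟩ := hx
    exact SS_mo ht
  | zero => exact map_zero _
  | add x y _ _ hx hy => rw [map_add, hx, hy, add_zero]
  | smul c x _ hx => rw [map_smul, hx, smul_zero]

/-- the permutations of `P` act transitively on the subsets of given size. -/
theorem trans {P e e' : Finset α} (he : e ⊆ P) (he' : e' ⊆ P) (hc : e.card = e'.card) :
    ∃ τ : Equiv.Perm α, Sup P τ ∧ im τ e = e' := by
  classical
  have hcard : Fintype.card {x : {x // x ∈ P} // (x : α) ∈ e} =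
      Fintype.card {x : {x // x ∈ P} // (x : α) ∈ e'} := by
    have key : ∀ s : Finset α, s ⊆ P →
        Fintype.card {x : {x // x ∈ P} // (x : α) ∈ s} = s.card := by
      intro s hs
      rw [← Fintype.card_coe s]
      refine Fintype.card_congr ⟨fun x => ⟨x.1.1, x.2⟩, fun x => ⟨⟨x.1, hs x.2⟩, x.2⟩, ?_, ?_⟩
      · intro x; rfl
      · intro x; rfl
    rw [key e he, key e' he', hc]
  let E := Fintype.equivOfCardEq hcard
  let ρ : Equiv.Perm {x // x ∈ P} := Equiv.extendSubtype E
  refine ⟨Equiv.Perm.ofSubtype ρ, fun a ha => Equiv.Perm.ofSubtype_apply_of_not_mem ρ ha, ?_⟩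
  have hsub : im (Equiv.Perm.ofSubtype ρ) e ⊆ e' := by
    intro a ha
    rw [mem_im] at ha
    have haP := he ha
    have h1 : a = ((ρ ⟨_, haP⟩ : {x // x ∈ P}) : α) := by
      have := Equiv.Perm.ofSubtype_apply_of_mem ρ haP
      rw [← this, perm_ai]
    rw [h1]
    exact Equiv.extendSubtype_mem E ⟨_, haP⟩ ha
  exact Finset.eq_of_subset_of_card_le hsub (by rw [card_im, hc])

theorem one_case {r : ℕ} {P e0 : Finset α} (he0 : e0 ⊆ P) (hc0 : e0.card = r + 1)
    {x : Lx K α} (hx : x ∈ Mt K (r + 1) P 1) :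
    ∃ l : K, Dx x = l • 1 ∧ SS K P x = l • SS K P (ed e0) := by
  induction hx using Submodule.span_induction with
  | mem x hx =>
    obtain ⟨t, ht, rfl⟩ := hx
    obtain ⟨τ, hτ, hτ2⟩ := trans (ht.1 0).2 he0 (by rw [(ht.1 0).1, hc0])
    have h1 : (mo t : Lx K α) = ed (t 0) := by
      rw [mo_succ, mo_zero, mul_one]
    refine ⟨1, ?_, ?_⟩
    · rw [h1, one_smul, ← mul_one (ed (t 0)), Dx_ed_mul, Dx_one, mul_zero, sub_zero]
    · rw [h1, one_smul, ← SS_act P hτ, act_ed, hτ2]
  | zero => exact ⟨0, by simp, by simp⟩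
  | add x y _ _ hx hy =>
    obtain ⟨l, h1, h2⟩ := hx
    obtain ⟨l', h1', h2'⟩ := hy
    exact ⟨l + l', by rw [map_add, h1, h1', add_smul], by rw [map_add, h2, h2', add_smul]⟩
  | smul c x _ hx =>
    obtain ⟨l, h1, h2⟩ := hx
    exact ⟨c * l, by rw [map_smul, h1, smul_smul], by rw [map_smul, h2, smul_smul]⟩

end Inv1X

open Inv1X in
theorem prf_Inv1 : S_Inv1 := by
  intro K _ _ α _ _ r a P ha hP z hz hinv
  refine eq_zero_of_SS P hinv ?_
  obtain ⟨a, rfl⟩ : ∃ b, a = b + 1 := ⟨a - 1, by omega⟩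
  rcases Nat.eq_zero_or_pos a with h0 | h0
  · subst h0
    obtain ⟨e0, he0⟩ := Finset.powersetCard_nonempty.2 hP
    rw [mem_powersetCard] at he0
    obtain ⟨l, h1, h2⟩ := one_case he0.1 he0.2 hz.1
    have h3 : Dx z = 0 := hz.2
    rw [h3, ← Algebra.algebraMap_eq_smul_one] at h1
    have h4 : l = 0 := (ExteriorAlgebra.algebraMap_eq_zero_iff _ l).1 h1.symm
    rw [h2, h4, zero_smul]
  · obtain ⟨b, rfl⟩ : ∃ b, a = b + 1 := ⟨a - 1, by omega⟩
    exact SS_Mt hz.1

end Pool.Agent.Work.MP_1233f5_ag.Y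

end

section

/-! MP_1233f5_ag, block Y: the sharp multilinear vanishing at `T = 2 d - 1`. -/

set_option autoImplicit false

namespace Pool.Agent.Work.MP_1233f5_ag.Y

open Finset
open Pool.Agent.Work.MP_1233f5_ag.V (vm ML theta)
open Pool.Agent.Work.MP_1233f5_ag.Sec (Fk wd ct ee ff hh IsSec IsDeg swd brk)

namespace MLrX

theorem all_Wd (hWStep : S_WStep) (K : Type) [Field K] [CharZero K] (r p : ℕ) (hr : 1 ≤ r)
    (hp : p ≤ 2 * r) (a : ℕ) : Wd K (Fin (p * (r + 1) + (2 * r + 1))) r p a := by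
  induction a using Nat.strong_induction_on with
  | _ a ih => exact hWStep K _ r p a hr (Fintype.card_fin _) hp ih

end MLrX

open MLrX in
theorem prf_MLr (hWStep : S_WStep) (hBrg : S_Brg) : S_MLr := by
  intro K _ _ r p hr hp
  refine hBrg K (r + 1) (2 * r + 1) p fun κ hκ => ?_
  have h := all_Wd hWStep K r p hr hp p [] (fun _ => 0)
    (fun _ _ => ⟨0, by omega⟩) (fun _ => ∅)
    ⟨List.nodup_nil, by simp, by simp, by simp⟩ (by simp) κ
  have h1 : ls [] (fun _ => 0) (fun _ _ => (⟨0, by omega⟩ : Fin (p * (r + 1) + (2 * r + 1))))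
      (fun _ => ∅) = ∅ := by simp [ls]
  have h2 : (pq [] (fun _ => 0) (fun _ _ => (⟨0, by omega⟩ : Fin (p * (r + 1) + (2 * r + 1))))
      (fun _ => ∅) : Lx K _) = 1 := by simp [pq]
  rw [h1, h2, sdiff_empty, one_mul] at h
  exact h hκ

end Pool.Agent.Work.MP_1233f5_ag.Y

end

section

/-! MP_1233f5_ag, block Y, item Main3. -/

set_option autoImplicit false

namespace Pool.Agent.Work.MP_1233f5_ag.Y

open Finset
open Pool.Agent.Work.MP_1233f5_ag.V (vm ML theta)

namespace Main3X

theorem choose_aux (d : ℕ) : (d + 2).choose 2 = d.choose 2 + (2 * d + 1) := by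
  rw [Nat.choose_succ_succ' (d + 1) 1, Nat.choose_succ_succ' d 1, Nat.choose_one_right,
    Nat.choose_one_right]
  ring

theorem theta_eq {d : ℕ} (hd : 3 ≤ d) : theta d (2 * d - 1) = 2 * d - 1 := by
  have h1 : (2 * d - 1) / (d - 1) = 2 := by
    rw [Nat.div_eq_iff (by omega)]
    omega
  unfold theta
  rw [h1]
  have h2 : (2 + 1) * (d - 1) - (2 * d - 1) + 2 = d := by omega
  rw [h2, choose_aux]
  omega

end Main3X

theorem prf_Main3 (hMLr : S_MLr) (hStep : Pool.Agent.Work.MP_1233f5_ag.V.S_Step) :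
    S_Main3 := by
  intro K _ _ d T
  induction T with
  | zero =>
    intro p hd hp
    simp [bnd3] at hp
  | succ T ihT =>
    intro p
    by_cases hT : T + 1 = 2 * d - 1
    · intro hd hp
      rw [bnd3, if_pos hT, hT, Main3X.theta_eq hd] at hp
      obtain ⟨r, rfl⟩ : ∃ r, d = r + 1 := ⟨d - 1, by omega⟩
      have h1 : T + 1 = 2 * r + 1 := by omega
      rw [h1]
      exact hMLr K r p (by omega) (by omega)
    · induction p using Nat.strong_induction_on with
      | _ p ihp =>
        intro hd hp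
        have hp0 := hp
        rw [bnd3, if_neg hT] at hp
        have hp1 : p < theta d (T + 1) := lt_of_lt_of_le hp (min_le_left _ _)
        have hp2 : p < bnd3 d T + (T + 1) / (d - 1) + 1 := lt_of_lt_of_le hp (min_le_right _ _)
        have hd1 : 0 < d - 1 := by omega
        have hlt : T + 1 < ((T + 1) / (d - 1) + 1) * (d - 1) := by
          have := Nat.lt_div_mul_add (a := T + 1) hd1
          rw [Nat.add_mul, one_mul]
          exact this
        unfold theta at hp1
        generalize hq : (T + 1) / (d - 1) = q at hp1 hp2 hlt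
        refine hStep K d (T + 1) p (q + 1) ((q + 1) * (d - 1) - (T + 1)) (by omega)
          (Nat.le_add_left _ _) (Nat.le_add_left _ _) (Nat.add_sub_of_le hlt.le) ?_ ?_ ?_
        · have e1 : d + (q + 1) - 1 = d + q := by omega
          have e2 : (q + 1) * (d - 1) - (T + 1) + (q + 1) - 1
              = (q + 1) * (d - 1) - (T + 1) + q := by omega
          rw [e1, e2, Nat.add_sub_cancel]
          omega
        · intro p' hp'
          exact ihp p' (by omega) hd (lt_trans (by omega) hp0)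
        · intro p' hp'
          exact ihT p' hd (by omega)

end Pool.Agent.Work.MP_1233f5_ag.Y

end

section

/-! MP_1233f5_ag, block Y: item Pq (products of blocks). -/

set_option autoImplicit false

namespace Pool.Agent.Work.MP_1233f5_ag.Y

open Finset
open Pool.Agent.Work.MP_1233f5_ag.V (vm ML theta)
open Pool.Agent.Work.MP_1233f5_ag.Sec (Fk wd ct ee ff hh IsSec IsDeg swd brk)

namespace PqX

theorem bv_self {α : Type} [DecidableEq α] {r : ℕ} {P : Finset α} {b : ℕ} {η : ℕ → α}
    {n : ℕ → Finset α} (h : BV r P b η n) : BV r (bs b η n) b η n where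
  inj := h.inj
  mem := fun i hi => mem_union_left _ (mem_image_of_mem _ (mem_range.2 (Nat.lt_succ_of_le hi)))
  card := h.card
  sub := fun i hi => (subset_biUnion_of_mem n (mem_range.2 hi)).trans subset_union_right
  dis := h.dis
  out := h.out

theorem lv_tail {α : Type} [DecidableEq α] {r : ℕ} {P : Finset α} {j : ℕ} {L : List ℕ}
    {b : ℕ → ℕ} {η : ℕ → ℕ → α} {n : ℕ × ℕ → Finset α} (h : LV r P (j :: L) b η n) :
    LV r P L b η n where
  nod := (List.nodup_cons.1 h.nod).2
  two := fun i hi => h.two i (List.mem_cons_of_mem _ hi)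
  blk := fun i hi => h.blk i (List.mem_cons_of_mem _ hi)
  dis := fun i hi i' hi' => h.dis i (List.mem_cons_of_mem _ hi) i' (List.mem_cons_of_mem _ hi')

theorem pq_cons {K : Type} [Field K] {α : Type} [DecidableEq α] (j : ℕ) (L : List ℕ)
    (b : ℕ → ℕ) (η : ℕ → ℕ → α) (n : ℕ × ℕ → Finset α) :
    (pq (j :: L) b η n : Lx K α) = qn (b j) (η j) (fun i => n (j, i)) * pq L b η n := by
  unfold pq
  rw [List.map_cons, List.prod_cons]

theorem pq_nil {K : Type} [Field K] {α : Type} [DecidableEq α]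
    (b : ℕ → ℕ) (η : ℕ → ℕ → α) (n : ℕ × ℕ → Finset α) :
    (pq [] b η n : Lx K α) = 1 := by
  unfold pq
  rw [List.map_nil, List.prod_nil]

theorem ls_cons {α : Type} [DecidableEq α] (j : ℕ) (L : List ℕ)
    (b : ℕ → ℕ) (η : ℕ → ℕ → α) (n : ℕ × ℕ → Finset α) :
    ls (j :: L) b η n = bs (b j) (η j) (fun i => n (j, i)) ∪ ls L b η n := by
  unfold ls
  rw [List.toFinset_cons, biUnion_insert]

theorem cy (hQCy : S_QCy) (K : Type) [Field K] (α : Type) [DecidableEq α] (r : ℕ)
    (P : Finset α) (L : List ℕ) (b : ℕ → ℕ) (η : ℕ → ℕ → α) (n : ℕ × ℕ → Finset α)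
    (h : LV r P L b η n) : pq L b η n ∈ Cy K (r + 1) (ls L b η n) ((L.map b).sum) := by
  induction L with
  | nil =>
    rw [pq_nil, List.map_nil, List.sum_nil]
    exact ⟨one_mem_Mt _ _, Dx_one⟩
  | cons j L ih =>
    rw [pq_cons, ls_cons, List.map_cons, List.sum_cons]
    refine Cy_mul ?_ (hQCy K α r (b j) _ (η j) _ (bv_self (h.blk j List.mem_cons_self)))
      (ih (lv_tail h))
    unfold ls
    rw [disjoint_biUnion_right]
    intro i hi
    have hi' : i ∈ L := List.mem_toFinset.1 hi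
    have hne : j ≠ i := by
      rintro rfl
      exact (List.nodup_cons.1 h.nod).1 hi'
    exact h.dis j List.mem_cons_self i (List.mem_cons_of_mem _ hi') hne

theorem ac (hQAct : S_QAct) (K : Type) [Field K] (α : Type) [DecidableEq α]
    (L : List ℕ) (b : ℕ → ℕ) (η : ℕ → ℕ → α) (n : ℕ × ℕ → Finset α) (σ : Equiv.Perm α) :
    act K α σ (pq L b η n) = pq L b (fun j i => σ (η j i)) (fun s => im σ (n s)) := by
  induction L with
  | nil => rw [pq_nil, pq_nil, act_one]
  | cons j L ih =>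
    rw [pq_cons, pq_cons, act_mul, ih, (hQAct K α (b j) (η j) (fun i => n (j, i)) σ).1]

end PqX

theorem prf_Pq (hQCy : S_QCy) (hQAct : S_QAct) : S_Pq := by
  intro K _ α _ r P L b η n
  exact ⟨PqX.cy hQCy K α r P L b η n, PqX.ac hQAct K α L b η n⟩

end Pool.Agent.Work.MP_1233f5_ag.Y

end

section

/-! MP_1233f5_ag, block Y: the action of the permutations on the cycles. -/

set_option autoImplicit false

namespace Pool.Agent.Work.MP_1233f5_ag.Y

open Finset

theorem prf_QAct : S_QAct := by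
  intro K _ α _ b η n σ
  constructor
  · simp only [qn, map_sum, map_smul, act_mo, im_insert]
  · simp only [En, map_sum, map_smul, act_mo, im_insert]

end Pool.Agent.Work.MP_1233f5_ag.Y

end

section

set_option autoImplicit false

namespace Pool.Agent.Work.MP_1233f5_ag.Y

open Finset
open Pool.Agent.Work.MP_1233f5_ag.V (vm ML theta)
open Pool.Agent.Work.MP_1233f5_ag.Sec (Fk wd ct ee ff hh IsSec IsDeg swd brk)

namespace QCyX

theorem term_vm {α : Type} [DecidableEq α] {r b : ℕ} {P : Finset α} {η : ℕ → α}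
    {n : ℕ → Finset α} (h : BV r P b η n) (σ : Equiv.Perm (Fin (b + 1))) :
    vm (r + 1) P b (fun i : Fin b => insert (η ((σ i.castSucc : Fin (b + 1)) : ℕ)) (n (i : ℕ))) := by
  have hle : ∀ i : Fin b, ((σ i.castSucc : Fin (b + 1)) : ℕ) ≤ b := fun i =>
    Nat.le_of_lt_succ (σ i.castSucc).2
  refine ⟨fun i => ⟨?_, ?_⟩, fun i j hij => ?_⟩
  · rw [card_insert_of_notMem (h.out _ (hle i) _ i.2), h.card _ i.2]
  · exact insert_subset (h.mem _ (hle i)) (h.sub _ i.2)
  · have hij' : (i : ℕ) ≠ (j : ℕ) := fun hc => hij (Fin.ext hc)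
    rw [disjoint_insert_left, disjoint_insert_right, mem_insert, not_or]
    refine ⟨⟨fun hc => ?_, h.out _ (hle i) _ j.2⟩, h.out _ (hle j) _ i.2,
      h.dis _ i.2 _ j.2 hij'⟩
    have h1 := h.inj _ (hle i) _ (hle j) hc
    have h2 := σ.injective (Fin.ext h1)
    exact hij (Fin.castSucc_injective _ h2)

theorem inner {K : Type} [Field K] {α : Type} [DecidableEq α] (b : ℕ) (η : ℕ → α)
    (n : ℕ → Finset α) (i : Fin (b + 1)) :
    ∑ σ : Equiv.Perm (Fin (b + 1 + 1)), ((Equiv.Perm.sign σ : ℤ) : K) •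
      (((-1 : K) ^ (i : ℕ)) • (mo (i.removeNth (fun k : Fin (b + 1) =>
        insert (η ((σ k.castSucc : Fin (b + 1 + 1)) : ℕ)) (n (k : ℕ)))) : Lx K α)) = 0 := by
  have hne : i.castSucc ≠ Fin.last (b + 1) := (Fin.castSucc_lt_last i).ne
  refine Finset.sum_involution
    (fun σ _ => σ * Equiv.swap i.castSucc (Fin.last (b + 1))) ?_ ?_ (fun σ _ => mem_univ _) ?_
  · intro σ _
    have h1 : (i.removeNth (fun k : Fin (b + 1) =>
        insert (η ((((σ * Equiv.swap i.castSucc (Fin.last (b + 1))) k.castSucc :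
          Fin (b + 1 + 1))) : ℕ)) (n (k : ℕ)))) = (i.removeNth (fun k : Fin (b + 1) =>
        insert (η ((σ k.castSucc : Fin (b + 1 + 1)) : ℕ)) (n (k : ℕ)))) := by
      funext j
      unfold Fin.removeNth
      have h2 : Equiv.swap i.castSucc (Fin.last (b + 1)) (i.succAbove j).castSucc
          = (i.succAbove j).castSucc := by
        refine Equiv.swap_apply_of_ne_of_ne ?_ ?_
        · intro hc
          exact Fin.succAbove_ne i j (Fin.castSucc_injective _ hc)
        · exact (Fin.castSucc_lt_last _).ne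
      show insert (η (((σ (Equiv.swap i.castSucc (Fin.last (b + 1)) (i.succAbove j).castSucc) :
          Fin (b + 1 + 1))) : ℕ)) _ = _
      rw [h2]
    have h3 : Equiv.Perm.sign (σ * Equiv.swap i.castSucc (Fin.last (b + 1)))
        = -Equiv.Perm.sign σ := by
      rw [Equiv.Perm.sign_mul, Equiv.Perm.sign_swap hne, mul_neg_one]
    show _ + (((Equiv.Perm.sign (σ * Equiv.swap i.castSucc (Fin.last (b + 1))) : ℤˣ) : ℤ) : K) •
      (((-1 : K) ^ (i : ℕ)) • (mo (i.removeNth (fun k : Fin (b + 1) =>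
        insert (η ((((σ * Equiv.swap i.castSucc (Fin.last (b + 1))) k.castSucc :
          Fin (b + 1 + 1))) : ℕ)) (n (k : ℕ)))) : Lx K α)) = 0
    rw [h1, h3, Units.val_neg, Int.cast_neg, neg_smul, add_neg_cancel]
  · intro σ _ _ hc
    have h1 : Equiv.swap i.castSucc (Fin.last (b + 1)) = 1 := mul_eq_left.1 hc
    exact hne (Equiv.swap_eq_one_iff.1 h1)
  · intro σ _
    show σ * Equiv.swap i.castSucc (Fin.last (b + 1)) * Equiv.swap i.castSucc (Fin.last (b + 1))
      = σ
    rw [mul_assoc, Equiv.swap_mul_self, mul_one]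

theorem dx {K : Type} [Field K] {α : Type} [DecidableEq α] (b : ℕ) (η : ℕ → α)
    (n : ℕ → Finset α) : Dx (qn b η n : Lx K α) = 0 := by
  unfold qn
  rw [map_sum]
  cases b with
  | zero =>
    refine Finset.sum_eq_zero fun σ _ => ?_
    rw [map_smul, mo_zero, Dx_one, smul_zero]
  | succ b =>
    have h1 : ∀ σ : Equiv.Perm (Fin (b + 1 + 1)),
        Dx (((Equiv.Perm.sign σ : ℤ) : K) • (mo (fun k : Fin (b + 1) =>
          insert (η ((σ k.castSucc : Fin (b + 1 + 1)) : ℕ)) (n (k : ℕ))) : Lx K α))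
        = ∑ i : Fin (b + 1), ((Equiv.Perm.sign σ : ℤ) : K) •
          (((-1 : K) ^ (i : ℕ)) • (mo (i.removeNth (fun k : Fin (b + 1) =>
            insert (η ((σ k.castSucc : Fin (b + 1 + 1)) : ℕ)) (n (k : ℕ)))) : Lx K α)) := by
      intro σ
      rw [map_smul, Dx_mo, Finset.smul_sum]
    rw [Finset.sum_congr rfl fun σ _ => h1 σ, Finset.sum_comm]
    exact Finset.sum_eq_zero fun i _ => inner b η n i

end QCyX

theorem prf_QCy : S_QCy := by
  intro K _ α _ r b P η n h
  refine ⟨?_, QCyX.dx b η n⟩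
  unfold qn
  exact Submodule.sum_mem _ fun σ _ => Submodule.smul_mem _ _ (mo_mem_Mt (QCyX.term_vm h σ))

end Pool.Agent.Work.MP_1233f5_ag.Y

end

section

/-! MP_1233f5_ag, block Y: `q_2` with one more point is a combination of products of two `q_1`. -/

set_option autoImplicit false

namespace Pool.Agent.Work.MP_1233f5_ag.Y

open Finset
open Pool.Agent.Work.MP_1233f5_ag.V (vm ML theta)
open Pool.Agent.Work.MP_1233f5_ag.Sec (Fk wd ct ee ff hh IsSec IsDeg swd brk)

namespace QZX

/-- a sum over the permutations of three points, written out. -/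
theorem sum_perm3 {M : Type} [AddCommGroup M] (g : Equiv.Perm (Fin 3) → M) :
    ∑ σ : Equiv.Perm (Fin 3), g σ = g 1 + g (Equiv.swap 0 1) + g (Equiv.swap 0 2) +
      g (Equiv.swap 1 2) + g (Equiv.swap 0 1 * Equiv.swap 1 2) +
      g (Equiv.swap 1 2 * Equiv.swap 0 1) := by
  have h : (univ : Finset (Equiv.Perm (Fin 3))) = {1, Equiv.swap 0 1, Equiv.swap 0 2,
      Equiv.swap 1 2, Equiv.swap 0 1 * Equiv.swap 1 2, Equiv.swap 1 2 * Equiv.swap 0 1} := by
    decide
  rw [h, sum_insert (by decide), sum_insert (by decide), sum_insert (by decide),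
    sum_insert (by decide), sum_insert (by decide), sum_singleton]
  abel

section
variable {K : Type} [Field K] {α : Type} [Fintype α] [DecidableEq α]

open Classical in
theorem sum_sup {M : Type} [AddCommGroup M] (η : ℕ → α)
    (hinj : ∀ i ≤ 2, ∀ j ≤ 2, η i = η j → i = j) :
    ∃ ex : Equiv.Perm (Fin 3) → Equiv.Perm α,
      (∀ τ, Equiv.Perm.sign (ex τ) = Equiv.Perm.sign τ) ∧
      (∀ τ (i : Fin 3), ex τ (η (i : ℕ)) = η ((τ i : Fin 3) : ℕ)) ∧
      (∀ τ z, z ≠ η 0 → z ≠ η 1 → z ≠ η 2 → ex τ z = z) ∧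
      ∀ F : Equiv.Perm α → M,
        ∑ σ ∈ univ.filter (fun σ : Equiv.Perm α => Sup ({η 0, η 1, η 2} : Finset α) σ), F σ =
          ∑ τ : Equiv.Perm (Fin 3), F (ex τ) := by
  set Q : Finset α := {η 0, η 1, η 2} with hQ
  have hmem : ∀ i : Fin 3, η (i : ℕ) ∈ Q := by
    intro i
    fin_cases i <;> simp [hQ]
  have hcase : ∀ z ∈ Q, ∃ i : Fin 3, z = η (i : ℕ) := by
    intro z hz
    rw [hQ, mem_insert, mem_insert, mem_singleton] at hz
    rcases hz with rfl | rfl | rfl
    · exact ⟨0, rfl⟩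
    · exact ⟨1, rfl⟩
    · exact ⟨2, rfl⟩
  have hfin : ∀ i j : Fin 3, η (i : ℕ) = η (j : ℕ) → i = j := by
    intro i j h
    exact Fin.ext (hinj _ (Nat.le_of_lt_succ i.2) _ (Nat.le_of_lt_succ j.2) h)
  let g : Fin 3 ≃ {z // z ∈ Q} := Equiv.ofBijective (fun i => ⟨η (i : ℕ), hmem i⟩) (by
    constructor
    · intro i j h
      exact hfin i j (Subtype.ext_iff.1 h)
    · rintro ⟨z, hz⟩
      obtain ⟨i, rfl⟩ := hcase z hz
      exact ⟨i, rfl⟩)
  have hg : ∀ i : Fin 3, ((g i : {z // z ∈ Q}) : α) = η (i : ℕ) := fun i => rfl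
  have h1 : ∀ (τ : Equiv.Perm (Fin 3)) (i : Fin 3),
      τ.extendDomain g (η (i : ℕ)) = η ((τ i : Fin 3) : ℕ) := by
    intro τ i
    have h := Equiv.Perm.extendDomain_apply_image τ g i
    rw [hg, hg] at h
    exact h
  have h2 : ∀ (τ : Equiv.Perm (Fin 3)) z, z ∉ Q → τ.extendDomain g z = z := by
    intro τ z hz
    exact Equiv.Perm.extendDomain_apply_not_subtype τ g hz
  refine ⟨fun τ => τ.extendDomain g, fun τ => Equiv.Perm.sign_extendDomain τ g, h1, ?_, ?_⟩
  · intro τ z h0 h1' h2'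
    refine h2 τ z ?_
    rw [hQ, mem_insert, mem_insert, mem_singleton]
    rintro (h | h | h)
    · exact h0 h
    · exact h1' h
    · exact h2' h
  · intro F
    symm
    refine sum_bij (fun τ _ => τ.extendDomain g) ?_ ?_ ?_ (fun _ _ => rfl)
    · intro τ _
      rw [mem_filter]
      exact ⟨mem_univ _, fun z hz => h2 τ z hz⟩
    · intro τ _ τ' _ h
      apply Equiv.ext
      intro i
      apply hfin
      rw [← h1, ← h1, h]
    · intro σ hσ
      rw [mem_filter] at hσ
      have hs : Sup Q σ := hσ.2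
      have hQQ : ∀ z ∈ Q, σ z ∈ Q := by
        intro z hz
        by_contra hc
        have h3 := σ.injective (hs _ hc)
        rw [h3] at hc
        exact hc hz
      let t : Fin 3 → Fin 3 := fun i => g.symm ⟨σ (η (i : ℕ)), hQQ _ (hmem i)⟩
      have ht : ∀ i, η ((t i : Fin 3) : ℕ) = σ (η (i : ℕ)) := by
        intro i
        have h4 : g (t i) = ⟨σ (η (i : ℕ)), hQQ _ (hmem i)⟩ := g.apply_symm_apply _
        rw [← hg, h4]
      have hti : Function.Injective t := by
        intro i j h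
        apply hfin
        apply σ.injective
        rw [← ht, ← ht, h]
      refine ⟨Equiv.ofBijective t (Finite.injective_iff_bijective.1 hti), mem_univ _, ?_⟩
      apply Equiv.ext
      intro z
      by_cases hz : z ∈ Q
      · obtain ⟨i, rfl⟩ := hcase z hz
        rw [h1, ← ht i]
        rfl
      · rw [h2 _ z hz]
        exact (hs z hz).symm

omit [Fintype α] in
/-- `q_2`, written out. -/
theorem qn_two (η : ℕ → α) (n : ℕ → Finset α) :
    (qn 2 η n : Lx K α) =
      ed (insert (η 0) (n 0)) * ed (insert (η 1) (n 1)) -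
      ed (insert (η 1) (n 0)) * ed (insert (η 0) (n 1)) -
      ed (insert (η 2) (n 0)) * ed (insert (η 1) (n 1)) -
      ed (insert (η 0) (n 0)) * ed (insert (η 2) (n 1)) +
      ed (insert (η 1) (n 0)) * ed (insert (η 2) (n 1)) +
      ed (insert (η 2) (n 0)) * ed (insert (η 0) (n 1)) := by
  unfold qn
  rw [sum_perm3]
  have hm : ∀ t : Fin 2 → Finset α, (mo t : Lx K α) = ed (t 0) * ed (t 1) := by
    intro t
    rw [mo_succ, mo_succ, mo_zero, mul_one]
    rfl
  simp only [hm]
  have s1 : Equiv.Perm.sign (Equiv.swap (0 : Fin 3) 1) = -1 := by decide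
  have s2 : Equiv.Perm.sign (Equiv.swap (0 : Fin 3) 2) = -1 := by decide
  have s3 : Equiv.Perm.sign (Equiv.swap (1 : Fin 3) 2) = -1 := by decide
  have s4 : Equiv.Perm.sign (Equiv.swap (0 : Fin 3) 1 * Equiv.swap 1 2) = 1 := by decide
  have s5 : Equiv.Perm.sign (Equiv.swap (1 : Fin 3) 2 * Equiv.swap 0 1) = 1 := by decide
  rw [s1, s2, s3, s4, s5, Equiv.Perm.sign_one]
  have v : ∀ (σ : Equiv.Perm (Fin 3)) (i : Fin 3) (j : Fin 3), σ i = j →
      η ((σ i : Fin 3) : ℕ) = η (j : ℕ) := fun σ i j h => by rw [h]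
  have a0 : ((0 : Fin 2).castSucc : Fin 3) = 0 := rfl
  have a1 : ((1 : Fin 2).castSucc : Fin 3) = 1 := rfl
  have c0 : ((0 : Fin 2) : ℕ) = 0 := rfl
  have c1 : ((1 : Fin 2) : ℕ) = 1 := rfl
  rw [a0, a1, c0, c1]
  rw [v 1 0 0 (by decide), v 1 1 1 (by decide), v (Equiv.swap 0 1) 0 1 (by decide),
    v (Equiv.swap 0 1) 1 0 (by decide), v (Equiv.swap 0 2) 0 2 (by decide),
    v (Equiv.swap 0 2) 1 1 (by decide), v (Equiv.swap 1 2) 0 0 (by decide),
    v (Equiv.swap 1 2) 1 2 (by decide), v (Equiv.swap 0 1 * Equiv.swap 1 2) 0 1 (by decide),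
    v (Equiv.swap 0 1 * Equiv.swap 1 2) 1 2 (by decide),
    v (Equiv.swap 1 2 * Equiv.swap 0 1) 0 2 (by decide),
    v (Equiv.swap 1 2 * Equiv.swap 0 1) 1 0 (by decide)]
  have d0 : η ((0 : Fin 3) : ℕ) = η 0 := rfl
  have d1 : η ((1 : Fin 3) : ℕ) = η 1 := rfl
  have d2 : η ((2 : Fin 3) : ℕ) = η 2 := rfl
  rw [d0, d1, d2]
  simp only [Units.val_one, Units.val_neg, Int.cast_one, Int.cast_neg, one_smul, neg_smul]
  abel

end

end QZX

open QZX in
theorem prf_QZ : S_QZ := by
  intro K _ α _ _ η n y hinj hy hn hyn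
  classical
  obtain ⟨ex, hsg, hex, hfix, hsum⟩ := sum_sup (M := Lx K α →ₗ[K] Lx K α) η hinj
  have h1 : asym (act K α) ({η 0, η 1, η 2} : Finset α) =
      ∑ τ : Equiv.Perm (Fin 3), ((Equiv.Perm.sign τ : ℤ) : K) •
        (act K α (ex τ) : Lx K α →ₗ[K] Lx K α) := by
    have h := hsum (fun σ => ((Equiv.Perm.sign σ : ℤ) : K) •
      (act K α σ : Lx K α →ₗ[K] Lx K α))
    have h' : ∑ τ : Equiv.Perm (Fin 3), ((Equiv.Perm.sign (ex τ) : ℤ) : K) •
        (act K α (ex τ) : Lx K α →ₗ[K] Lx K α) =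
        ∑ τ : Equiv.Perm (Fin 3), ((Equiv.Perm.sign τ : ℤ) : K) •
        (act K α (ex τ) : Lx K α →ₗ[K] Lx K α) := by
      refine sum_congr rfl fun τ _ => ?_
      rw [hsg]
    rw [← h', ← h]
    unfold asym
    have hI : ‹DecidableEq α› = fun a b => Classical.propDecidable (a = b) :=
      Subsingleton.elim _ _
    subst hI
    rfl
  have him : ∀ (τ : Equiv.Perm (Fin 3)) (j : ℕ), j ≤ 1 → im (ex τ) (n j) = n j := by
    intro τ j hj
    refine im_eq_self fun z hz => hfix τ z ?_ ?_ ?_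
    · rintro rfl
      exact hn 0 (by norm_num) j hj hz
    · rintro rfl
      exact hn 1 (by norm_num) j hj hz
    · rintro rfl
      exact hn 2 (by norm_num) j hj hz
  have hyy : ∀ τ, ex τ y = y := fun τ => hfix τ y (hy 0 (by norm_num)).symm
    (hy 1 (by norm_num)).symm (hy 2 (by norm_num)).symm
  have e0 : ∀ τ, ex τ (η 0) = η ((τ 0 : Fin 3) : ℕ) := fun τ => hex τ 0
  have e1 : ∀ τ, ex τ (η 1) = η ((τ 1 : Fin 3) : ℕ) := fun τ => hex τ 1
  have e2 : ∀ τ, ex τ (η 2) = η ((τ 2 : Fin 3) : ℕ) := fun τ => hex τ 2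
  have h2 : ∀ τ : Equiv.Perm (Fin 3), act K α (ex τ)
      ((ed (insert (η 0) (n 0)) - ed (insert (η 1) (n 0))) *
        (ed (insert (η 2) (n 1)) - ed (insert y (n 1)))) =
      ((ed (insert (η ((τ 0 : Fin 3) : ℕ)) (n 0)) - ed (insert (η ((τ 1 : Fin 3) : ℕ)) (n 0))) *
        (ed (insert (η ((τ 2 : Fin 3) : ℕ)) (n 1)) - ed (insert y (n 1))) : Lx K α) := by
    intro τ
    rw [act_mul, map_sub, map_sub, act_ed, act_ed, act_ed, act_ed, im_insert, im_insert,
      im_insert, im_insert, him τ 0 (by norm_num), him τ 1 le_rfl, hyy, e0, e1, e2]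
  rw [h1, LinearMap.sum_apply]
  simp only [LinearMap.smul_apply]
  rw [sum_congr rfl fun τ _ => by rw [h2 τ]]
  rw [sum_perm3, qn_two]
  have s1 : Equiv.Perm.sign (Equiv.swap (0 : Fin 3) 1) = -1 := by decide
  have s2 : Equiv.Perm.sign (Equiv.swap (0 : Fin 3) 2) = -1 := by decide
  have s3 : Equiv.Perm.sign (Equiv.swap (1 : Fin 3) 2) = -1 := by decide
  have s4 : Equiv.Perm.sign (Equiv.swap (0 : Fin 3) 1 * Equiv.swap 1 2) = 1 := by decide
  have s5 : Equiv.Perm.sign (Equiv.swap (1 : Fin 3) 2 * Equiv.swap 0 1) = 1 := by decide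
  rw [s1, s2, s3, s4, s5, Equiv.Perm.sign_one]
  have v : ∀ (σ : Equiv.Perm (Fin 3)) (i : Fin 3) (j : Fin 3), σ i = j →
      η ((σ i : Fin 3) : ℕ) = η (j : ℕ) := fun σ i j h => by rw [h]
  rw [v 1 0 0 (by decide), v 1 1 1 (by decide), v 1 2 2 (by decide),
    v (Equiv.swap 0 1) 0 1 (by decide), v (Equiv.swap 0 1) 1 0 (by decide),
    v (Equiv.swap 0 1) 2 2 (by decide),
    v (Equiv.swap 0 2) 0 2 (by decide), v (Equiv.swap 0 2) 1 1 (by decide),
    v (Equiv.swap 0 2) 2 0 (by decide),
    v (Equiv.swap 1 2) 0 0 (by decide), v (Equiv.swap 1 2) 1 2 (by decide),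
    v (Equiv.swap 1 2) 2 1 (by decide),
    v (Equiv.swap 0 1 * Equiv.swap 1 2) 0 1 (by decide),
    v (Equiv.swap 0 1 * Equiv.swap 1 2) 1 2 (by decide),
    v (Equiv.swap 0 1 * Equiv.swap 1 2) 2 0 (by decide),
    v (Equiv.swap 1 2 * Equiv.swap 0 1) 0 2 (by decide),
    v (Equiv.swap 1 2 * Equiv.swap 0 1) 1 0 (by decide),
    v (Equiv.swap 1 2 * Equiv.swap 0 1) 2 1 (by decide)]
  have d0 : η ((0 : Fin 3) : ℕ) = η 0 := rfl
  have d1 : η ((1 : Fin 3) : ℕ) = η 1 := rfl
  have d2 : η ((2 : Fin 3) : ℕ) = η 2 := rfl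
  rw [d0, d1, d2]
  simp only [Units.val_one, Units.val_neg, Int.cast_one, Int.cast_neg, one_smul, neg_smul,
    two_smul, sub_mul, mul_sub]
  abel

end Pool.Agent.Work.MP_1233f5_ag.Y

end

section

set_option autoImplicit false

namespace Pool.Agent.Work.MP_1233f5_ag.Y

open Finset
open Pool.Agent.Work.MP_1233f5_ag.V (vm ML theta)
open Pool.Agent.Work.MP_1233f5_ag.Sec (Fk wd ct ee ff hh IsSec IsDeg swd brk)

namespace RedX

variable {K : Type} [Field K] {α : Type} [DecidableEq α]

theorem bs_sub {r b : ℕ} {P : Finset α} {η : ℕ → α} {n : ℕ → Finset α} (h : BV r P b η n) :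
    bs b η n ⊆ P := by
  intro a ha
  rcases mem_union.1 ha with h1 | h1
  · obtain ⟨i, hi, rfl⟩ := mem_image.1 h1
    exact h.mem i (Nat.le_of_lt_succ (mem_range.1 hi))
  · obtain ⟨i, hi, h2⟩ := mem_biUnion.1 h1
    exact h.sub i (mem_range.1 hi) h2

theorem bv_bs {r b : ℕ} {P : Finset α} {η : ℕ → α} {n : ℕ → Finset α} (h : BV r P b η n) :
    BV r (bs b η n) b η n :=
  ⟨h.inj, fun i hi => mem_union_left _ (mem_image.2 ⟨i, mem_range.2 (Nat.lt_succ_of_le hi), rfl⟩),
    h.card, fun _ hi _ ha => mem_union_right _ (mem_biUnion.2 ⟨_, mem_range.2 hi, ha⟩),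
    h.dis, h.out⟩

theorem prod_Cy (hQCy : S_QCy) {r b j : ℕ} {P : Finset α} {η : ℕ → α} {n : ℕ → Finset α}
    (h : BV r P b η n) (hb : b ≤ j) {w : Lx K α}
    (hw : w ∈ Cy K (r + 1) (P \ bs b η n) (j - b)) : qn b η n * w ∈ Cy K (r + 1) P j := by
  have h1 := hQCy K α r b (bs b η n) η n (bv_bs h)
  have h2 := Cy_mul (disjoint_sdiff (s := bs b η n) (t := P)) h1 hw
  rw [Nat.add_sub_cancel' hb] at h2
  exact Cy_mono (union_subset (bs_sub h) sdiff_subset) h2

theorem spQ_Cy (hQCy : S_QCy) (r m j : ℕ) (P : Finset α) (q : ℕ → α) :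
    spQ K r P m j q (Cy K (r + 1)) ≤ Cy K (r + 1) P j := by
  refine Submodule.span_le.2 ?_
  rintro _ ⟨f, w, hB, hm, hw, rfl⟩
  exact prod_Cy hQCy hB hm hw

theorem es_sub {r m : ℕ} {P : Finset α} {q : ℕ → α} {f : ℕ → Finset α} (h : EV r P m q f) :
    es m q f ⊆ P := by
  intro a ha
  rcases mem_union.1 ha with h1 | h1
  · obtain ⟨i, hi, rfl⟩ := mem_image.1 h1
    exact h.mem i (Nat.le_of_lt_succ (mem_range.1 hi))
  · obtain ⟨i, hi, h2⟩ := mem_biUnion.1 h1
    exact h.sub i (Nat.le_of_lt_succ (mem_range.1 hi)) h2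

theorem es_card {r m : ℕ} {P : Finset α} {q : ℕ → α} {f : ℕ → Finset α} (h : EV r P m q f) :
    (es m q f).card = (m + 1) * (r + 1) := by
  have l : ∀ {i}, i ∈ range (m + 1) → i ≤ m := fun hi => Nat.le_of_lt_succ (mem_range.1 hi)
  rw [es, card_union_of_disjoint, card_image_of_injOn, card_biUnion,
    sum_congr rfl fun i hi => h.card i (l hi), sum_const, card_range, smul_eq_mul]
  · ring
  · intro i hi j hj hij
    exact h.dis i (l hi) j (l hj) hij
  · intro i hi j hj hij
    exact h.inj i (l hi) j (l hj) hij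
  · rw [disjoint_left]
    intro x hx hx'
    obtain ⟨i, hi, rfl⟩ := mem_image.1 hx
    obtain ⟨j, hj, h2⟩ := mem_biUnion.1 hx'
    exact h.out i (l hi) j (l hj) h2

end RedX

theorem prf_Red (hRedAB : S_RedAB) (hRedC : S_RedC) (hERep : S_ERep) (hQCy : S_QCy) : S_Red := by
  intro K _ _ α _ _ r m j P q hr hm hinj hmem hG z hz hanti
  obtain ⟨y, hy, hzy⟩ := hRedAB K α r m j P q hr hinj hmem z hz hanti
  have h1 : spE K r P m j q (Cy K (r + 1)) ≤
      Bd K (r + 1) P j ⊔ spQ K r P m j q (Mt K (r + 1)) ⊔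
        ⨆ x : α, spQ K r P (m + 1) j (Function.update q (m + 1) x) (Cy K (r + 1)) := by
    refine Submodule.span_le.2 ?_
    rintro _ ⟨f, w, hE, hmj, hw, rfl⟩
    refine hERep K α r m j P q f hE hmj (hG hmj _ sdiff_subset ?_) w hw
    rw [card_sdiff_of_subset (RedX.es_sub hE), RedX.es_card hE]
    have := card_le_card (RedX.es_sub hE)
    rw [RedX.es_card hE] at this
    omega
  obtain ⟨y12, h12, y3, h3, hy3⟩ := Submodule.mem_sup.1 (h1 hy)
  obtain ⟨β, hβ, y2, h2, hy2⟩ := Submodule.mem_sup.1 h12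
  have hC : (⨆ x : α, spQ K r P (m + 1) j (Function.update q (m + 1) x) (Cy K (r + 1))) ≤
      Cy K (r + 1) P j := iSup_le fun x => RedX.spQ_Cy hQCy r (m + 1) j P _
  have e1 : z - β - y3 = (z - y) + y2 := by
    rw [← hy3, ← hy2]; abel
  have h4 : z - β - y3 ∈ spQ K r P m j q (Mt K (r + 1)) := by
    rw [e1]; exact Submodule.add_mem _ hzy h2
  have h5 : z - β - y3 ∈ Cy K (r + 1) P j :=
    Submodule.sub_mem _ (Submodule.sub_mem _ hz (Bd_le_Cy _ _ _ hβ)) (hC h3)
  have h6 := hRedC K α r m j P q hr hm hinj hmem _ h5 h4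
  have e2 : z = β + (z - β - y3) + y3 := by abel
  rw [e2]
  exact Submodule.add_mem_sup (Submodule.add_mem_sup hβ h6) h3

end Pool.Agent.Work.MP_1233f5_ag.Y

end

section

/-! MP_1233f5_ag, block Y: action of the permutations on the sections of configurations. -/

set_option autoImplicit false
set_option linter.unusedSectionVars false

namespace Pool.Agent.Work.MP_1233f5_ag.Y

open Finset
open Pool.Agent.Work.MP_1233f5_ag.V (vm ML theta)
open Pool.Agent.Work.MP_1233f5_ag.Sec (Fk wd ct ee ff hh IsSec IsDeg swd brk)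

namespace ScActX

variable {α : Type} [DecidableEq α]

theorem inv_self (σ : Equiv.Perm α) (a : α) : σ⁻¹ (σ a) = a := σ.symm_apply_apply a

theorem im_image (σ : Equiv.Perm α) (a : ℕ) (u : ℕ → α) :
    (range a).image (fun i => σ (u i)) = im σ ((range a).image u) := by
  ext x
  rw [mem_im, mem_image, mem_image]
  constructor
  · rintro ⟨i, hi, h⟩
    refine ⟨i, hi, ?_⟩
    rw [← h, ScActX.inv_self]
  · rintro ⟨i, hi, h⟩
    refine ⟨i, hi, ?_⟩
    rw [h, perm_ai]

theorem im_biUnion (σ : Equiv.Perm α) (q : ℕ) (m : ℕ → Finset α) :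
    (range q).biUnion (fun i => im σ (m i)) = im σ ((range q).biUnion m) := by
  ext x
  rw [mem_im, mem_biUnion, mem_biUnion]
  exact ⟨fun ⟨i, hi, h⟩ => ⟨i, hi, (mem_im σ _ _).1 h⟩,
    fun ⟨i, hi, h⟩ => ⟨i, hi, (mem_im σ _ _).2 h⟩⟩

theorem im_union (σ : Equiv.Perm α) (A B : Finset α) : im σ (A ∪ B) = im σ A ∪ im σ B := by
  ext x
  rw [mem_im, mem_union, mem_union, mem_im, mem_im]

theorem im_inter (σ : Equiv.Perm α) (A B : Finset α) : im σ (A ∩ B) = im σ A ∩ im σ B := by
  ext x
  rw [mem_im, mem_inter, mem_inter, mem_im, mem_im]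

theorem im_cov (σ : Equiv.Perm α) (a q : ℕ) (u v : ℕ → α) (m : ℕ → Finset α) :
    (range a).image (fun i => σ (u i)) ∪ (range a).image (fun i => σ (v i)) ∪
      (range q).biUnion (fun i => im σ (m i)) =
    im σ ((range a).image u ∪ (range a).image v ∪ (range q).biUnion m) := by
  rw [im_image, im_image, im_biUnion, im_union, im_union]

theorem im_inv_subset (σ : Equiv.Perm α) (Y C : Finset α) : im σ⁻¹ Y ⊆ C ↔ Y ⊆ im σ C := by
  constructor
  · intro h x hx
    rw [mem_im]
    apply h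
    rw [mem_im, inv_inv, perm_ai]
    exact hx
  · intro h x hx
    rw [mem_im, inv_inv] at hx
    have := h hx
    rw [mem_im, ScActX.inv_self] at this
    exact this

theorem im_im_inv (σ : Equiv.Perm α) (Y : Finset α) : im σ (im σ⁻¹ Y) = Y := by
  rw [← im_mul, mul_inv_cancel, im_one]

theorem card_inter_im_inv (σ : Equiv.Perm α) (A Y : Finset α) :
    (A ∩ im σ⁻¹ Y).card = (im σ A ∩ Y).card := by
  rw [← card_im σ (A ∩ im σ⁻¹ Y), im_inter, im_im_inv]

end ScActX

theorem prf_ScAct : S_ScAct := by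
  intro K _ α _ a q u v m σ
  refine ⟨?_, ?_⟩
  · funext Y
    have h0 : sact K α σ (sc a q u v m) Y = sc a q u v m (im σ⁻¹ Y) := rfl
    rw [h0]
    unfold sc
    rw [ScActX.im_cov]
    by_cases hY : Y ⊆ im σ ((range a).image u ∪ (range a).image v ∪ (range q).biUnion m)
    · rw [if_pos hY, if_pos ((ScActX.im_inv_subset σ Y _).2 hY)]
      congr 1
      · apply prod_congr rfl
        intro i _
        have h1 : ∀ x, x ∈ im σ⁻¹ Y ↔ σ x ∈ Y := by
          intro x
          rw [mem_im, inv_inv]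
        simp only [h1]
      · congr 1
        funext i
        exact ScActX.card_inter_im_inv σ (m i) Y
    · rw [if_neg hY, if_neg (fun t => hY ((ScActX.im_inv_subset σ Y _).1 t))]
  · intro r R H
    have hmem : ∀ (x : α) (A : Finset α), σ x ∈ im σ A ↔ x ∈ A := by
      intro x A
      rw [mem_im, ScActX.inv_self]
    refine ⟨fun i hi => ?_, fun i hi j hj hij => ?_, fun i hi j hj h => ?_, fun i hi j hj h => ?_,
      fun i hi j hj h => ?_, fun i hi j hj h => ?_, fun i hi j hj h => ?_, ?_⟩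
    · rw [card_im]
      exact H.card i hi
    · rw [disjoint_left]
      intro x hx hx'
      rw [mem_im] at hx hx'
      exact disjoint_left.1 (H.dis i hi j hj hij) hx hx'
    · exact H.uinj i hi j hj (σ.injective h)
    · exact H.vinj i hi j hj (σ.injective h)
    · exact H.uv i hi j hj (σ.injective h)
    · exact H.uout i hi j hj ((hmem _ _).1 h)
    · exact H.vout i hi j hj ((hmem _ _).1 h)
    · rw [ScActX.im_cov, H.cov]

end Pool.Agent.Work.MP_1233f5_ag.Y

end

section

/-! MP_1233f5_ag, block Y, part C: item SwSc. -/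

set_option autoImplicit false

namespace Pool.Agent.Work.MP_1233f5_ag.Y

open Finset
open Pool.Agent.Work.MP_1233f5_ag.V (vm ML theta)
open Pool.Agent.Work.MP_1233f5_ag.Sec (Fk wd ct ee ff hh IsSec IsDeg swd brk)

namespace SwScX

variable {α : Type} [DecidableEq α]

omit [DecidableEq α] in
theorem cns_zero (g : Finset α) (m : ℕ → Finset α) : cns g m 0 = g := by
  simp [cns]

omit [DecidableEq α] in
theorem cns_succ (g : Finset α) (m : ℕ → Finset α) (i : ℕ) : cns g m (i + 1) = m i := by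
  simp [cns]

theorem cov_cns (q : ℕ) (g : Finset α) (m : ℕ → Finset α) :
    (range (q + 1)).biUnion (cns g m) = (range q).biUnion m ∪ g := by
  ext x
  simp only [mem_biUnion, mem_range, mem_union]
  constructor
  · rintro ⟨i, hi, hx⟩
    rcases i with _ | i
    · rw [cns_zero] at hx
      exact Or.inr hx
    · rw [cns_succ] at hx
      exact Or.inl ⟨i, by omega, hx⟩
  · rintro (⟨i, hi, hx⟩ | hx)
    · exact ⟨i + 1, by omega, by rwa [cns_succ]⟩
    · exact ⟨0, by omega, by rwa [cns_zero]⟩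

end SwScX

open SwScX in
theorem prf_SwSc : S_SwSc := by
  intro K _ α _ r a q R g u v m hV hd
  have hu : ∀ i < a, u i ∈ R := by
    intro i hi
    rw [← hV.cov]
    exact mem_union_left _ (mem_union_left _ (mem_image_of_mem u (mem_range.2 hi)))
  have hv : ∀ i < a, v i ∈ R := by
    intro i hi
    rw [← hV.cov]
    exact mem_union_left _ (mem_union_right _ (mem_image_of_mem v (mem_range.2 hi)))
  have hm : ∀ i < q, m i ⊆ R := by
    intro i hi x hx
    rw [← hV.cov]
    exact mem_union_right _ (mem_biUnion.2 ⟨i, mem_range.2 hi, hx⟩)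
  have hg : ∀ x, x ∈ R → x ∉ g := fun x h1 h2 => (Finset.disjoint_left.1 hd) h2 h1
  refine ⟨?_, ?_⟩
  · funext Y
    unfold Sec.swd sc
    have hsub : (Y ⊆ (range a).image u ∪ (range a).image v ∪ (range (q + 1)).biUnion (cns g m)) ↔
        (Y \ g ⊆ (range a).image u ∪ (range a).image v ∪ (range q).biUnion m) := by
      rw [cov_cns, ← union_assoc]
      constructor
      · intro h x hx
        rw [mem_sdiff] at hx
        exact (mem_union.1 (h hx.1)).resolve_right hx.2
      · intro h x hx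
        by_cases hxg : x ∈ g
        · exact mem_union_right _ hxg
        · exact mem_union_left _ (h (mem_sdiff.2 ⟨hx, hxg⟩))
    by_cases hY : Y \ g ⊆ (range a).image u ∪ (range a).image v ∪ (range q).biUnion m
    · rw [if_pos hY, if_pos (hsub.2 hY), map_smul]
      congr 1
      · refine prod_congr rfl fun i hi => ?_
        have h1 : (v i ∈ Y \ g) ↔ v i ∈ Y := by
          rw [mem_sdiff]
          exact ⟨fun t => t.1, fun t => ⟨t, hg _ (hv i (mem_range.1 hi))⟩⟩
        have h2 : (u i ∈ Y \ g) ↔ u i ∈ Y := by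
          rw [mem_sdiff]
          exact ⟨fun t => t.1, fun t => ⟨t, hg _ (hu i (mem_range.1 hi))⟩⟩
        simp only [h1, h2]
      · show wd (g ∩ Y).card (mb q (fun i => (m i ∩ (Y \ g)).card) : Fk K) =
          wd ((cns g m 0 ∩ Y).card) (mb q (fun i => (cns g m (i + 1) ∩ Y).card))
        rw [cns_zero]
        congr 1
        refine mb_congr ?_
        intro i hi
        rw [cns_succ]
        congr 1
        ext x
        simp only [mem_inter, mem_sdiff]
        exact ⟨fun t => ⟨t.1, t.2.1⟩, fun t => ⟨t.1, t.2, hg _ (hm i hi t.1)⟩⟩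
    · rw [if_neg hY, if_neg (fun h => hY (hsub.1 h)), map_zero]
  · intro hgr
    have hgm : ∀ i < q, Disjoint g (m i) := by
      intro i hi
      rw [Finset.disjoint_left]
      intro x h1 h2
      exact hg x (hm i hi h2) h1
    refine ⟨?_, ?_, hV.uinj, hV.vinj, hV.uv, ?_, ?_, ?_⟩
    · intro i hi
      rcases i with _ | i
      · rw [cns_zero]
        exact hgr
      · rw [cns_succ]
        exact hV.card i (by omega)
    · intro i hi j hj hij
      rcases i with _ | i
      · rcases j with _ | j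
        · exact absurd rfl hij
        · rw [cns_zero, cns_succ]
          exact hgm j (by omega)
      · rcases j with _ | j
        · rw [cns_zero, cns_succ]
          exact (hgm i (by omega)).symm
        · rw [cns_succ, cns_succ]
          exact hV.dis i (by omega) j (by omega) (fun h => hij (by rw [h]))
    · intro i hi j hj
      rcases j with _ | j
      · rw [cns_zero]
        exact hg _ (hu i hi)
      · rw [cns_succ]
        exact hV.uout i hi j (by omega)
    · intro i hi j hj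
      rcases j with _ | j
      · rw [cns_zero]
        exact hg _ (hv i hi)
      · rw [cns_succ]
        exact hV.vout i hi j (by omega)
    · rw [cov_cns, ← union_assoc, hV.cov]

end Pool.Agent.Work.MP_1233f5_ag.Y

end

section

/-! MP_1233f5_ag, block Y: the functional of a product of blocks is admissible. -/

set_option autoImplicit false
set_option linter.unusedSectionVars false

namespace Pool.Agent.Work.MP_1233f5_ag.Y

open Finset
open Pool.Agent.Work.MP_1233f5_ag.V (vm ML theta)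
open Pool.Agent.Work.MP_1233f5_ag.Sec (Fk wd ct ee ff hh IsSec IsDeg swd brk)

namespace WAdmX

theorem mem_slots {L : List ℕ} {b : ℕ → ℕ} {s : ℕ × ℕ} :
    s ∈ slots L b ↔ s.1 ∈ L ∧ s.2 < b s.1 := by
  unfold slots
  rw [mem_biUnion]
  constructor
  · rintro ⟨j, hj, hs⟩
    obtain ⟨i, hi, rfl⟩ := mem_image.1 hs
    exact ⟨List.mem_toFinset.1 hj, mem_range.1 hi⟩
  · rintro ⟨h1, h2⟩
    exact ⟨s.1, List.mem_toFinset.2 h1, mem_image.2 ⟨s.2, mem_range.2 h2, rfl⟩⟩

theorem sl_slots {L : List ℕ} {b : ℕ → ℕ} {j : ℕ} (hj : j ∈ L) :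
    sl (slots L b) j = (range (b j)).image (fun i => (j, i)) := by
  ext s
  unfold sl
  rw [mem_filter, mem_slots, mem_image]
  constructor
  · rintro ⟨⟨_, h2⟩, rfl⟩
    exact ⟨s.2, mem_range.2 h2, rfl⟩
  · rintro ⟨i, hi, rfl⟩
    exact ⟨⟨hj, mem_range.1 hi⟩, rfl⟩

section pts
variable {α : Type} [DecidableEq α]

/-- the hypotheses on the points. -/
structure EtaH (L : List ℕ) (b : ℕ → ℕ) (η : ℕ → ℕ → α) (P0 : Finset α) : Prop where
  nod : L.Nodup
  two : ∀ j ∈ L, 2 ≤ b j
  inj : ∀ j ∈ L, ∀ i ≤ b j, ∀ i' ≤ b j, η j i = η j i' → i = i'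
  dis : ∀ j ∈ L, ∀ j' ∈ L, j ≠ j' → ∀ i ≤ b j, ∀ i' ≤ b j', η j i ≠ η j' i'
  out : ∀ j ∈ L, ∀ i ≤ b j, η j i ∉ P0

theorem mem_bs {b : ℕ} {η : ℕ → α} {n : ℕ → Finset α} {x : α} :
    x ∈ bs b η n ↔ (∃ i ≤ b, η i = x) ∨ ∃ i < b, x ∈ n i := by
  unfold bs
  simp only [mem_union, mem_image, mem_range, mem_biUnion, Nat.lt_succ_iff]

theorem mem_ls {L : List ℕ} {b : ℕ → ℕ} {η : ℕ → ℕ → α} {n : ℕ × ℕ → Finset α} {x : α} :
    x ∈ ls L b η n ↔ ∃ j ∈ L, (∃ i ≤ b j, η j i = x) ∨ ∃ i < b j, x ∈ n (j, i) := by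
  unfold ls
  simp only [mem_biUnion, List.mem_toFinset, mem_bs]

variable {L : List ℕ} {b : ℕ → ℕ} {η : ℕ → ℕ → α} {P0 : Finset α} {r : ℕ}
  {n : ℕ × ℕ → Finset α}

theorem lv [Fintype α] (he : EtaH L b η P0) (hc : Cf r (slots L b) P0 n) :
    LV r univ L b η n := by
  have hout : ∀ j ∈ L, ∀ i ≤ b j, ∀ s ∈ slots L b, η j i ∉ n s := fun j hj i hi s hs hm =>
    he.out j hj i hi ((hc.1 s hs).2 hm)
  have hms : ∀ j ∈ L, ∀ i < b j, (j, i) ∈ slots L b := fun j hj i hi => mem_slots.2 ⟨hj, hi⟩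
  refine ⟨he.nod, he.two, fun j hj => ⟨he.inj j hj, fun _ _ => mem_univ _, fun i hi => ?_,
    fun _ _ => subset_univ _, fun i hi i' hi' hne => ?_, fun i hi i' hi' => ?_⟩,
    fun j hj j' hj' hne => ?_⟩
  · exact (hc.1 _ (hms j hj i hi)).1
  · exact hc.2 _ (hms j hj i hi) _ (hms j hj i' hi') fun q => hne (Prod.ext_iff.1 q).2
  · exact hout j hj i hi _ (hms j hj i' hi')
  · rw [Finset.disjoint_left]
    intro x hx hx'
    rcases mem_bs.1 hx with ⟨i, hi, rfl⟩ | ⟨i, hi, h⟩
    · rcases mem_bs.1 hx' with ⟨i', hi', h'⟩ | ⟨i', hi', h'⟩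
      · exact he.dis j hj j' hj' hne i hi i' hi' h'.symm
      · exact hout j hj i hi _ (hms j' hj' i' hi') h'
    · rcases mem_bs.1 hx' with ⟨i', hi', h'⟩ | ⟨i', hi', h'⟩
      · rw [← h'] at h
        exact hout j' hj' i' hi' _ (hms j hj i hi) h
      · exact (Finset.disjoint_left.1 (hc.2 _ (hms j hj i hi) _ (hms j' hj' i' hi')
          fun q => hne (Prod.ext_iff.1 q).1)) h h'

theorem ls_dis (he : EtaH L b η P0) {R : Finset α} (hR : R ⊆ P0)
    (hR2 : ∀ s ∈ slots L b, Disjoint R (n s)) : Disjoint R (ls L b η n) := by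
  rw [Finset.disjoint_left]
  intro x hx hx'
  obtain ⟨j, hj, ⟨i, hi, rfl⟩ | ⟨i, hi, h⟩⟩ := mem_ls.1 hx'
  · exact he.out j hj i hi (hR hx)
  · exact (Finset.disjoint_left.1 (hR2 _ (mem_slots.2 ⟨hj, hi⟩))) hx h

theorem rest_ls (he : EtaH L b η P0) : Disjoint (rest (slots L b) P0 n) (ls L b η n) :=
  ls_dis he U.rest_sub fun _ hs => U.rest_disj hs

end pts

section core
variable {K : Type} [Field K] [CharZero K] {α : Type} [Fintype α] [DecidableEq α]

theorem mk_zero {d p : ℕ} {x : Lx K α} (hx : x ∈ Bd K d (univ : Finset α) p) :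
    (Bd K d (univ : Finset α) p).mkQ x = 0 := by
  rw [Submodule.mkQ_apply, Submodule.Quotient.mk_eq_zero]
  exact hx

theorem asym_mk {d p : ℕ} (Q : Finset α) (x : Lx K α) :
    asym (actQ K α d p) Q ((Bd K d (univ : Finset α) p).mkQ x) =
      (Bd K d (univ : Finset α) p).mkQ (asym (act K α) Q x) := by
  rw [U.asym_apply, U.asym_apply, map_sum]
  refine sum_congr rfl fun σ _ => ?_
  rw [map_smul, actQ_mk]

variable {L : List ℕ} {b : ℕ → ℕ} {η : ℕ → ℕ → α} {P0 : Finset α} {r p a q : ℕ}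

theorem core (hCore : S_Core) (hZz : S_Zz) (hZzN : S_ZzN) (hPq : S_Pq) (hWTwo : S_WTwo)
    (hr : 1 ≤ r) (hq : q = a ∨ q = a + 1) (hW : ∀ a' < a, Wd K α r p a')
    (he : EtaH L b η P0) (hs : (L.map b).sum + a = p) (n : ℕ × ℕ → Finset α)
    (hc : Cf r (slots L b) P0 n) :
    ∃ Φ : (Finset α → Fk K) →ₗ[K] Hx K α (r + 1) p,
      ∀ u v m, VC r (rest (slots L b) P0 n) a q u v m → Φ (sc a q u v m) =
        (Bd K (r + 1) (univ : Finset α) p).mkQ (pq L b η n * zz a u v m) := by
  have hlv := lv he hc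
  have hd : Disjoint (rest (slots L b) P0 n) (ls L b η n) := rest_ls he
  have haq : a ≤ q := by omega
  have hpc := (hPq K α r univ L b η n).1 hlv
  refine hCore K α (Hx K α (r + 1) p) (actQ K α (r + 1) p) r a q (rest (slots L b) P0 n)
    (fun u v m => (Bd K (r + 1) (univ : Finset α) p).mkQ (pq L b η n * zz a u v m))
    ?_ ?_ ?_ ?_ ?_
  · intro u u' v v' m m' h1 h2 h3
    rw [zz_congr h1 h2 fun i hi => h3 i (by omega)]
  · intro σ hσ u v m _
    rw [actQ_mk, act_mul, ← (hZz K α a u v m).2.1 σ]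
    rw [act_eq_self (P := ls L b η n) (fun x hx => hσ x fun hx' =>
      (Finset.disjoint_left.1 hd) hx' hx) hpc.1]
  · intro i hi u v m _
    rw [(hZz K α a u v m).2.2.1 i hi, mul_neg, map_neg]
  · have hsw : ∀ i < a, ∀ u v m, VC r (rest (slots L b) P0 n) a (a + 1) u v m →
        (Bd K (r + 1) (univ : Finset α) p).mkQ
          (pq L b η n * zz a u v (m ∘ (Equiv.swap i a))) =
        -(Bd K (r + 1) (univ : Finset α) p).mkQ (pq L b η n * zz a u v m) := by
      intro i hi u v m hV
      have h1 := hZzN K α r a _ u v m hV i hi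
      have h2 := Bd_mono (subset_univ _) (Cy_mul_Bd hd.symm hpc h1)
      rw [hs] at h2
      have h3 := mk_zero h2
      rw [mul_add, map_add] at h3
      exact (neg_eq_of_add_eq_zero_right h3).symm
    intro i hi j hj hij
    by_cases hia : i < a
    · by_cases hja : j < a
      · refine ⟨Equiv.swap i j, fun l => ?_, fun u v m _ => ?_⟩
        · by_cases hli : l = i
          · rw [hli, Equiv.swap_apply_left]
            exact ⟨fun _ => hja, fun _ => hia⟩
          · by_cases hlj : l = j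
            · rw [hlj, Equiv.swap_apply_right]
              exact ⟨fun _ => hia, fun _ => hja⟩
            · rw [Equiv.swap_apply_of_ne_of_ne hli hlj]
        · rw [(hZz K α a u v m).2.2.2.1 i hia j hja hij, mul_neg, map_neg]
      · have hja' : j = a := by omega
        have hqa : q = a + 1 := by omega
        subst hqa
        subst hja'
        refine ⟨1, fun l => Iff.rfl, fun u v m hV => ?_⟩
        exact hsw i hia u v m hV
    · have hia' : i = a := by omega
      have hqa : q = a + 1 := by omega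
      subst hqa
      subst hia'
      refine ⟨1, fun l => Iff.rfl, fun u v m hV => ?_⟩
      rw [Equiv.swap_comm]
      exact hsw j (by omega) u v m hV
  · intro Q hQ hQc u v m hV
    rw [asym_mk]
    exact mk_zero (hWTwo K α r p a q L b η n _ Q u v m hr hW hlv hs hd haq hV hQ hQc)

end core

end WAdmX

theorem prf_WAdm (hCore : S_Core) (hCsp : S_Csp) (hSwSc : S_SwSc) (hScAct : S_ScAct)
    (hZz : S_Zz) (hZzN : S_ZzN) (hPq : S_Pq) (hWTwo : S_WTwo) (hWX : S_WX) : S_WAdm := by
  intro K _ _ α _ _ r p a q L b η P0 hr ha hq hW hnod htwo hinj hdis hout hs hcard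
  have he : WAdmX.EtaH L b η P0 := ⟨hnod, htwo, hinj, hdis, hout⟩
  have hne : Nonempty α := by
    have h1 : 0 < P0.card := by omega
    obtain ⟨x, _⟩ := card_pos.1 h1
    exact ⟨x⟩
  obtain ⟨k, rfl⟩ : ∃ k, q = k + 1 := ⟨q - 1, by omega⟩
  obtain ⟨I, hI⟩ : ∃ I, I = slots L b := ⟨_, rfl⟩
  have hcore := WAdmX.core hCore hZz hZzN hPq hWTwo hr hq hW he hs
  choose! Ψ hΨ using hcore
  obtain ⟨nh, hnh⟩ : ∃ nh : (ℕ × ℕ → Finset α) → (ℕ × ℕ → Finset α),
    nh = fun n s => if s ∈ slots L b then n s else ∅ := ⟨_, rfl⟩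
  have hnh1 : ∀ n, ∀ s ∈ slots L b, n s = nh n s := fun n s hs' => by
    rw [hnh]
    beta_reduce
    rw [if_pos hs']
  have val : ∀ n, Cf r (slots L b) P0 n → ∀ u v m, VC r (rest (slots L b) P0 n) a (k + 1) u v m →
      Ψ (nh n) (sc a (k + 1) u v m) =
        (Bd K (r + 1) (univ : Finset α) p).mkQ (pq L b η n * zz a u v m) := by
    intro n hn u v m hV
    have h1 := U.cf_congr (hnh1 n) hn
    have h2 : rest (slots L b) P0 n = rest (slots L b) P0 (nh n) := U.rest_congr (hnh1 n)
    rw [h2] at hV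
    rw [hΨ (nh n) h1 u v m hV]
    congr 2
    exact pq_congr (fun _ _ => rfl) (fun _ _ _ _ => rfl) fun j hj i hi =>
      (hnh1 n _ (WAdmX.mem_slots.2 ⟨hj, hi⟩)).symm
  rw [Nat.add_sub_cancel]
  refine ⟨fun n => Ψ (nh n), ⟨?_, ?_, ?_⟩, val⟩
  · intro n n' h
    congr 1
    rw [hnh]
    funext s
    beta_reduce
    by_cases hs' : s ∈ slots L b
    · rw [if_pos hs', if_pos hs', h s hs']
    · rw [if_neg hs', if_neg hs']
  · intro σ hσ n hn s hs'
    have hcR : (rest (slots L b) P0 n).card = 2 * a + (k + 1) * r := by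
      have h1 := U.card_rest hn
      omega
    rw [hCsp K α r a (k + 1) _ hcR] at hs'
    induction hs' using Submodule.span_induction with
    | mem x hx =>
      obtain ⟨u, v, m, hV, rfl⟩ := hx
      obtain ⟨h1, h2⟩ := hScAct K α a (k + 1) u v m σ
      have h3 := h2 r _ hV
      rw [← U.rest_im hσ] at h3
      rw [h1, val _ (U.cf_im hσ hn) _ _ _ h3, val n hn u v m hV, actQ_mk, act_mul,
        (hPq K α r univ L b η n).2 σ, (hZz K α a u v m).2.1 σ]
      congr 2
      exact pq_congr (fun _ _ => rfl) (fun j hj i hi => (hσ _ (hout j hj i hi)).symm)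
        fun _ _ _ _ => rfl
    | zero => rw [map_zero, map_zero, map_zero, map_zero]
    | add x y _ _ hx hy => rw [map_add, map_add, map_add, map_add, hx, hy]
    | smul c x _ hx => rw [map_smul, map_smul, map_smul, map_smul, hx]
  · intro j hj n hn m0 hm0 hm0c x hx
    have hjL : j ∈ L := by
      obtain ⟨s, hs', rfl⟩ := mem_image.1 hj
      exact (WAdmX.mem_slots.1 hs').1
    have hcR : (rest (slots L b) P0 n \ m0).card = 2 * a + k * r := by
      have h1 := U.card_rest hn
      rw [card_sdiff_of_subset hm0]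
      have h2 : (k + 1) * r = k * r + r := by ring
      omega
    obtain ⟨T, hT⟩ : ∃ T : (Finset α → Fk K) →ₗ[K] Hx K α (r + 1) p,
      T = (Ψ (nh n)).comp (U.swdL m0) + ∑ i ∈ sl (slots L b) j,
        (Ψ (nh (Function.update n i m0))).comp (U.swdL (n i)) := ⟨_, rfl⟩
    have hTx : ∀ x, T x = Ψ (nh n) (swd m0 x) + ∑ i ∈ sl (slots L b) j,
        Ψ (nh (Function.update n i m0)) (swd (n i) x) := fun x => by
      rw [hT, LinearMap.add_apply, LinearMap.sum_apply]
      rfl
    rw [← hTx]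
    rw [hCsp K α r a k _ hcR] at hx
    have hle : Submodule.span K {s | ∃ u v m, VC r (rest (slots L b) P0 n \ m0) a k u v m ∧
        s = sc a k u v m} ≤ LinearMap.ker T := by
      rw [Submodule.span_le]
      rintro _ ⟨u, v, m, hV, rfl⟩
      show T _ = 0
      rw [hTx]
      obtain ⟨h1, h2⟩ := hSwSc K α r a k _ m0 u v m hV disjoint_sdiff
      have h3 := h2 hm0c
      rw [sdiff_union_of_subset hm0] at h3
      have h4 : ∀ i ∈ sl (slots L b) j, Ψ (nh (Function.update n i m0)) (swd (n i)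
          (sc a k u v m)) = (Bd K (r + 1) (univ : Finset α) p).mkQ
            (pq L b η (Function.update n i m0) * zz a u v (cns (n i) m)) := by
        intro i hi
        have hiI : i ∈ slots L b := (mem_filter.1 hi).1
        obtain ⟨g1, g2⟩ := hSwSc K α r a k _ (n i) u v m hV
          ((U.rest_disj hiI).symm.mono_right sdiff_subset)
        have g3 := g2 (hn.1 i hiI).1
        rw [← U.rest_update hiI hn hm0] at g3
        rw [g1, val _ (U.cf_update hn hm0 hm0c) _ _ _ g3]
      rw [sum_congr rfl h4, h1, val n hn _ _ _ h3, ← map_sum, ← map_add]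
      refine WAdmX.mk_zero ?_
      rw [WAdmX.sl_slots hjL, sum_image (fun i _ i' _ h => (Prod.ext_iff.1 h).2)]
      refine hWX K α r p a k L b η n (rest (slots L b) P0 n \ m0) u v m m0 j hW
        (WAdmX.lv he hn) hs hjL ?_ disjoint_sdiff ?_ hm0c ha (by omega) hV
      · exact (WAdmX.rest_ls he).mono_left sdiff_subset
      · exact (WAdmX.rest_ls he).mono_left hm0
    exact hle hx

end Pool.Agent.Work.MP_1233f5_ag.Y

end

section

/-! MP_1233f5_ag, block Y, item WTwo: the core of a product of blocks has two rows, modulo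
smaller cores. -/

set_option autoImplicit false

namespace Pool.Agent.Work.MP_1233f5_ag.Y

open Finset
open Pool.Agent.Work.MP_1233f5_ag.V (vm ML theta)
open Pool.Agent.Work.MP_1233f5_ag.Sec (Fk wd ct ee ff hh IsSec IsDeg swd brk)

namespace WTwoX

section

variable {K : Type} [Field K] {α : Type} [DecidableEq α]

/-- the sets after adding the block `j`. -/
def nN (j : ℕ) (n : ℕ × ℕ → Finset α) (n' : ℕ → Finset α) : ℕ × ℕ → Finset α :=
  fun s => if s.1 = j then n' s.2 else n s

omit [DecidableEq α] in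
theorem nN_self (j : ℕ) (n : ℕ × ℕ → Finset α) (n' : ℕ → Finset α) :
    (fun i => nN j n n' (j, i)) = n' := by
  funext i
  exact if_pos rfl

omit [DecidableEq α] in
theorem nN_ne {j j' : ℕ} (h : j' ≠ j) (n : ℕ × ℕ → Finset α) (n' : ℕ → Finset α) :
    (fun i => nN j n n' (j', i)) = fun i => n (j', i) := by
  funext i
  exact if_neg h

theorem map_upd {L : List ℕ} {j : ℕ} (hj : j ∉ L) (b : ℕ → ℕ) (b' : ℕ) :
    L.map (Function.update b j b') = L.map b := by
  refine List.map_congr_left fun k hk => ?_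
  rw [Function.update_of_ne]
  rintro rfl
  exact hj hk

theorem sum_app {L : List ℕ} {j : ℕ} (hj : j ∉ L) (b : ℕ → ℕ) (b' : ℕ) :
    ((L ++ [j]).map (Function.update b j b')).sum = (L.map b).sum + b' := by
  rw [List.map_append, List.sum_append, map_upd hj]
  simp

theorem pq_app {L : List ℕ} {j : ℕ} (hj : j ∉ L) (b : ℕ → ℕ) (b' : ℕ) (η : ℕ → ℕ → α)
    (η' : ℕ → α) (n : ℕ × ℕ → Finset α) (n' : ℕ → Finset α) :
    (pq (L ++ [j]) (Function.update b j b') (Function.update η j η') (nN j n n') : Lx K α) =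
      pq L b η n * qn b' η' n' := by
  have h1 : (pq (L ++ [j]) (Function.update b j b') (Function.update η j η') (nN j n n') : Lx K α)
      = pq L (Function.update b j b') (Function.update η j η') (nN j n n') *
        qn b' η' n' := by
    unfold pq
    rw [List.map_append, List.prod_append, List.map_singleton, List.prod_singleton, nN_self,
      Function.update_self, Function.update_self]
  rw [h1]
  congr 1
  have hne : ∀ k ∈ L, k ≠ j := by
    rintro k hk rfl
    exact hj hk
  refine pq_congr (fun k hk => ?_) (fun k hk i _ => ?_) (fun k hk i _ => ?_)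
  · rw [Function.update_of_ne (hne k hk)]
  · rw [Function.update_of_ne (hne k hk)]
  · exact if_neg (hne k hk)

theorem bs_app {L : List ℕ} {j : ℕ} (hj : j ∉ L) (b : ℕ → ℕ) (b' : ℕ) (η : ℕ → ℕ → α)
    (η' : ℕ → α) (n : ℕ × ℕ → Finset α) (n' : ℕ → Finset α) {k : ℕ} (hk : k ∈ L) :
    bs (Function.update b j b' k) (Function.update η j η' k) (fun i => nN j n n' (k, i)) =
      bs (b k) (η k) (fun i => n (k, i)) := by
  have hne : k ≠ j := by
    rintro rfl
    exact hj hk
  rw [nN_ne hne, Function.update_of_ne hne, Function.update_of_ne hne]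

theorem bs_self (j : ℕ) (b : ℕ → ℕ) (b' : ℕ) (η : ℕ → ℕ → α)
    (η' : ℕ → α) (n : ℕ × ℕ → Finset α) (n' : ℕ → Finset α) :
    bs (Function.update b j b' j) (Function.update η j η' j) (fun i => nN j n n' (j, i)) =
      bs b' η' n' := by
  rw [nN_self, Function.update_self, Function.update_self]

theorem mem_ls {L : List ℕ} {b : ℕ → ℕ} {η : ℕ → ℕ → α} {n : ℕ × ℕ → Finset α} {x : α} :
    x ∈ ls L b η n ↔ ∃ k ∈ L, x ∈ bs (b k) (η k) (fun i => n (k, i)) := by
  unfold ls
  rw [mem_biUnion]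
  constructor
  · rintro ⟨k, hk, h⟩
    exact ⟨k, List.mem_toFinset.1 hk, h⟩
  · rintro ⟨k, hk, h⟩
    exact ⟨k, List.mem_toFinset.2 hk, h⟩

theorem mem_app {L : List ℕ} {j : ℕ} (hj : j ∉ L) (b : ℕ → ℕ) (b' : ℕ) (η : ℕ → ℕ → α)
    (η' : ℕ → α) (n : ℕ × ℕ → Finset α) (n' : ℕ → Finset α) {x : α}
    (hx : x ∈ ls (L ++ [j]) (Function.update b j b') (Function.update η j η') (nN j n n')) :
    x ∈ ls L b η n ∨ x ∈ bs b' η' n' := by
  obtain ⟨k, hk, h⟩ := mem_ls.1 hx
  rcases List.mem_append.1 hk with hk | hk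
  · rw [bs_app hj b b' η η' n n' hk] at h
    exact Or.inl (mem_ls.2 ⟨k, hk, h⟩)
  · rw [List.mem_singleton] at hk
    subst hk
    rw [bs_self] at h
    exact Or.inr h

theorem bs_sub {r : ℕ} {R : Finset α} {b : ℕ} {η : ℕ → α} {n : ℕ → Finset α}
    (h : BV r R b η n) : bs b η n ⊆ R := by
  intro x hx
  unfold bs at hx
  rcases mem_union.1 hx with hx | hx
  · obtain ⟨i, hi, rfl⟩ := mem_image.1 hx
    exact h.mem i (Nat.le_of_lt_succ (mem_range.1 hi))
  · obtain ⟨i, hi, hx⟩ := mem_biUnion.1 hx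
    exact h.sub i (mem_range.1 hi) hx

omit [DecidableEq α] in
theorem bv_mono {r : ℕ} {R R' : Finset α} (hR : R ⊆ R') {b : ℕ} {η : ℕ → α} {n : ℕ → Finset α}
    (h : BV r R b η n) : BV r R' b η n :=
  ⟨h.inj, fun i hi => hR (h.mem i hi), h.card, fun i hi => (h.sub i hi).trans hR, h.dis, h.out⟩

theorem lv_app [Fintype α] {r : ℕ} {L : List ℕ} {j : ℕ} (hj : j ∉ L) {b : ℕ → ℕ} {b' : ℕ}
    {η : ℕ → ℕ → α} {η' : ℕ → α} {n : ℕ × ℕ → Finset α} {n' : ℕ → Finset α} {R : Finset α}
    (hL : LV r univ L b η n) (hR : Disjoint R (ls L b η n)) (hb : 2 ≤ b')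
    (hB : BV r R b' η' n') :
    LV r univ (L ++ [j]) (Function.update b j b') (Function.update η j η') (nN j n n') := by
  have hne : ∀ k ∈ L, k ≠ j := by
    rintro k hk rfl
    exact hj hk
  have hd : ∀ k ∈ L, Disjoint (bs (b k) (η k) (fun i => n (k, i))) (bs b' η' n') := by
    intro k hk
    rw [disjoint_left]
    intro x hx hx'
    exact disjoint_left.1 hR (bs_sub hB hx') (mem_ls.2 ⟨k, hk, hx⟩)
  refine ⟨?_, fun k hk => ?_, fun k hk => ?_, fun k hk k' hk' hkk => ?_⟩
  · rw [List.nodup_append]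
    refine ⟨hL.nod, List.nodup_singleton j, ?_⟩
    intro x hx y hy
    rw [List.mem_singleton] at hy
    rw [hy]
    exact hne x hx
  · rcases List.mem_append.1 hk with hk | hk
    · rw [Function.update_of_ne (hne k hk)]
      exact hL.two k hk
    · rw [List.mem_singleton] at hk
      subst hk
      rw [Function.update_self]
      exact hb
  · rcases List.mem_append.1 hk with hk | hk
    · rw [nN_ne (hne k hk), Function.update_of_ne (hne k hk), Function.update_of_ne (hne k hk)]
      exact hL.blk k hk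
    · rw [List.mem_singleton] at hk
      subst hk
      rw [nN_self, Function.update_self, Function.update_self]
      exact bv_mono (subset_univ R) hB
  · rcases List.mem_append.1 hk with hkL | hkL
    · rcases List.mem_append.1 hk' with hkL' | hkL'
      · rw [bs_app hj b b' η η' n n' hkL, bs_app hj b b' η η' n n' hkL']
        exact hL.dis k hkL k' hkL' hkk
      · have e := List.mem_singleton.1 hkL'
        rw [bs_app hj b b' η η' n n' hkL, e, bs_self]
        exact hd k hkL
    · have e := List.mem_singleton.1 hkL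
      rcases List.mem_append.1 hk' with hkL' | hkL'
      · rw [bs_app hj b b' η η' n n' hkL', e, bs_self]
        exact (hd k' hkL').symm
      · have e' := List.mem_singleton.1 hkL'
        exact absurd (e.trans e'.symm) hkk

omit [DecidableEq α] in
open Classical in
/-- left multiplication by a product of blocks which is fixed by the permutations. -/
theorem asym_mul [Fintype α] {Q : Finset α} {x : Lx K α} (y : Lx K α)
    (h : ∀ σ, Sup Q σ → act K α σ x = x) :
    asym (act K α) Q (x * y) = x * asym (act K α) Q y := by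
  unfold asym
  rw [LinearMap.sum_apply, LinearMap.sum_apply, Finset.mul_sum]
  refine Finset.sum_congr rfl fun σ hσ => ?_
  have h1 : Sup Q σ := (mem_filter.1 hσ).2
  rw [LinearMap.smul_apply, LinearMap.smul_apply, act_mul, h σ h1, mul_smul_comm]

end

end WTwoX

open WTwoX in
theorem prf_WTwo (hG2 : S_G2) (hZz : S_Zz) (hPq : S_Pq) (hQCy : S_QCy) : S_WTwo := by
  intro K _ _ α _ _ r p a q L b η n R Q u v m hr hW hL hp hR haq hV hQ hQc
  have _h0 := hQCy
  have hzz : (zz a u v m : Lx K α) ∈ Cy K (r + 1) R a :=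
    (hZz K α a u v m).2.2.2.2 r q R hV haq
  have hpq : (pq L b η n : Lx K α) ∈ Cy K (r + 1) (ls L b η n) ((L.map b).sum) :=
    (hPq K α r univ L b η n).1 hL
  have hcard : a * (r + 2) ≤ R.card := by
    rw [hV.card_eq]
    calc a * (r + 2) = 2 * a + a * r := by ring
      _ ≤ 2 * a + q * r := Nat.add_le_add_left (Nat.mul_le_mul_right r haq) _
  rw [asym_mul (zz a u v m) (fun σ hσ => act_eq_self (fun x hx => hσ x fun hc =>
    disjoint_left.1 hR (hQ hc) hx) hpq.1)]
  have hmem := hG2 K α r a R Q hr hcard hQ hQc _ hzz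
  obtain ⟨y, hy, z, hz, hyz⟩ := Submodule.mem_sup.1 hmem
  rw [← hyz, mul_add]
  refine Submodule.add_mem _ ?_ ?_
  · have h1 := Cy_mul_Bd hR.symm hpq hy
    rw [hp] at h1
    exact Bd_mono (subset_univ _) h1
  · clear hyz hmem hy
    unfold spB at hz
    induction hz using Submodule.span_induction with
    | mem x hx =>
      obtain ⟨b', η', n', κ, h2, hba, hB, hκ, rfl⟩ := hx
      obtain ⟨j, hj⟩ := Infinite.exists_notMem_finset L.toFinset
      rw [List.mem_toFinset] at hj
      rw [← mul_assoc, ← pq_app hj b b' η η' n n']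
      refine hW (a - b') (by omega) _ _ _ _ (lv_app hj hL hR h2 hB) ?_ κ ?_
      · rw [sum_app hj]
        omega
      · refine Cy_mono ?_ hκ
        intro x hx
        rw [mem_sdiff] at hx ⊢
        refine ⟨mem_univ x, fun hc => ?_⟩
        rcases mem_app hj b b' η η' n n' hc with hc | hc
        · exact disjoint_left.1 hR hx.1 hc
        · exact hx.2 hc
    | zero => rw [mul_zero]; exact Submodule.zero_mem _
    | add x y _ _ hx hy => rw [mul_add]; exact Submodule.add_mem _ hx hy
    | smul c x _ hx => rw [mul_smul_comm]; exact Submodule.smul_mem _ _ hx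

end Pool.Agent.Work.MP_1233f5_ag.Y

end

section

/-! MP_1233f5_ag, block Y: item WX (exchange between a block and the core). -/

set_option autoImplicit false
set_option linter.unusedSectionVars false

namespace Pool.Agent.Work.MP_1233f5_ag.Y

open Finset
open Pool.Agent.Work.MP_1233f5_ag.V (vm ML theta)
open Pool.Agent.Work.MP_1233f5_ag.Sec (Fk wd ct ee ff hh IsSec IsDeg swd brk)

namespace WXX

section alg
variable {K : Type} [Field K] {α : Type} [DecidableEq α]

theorem pq_append (L1 L2 : List ℕ) (b : ℕ → ℕ) (η : ℕ → ℕ → α) (n : ℕ × ℕ → Finset α) :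
    (pq (L1 ++ L2) b η n : Lx K α) = pq L1 b η n * pq L2 b η n := by
  unfold pq
  rw [List.map_append, List.prod_append]

theorem pq_cons (j : ℕ) (L : List ℕ) (b : ℕ → ℕ) (η : ℕ → ℕ → α) (n : ℕ × ℕ → Finset α) :
    (pq (j :: L) b η n : Lx K α) =
      qn (b j) (η j) (fun i => n (j, i)) * pq L b η n := by
  unfold pq
  rw [List.map_cons, List.prod_cons]

theorem pq_nil (b : ℕ → ℕ) (η : ℕ → ℕ → α) (n : ℕ × ℕ → Finset α) :
    (pq [] b η n : Lx K α) = 1 := rfl

end alg

section geo
variable {α : Type} [DecidableEq α]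

theorem mem_bs {b : ℕ} {η : ℕ → α} {n : ℕ → Finset α} {y : α} :
    y ∈ bs b η n ↔ (∃ i ≤ b, η i = y) ∨ ∃ i < b, y ∈ n i := by
  unfold bs
  simp only [mem_union, mem_image, mem_biUnion, mem_range, Nat.lt_succ_iff]

theorem mem_ls {L : List ℕ} {b : ℕ → ℕ} {η : ℕ → ℕ → α} {n : ℕ × ℕ → Finset α} {y : α} :
    y ∈ ls L b η n ↔ ∃ j ∈ L, y ∈ bs (b j) (η j) (fun i => n (j, i)) := by
  unfold ls
  simp only [mem_biUnion, List.mem_toFinset]

theorem upd_eq (n : ℕ × ℕ → Finset α) (j k : ℕ) (m0 : Finset α) :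
    (fun i => Function.update n (j, k) m0 (j, i)) =
      Function.update (fun i => n (j, i)) k m0 := by
  funext i
  rcases eq_or_ne i k with rfl | h
  · rw [Function.update_self, Function.update_self]
  · rw [Function.update_of_ne h, Function.update_of_ne]
    intro e
    exact h (Prod.ext_iff.1 e).2

theorem upd_ne (n : ℕ × ℕ → Finset α) {j l : ℕ} (k : ℕ) (hl : l ≠ j) (m0 : Finset α) :
    (fun i => Function.update n (j, k) m0 (l, i)) = fun i => n (l, i) := by
  funext i
  rw [Function.update_of_ne]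
  intro e
  exact hl (Prod.ext_iff.1 e).1

theorem BV_upd {r : ℕ} {P : Finset α} {b : ℕ} {η : ℕ → α} {n : ℕ → Finset α}
    (h : BV r P b η n) {m : Finset α} (hm : Disjoint m (bs b η n)) (hmP : m ⊆ P)
    (hc : m.card = r) (k : ℕ) : BV r P b η (Function.update n k m) where
  inj := h.inj
  mem := h.mem
  card i hi := by
    rcases eq_or_ne i k with rfl | hik
    · rw [Function.update_self, hc]
    · rw [Function.update_of_ne hik, h.card i hi]
  sub i hi := by
    rcases eq_or_ne i k with rfl | hik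
    · rw [Function.update_self]
      exact hmP
    · rw [Function.update_of_ne hik]
      exact h.sub i hi
  dis i hi j hj hij := by
    have hd : ∀ l < b, Disjoint m (n l) := fun l hl =>
      hm.mono_right fun y hy => mem_bs.2 (Or.inr ⟨l, hl, hy⟩)
    rcases eq_or_ne i k with rfl | hik
    · rw [Function.update_self, Function.update_of_ne hij.symm]
      exact hd j hj
    · rcases eq_or_ne j k with rfl | hjk
      · rw [Function.update_self, Function.update_of_ne hij]
        exact (hd i hi).symm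
      · rw [Function.update_of_ne hik, Function.update_of_ne hjk]
        exact h.dis i hi j hj hij
  out i hi j hj := by
    rcases eq_or_ne j k with rfl | hjk
    · rw [Function.update_self]
      intro hy
      exact disjoint_left.1 hm hy (mem_bs.2 (Or.inl ⟨i, hi, rfl⟩))
    · rw [Function.update_of_ne hjk]
      exact h.out i hi j hj

theorem BV_ext {r : ℕ} {P : Finset α} {b : ℕ} {η : ℕ → α} {n : ℕ → Finset α}
    (h : BV r P b η n) {m : Finset α} {x : α} (hx : x ∉ bs b η n) (hxP : x ∈ P)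
    (hm : Disjoint m (bs b η n)) (hmP : m ⊆ P) (hxm : x ∉ m)
    (hc : m.card = r) :
    BV r P (b + 1) (Function.update η (b + 1) x) (Function.update n b m) where
  inj i hi j hj hij := by
    rcases eq_or_ne i (b + 1) with rfl | h1
    · rcases eq_or_ne j (b + 1) with rfl | h2
      · rfl
      · rw [Function.update_self, Function.update_of_ne h2] at hij
        exact absurd (mem_bs.2 (Or.inl ⟨j, by omega, hij.symm⟩)) hx
    · rcases eq_or_ne j (b + 1) with rfl | h2
      · rw [Function.update_self, Function.update_of_ne h1] at hij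
        exact absurd (mem_bs.2 (Or.inl ⟨i, by omega, hij⟩)) hx
      · rw [Function.update_of_ne h1, Function.update_of_ne h2] at hij
        exact h.inj i (by omega) j (by omega) hij
  mem i hi := by
    rcases eq_or_ne i (b + 1) with rfl | h1
    · rw [Function.update_self]
      exact hxP
    · rw [Function.update_of_ne h1]
      exact h.mem i (by omega)
  card i hi := by
    rcases eq_or_ne i b with rfl | h1
    · rw [Function.update_self, hc]
    · rw [Function.update_of_ne h1]
      exact h.card i (by omega)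
  sub i hi := by
    rcases eq_or_ne i b with rfl | h1
    · rw [Function.update_self]
      exact hmP
    · rw [Function.update_of_ne h1]
      exact h.sub i (by omega)
  dis i hi j hj hij := by
    have hd : ∀ l < b, Disjoint m (n l) := fun l hl =>
      hm.mono_right fun y hy => mem_bs.2 (Or.inr ⟨l, hl, hy⟩)
    rcases eq_or_ne i b with rfl | h1
    · rw [Function.update_self, Function.update_of_ne hij.symm]
      exact hd j (by omega)
    · rcases eq_or_ne j b with rfl | h2
      · rw [Function.update_self, Function.update_of_ne hij]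
        exact (hd i (by omega)).symm
      · rw [Function.update_of_ne h1, Function.update_of_ne h2]
        exact h.dis i (by omega) j (by omega) hij
  out i hi j hj := by
    rcases eq_or_ne i (b + 1) with rfl | h1
    · rw [Function.update_self]
      rcases eq_or_ne j b with rfl | h2
      · rw [Function.update_self]
        exact hxm
      · rw [Function.update_of_ne h2]
        intro hy
        exact hx (mem_bs.2 (Or.inr ⟨j, by omega, hy⟩))
    · rw [Function.update_of_ne h1]
      rcases eq_or_ne j b with rfl | h2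
      · rw [Function.update_self]
        intro hy
        exact disjoint_left.1 hm hy (mem_bs.2 (Or.inl ⟨i, by omega, rfl⟩))
      · rw [Function.update_of_ne h2]
        exact h.out i (by omega) j (by omega)

theorem bs_ext {b : ℕ} {η : ℕ → α} {n : ℕ → Finset α} {m : Finset α} {x y : α}
    (hy : y ∈ bs (b + 1) (Function.update η (b + 1) x) (Function.update n b m)) :
    y = x ∨ y ∈ m ∨ y ∈ bs b η n := by
  rcases mem_bs.1 hy with ⟨i, hi, he⟩ | ⟨i, hi, he⟩
  · rcases eq_or_ne i (b + 1) with rfl | h1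
    · rw [Function.update_self] at he
      exact Or.inl he.symm
    · rw [Function.update_of_ne h1] at he
      exact Or.inr (Or.inr (mem_bs.2 (Or.inl ⟨i, by omega, he⟩)))
  · rcases eq_or_ne i b with rfl | h1
    · rw [Function.update_self] at he
      exact Or.inr (Or.inl he)
    · rw [Function.update_of_ne h1] at he
      exact Or.inr (Or.inr (mem_bs.2 (Or.inr ⟨i, by omega, he⟩)))

/-- the extended block sizes. -/
def eb (b : ℕ → ℕ) (j : ℕ) : ℕ → ℕ := Function.update b j (b j + 1)

/-- the extended points. -/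
def ep (b : ℕ → ℕ) (η : ℕ → ℕ → α) (j : ℕ) (x : α) : ℕ → ℕ → α :=
  Function.update η j (Function.update (η j) (b j + 1) x)

/-- the extended sets. -/
def en (b : ℕ → ℕ) (n : ℕ × ℕ → Finset α) (j : ℕ) (m : Finset α) : ℕ × ℕ → Finset α :=
  Function.update n (j, b j) m

theorem LV_sub {r : ℕ} {P : Finset α} {L L' : List ℕ} {b : ℕ → ℕ} {η : ℕ → ℕ → α}
    {n : ℕ × ℕ → Finset α} (h : LV r P L b η n) (hn : L'.Nodup) (hs : ∀ j ∈ L', j ∈ L) :
    LV r P L' b η n where
  nod := hn
  two j hj := h.two j (hs j hj)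
  blk j hj := h.blk j (hs j hj)
  dis j hj l hl hjl := h.dis j (hs j hj) l (hs l hl) hjl

theorem mem_ext {L1 L2 : List ℕ} {j l : ℕ} (hl : l ∈ L1 ++ L2 ++ [j]) :
    l ∈ L1 ++ j :: L2 := by
  simp only [List.mem_append, List.mem_cons, List.not_mem_nil, or_false] at hl ⊢
  tauto

variable {r : ℕ} {L1 L2 : List ℕ} {b : ℕ → ℕ} {η : ℕ → ℕ → α} {n : ℕ × ℕ → Finset α} {j : ℕ}
  {x : α} {m0 : Finset α}

theorem bs_ne {l : ℕ} (hl : l ≠ j) :
    bs (eb b j l) (ep b η j x l) (fun i => en b n j m0 (l, i)) =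
      bs (b l) (η l) (fun i => n (l, i)) := by
  unfold eb ep en
  rw [Function.update_of_ne hl, Function.update_of_ne hl, upd_ne n (b j) hl]

theorem bs_eq :
    bs (eb b j j) (ep b η j x j) (fun i => en b n j m0 (j, i)) =
      bs (b j + 1) (Function.update (η j) (b j + 1) x)
        (Function.update (fun i => n (j, i)) (b j) m0) := by
  unfold eb ep en
  rw [Function.update_self, Function.update_self, upd_eq]

theorem bs_any {l : ℕ} (hl : l ∈ L1 ++ L2 ++ [j]) {y : α}
    (hy : y ∈ bs (eb b j l) (ep b η j x l) (fun i => en b n j m0 (l, i))) :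
    (l = j ∧ (y = x ∨ y ∈ m0)) ∨ y ∈ bs (b l) (η l) (fun i => n (l, i)) := by
  rcases eq_or_ne l j with rfl | hlj
  · rw [bs_eq] at hy
    rcases bs_ext hy with h | h | h
    · exact Or.inl ⟨rfl, Or.inl h⟩
    · exact Or.inl ⟨rfl, Or.inr h⟩
    · exact Or.inr h
  · rw [bs_ne hlj] at hy
    exact Or.inr hy

theorem ls_ext {y : α}
    (hy : y ∈ ls (L1 ++ L2 ++ [j]) (eb b j) (ep b η j x) (en b n j m0)) :
    y = x ∨ y ∈ m0 ∨ y ∈ ls (L1 ++ j :: L2) b η n := by
  obtain ⟨l, hl, h1⟩ := mem_ls.1 hy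
  rcases bs_any hl h1 with h2 | h2
  · rcases h2.2 with h3 | h3
    · exact Or.inl h3
    · exact Or.inr (Or.inl h3)
  · exact Or.inr (Or.inr (mem_ls.2 ⟨l, mem_ext hl, h2⟩))

theorem LV_ext {P : Finset α} (h : LV r P (L1 ++ j :: L2) b η n)
    (hx : x ∉ ls (L1 ++ j :: L2) b η n) (hxP : x ∈ P)
    (hm : Disjoint m0 (ls (L1 ++ j :: L2) b η n)) (hmP : m0 ⊆ P) (hxm : x ∉ m0)
    (hc : m0.card = r) :
    LV r P (L1 ++ L2 ++ [j]) (eb b j) (ep b η j x) (en b n j m0) where
  nod := by
    have hp : (L1 ++ L2 ++ [j]).Perm (L1 ++ j :: L2) := by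
      rw [List.append_assoc]
      exact List.Perm.append_left L1 (List.perm_append_singleton j L2)
    exact hp.nodup_iff.2 h.nod
  two l hl := by
    unfold eb
    rcases eq_or_ne l j with rfl | hlj
    · rw [Function.update_self]
      have := h.two l (mem_ext hl)
      omega
    · rw [Function.update_of_ne hlj]
      exact h.two l (mem_ext hl)
  blk l hl := by
    rcases eq_or_ne l j with rfl | hlj
    · unfold eb ep en
      rw [Function.update_self, Function.update_self, upd_eq]
      refine BV_ext (h.blk l (mem_ext hl)) (fun hc' => hx (mem_ls.2 ⟨l, mem_ext hl, hc'⟩)) hxP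
        (hm.mono_right fun y hy => mem_ls.2 ⟨l, mem_ext hl, hy⟩) hmP hxm hc
    · unfold eb ep en
      rw [Function.update_of_ne hlj, Function.update_of_ne hlj, upd_ne n (b j) hlj]
      exact h.blk l (mem_ext hl)
  dis l hl l' hl' hll := by
    rw [disjoint_left]
    intro y hy hy'
    rcases bs_any hl hy with h1 | h1 <;> rcases bs_any hl' hy' with h2 | h2
    · exact hll (h1.1.trans h2.1.symm)
    · have h3 := mem_ls.2 ⟨l', mem_ext hl', h2⟩
      rcases h1.2 with rfl | h4
      · exact hx h3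
      · exact disjoint_left.1 hm h4 h3
    · have h3 := mem_ls.2 ⟨l, mem_ext hl, h1⟩
      rcases h2.2 with rfl | h4
      · exact hx h3
      · exact disjoint_left.1 hm h4 h3
    · exact disjoint_left.1 (h.dis l (mem_ext hl) l' (mem_ext hl') hll) h1 h2

theorem sum_ext (hn : (L1 ++ j :: L2).Nodup) :
    ((L1 ++ L2 ++ [j]).map (eb b j)).sum = ((L1 ++ j :: L2).map b).sum + 1 := by
  have h1 : ∀ l ∈ L1, eb b j l = b l := by
    intro l hl
    unfold eb
    rw [Function.update_of_ne]
    rintro rfl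
    rw [List.nodup_append] at hn
    exact hn.2.2 l hl l (List.mem_cons_self) rfl
  have h2 : ∀ l ∈ L2, eb b j l = b l := by
    intro l hl
    unfold eb
    rw [Function.update_of_ne]
    rintro rfl
    rw [List.nodup_append, List.nodup_cons] at hn
    exact hn.2.1.1 hl
  rw [List.map_append, List.map_append, List.map_append, List.map_congr_left h1,
    List.map_congr_left h2, List.sum_append, List.sum_append, List.sum_append, List.map_cons,
    List.map_cons, List.map_nil, List.sum_cons, List.sum_cons, List.sum_nil]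
  have h3 : eb b j j = b j + 1 := by
    unfold eb
    rw [Function.update_self]
  rw [h3]
  ring

end geo

section alg2
variable {K : Type} [Field K] {α : Type} [DecidableEq α]
  {r : ℕ} {L1 L2 : List ℕ} {b : ℕ → ℕ} {η : ℕ → ℕ → α} {n : ℕ × ℕ → Finset α} {j : ℕ}
  {x : α} {m0 : Finset α}

theorem nd1 (hn : (L1 ++ j :: L2).Nodup) {l : ℕ} (hl : l ∈ L1) : l ≠ j := by
  rintro rfl
  rw [List.nodup_append] at hn
  exact hn.2.2 l hl l (List.mem_cons_self) rfl

theorem nd2 (hn : (L1 ++ j :: L2).Nodup) {l : ℕ} (hl : l ∈ L2) : l ≠ j := by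
  rintro rfl
  rw [List.nodup_append, List.nodup_cons] at hn
  exact hn.2.1.1 hl

theorem pq_ne {L : List ℕ} (hL : ∀ l ∈ L, l ≠ j) :
    (pq L (eb b j) (ep b η j x) (en b n j m0) : Lx K α) = pq L b η n := by
  refine pq_congr (fun l hl => ?_) (fun l hl i _ => ?_) (fun l hl i _ => ?_)
  · unfold eb
    rw [Function.update_of_ne (hL l hl)]
  · unfold ep
    rw [Function.update_of_ne (hL l hl)]
  · unfold en
    rw [Function.update_of_ne]
    intro e
    exact hL l hl (Prod.ext_iff.1 e).1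

theorem pq_upd {L : List ℕ} (hL : ∀ l ∈ L, l ≠ j) (k : ℕ) :
    (pq L b η (Function.update n (j, k) m0) : Lx K α) = pq L b η n := by
  refine pq_congr (fun l hl => rfl) (fun l hl i _ => rfl) (fun l hl i _ => ?_)
  rw [Function.update_of_ne]
  intro e
  exact hL l hl (Prod.ext_iff.1 e).1

theorem pq_ext (hn : (L1 ++ j :: L2).Nodup) :
    (pq (L1 ++ L2 ++ [j]) (eb b j) (ep b η j x) (en b n j m0) : Lx K α) =
      pq L1 b η n * pq L2 b η n * qn (b j + 1) (Function.update (η j) (b j + 1) x)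
        (Function.update (fun i => n (j, i)) (b j) m0) := by
  rw [pq_append, pq_append, pq_ne (fun l hl => nd1 hn hl), pq_ne (fun l hl => nd2 hn hl),
    pq_cons, pq_nil, mul_one]
  unfold eb ep en
  rw [Function.update_self, Function.update_self, upd_eq]

theorem pq_split : (pq (L1 ++ j :: L2) b η n : Lx K α) =
    pq L1 b η n * (qn (b j) (η j) (fun i => n (j, i)) * pq L2 b η n) := by
  rw [pq_append, pq_cons]

theorem pq_split_upd (hn : (L1 ++ j :: L2).Nodup) (k : ℕ) :
    (pq (L1 ++ j :: L2) b η (Function.update n (j, k) m0) : Lx K α) =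
    pq L1 b η n * (qn (b j) (η j) (Function.update (fun i => n (j, i)) k m0) *
      pq L2 b η n) := by
  rw [pq_append, pq_cons, pq_upd (fun l hl => nd1 hn hl), pq_upd (fun l hl => nd2 hn hl), upd_eq]

/-- the algebra. -/
theorem algebra {A : Type} [Ring A] [Algebra K A] (s : Finset ℕ) (ε : K)
    (X1 X2 Q A0 k qu qv : A) (Qi Ai : ℕ → A) (h0 : Q * X2 = ε • (X2 * Q))
    (hi : ∀ i ∈ s, Qi i * X2 = ε • (X2 * Qi i))
    (hX : qu - qv = -(Q * A0 + ∑ i ∈ s, Qi i * Ai i)) :
    X1 * (Q * X2) * (A0 * k) + ∑ i ∈ s, X1 * (Qi i * X2) * (Ai i * k) =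
      (-ε) • (X1 * X2 * qu * k - X1 * X2 * qv * k) := by
  have h1 : ∀ i ∈ s, X1 * (Qi i * X2) * (Ai i * k) = ε • (X1 * X2 * (Qi i * Ai i) * k) := by
    intro i his
    rw [hi i his, mul_smul_comm, smul_mul_assoc]
    simp only [mul_assoc]
  rw [sum_congr rfl h1, ← smul_sum, ← sum_mul, ← mul_sum, h0, mul_smul_comm, smul_mul_assoc,
    ← sub_mul, ← mul_sub, hX, mul_neg, neg_mul, smul_neg, neg_smul, neg_neg, mul_add, add_mul,
    smul_add]
  simp only [mul_assoc]

end alg2

end WXX

open WXX in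
theorem prf_WX (hQX : S_QX) (hZz : S_Zz) (hPq : S_Pq) (hQCy : S_QCy) : S_WX := by
  intro K _ _ α _ _ r p a q L b η n R u v m m0 j hW hL hp hj hRL hmR hmL hmc ha haq hV
  obtain ⟨a, rfl⟩ : ∃ a', a = a' + 1 := ⟨a - 1, by omega⟩
  obtain ⟨L1, L2, rfl⟩ := List.append_of_mem hj
  have hz : ∀ g : Finset α, (zz (a + 1) u v (cns g m) : Lx K α) =
      (ed (insert (u 0) g) - ed (insert (v 0) g)) *
        zz a (fun i => u (i + 1)) (fun i => v (i + 1)) m := by
    intro g
    have h1 := (hZz K α a u v (cns g m)).1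
    have h2 : cns g m 0 = g := rfl
    have h3 : (fun i => cns g m (i + 1)) = m := by
      funext i
      rfl
    rw [h1, h2, h3]
  -- the core
  have hκ : (zz a (fun i => u (i + 1)) (fun i => v (i + 1)) m : Lx K α) ∈
      Cy K (r + 1) ((range a).image (fun i => u (i + 1)) ∪
        (range a).image (fun i => v (i + 1)) ∪ (range a).biUnion m) a := by
    refine (hZz K α a (fun i => u (i + 1)) (fun i => v (i + 1)) m).2.2.2.2 r a _ ?_ le_rfl
    refine ⟨fun i hi => hV.card i (by omega), fun i hi l hl => hV.dis i (by omega) l (by omega),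
      fun i hi l hl e => ?_, fun i hi l hl e => ?_,
      fun i hi l hl => hV.uv (i + 1) (by omega) (l + 1) (by omega),
      fun i hi l hl => hV.uout (i + 1) (by omega) l (by omega),
      fun i hi l hl => hV.vout (i + 1) (by omega) l (by omega), rfl⟩
    · have := hV.uinj (i + 1) (by omega) (l + 1) (by omega) e
      omega
    · have := hV.vinj (i + 1) (by omega) (l + 1) (by omega) e
      omega
  have hu0 : u 0 ∈ R := by
    rw [← hV.cov]
    exact mem_union_left _ (mem_union_left _ (mem_image_of_mem _ (mem_range.2 (by omega))))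
  have hv0 : v 0 ∈ R := by
    rw [← hV.cov]
    exact mem_union_left _ (mem_union_right _ (mem_image_of_mem _ (mem_range.2 (by omega))))
  have hR : ∀ y ∈ ((range a).image (fun i => u (i + 1)) ∪
        (range a).image (fun i => v (i + 1)) ∪ (range a).biUnion m), y ∈ R ∧ y ≠ u 0 ∧
        y ≠ v 0 := by
    intro y hy
    rw [mem_union, mem_union, mem_image, mem_image, mem_biUnion] at hy
    rcases hy with (⟨i, hi, rfl⟩ | ⟨i, hi, rfl⟩) | ⟨i, hi, hy⟩
    · rw [mem_range] at hi
      refine ⟨?_, fun e => ?_, hV.uv (i + 1) (by omega) 0 (by omega)⟩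
      · rw [← hV.cov]
        exact mem_union_left _ (mem_union_left _
          (mem_image_of_mem _ (mem_range.2 (by omega))))
      · have := hV.uinj (i + 1) (by omega) 0 (by omega) e
        omega
    · rw [mem_range] at hi
      refine ⟨?_, fun e => hV.uv 0 (by omega) (i + 1) (by omega) e.symm, fun e => ?_⟩
      · rw [← hV.cov]
        exact mem_union_left _ (mem_union_right _
          (mem_image_of_mem _ (mem_range.2 (by omega))))
      · have := hV.vinj (i + 1) (by omega) 0 (by omega) e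
        omega
    · rw [mem_range] at hi
      refine ⟨?_, ?_, ?_⟩
      · rw [← hV.cov]
        exact mem_union_right _ (mem_biUnion.2 ⟨i, mem_range.2 (by omega), hy⟩)
      · rintro rfl
        exact hV.uout 0 (by omega) i (by omega) hy
      · rintro rfl
        exact hV.vout 0 (by omega) i (by omega) hy
  have hmain : ∀ w : α, w ∈ R → (∀ y ∈ ((range a).image (fun i => u (i + 1)) ∪
        (range a).image (fun i => v (i + 1)) ∪ (range a).biUnion m), y ≠ w) →
      (pq L1 b η n * pq L2 b η n * qn (b j + 1) (Function.update (η j) (b j + 1) w)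
        (Function.update (fun i => n (j, i)) (b j) m0) *
        zz a (fun i => u (i + 1)) (fun i => v (i + 1)) m : Lx K α) ∈
        Bd K (r + 1) (univ : Finset α) p := by
    intro w hw hwy
    have hwL : w ∉ ls (L1 ++ j :: L2) b η n := disjoint_left.1 hRL hw
    have hwm : w ∉ m0 := fun h => disjoint_left.1 hmR h hw
    have h1 := hW a (by omega) (L1 ++ L2 ++ [j]) (eb b j) (ep b η j w) (en b n j m0)
      (LV_ext hL hwL (mem_univ _) hmL (subset_univ _) hwm hmc)
      (by rw [sum_ext hL.nod]; omega)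
      (zz a (fun i => u (i + 1)) (fun i => v (i + 1)) m)
      (Cy_mono (fun y hy => by
        rw [mem_sdiff]
        refine ⟨mem_univ _, fun hc => ?_⟩
        rcases ls_ext hc with h2 | h2 | h2
        · exact hwy y hy h2
        · exact disjoint_left.1 hmR h2 (hR y hy).1
        · exact disjoint_left.1 hRL (hR y hy).1 h2) hκ)
    rw [pq_ext hL.nod] at h1
    exact h1
  -- commutation
  have hBj := hL.blk j hj
  have hmj : Disjoint m0 (bs (b j) (η j) (fun i => n (j, i))) :=
    hmL.mono_right fun y hy => mem_ls.2 ⟨j, hj, hy⟩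
  have hL2 : LV r univ L2 b η n := LV_sub hL (by
    have := hL.nod
    rw [List.nodup_append, List.nodup_cons] at this
    exact this.2.1.2) (fun l hl => by simp [hl])
  have hX2 := ((hPq K α r univ L2 b η n).1 hL2).1
  have hc0 := mul_comm_graded hX2 (hQCy K α r (b j) univ (η j) (fun i => n (j, i)) hBj).1
  have hci : ∀ i ∈ range (b j), _ := fun i (_ : i ∈ range (b j)) =>
    mul_comm_graded hX2 (hQCy K α r (b j) univ (η j)
      (Function.update (fun i => n (j, i)) i m0)
      (BV_upd hBj hmj (subset_univ _) hmc i)).1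
  have hX := hQX K α (b j) (η j) (u 0) (v 0) (fun i => n (j, i)) m0
  have key := algebra (K := K) (range (b j)) _ (pq L1 b η n : Lx K α) (pq L2 b η n)
    _ _ (zz a (fun i => u (i + 1)) (fun i => v (i + 1)) m) _ _ _ _ hc0 hci hX
  have hgoal : (pq (L1 ++ j :: L2) b η n * zz (a + 1) u v (cns m0 m) : Lx K α) +
      ∑ i ∈ range (b j), (pq (L1 ++ j :: L2) b η (Function.update n (j, i) m0) *
        zz (a + 1) u v (cns (n (j, i)) m) : Lx K α) =
      (pq L1 b η n * (qn (b j) (η j) (fun i => n (j, i)) * pq L2 b η n)) *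
        ((ed (insert (u 0) m0) - ed (insert (v 0) m0)) *
          zz a (fun i => u (i + 1)) (fun i => v (i + 1)) m) +
      ∑ i ∈ range (b j), (pq L1 b η n *
        (qn (b j) (η j) (Function.update (fun i => n (j, i)) i m0) * pq L2 b η n)) *
        ((ed (insert (u 0) (n (j, i))) - ed (insert (v 0) (n (j, i)))) *
          zz a (fun i => u (i + 1)) (fun i => v (i + 1)) m) := by
    rw [pq_split, hz]
    congr 1
    refine sum_congr rfl fun i _ => ?_
    rw [pq_split_upd hL.nod, hz]
  rw [hgoal, key]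
  refine Submodule.smul_mem _ _ (Submodule.sub_mem _ ?_ ?_)
  · exact hmain (u 0) hu0 (fun y hy => (hR y hy).2.1)
  · exact hmain (v 0) hv0 (fun y hy => (hR y hy).2.2)

end Pool.Agent.Work.MP_1233f5_ag.Y

end

section

/-! MP_1233f5_ag, block Y: item Zz (facts on the products zz). -/

set_option autoImplicit false

namespace Pool.Agent.Work.MP_1233f5_ag.Y

open Finset
open Pool.Agent.Work.MP_1233f5_ag.V (vm ML theta)
open Pool.Agent.Work.MP_1233f5_ag.Sec (Fk wd ct ee ff hh IsSec IsDeg swd brk)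

namespace ZzX

/-- the points of a configuration. -/
def sp {α : Type} [DecidableEq α] (a q : ℕ) (u v : ℕ → α) (m : ℕ → Finset α) : Finset α :=
  (range a).image u ∪ (range a).image v ∪ (range q).biUnion m

theorem mem_sp {α : Type} [DecidableEq α] {a q : ℕ} {u v : ℕ → α} {m : ℕ → Finset α} {x : α} :
    x ∈ sp a q u v m ↔ (∃ i < a, u i = x) ∨ (∃ i < a, v i = x) ∨ ∃ i < q, x ∈ m i := by
  unfold sp
  simp only [mem_union, mem_image, mem_biUnion, mem_range, or_assoc]

theorem vc_restrict {α : Type} [DecidableEq α] {r : ℕ} {R : Finset α} {a q : ℕ} {u v : ℕ → α}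
    {m : ℕ → Finset α} (h : VC r R a q u v m) (haq : a ≤ q) : VC r (sp a a u v m) a a u v m where
  card := fun i hi => h.card i (hi.trans_le haq)
  dis := fun i hi j hj => h.dis i (hi.trans_le haq) j (hj.trans_le haq)
  uinj := h.uinj
  vinj := h.vinj
  uv := h.uv
  uout := fun i hi j hj => h.uout i hi j (hj.trans_le haq)
  vout := fun i hi j hj => h.vout i hi j (hj.trans_le haq)
  cov := rfl

theorem sp_sub {α : Type} [DecidableEq α] {r : ℕ} {R : Finset α} {a q : ℕ} {u v : ℕ → α}
    {m : ℕ → Finset α} (h : VC r R a q u v m) (haq : a ≤ q) : sp a a u v m ⊆ R := by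
  rw [← h.cov]
  intro x hx
  rw [mem_sp] at hx
  have : x ∈ sp a q u v m := by
    rw [mem_sp]
    rcases hx with h1 | h1 | ⟨i, hi, h1⟩
    · exact Or.inl h1
    · exact Or.inr (Or.inl h1)
    · exact Or.inr (Or.inr ⟨i, hi.trans_le haq, h1⟩)
  exact this

theorem vc_tail {α : Type} [DecidableEq α] {r : ℕ} {R : Finset α} {a q : ℕ} {u v : ℕ → α}
    {m : ℕ → Finset α} (h : VC r R (a + 1) (q + 1) u v m) :
    VC r (sp a q (fun i => u (i + 1)) (fun i => v (i + 1)) (fun i => m (i + 1))) a q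
      (fun i => u (i + 1)) (fun i => v (i + 1)) (fun i => m (i + 1)) where
  card := fun i hi => h.card (i + 1) (by omega)
  dis := fun i hi j hj hij => h.dis (i + 1) (by omega) (j + 1) (by omega) (by omega)
  uinj := fun i hi j hj hij => by
    have := h.uinj (i + 1) (by omega) (j + 1) (by omega) hij
    omega
  vinj := fun i hi j hj hij => by
    have := h.vinj (i + 1) (by omega) (j + 1) (by omega) hij
    omega
  uv := fun i hi j hj => h.uv (i + 1) (by omega) (j + 1) (by omega)
  uout := fun i hi j hj => h.uout (i + 1) (by omega) (j + 1) (by omega)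
  vout := fun i hi j hj => h.vout (i + 1) (by omega) (j + 1) (by omega)
  cov := rfl

theorem head_dis {α : Type} [DecidableEq α] {r : ℕ} {R : Finset α} {a q : ℕ} {u v : ℕ → α}
    {m : ℕ → Finset α} (h : VC r R (a + 1) (q + 1) u v m) :
    Disjoint (insert (u 0) (insert (v 0) (m 0)))
      (sp a q (fun i => u (i + 1)) (fun i => v (i + 1)) (fun i => m (i + 1))) := by
  rw [disjoint_left]
  intro x hx hx'
  rw [mem_sp] at hx'
  rw [mem_insert, mem_insert] at hx
  rcases hx' with ⟨i, hi, h1⟩ | ⟨i, hi, h1⟩ | ⟨i, hi, h1⟩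
  · rcases hx with h2 | h2 | h2
    · have := h.uinj (i + 1) (by omega) 0 (by omega) (h1.trans h2)
      omega
    · exact h.uv (i + 1) (by omega) 0 (by omega) (h1.trans h2)
    · rw [← h1] at h2
      exact h.uout (i + 1) (by omega) 0 (by omega) h2
  · rcases hx with h2 | h2 | h2
    · exact h.uv 0 (by omega) (i + 1) (by omega) (h2.symm.trans h1.symm)
    · have := h.vinj (i + 1) (by omega) 0 (by omega) (h1.trans h2)
      omega
    · rw [← h1] at h2
      exact h.vout (i + 1) (by omega) 0 (by omega) h2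
  · rcases hx with h2 | h2 | h2
    · rw [h2] at h1
      exact h.uout 0 (by omega) (i + 1) (by omega) h1
    · rw [h2] at h1
      exact h.vout 0 (by omega) (i + 1) (by omega) h1
    · exact disjoint_left.1 (h.dis 0 (by omega) (i + 1) (by omega) (by omega)) h2 h1

variable {K : Type} [Field K] {α : Type} [DecidableEq α]

theorem zz_zero (u v : ℕ → α) (m : ℕ → Finset α) : (zz 0 u v m : Lx K α) = 1 := by
  unfold zz
  rw [ExteriorAlgebra.ιMulti_zero_apply]

theorem zz_succ (a : ℕ) (u v : ℕ → α) (m : ℕ → Finset α) :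
    (zz (a + 1) u v m : Lx K α) = (ed (insert (u 0) (m 0)) - ed (insert (v 0) (m 0))) *
      zz a (fun i => u (i + 1)) (fun i => v (i + 1)) (fun i => m (i + 1)) := by
  unfold zz
  rw [ExteriorAlgebra.ιMulti_succ_apply, map_sub]
  rfl

theorem zz_act (σ : Equiv.Perm α) (a : ℕ) (u v : ℕ → α) (m : ℕ → Finset α) :
    act K α σ (zz a u v m) =
      zz a (fun i => σ (u i)) (fun i => σ (v i)) (fun i => im σ (m i)) := by
  induction a generalizing u v m with
  | zero => rw [zz_zero, zz_zero, act_one]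
  | succ a ih =>
    rw [zz_succ, zz_succ, act_mul, map_sub, act_ed, act_ed, im_insert, im_insert, ih]

theorem zz_neg (a : ℕ) (u v : ℕ → α) (m : ℕ → Finset α) (i : ℕ) (hi : i < a) :
    (zz a (Function.update u i (v i)) (Function.update v i (u i)) m : Lx K α) =
      -zz a u v m := by
  set F : Fin a → (Finset α →₀ K) := fun k : Fin a =>
    Finsupp.single (insert (u k) (m k)) (1 : K) - Finsupp.single (insert (v k) (m k)) 1 with hF
  have h1 : (fun k : Fin a =>
      Finsupp.single (insert (Function.update u i (v i) k) (m k)) (1 : K) -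
        Finsupp.single (insert (Function.update v i (u i) k) (m k)) 1) =
      Function.update F ⟨i, hi⟩ (-F ⟨i, hi⟩) := by
    funext k
    by_cases hk : k = ⟨i, hi⟩
    · subst hk
      rw [Function.update_self, Function.update_self, Function.update_self, hF]
      simp
    · have hk' : (k : ℕ) ≠ i := fun h => hk (Fin.ext h)
      rw [Function.update_of_ne hk, Function.update_of_ne hk', Function.update_of_ne hk']
  unfold zz
  rw [h1, AlternatingMap.map_update_neg, Function.update_eq_self]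

theorem swap_fin {a : ℕ} (i j : ℕ) (hi : i < a) (hj : j < a) (k : Fin a) :
    Equiv.swap i j (k : ℕ) = ((Equiv.swap (⟨i, hi⟩ : Fin a) ⟨j, hj⟩ k : Fin a) : ℕ) := by
  rw [Equiv.swap_apply_def, Equiv.swap_apply_def]
  by_cases h1 : k = ⟨i, hi⟩
  · subst h1
    simp
  · have h1' : (k : ℕ) ≠ i := fun h => h1 (Fin.ext h)
    rw [if_neg h1, if_neg h1']
    by_cases h2 : k = ⟨j, hj⟩
    · subst h2
      simp
    · have h2' : (k : ℕ) ≠ j := fun h => h2 (Fin.ext h)
      rw [if_neg h2, if_neg h2']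

theorem zz_swap (a : ℕ) (u v : ℕ → α) (m : ℕ → Finset α) (i j : ℕ) (hi : i < a) (hj : j < a)
    (hij : i ≠ j) : (zz a (u ∘ Equiv.swap i j) (v ∘ Equiv.swap i j)
      (m ∘ Equiv.swap i j) : Lx K α) = -zz a u v m := by
  set F : Fin a → (Finset α →₀ K) := fun k : Fin a =>
    Finsupp.single (insert (u k) (m k)) (1 : K) - Finsupp.single (insert (v k) (m k)) 1 with hF
  have h1 : (fun k : Fin a =>
      Finsupp.single (insert ((u ∘ Equiv.swap i j) k) ((m ∘ Equiv.swap i j) k)) (1 : K) -
        Finsupp.single (insert ((v ∘ Equiv.swap i j) k) ((m ∘ Equiv.swap i j) k)) 1) =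
      F ∘ Equiv.swap (⟨i, hi⟩ : Fin a) ⟨j, hj⟩ := by
    funext k
    simp only [Function.comp_apply, hF, swap_fin i j hi hj k]
  unfold zz
  rw [h1, AlternatingMap.map_swap _ _ (fun h => hij (congrArg Fin.val h))]

theorem ed_mem {r : ℕ} {P e : Finset α} (he : e.card = r) (heP : e ⊆ P) :
    (ed e : Lx K α) ∈ Mt K r P 1 := by
  have h := ed_mul_mem_Mt (K := K) (P := P) (P' := ∅) he heP (empty_subset _)
    (disjoint_empty_right _) (one_mem_Mt r ∅)
  rwa [mul_one] at h

theorem Dx_ed (e : Finset α) : Dx (ed e : Lx K α) = 1 := by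
  have h := Dx_ed_mul e (1 : Lx K α)
  rwa [mul_one, Dx_one, mul_zero, sub_zero] at h

theorem zz_cy {r : ℕ} (a : ℕ) (u v : ℕ → α) (m : ℕ → Finset α) (R : Finset α)
    (h : VC r R a a u v m) : (zz a u v m : Lx K α) ∈ Cy K (r + 1) R a := by
  induction a generalizing u v m R with
  | zero =>
    rw [zz_zero]
    exact ⟨one_mem_Mt _ _, Dx_one⟩
  | succ a ih =>
    have h1 : (ed (insert (u 0) (m 0)) - ed (insert (v 0) (m 0)) : Lx K α) ∈
        Cy K (r + 1) (insert (u 0) (insert (v 0) (m 0))) 1 := by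
      refine ⟨Submodule.sub_mem _ (ed_mem ?_ ?_) (ed_mem ?_ ?_), ?_⟩
      · rw [card_insert_of_notMem (h.uout 0 (by omega) 0 (by omega)), h.card 0 (by omega)]
      · exact insert_subset_insert _ (subset_insert _ _)
      · rw [card_insert_of_notMem (h.vout 0 (by omega) 0 (by omega)), h.card 0 (by omega)]
      · exact subset_insert _ _
      · show Dx _ = 0
        rw [map_sub, Dx_ed, Dx_ed, sub_self]
    have h2 := ih _ _ _ _ (vc_tail h)
    have h3 := Cy_mul (head_dis h) h1 h2
    rw [zz_succ, Nat.add_comm a 1]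
    refine Cy_mono ?_ h3
    intro x hx
    rw [← h.cov]
    have : x ∈ sp (a + 1) (a + 1) u v m := by
      rw [mem_sp]
      rcases mem_union.1 hx with hx | hx
      · rw [mem_insert, mem_insert] at hx
        rcases hx with hx | hx | hx
        · exact Or.inl ⟨0, by omega, hx.symm⟩
        · exact Or.inr (Or.inl ⟨0, by omega, hx.symm⟩)
        · exact Or.inr (Or.inr ⟨0, by omega, hx⟩)
      · rw [mem_sp] at hx
        rcases hx with ⟨i, hi, hx⟩ | ⟨i, hi, hx⟩ | ⟨i, hi, hx⟩
        · exact Or.inl ⟨i + 1, by omega, hx⟩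
        · exact Or.inr (Or.inl ⟨i + 1, by omega, hx⟩)
        · exact Or.inr (Or.inr ⟨i + 1, by omega, hx⟩)
    exact this

end ZzX

theorem prf_Zz : S_Zz := by
  intro K _ α _ a u v m
  refine ⟨ZzX.zz_succ a u v m, fun σ => ZzX.zz_act σ a u v m,
    fun i hi => ZzX.zz_neg a u v m i hi, fun i hi j hj hij => ZzX.zz_swap a u v m i j hi hj hij,
    fun r q R h haq => ?_⟩
  exact Cy_mono (ZzX.sp_sub h haq) (ZzX.zz_cy a u v m _ (ZzX.vc_restrict h haq))

end Pool.Agent.Work.MP_1233f5_ag.Y

end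

section

/-! MP_1233f5_ag, block Y: item ZzN (exchange with an uncovered set). -/

set_option autoImplicit false

namespace Pool.Agent.Work.MP_1233f5_ag.Y

open Finset
open Pool.Agent.Work.MP_1233f5_ag.V (vm ML theta)
open Pool.Agent.Work.MP_1233f5_ag.Sec (Fk wd ct ee ff hh IsSec IsDeg swd brk)

namespace ZzNX

/-- the points of a configuration. -/
def sp {α : Type} [DecidableEq α] (a q : ℕ) (u v : ℕ → α) (m : ℕ → Finset α) : Finset α :=
  (range a).image u ∪ (range a).image v ∪ (range q).biUnion m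

theorem mem_sp {α : Type} [DecidableEq α] {a q : ℕ} {u v : ℕ → α} {m : ℕ → Finset α} {x : α} :
    x ∈ sp a q u v m ↔ (∃ i < a, u i = x) ∨ (∃ i < a, v i = x) ∨ ∃ i < q, x ∈ m i := by
  unfold sp
  simp only [mem_union, mem_image, mem_biUnion, mem_range, or_assoc]

/-- the middle part of a configuration. -/
theorem vc_mid {α : Type} [DecidableEq α] {r : ℕ} {R : Finset α} {a : ℕ} {u v : ℕ → α}
    {m : ℕ → Finset α} (h : VC r R (a + 1) (a + 2) u v m) :
    VC r (sp a a (fun i => u (i + 1)) (fun i => v (i + 1)) (fun i => m (i + 1))) a a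
      (fun i => u (i + 1)) (fun i => v (i + 1)) (fun i => m (i + 1)) where
  card := fun i hi => h.card (i + 1) (by omega)
  dis := fun i hi j hj hij => h.dis (i + 1) (by omega) (j + 1) (by omega) (by omega)
  uinj := fun i hi j hj hij => by
    have := h.uinj (i + 1) (by omega) (j + 1) (by omega) hij
    omega
  vinj := fun i hi j hj hij => by
    have := h.vinj (i + 1) (by omega) (j + 1) (by omega) hij
    omega
  uv := fun i hi j hj => h.uv (i + 1) (by omega) (j + 1) (by omega)
  uout := fun i hi j hj => h.uout (i + 1) (by omega) (j + 1) (by omega)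
  vout := fun i hi j hj => h.vout (i + 1) (by omega) (j + 1) (by omega)
  cov := rfl

theorem mid_sub {α : Type} [DecidableEq α] {r : ℕ} {R : Finset α} {a : ℕ} {u v : ℕ → α}
    {m : ℕ → Finset α} (h : VC r R (a + 1) (a + 2) u v m) :
    sp a a (fun i => u (i + 1)) (fun i => v (i + 1)) (fun i => m (i + 1)) ⊆ R := by
  intro x hx
  rw [← h.cov]
  have : x ∈ sp (a + 1) (a + 2) u v m := by
    rw [mem_sp] at hx ⊢
    rcases hx with ⟨i, hi, hx⟩ | ⟨i, hi, hx⟩ | ⟨i, hi, hx⟩
    · exact Or.inl ⟨i + 1, by omega, hx⟩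
    · exact Or.inr (Or.inl ⟨i + 1, by omega, hx⟩)
    · exact Or.inr (Or.inr ⟨i + 1, by omega, hx⟩)
  exact this

/-- the points `u 0`, `v 0` and the sets `m 0`, `m (a + 1)` are disjoint from the middle part. -/
theorem mid_dis {α : Type} [DecidableEq α] {r : ℕ} {R : Finset α} {a : ℕ} {u v : ℕ → α}
    {m : ℕ → Finset α} (h : VC r R (a + 1) (a + 2) u v m) (k : ℕ) (hk : k = 0 ∨ k = a + 1) :
    Disjoint (insert (u 0) (insert (v 0) (m k)))
      (sp a a (fun i => u (i + 1)) (fun i => v (i + 1)) (fun i => m (i + 1))) := by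
  rw [disjoint_left]
  intro x hx hx'
  rw [mem_sp] at hx'
  rw [mem_insert, mem_insert] at hx
  rcases hx' with ⟨i, hi, h1⟩ | ⟨i, hi, h1⟩ | ⟨i, hi, h1⟩
  · rcases hx with h2 | h2 | h2
    · have := h.uinj (i + 1) (by omega) 0 (by omega) (h1.trans h2)
      omega
    · exact h.uv (i + 1) (by omega) 0 (by omega) (h1.trans h2)
    · rw [← h1] at h2
      exact h.uout (i + 1) (by omega) k (by omega) h2
  · rcases hx with h2 | h2 | h2
    · exact h.uv 0 (by omega) (i + 1) (by omega) (h2.symm.trans h1.symm)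
    · have := h.vinj (i + 1) (by omega) 0 (by omega) (h1.trans h2)
      omega
    · rw [← h1] at h2
      exact h.vout (i + 1) (by omega) k (by omega) h2
  · rcases hx with h2 | h2 | h2
    · rw [h2] at h1
      exact h.uout 0 (by omega) (i + 1) (by omega) h1
    · rw [h2] at h1
      exact h.vout 0 (by omega) (i + 1) (by omega) h1
    · exact disjoint_left.1 (h.dis k (by omega) (i + 1) (by omega) (by omega)) h2 h1

variable {K : Type} [Field K] {α : Type} [DecidableEq α]

/-- the chain `[u 0, m k] [v 0, m l] z`. -/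
theorem chain_mem {r : ℕ} {R : Finset α} {a : ℕ} {u v : ℕ → α}
    {m : ℕ → Finset α} (h : VC r R (a + 1) (a + 2) u v m) (k l : ℕ)
    (hkl : (k = 0 ∧ l = a + 1) ∨ (k = a + 1 ∧ l = 0)) {z : Lx K α}
    (hz : z ∈ Mt K (r + 1)
      (sp a a (fun i => u (i + 1)) (fun i => v (i + 1)) (fun i => m (i + 1))) a) :
    ed (insert (u 0) (m k)) * (ed (insert (v 0) (m l)) * z) ∈ Mt K (r + 1) R (a + 1 + 1) := by
  have hu0 : u 0 ∈ R := by
    rw [← h.cov]
    have : u 0 ∈ sp (a + 1) (a + 2) u v m := by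
      rw [mem_sp]
      exact Or.inl ⟨0, by omega, rfl⟩
    exact this
  have hv0 : v 0 ∈ R := by
    rw [← h.cov]
    have : v 0 ∈ sp (a + 1) (a + 2) u v m := by
      rw [mem_sp]
      exact Or.inr (Or.inl ⟨0, by omega, rfl⟩)
    exact this
  have hm : ∀ i < a + 2, m i ⊆ R := by
    intro i hi x hx
    rw [← h.cov]
    have : x ∈ sp (a + 1) (a + 2) u v m := by
      rw [mem_sp]
      exact Or.inr (Or.inr ⟨i, hi, hx⟩)
    exact this
  have hk : k < a + 2 := by omega
  have hl : l < a + 2 := by omega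
  have hneq : k ≠ l := by omega
  have hdk := mid_dis h k (by omega)
  have hdl := mid_dis h l (by omega)
  have h1 : ed (insert (v 0) (m l)) * z ∈ Mt K (r + 1) (insert (v 0) (m l) ∪
      sp a a (fun i => u (i + 1)) (fun i => v (i + 1)) (fun i => m (i + 1))) (a + 1) := by
    refine ed_mul_mem_Mt ?_ subset_union_left subset_union_right ?_ hz
    · rw [card_insert_of_notMem (h.vout 0 (by omega) l hl), h.card l hl]
    · exact hdl.mono_left (subset_insert _ _)
  refine ed_mul_mem_Mt ?_ ?_ ?_ ?_ h1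
  · rw [card_insert_of_notMem (h.uout 0 (by omega) k hk), h.card k hk]
  · exact insert_subset_iff.2 ⟨hu0, hm k hk⟩
  · exact union_subset (insert_subset_iff.2 ⟨hv0, hm l hl⟩) (mid_sub h)
  · rw [disjoint_union_right]
    constructor
    · rw [disjoint_left]
      intro x hx hx'
      rw [mem_insert] at hx hx'
      rcases hx with hx | hx <;> rcases hx' with hx' | hx'
      · exact h.uv 0 (by omega) 0 (by omega) (hx.symm.trans hx')
      · rw [hx] at hx'
        exact h.uout 0 (by omega) l hl hx'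
      · rw [hx'] at hx
        exact h.vout 0 (by omega) k hk hx
      · exact disjoint_left.1 (h.dis k hk l hl hneq) hx hx'
    · exact hdk.mono_left (insert_subset_insert _ (subset_insert _ _))

/-- the case `i = 0`. -/
theorem base (hZz : S_Zz) {r : ℕ} {R : Finset α} {a : ℕ} {u v : ℕ → α}
    {m : ℕ → Finset α} (h : VC r R (a + 1) (a + 2) u v m) :
    (zz (a + 1) u v m + zz (a + 1) u v (m ∘ Equiv.swap 0 (a + 1)) : Lx K α) ∈
      Bd K (r + 1) R (a + 1) := by
  have hz := (hZz K α a (fun i => u (i + 1)) (fun i => v (i + 1))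
    (fun i => m (i + 1))).2.2.2.2 r a _ (vc_mid h) le_rfl
  set z : Lx K α := zz a (fun i => u (i + 1)) (fun i => v (i + 1)) (fun i => m (i + 1)) with hzdef
  have hz' : (zz a (fun i => u (i + 1)) (fun i => v (i + 1))
      (fun i => (m ∘ Equiv.swap 0 (a + 1)) (i + 1)) : Lx K α) = z := by
    refine zz_congr (fun _ _ => rfl) (fun _ _ => rfl) fun i hi => ?_
    show m (Equiv.swap 0 (a + 1) (i + 1)) = m (i + 1)
    rw [Equiv.swap_apply_of_ne_of_ne (by omega) (by omega)]
  rw [(hZz K α a u v m).1, (hZz K α a u v (m ∘ Equiv.swap 0 (a + 1))).1, hz', ← hzdef]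
  have e1 : (m ∘ Equiv.swap 0 (a + 1)) 0 = m (a + 1) := by
    show m (Equiv.swap 0 (a + 1) 0) = m (a + 1)
    rw [Equiv.swap_apply_left]
  rw [e1]
  have hDz : Dx z = 0 := hz.2
  have c1 := chain_mem h 0 (a + 1) (Or.inl ⟨rfl, rfl⟩) hz.1
  have c2 := chain_mem h (a + 1) 0 (Or.inr ⟨rfl, rfl⟩) hz.1
  refine ⟨-(ed (insert (u 0) (m 0)) * (ed (insert (v 0) (m (a + 1))) * z) +
    ed (insert (u 0) (m (a + 1))) * (ed (insert (v 0) (m 0)) * z)),
    Submodule.neg_mem _ (Submodule.add_mem _ c1 c2), ?_⟩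
  rw [map_neg, map_add, Dx_ed_mul, Dx_ed_mul, Dx_ed_mul, Dx_ed_mul, hDz]
  simp only [mul_zero, sub_zero, sub_mul]
  abel

/-- permutation of the indices. -/
theorem vc_perm {r : ℕ} {R : Finset α} {a q : ℕ} {u v : ℕ → α} {m : ℕ → Finset α}
    (τ : Equiv.Perm ℕ) (h1 : ∀ k, τ k < a ↔ k < a) (h2 : ∀ k, τ k < q ↔ k < q)
    (h : VC r R a q u v m) : VC r R a q (u ∘ τ) (v ∘ τ) (m ∘ τ) where
  card := fun i hi => h.card _ ((h2 i).2 hi)
  dis := fun i hi j hj hij => h.dis _ ((h2 i).2 hi) _ ((h2 j).2 hj) (fun hc => hij (τ.injective hc))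
  uinj := fun i hi j hj hij => τ.injective (h.uinj _ ((h1 i).2 hi) _ ((h1 j).2 hj) hij)
  vinj := fun i hi j hj hij => τ.injective (h.vinj _ ((h1 i).2 hi) _ ((h1 j).2 hj) hij)
  uv := fun i hi j hj => h.uv _ ((h1 i).2 hi) _ ((h1 j).2 hj)
  uout := fun i hi j hj => h.uout _ ((h1 i).2 hi) _ ((h2 j).2 hj)
  vout := fun i hi j hj => h.vout _ ((h1 i).2 hi) _ ((h2 j).2 hj)
  cov := by
    rw [← h.cov]
    have key : ∀ x, x ∈ sp a q (u ∘ τ) (v ∘ τ) (m ∘ τ) ↔ x ∈ sp a q u v m := by
      intro x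
      rw [mem_sp, mem_sp]
      have e1 : ∀ w : ℕ → α, (∃ i < a, (w ∘ τ) i = x) ↔ ∃ i < a, w i = x := by
        intro w
        constructor
        · rintro ⟨i, hi, hx⟩
          exact ⟨τ i, (h1 i).2 hi, hx⟩
        · rintro ⟨i, hi, hx⟩
          refine ⟨τ.symm i, ?_, ?_⟩
          · rw [← h1, Equiv.apply_symm_apply]
            exact hi
          · rw [Function.comp_apply, Equiv.apply_symm_apply]
            exact hx
      have e2 : (∃ i < q, x ∈ (m ∘ τ) i) ↔ ∃ i < q, x ∈ m i := by
        constructor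
        · rintro ⟨i, hi, hx⟩
          exact ⟨τ i, (h2 i).2 hi, hx⟩
        · rintro ⟨i, hi, hx⟩
          refine ⟨τ.symm i, ?_, ?_⟩
          · rw [← h2, Equiv.apply_symm_apply]
            exact hi
          · rw [Function.comp_apply, Equiv.apply_symm_apply]
            exact hx
      rw [e1, e1, e2]
    exact Finset.ext key

theorem swap_lt {i b k : ℕ} (h0 : 0 < b) (hi : i < b) : Equiv.swap 0 i k < b ↔ k < b := by
  rw [Equiv.swap_apply_def]
  split_ifs with h1 h2 <;> omega

theorem swap_swap {i a : ℕ} (h0 : 0 < i) (hi : i < a) (k : ℕ) :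
    Equiv.swap i a (Equiv.swap 0 i k) = Equiv.swap 0 i (Equiv.swap 0 a k) := by
  simp only [Equiv.swap_apply_def]
  split_ifs <;> omega

end ZzNX

theorem prf_ZzN (hZz : S_Zz) : S_ZzN := by
  intro K _ α _ r a R u v m h i hi
  obtain ⟨a, rfl⟩ : ∃ b, a = b + 1 := ⟨a - 1, by omega⟩
  rcases Nat.eq_zero_or_pos i with rfl | hi0
  · exact ZzNX.base hZz h
  · have h' : VC r R (a + 1) (a + 2) (u ∘ Equiv.swap 0 i) (v ∘ Equiv.swap 0 i)
        (m ∘ Equiv.swap 0 i) :=
      ZzNX.vc_perm _ (fun k => ZzNX.swap_lt (by omega) hi)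
        (fun k => ZzNX.swap_lt (by omega) (by omega)) h
    have hb := ZzNX.base (K := K) hZz h'
    have h0 := (hZz K α (a + 1) u v m).2.2.2.1 0 (by omega) i hi (by omega)
    have h1 := (hZz K α (a + 1) u v (m ∘ Equiv.swap i (a + 1))).2.2.2.1 0 (by omega) i hi
      (by omega)
    have h2 : (m ∘ Equiv.swap i (a + 1)) ∘ Equiv.swap 0 i =
        (m ∘ Equiv.swap 0 i) ∘ Equiv.swap 0 (a + 1) := by
      funext k
      show m (Equiv.swap i (a + 1) (Equiv.swap 0 i k)) = m (Equiv.swap 0 i (Equiv.swap 0 (a + 1) k))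
      rw [ZzNX.swap_swap hi0 hi]
    rw [h2] at h1
    rw [h0, h1] at hb
    have hb2 := Submodule.neg_mem _ hb
    rwa [neg_add, neg_neg, neg_neg] at hb2

end Pool.Agent.Work.MP_1233f5_ag.Y

end
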