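import Pool.Agent.Work.MP_1233f5_ag.Y.StmtsC
import Pool.Agent.Work.MP_1233f5_ag.Y.Util
import Pool.Agent.Work.MP_1233f5_ag.Bdx.B02
import Pool.Agent.Work.MP_1233f5_ag.Bd.B02
import Pool.Agent.Work.MP_1233f5_ag.Bdx.B03
import Pool.Agent.Work.MP_1233f5_ag.Y.L_Frz
import Pool.Agent.Work.MP_1233f5_ag.Y.L_Trans

/-! Bundle of small proof modules (one section per former module). -/

section

/-! MP_1233f5_ag, block Y: the induction step. -/

set_option autoImplicit false
set_option linter.unusedSectionVars false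

namespace Pool.Agent.Work.MP_1233f5_ag.Y

open Finset
open Pool.Agent.Work.MP_1233f5_ag.V (vm ML theta)
open Pool.Agent.Work.MP_1233f5_ag.Sec (Fk wd ct ee ff hh IsSec IsDeg swd brk)

namespace WStepX

section count
variable {α : Type} [DecidableEq α]

theorem card_bs {r : ℕ} {P : Finset α} {b : ℕ} {η : ℕ → α} {n : ℕ → Finset α}
    (h : BV r P b η n) : (bs b η n).card = b * (r + 1) + 1 := by
  unfold bs
  rw [card_union_of_disjoint, card_image_of_injOn, card_biUnion, card_range,
    sum_congr rfl fun i hi => h.card i (mem_range.1 hi), sum_const, card_range, smul_eq_mul]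
  · ring
  · intro i hi j hj hij
    exact h.dis i (mem_range.1 hi) j (mem_range.1 hj) hij
  · intro i hi j hj hij
    exact h.inj i (by have := mem_range.1 (mem_coe.1 hi); omega) j
      (by have := mem_range.1 (mem_coe.1 hj); omega) hij
  · rw [disjoint_left]
    intro x hx hx'
    obtain ⟨i, hi, rfl⟩ := mem_image.1 hx
    obtain ⟨j, hj, h2⟩ := mem_biUnion.1 hx'
    exact h.out i (by have := mem_range.1 hi; omega) j (mem_range.1 hj) h2

variable {r : ℕ} {P : Finset α} {L : List ℕ} {b : ℕ → ℕ} {η : ℕ → ℕ → α} {n : ℕ × ℕ → Finset α}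

theorem sum_b (h : LV r P L b η n) : (L.map b).sum = ∑ j ∈ L.toFinset, b j :=
  (List.sum_toFinset b h.nod).symm

theorem card_ls (h : LV r P L b η n) :
    (ls L b η n).card = (L.map b).sum * (r + 1) + L.toFinset.card := by
  unfold ls
  rw [card_biUnion, sum_b h, sum_mul, card_eq_sum_ones, ← sum_add_distrib]
  · exact sum_congr rfl fun j hj => card_bs (h.blk j (List.mem_toFinset.1 hj))
  · intro j hj j' hj' hne
    exact h.dis j (List.mem_toFinset.1 hj) j' (List.mem_toFinset.1 hj') hne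

theorem sum_b2 (h : LV r P L b η n) :
    ∑ j ∈ L.toFinset, (b j - 2) + 2 * L.toFinset.card = (L.map b).sum := by
  rw [sum_b h, card_eq_sum_ones, mul_sum, ← sum_add_distrib]
  refine sum_congr rfl fun j hj => ?_
  have := h.two j (List.mem_toFinset.1 hj)
  omega

theorem image_slots (h : LV r P L b η n) : (slots L b).image Prod.fst = L.toFinset := by
  ext j
  rw [mem_image, List.mem_toFinset]
  constructor
  · rintro ⟨s, hs, rfl⟩
    exact (WAdmX.mem_slots.1 hs).1
  · intro hj
    have := h.two j hj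
    exact ⟨(j, 0), WAdmX.mem_slots.2 ⟨hj, by show 0 < b j; omega⟩, rfl⟩

theorem card_sl {j : ℕ} (hj : j ∈ L) : (sl (slots L b) j).card = b j := by
  rw [WAdmX.sl_slots hj, card_image_of_injective _ fun i i' h => (Prod.ext_iff.1 h).2, card_range]

theorem need_slots (h : LV r P L b η n) :
    need (slots L b) = 2 + ∑ j ∈ L.toFinset, (b j - 2) := by
  unfold need
  rw [image_slots h, if_neg]
  · congr 1
    exact sum_congr rfl fun j hj => by rw [card_sl (List.mem_toFinset.1 hj)]
  · rintro ⟨j, hj, h1⟩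
    rw [card_sl (List.mem_toFinset.1 hj)] at h1
    have := h.two j (List.mem_toFinset.1 hj)
    omega

theorem VC_u {a q : ℕ} {R : Finset α} {u v : ℕ → α} {m : ℕ → Finset α} (h : VC r R a q u v m) :
    (∀ i < a, u i ∈ R) ∧ (∀ i < a, v i ∈ R) ∧ ∀ i < q, m i ⊆ R := by
  refine ⟨fun i hi => ?_, fun i hi => ?_, fun i hi x hx => ?_⟩
  · rw [← h.cov]
    exact mem_union_left _ (mem_union_left _ (mem_image_of_mem _ (mem_range.2 hi)))
  · rw [← h.cov]
    exact mem_union_left _ (mem_union_right _ (mem_image_of_mem _ (mem_range.2 hi)))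
  · rw [← h.cov]
    exact mem_union_right _ (mem_biUnion.2 ⟨i, mem_range.2 hi, hx⟩)

/-- adding an uncovered set. -/
theorem VC_add {a : ℕ} {R N : Finset α} {u v : ℕ → α} {m : ℕ → Finset α}
    (h : VC r R a a u v m) (hN : N.card = r) (hd : Disjoint N R) :
    VC r (R ∪ N) a (a + 1) u v (Function.update m a N) := by
  obtain ⟨h1, h2, h3⟩ := VC_u h
  have hma : ∀ i < a, Function.update m a N i = m i := fun i hi =>
    Function.update_of_ne (by omega) _ _
  have hmN : Function.update m a N a = N := Function.update_self _ _ _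
  refine ⟨fun i hi => ?_, fun i hi j hj hij => ?_, h.uinj, h.vinj, h.uv, fun i hi j hj hm => ?_,
    fun i hi j hj hm => ?_, ?_⟩
  · rcases Nat.lt_succ_iff_lt_or_eq.1 hi with h' | rfl
    · rw [hma i h']
      exact h.card i h'
    · rw [hmN]
      exact hN
  · rcases Nat.lt_succ_iff_lt_or_eq.1 hi with h' | h'
    · rcases Nat.lt_succ_iff_lt_or_eq.1 hj with h'' | h''
      · rw [hma i h', hma j h'']
        exact h.dis i h' j h'' hij
      · rw [hma i h', h'', hmN]
        exact (hd.mono_right (h3 i h')).symm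
    · rcases Nat.lt_succ_iff_lt_or_eq.1 hj with h'' | h''
      · rw [hma j h'', h', hmN]
        exact hd.mono_right (h3 j h'')
      · omega
  · rcases Nat.lt_succ_iff_lt_or_eq.1 hj with h' | h'
    · rw [hma j h'] at hm
      exact h.uout i hi j h' hm
    · rw [h', hmN] at hm
      exact (Finset.disjoint_left.1 hd) hm (h1 i hi)
  · rcases Nat.lt_succ_iff_lt_or_eq.1 hj with h' | h'
    · rw [hma j h'] at hm
      exact h.vout i hi j h' hm
    · rw [h', hmN] at hm
      exact (Finset.disjoint_left.1 hd) hm (h2 i hi)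
  · have h4 : (range (a + 1)).biUnion (Function.update m a N) = (range a).biUnion m ∪ N := by
      ext x
      rw [mem_union, mem_biUnion, mem_biUnion]
      constructor
      · rintro ⟨i, hi, hx⟩
        rcases Nat.lt_succ_iff_lt_or_eq.1 (mem_range.1 hi) with h' | h'
        · rw [hma i h'] at hx
          exact Or.inl ⟨i, mem_range.2 h', hx⟩
        · rw [h', hmN] at hx
          exact Or.inr hx
      · rintro (⟨i, hi, hx⟩ | hx)
        · have hi' := mem_range.1 hi
          refine ⟨i, mem_range.2 (by omega), ?_⟩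
          rw [hma i hi']
          exact hx
        · refine ⟨a, mem_range.2 (by omega), ?_⟩
          rw [hmN]
          exact hx
    rw [h4, ← union_assoc, h.cov]

end count

section main
variable {K : Type} [Field K] [CharZero K] {α : Type} [Fintype α] [DecidableEq α]
variable {r p a q : ℕ} {L : List ℕ} {b : ℕ → ℕ} {η : ℕ → ℕ → α} {n : ℕ × ℕ → Finset α}

/-- the main case. -/
theorem big (hLemL : S_LemL) (hWAdm : S_WAdm) (hr : 1 ≤ r) (hq : q = a ∨ q = a + 1)
    (hW : ∀ a' < a, Wd K α r p a') (h : LV r univ L b η n) (hs : (L.map b).sum + a = p)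
    {R : Finset α} (hR : Disjoint R (ls L b η n)) {u v : ℕ → α} {m : ℕ → Finset α}
    (hV : VC r R a q u v m) (h1 : 2 + ∑ j ∈ L.toFinset, (b j - 2) ≤ a)
    (h2 : r + 2 ≤ q + L.toFinset.card) :
    (pq L b η n * zz a u v m : Lx K α) ∈ Bd K (r + 1) (univ : Finset α) p := by
  obtain ⟨k, rfl⟩ : ∃ k, q = k + 1 := ⟨q - 1, by omega⟩
  have hRls : ∀ x ∈ R, x ∉ ls L b η n := fun x hx hx' => (Finset.disjoint_left.1 hR) hx hx'
  have hbs : ∀ j ∈ L, ∀ x, x ∈ bs (b j) (η j) (fun i => n (j, i)) → x ∈ ls L b η n := by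
    intro j hj x hx
    exact mem_biUnion.2 ⟨j, List.mem_toFinset.2 hj, hx⟩
  have hηb : ∀ j ∈ L, ∀ i ≤ b j, η j i ∈ bs (b j) (η j) (fun i => n (j, i)) :=
    fun j hj i hi => WAdmX.mem_bs.2 (Or.inl ⟨i, hi, rfl⟩)
  have hnb : ∀ j ∈ L, ∀ i < b j, n (j, i) ⊆ bs (b j) (η j) (fun i => n (j, i)) :=
    fun j hj i hi x hx => WAdmX.mem_bs.2 (Or.inr ⟨i, hi, hx⟩)
  obtain ⟨P0, hP0⟩ : ∃ P0, P0 = R ∪ (slots L b).biUnion n := ⟨_, rfl⟩
  have hRn : ∀ s ∈ slots L b, Disjoint R (n s) := by
    intro s hs'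
    obtain ⟨hj, hi⟩ := WAdmX.mem_slots.1 hs'
    exact hR.mono_right fun x hx => hbs s.1 hj x (hnb s.1 hj s.2 hi hx)
  have hRU : Disjoint R ((slots L b).biUnion n) := by
    rw [disjoint_biUnion_right]
    exact hRn
  have hnn : ∀ s ∈ slots L b, ∀ s' ∈ slots L b, s ≠ s' → Disjoint (n s) (n s') := by
    rintro ⟨j, i⟩ hs' ⟨j', i'⟩ hs'' hne
    obtain ⟨hj, hi⟩ := WAdmX.mem_slots.1 hs'
    obtain ⟨hj', hi'⟩ := WAdmX.mem_slots.1 hs''
    by_cases hjj : j = j'
    · subst hjj
      exact (h.blk j hj).dis i hi i' hi' fun t => hne (by rw [t])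
    · exact (h.dis j hj j' hj' hjj).mono (hnb j hj i hi) (hnb j' hj' i' hi')
  have hnc : ∀ s ∈ slots L b, (n s).card = r := by
    rintro ⟨j, i⟩ hs'
    obtain ⟨hj, hi⟩ := WAdmX.mem_slots.1 hs'
    exact (h.blk j hj).card i hi
  have hCf : Cf r (slots L b) P0 n := by
    refine ⟨fun s hs' => ⟨hnc s hs', ?_⟩, hnn⟩
    rw [hP0]
    exact fun x hx => mem_union_right _ (mem_biUnion.2 ⟨s, hs', hx⟩)
  have hrest : rest (slots L b) P0 n = R := by
    unfold rest
    rw [hP0, union_sdiff_right]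
    exact sdiff_eq_self_of_disjoint hRU
  have hcard : P0.card = r * (slots L b).card + 2 * a + (k + 1) * r := by
    have g1 := U.card_rest hCf
    rw [hrest, hV.card_eq] at g1
    omega
  have hdis : ∀ j ∈ L, ∀ j' ∈ L, j ≠ j' → ∀ i ≤ b j, ∀ i' ≤ b j', η j i ≠ η j' i' := by
    intro j hj j' hj' hne i hi i' hi' he
    exact (Finset.disjoint_left.1 (h.dis j hj j' hj' hne)) (hηb j hj i hi)
      (he ▸ hηb j' hj' i' hi')
  have hout : ∀ j ∈ L, ∀ i ≤ b j, η j i ∉ P0 := by
    intro j hj i hi hm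
    rw [hP0, mem_union] at hm
    rcases hm with hm | hm
    · exact hRls _ hm (hbs j hj _ (hηb j hj i hi))
    · obtain ⟨⟨j', i'⟩, hs', hx⟩ := mem_biUnion.1 hm
      obtain ⟨hj', hi'⟩ := WAdmX.mem_slots.1 hs'
      by_cases hjj : j = j'
      · subst hjj
        exact (h.blk j hj).out i hi i' hi' hx
      · exact (Finset.disjoint_left.1 (h.dis j hj j' hj' hjj)) (hηb j hj i hi)
          (hnb j' hj' i' hi' hx)
  obtain ⟨Φ, hAdm, hval⟩ := hWAdm K α r p a (k + 1) L b η P0 hr (by omega) hq hW h.nod h.two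
    (fun j hj => (h.blk j hj).inj) hdis hout hs hcard
  rw [Nat.add_sub_cancel] at hAdm
  have g1 := hval n hCf u v m (by rw [hrest]; exact hV)
  have g2 := hLemL K α _ (actQ K α (r + 1) p) r k (slots L b) P0 Φ hAdm hr (by omega)
    (by rw [image_slots h]; exact h2) (by
      rw [need_slots h]
      have g3 : 2 * (2 + ∑ j ∈ L.toFinset, (b j - 2)) ≤ 2 * a := by omega
      omega) n hCf (sc a (k + 1) u v m) (by
      rw [hrest]
      exact CspX.sc_mem r (k + 1) u v m a R hV)
  rw [g2] at g1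
  have g3 := g1.symm
  rw [Submodule.mkQ_apply, Submodule.Quotient.mk_eq_zero] at g3
  exact g3

end main

end WStepX

theorem prf_WStep (hLemL : S_LemL) (hWAdm : S_WAdm) (hG1 : S_G1) (hPq : S_Pq) (hZz : S_Zz) :
    S_WStep := by
  intro K _ _ α _ _ r p a hr hcard hp hW L b η n h hs κ hκ
  have hpc := (hPq K α r univ L b η n).1 h
  have hls := WStepX.card_ls h
  have hb2 := WStepX.sum_b2 h
  obtain ⟨M, hM⟩ : ∃ M, M = L.toFinset.card := ⟨_, rfl⟩
  obtain ⟨S, hS⟩ : ∃ S, S = (L.map b).sum := ⟨_, rfl⟩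
  obtain ⟨B, hB⟩ : ∃ B, B = ∑ j ∈ L.toFinset, (b j - 2) := ⟨_, rfl⟩
  rw [← hM, ← hS] at hls
  rw [← hM, ← hS, ← hB] at hb2
  rw [← hS] at hs hpc
  have hcu : ((univ : Finset α) \ ls L b η n).card + S * (r + 1) + M = p * (r + 1) + (2 * r + 1) := by
    have h1 := card_sdiff_add_card_eq_card (subset_univ (ls L b η n))
    rw [card_univ, hcard, hls] at h1
    omega
  have hpS : p * (r + 1) = S * (r + 1) + a * (r + 1) := by rw [← hs]; ring
  have hne : Nonempty α := by
    rw [← Fintype.card_pos_iff, hcard]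
    omega
  have hc : a * (r + 2) ≤ ((univ : Finset α) \ ls L b η n).card := by
    have h1 : a * (r + 2) = a * (r + 1) + a := by ring
    omega
  have h1 := hG1 K α r a ((univ : Finset α) \ ls L b η n) hr hc hκ
  obtain ⟨κ1, hκ1, κ2, hκ2, rfl⟩ := Submodule.mem_sup.1 h1
  have hdl : Disjoint (ls L b η n) ((univ : Finset α) \ ls L b η n) := disjoint_sdiff
  rw [mul_add]
  refine Submodule.add_mem _ ?_ ?_
  · have h2 := Bd_mono (subset_univ _) (Cy_mul_Bd hdl hpc hκ1)
    rw [hs] at h2
    exact h2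
  · clear h1 hκ hκ1
    induction hκ2 using Submodule.span_induction with
    | zero => rw [mul_zero]; exact Submodule.zero_mem _
    | add x y _ _ hx hy => rw [mul_add]; exact Submodule.add_mem _ hx hy
    | smul c x _ hx => rw [mul_smul_comm]; exact Submodule.smul_mem _ _ hx
    | mem x hx =>
      obtain ⟨R, u, v, m, hR, hV, rfl⟩ := hx
      have hRc := hV.card_eq
      have hRl : Disjoint R (ls L b η n) := (hdl.mono_right hR).symm
      have hNc := card_sdiff_add_card_eq_card hR
      obtain ⟨N, hN⟩ : ∃ N, N = ((univ : Finset α) \ ls L b η n) \ R := ⟨_, rfl⟩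
      rw [← hN] at hNc
      have hNR : Disjoint N R := by
        rw [hN]
        exact sdiff_disjoint
      have hNl : Disjoint N (ls L b η n) := by
        rw [hN]
        exact (hdl.mono_right sdiff_subset).symm
      have har : 2 * a + a * r = a * (r + 1) + a := by ring
      by_cases hc1 : a + M ≤ r
      · -- few points: a cone
        obtain ⟨e, he, hec⟩ : ∃ e ⊆ N, e.card = r + 1 :=
          Finset.exists_subset_card_eq (by omega)
        have h3 : (pq L b η n * zz a u v m : Lx K α) ∈ Cy K (r + 1) (ls L b η n ∪ R) p := by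
          have h4 := Cy_mul hRl.symm hpc ((hZz K α a u v m).2.2.2.2 r a R hV le_rfl)
          rw [hs] at h4
          exact h4
        refine cone (e := e) (P' := ls L b η n ∪ R) (subset_univ _) (subset_univ _) ?_ hec h3
        rw [disjoint_union_right]
        exact ⟨hNl.mono_left he, hNR.mono_left he⟩
      · have h5 : 2 + B ≤ a := by omega
        by_cases hc2 : a + M = r + 1
        · have hNr : N.card = r := by omega
          have hV' := WStepX.VC_add hV hNr hNR
          have h6 : (zz a u v m : Lx K α) = zz a u v (Function.update m a N) :=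
            zz_congr (fun _ _ => rfl) (fun _ _ => rfl) fun i hi =>
              (Function.update_of_ne (by omega) _ _).symm
          rw [h6]
          refine WStepX.big hLemL hWAdm hr (Or.inr rfl) hW h ?_ ?_ hV' ?_ ?_
          · rw [← hS]
            exact hs
          · rw [disjoint_union_left]
            exact ⟨hRl, hNl⟩
          · rw [← hB]
            exact h5
          · rw [← hM]
            omega
        · refine WStepX.big hLemL hWAdm hr (Or.inl rfl) hW h ?_ hRl hV ?_ ?_
          · rw [← hS]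
            exact hs
          · rw [← hB]
            exact h5
          · rw [← hM]
            omega

end Pool.Agent.Work.MP_1233f5_ag.Y

end

section

/-! MP_1233f5_ag, block Y, part L: assembly. -/

set_option autoImplicit false

namespace Pool.Agent.Work.MP_1233f5_ag.Y

theorem g_Rep1 : S_Rep1 := prf_Rep1
theorem g_Rep2 : S_Rep2 := prf_Rep2 Pool.Agent.Work.MP_1233f5_ag.V.h_Rep
theorem g_F3 : S_F3 := prf_F3
theorem g_SAct : S_SAct := prf_SAct
theorem g_Plk : S_Plk := prf_Plk
theorem g_Div : S_Div := prf_Div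
theorem g_Tri : S_Tri := prf_Tri
theorem g_Det : S_Det := prf_Det
theorem g_Sz : S_Sz := prf_Sz
theorem g_Trans : S_Trans := prf_Trans
theorem g_LA : S_LA := prf_LA
theorem g_Kos : S_Kos := prf_Kos
theorem g_Exist : S_Exist := prf_Exist
theorem g_Brs : S_Brs := prf_Brs g_Rep1 g_SAct g_Div g_Det
theorem g_Wsp : S_Wsp := prf_Wsp g_Rep2 g_SAct g_Tri g_Det g_Exist
theorem g_Phi : S_Phi := prf_Phi g_SAct g_Det g_Trans
theorem g_Fex : S_Fex := prf_Fex g_Phi g_Exist
theorem g_Two : S_Two := prf_Two g_F3 g_Brs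
theorem g_Mrg : S_Mrg := prf_Mrg g_Rep2 g_SAct g_Plk g_Wsp g_Two g_Fex g_Kos
theorem g_MrgA : S_MrgA := prf_MrgA g_Mrg g_Wsp g_SAct
theorem g_Frz : S_Frz := prf_Frz g_Plk
theorem g_Fin : S_Fin := prf_Fin g_Rep2 g_Fex g_LA g_SAct
theorem g_LemL : S_LemL := prf_LemL g_Sz g_MrgA g_Frz g_Two g_Fin
theorem g_Csp : S_Csp := prf_Csp g_Rep2 g_SAct g_Tri g_Det
theorem g_Core : S_Core := prf_Core g_Rep2 g_Trans

end Pool.Agent.Work.MP_1233f5_ag.Y

end
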